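import Pool.Agent.Hhelper58.Cone

/-! The ambient absorbing homeomorphism. -/

set_option linter.unusedSectionVars false
set_option linter.deprecated false
set_option linter.unusedSimpArgs false

namespace NE3

open Set Topology Metric

/-! ### a one-variable piecewise linear map -/

/-- slope change map: affine of slope `1+4g` below `-g`, of slope `1/(1+4g)` above -/
noncomputable def lamR (H g z : ℝ) : ℝ :=
  min (-H + (z + H) * (1 + 4 * g)) (H - (H - z) / (1 + 4 * g))

noncomputable def lamI (H g z : ℝ) : ℝ :=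
  max (-H + (z + H) / (1 + 4 * g)) (H - (H - z) * (1 + 4 * g))

lemma lamR_le {H g z : ℝ} (hg : 0 ≤ g) (hH : g = 0 ∨ H = g + 1 / 2) (hz : z ≤ -g) :
    lamR H g z = -H + (z + H) * (1 + 4 * g) := by
  unfold lamR
  apply min_eq_left
  have hk : 0 < 1 + 4 * g := by linarith
  rw [le_sub_iff_add_le, ← le_sub_iff_add_le', div_le_iff₀ hk]
  rcases hH with rfl | rfl
  · linarith
  · nlinarith [mul_nonneg hg (mul_nonneg (show 0 ≤ -g - z by linarith) (show 0 ≤ 2 + 4 * g by linarith))]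

lemma lamR_ge {H g z : ℝ} (hg : 0 ≤ g) (hH : g = 0 ∨ H = g + 1 / 2) (hz : -g ≤ z) :
    lamR H g z = H - (H - z) / (1 + 4 * g) := by
  unfold lamR
  apply min_eq_right
  have hk : 0 < 1 + 4 * g := by linarith
  rw [sub_le_iff_le_add, ← sub_le_iff_le_add', le_div_iff₀ hk]
  rcases hH with rfl | rfl
  · linarith
  · nlinarith [mul_nonneg hg (mul_nonneg (show 0 ≤ z + g by linarith) (show 0 ≤ 2 + 4 * g by linarith))]

lemma lamI_le {H g z : ℝ} (hg : 0 ≤ g) (hH : g = 0 ∨ H = g + 1 / 2) (hz : z ≤ g) :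
    lamI H g z = -H + (z + H) / (1 + 4 * g) := by
  unfold lamI
  apply max_eq_left
  have hk : 0 < 1 + 4 * g := by linarith
  have : H - (H - z) * (1 + 4 * g) + H ≤ (z + H) / (1 + 4 * g) := by
    rw [le_div_iff₀ hk]
    rcases hH with rfl | rfl
    · linarith
    · nlinarith [mul_nonneg hg (mul_nonneg (show 0 ≤ g - z by linarith)
        (show 0 ≤ 2 + 4 * g by linarith))]
  linarith

lemma lamI_ge {H g z : ℝ} (hg : 0 ≤ g) (hH : g = 0 ∨ H = g + 1 / 2) (hz : g ≤ z) :
    lamI H g z = H - (H - z) * (1 + 4 * g) := by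
  unfold lamI
  apply max_eq_right
  have hk : 0 < 1 + 4 * g := by linarith
  rw [neg_add_le_iff_le_add, div_le_iff₀ hk]
  rcases hH with rfl | rfl
  · linarith
  · nlinarith [mul_nonneg hg (mul_nonneg (show 0 ≤ z - g by linarith) (show 0 ≤ 2 + 4 * g by linarith))]

lemma lamR_neg_g {H g : ℝ} (hg : 0 ≤ g) (hH : g = 0 ∨ H = g + 1 / 2) : lamR H g (-g) = g := by
  rw [lamR_le hg hH le_rfl]
  rcases hH with rfl | rfl <;> ring

/-- sign behaviour -/
lemma lamR_lt {H g z : ℝ} (hg : 0 ≤ g) (hH : g = 0 ∨ H = g + 1 / 2) (hz : z < -g) :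
    lamR H g z < g := by
  have h1 := lamR_neg_g hg hH
  rw [lamR_le hg hH le_rfl] at h1
  rw [lamR_le hg hH hz.le]
  have hk : 0 < 1 + 4 * g := by linarith
  nlinarith

lemma lamR_gt {H g z : ℝ} (hg : 0 ≤ g) (hH : g = 0 ∨ H = g + 1 / 2) (hz : -g < z) :
    g < lamR H g z := by
  have h1 := lamR_neg_g hg hH
  rw [lamR_ge hg hH le_rfl] at h1
  rw [lamR_ge hg hH hz.le]
  have hk : 0 < 1 + 4 * g := by linarith
  have : (H - z) / (1 + 4 * g) < (H - -g) / (1 + 4 * g) := by
    apply div_lt_div_of_pos_right _ hk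
    linarith
  linarith

lemma lamI_lamR {H g z : ℝ} (hg : 0 ≤ g) (hH : g = 0 ∨ H = g + 1 / 2) :
    lamI H g (lamR H g z) = z := by
  have hk : 0 < 1 + 4 * g := by linarith
  rcases le_total z (-g) with h | h
  · have h1 : lamR H g z ≤ g := by
      rcases eq_or_lt_of_le h with rfl | h
      · exact (lamR_neg_g hg hH).le
      · exact (lamR_lt hg hH h).le
    rw [lamI_le hg hH h1, lamR_le hg hH h]
    field_simp
    ring
  · have h1 : g ≤ lamR H g z := by
      rcases eq_or_lt_of_le h with rfl | h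
      · exact (lamR_neg_g hg hH).ge
      · exact (lamR_gt hg hH h).le
    rw [lamI_ge hg hH h1, lamR_ge hg hH h]
    field_simp
    ring

lemma lamR_lamI {H g z : ℝ} (hg : 0 ≤ g) (hH : g = 0 ∨ H = g + 1 / 2) :
    lamR H g (lamI H g z) = z := by
  have hk : 0 < 1 + 4 * g := by linarith
  have e1 : -H + (g + H) / (1 + 4 * g) = -g := by
    rcases hH with rfl | rfl
    · simp
    · field_simp; ring
  rcases le_total z g with h | h
  · have h1 : lamI H g z ≤ -g := by
      rw [lamI_le hg hH h, ← e1]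
      have : (z + H) / (1 + 4 * g) ≤ (g + H) / (1 + 4 * g) :=
        div_le_div_of_nonneg_right (by linarith) hk.le
      linarith
    rw [lamR_le hg hH h1, lamI_le hg hH h]
    field_simp
    ring
  · have h1 : -g ≤ lamI H g z := by
      rw [lamI_ge hg hH h]
      rcases hH with rfl | rfl
      · linarith
      · nlinarith
    rw [lamR_ge hg hH h1, lamI_ge hg hH h]
    field_simp
    ring

lemma lamR_self {H g : ℝ} (hg : 0 ≤ g) (hH : g = 0 ∨ H = g + 1 / 2) (h0 : 0 ≤ H) :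
    lamR H g H = H := by
  rw [lamR_ge hg hH (by linarith)]; simp

lemma lamR_neg_self {H g : ℝ} (hg : 0 ≤ g) (hH : g = 0 ∨ H = g + 1 / 2) (h0 : 0 ≤ H) :
    lamR H g (-H) = -H := by
  rw [lamR_le hg hH (by rcases hH with rfl | rfl <;> linarith)]; ring

lemma lamR_mono {H g z z' : ℝ} (hg : 0 ≤ g) (h : z ≤ z') :
    lamR H g z ≤ lamR H g z' := by
  unfold lamR
  have hk : 0 < 1 + 4 * g := by linarith
  apply min_le_min
  · nlinarith
  · have : (H - z') / (1 + 4 * g) ≤ (H - z) / (1 + 4 * g) :=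
        div_le_div_of_nonneg_right (by linarith) hk.le
    linarith

lemma lamI_mono {H g z z' : ℝ} (hg : 0 ≤ g) (h : z ≤ z') :
    lamI H g z ≤ lamI H g z' := by
  unfold lamI
  have hk : 0 < 1 + 4 * g := by linarith
  apply max_le_max
  · have : (z + H) / (1 + 4 * g) ≤ (z' + H) / (1 + 4 * g) :=
        div_le_div_of_nonneg_right (by linarith) hk.le
    linarith
  · nlinarith

/-! ### the map of the ball -/

variable {F : Type*} [NormedAddCommGroup F] [NormedSpace ℝ F]

/-- `F × ℝ` with the norm `‖x‖ + |z|`. -/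
abbrev Up (F : Type*) := WithLp 1 (F × ℝ)

lemma norm_up (p : Up F) : ‖p‖ = ‖p.fst‖ + |p.snd| := by
  rw [WithLp.prod_norm_eq_of_L1]; rfl

/-- the profile function -/
noncomputable def gg (f : F) : ℝ := max 0 (1 / 2 - ‖f‖)

lemma gg_nonneg (f : F) : 0 ≤ gg f := le_max_left _ _

lemma continuous_gg : Continuous (gg : F → ℝ) :=
  continuous_const.max (continuous_const.sub continuous_norm)

lemma gg_cases (f : F) : gg f = 0 ∧ 1 / 2 ≤ ‖f‖ ∨ gg f = 1 / 2 - ‖f‖ ∧ ‖f‖ ≤ 1 / 2 := by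
  unfold gg
  rcases le_total 0 (1 / 2 - ‖f‖) with h | h
  · right; exact ⟨max_eq_right h, by linarith⟩
  · left; exact ⟨max_eq_left h, by linarith⟩

lemma gg_rel (f : F) : gg f = 0 ∨ (1 - ‖f‖) = gg f + 1 / 2 := by
  rcases gg_cases f with h | h
  · exact Or.inl h.1
  · right; rw [h.1]; ring

/-- the homeomorphism of the ball, preserving vertical lines -/
noncomputable def vmap (p : Up F) : Up F :=
  WithLp.toLp 1 (p.fst, lamR (1 - ‖p.fst‖) (gg p.fst) p.snd)

noncomputable def vinv (p : Up F) : Up F :=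
  WithLp.toLp 1 (p.fst, lamI (1 - ‖p.fst‖) (gg p.fst) p.snd)

@[simp] lemma vmap_fst (p : Up F) : (vmap p).fst = p.fst := rfl
@[simp] lemma vmap_snd (p : Up F) : (vmap p).snd = lamR (1 - ‖p.fst‖) (gg p.fst) p.snd := rfl
@[simp] lemma vinv_fst (p : Up F) : (vinv p).fst = p.fst := rfl
@[simp] lemma vinv_snd (p : Up F) : (vinv p).snd = lamI (1 - ‖p.fst‖) (gg p.fst) p.snd := rfl

lemma up_ext {p q : Up F} (h1 : p.fst = q.fst) (h2 : p.snd = q.snd) : p = q := by
  apply (WithLp.equiv 1 (F × ℝ)).injective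
  exact Prod.ext h1 h2

lemma vinv_vmap (p : Up F) : vinv (vmap p) = p := by
  apply up_ext
  · rfl
  · rw [vinv_snd, vmap_fst, vmap_snd, lamI_lamR (gg_nonneg _) (gg_rel _)]

lemma vmap_vinv (p : Up F) : vmap (vinv p) = p := by
  apply up_ext
  · rfl
  · rw [vmap_snd, vinv_fst, vinv_snd, lamR_lamI (gg_nonneg _) (gg_rel _)]

lemma continuous_fst' : Continuous fun p : Up F => p.fst := WithLp.continuous_fst 1 F ℝ
lemma continuous_snd' : Continuous fun p : Up F => p.snd := WithLp.continuous_snd 1 F ℝ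

lemma continuous_vmap : Continuous (vmap : Up F → Up F) := by
  unfold vmap lamR
  refine (WithLp.prod_continuous_toLp 1 F ℝ).comp (continuous_fst'.prodMk ?_)
  have h1 : Continuous fun p : Up F => ‖p.fst‖ := continuous_fst'.norm
  have h2 : Continuous fun p : Up F => gg p.fst := continuous_gg.comp continuous_fst'
  have h3 := continuous_snd' (F := F)
  apply Continuous.min
  · fun_prop
  · refine Continuous.sub (by fun_prop) (Continuous.div (by fun_prop) (by fun_prop) ?_)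
    intro p; have := gg_nonneg p.fst; linarith

lemma vmap_mem_ball {p : Up F} (hp : ‖p‖ ≤ 1) : ‖vmap p‖ ≤ 1 := by
  rw [norm_up] at hp ⊢
  simp only [vmap_fst, vmap_snd]
  have hH : 0 ≤ 1 - ‖p.fst‖ := by have := abs_nonneg p.snd; linarith
  have h1 : |p.snd| ≤ 1 - ‖p.fst‖ := by linarith
  rw [abs_le] at h1
  have : |lamR (1 - ‖p.fst‖) (gg p.fst) p.snd| ≤ 1 - ‖p.fst‖ := by
    rw [abs_le]
    constructor
    · rw [← lamR_neg_self (gg_nonneg _) (gg_rel p.fst) hH]
      exact lamR_mono (gg_nonneg _) h1.1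
    · conv_rhs => rw [← lamR_self (gg_nonneg _) (gg_rel p.fst) hH]
      exact lamR_mono (gg_nonneg _) h1.2
  linarith

lemma vinv_mem_ball {p : Up F} (hp : ‖p‖ ≤ 1) : ‖vinv p‖ ≤ 1 := by
  rw [norm_up] at hp ⊢
  simp only [vinv_fst, vinv_snd]
  have hH : 0 ≤ 1 - ‖p.fst‖ := by have := abs_nonneg p.snd; linarith
  have h1 : |p.snd| ≤ 1 - ‖p.fst‖ := by linarith
  rw [abs_le] at h1
  have e1 : lamI (1 - ‖p.fst‖) (gg p.fst) (-(1 - ‖p.fst‖)) = -(1 - ‖p.fst‖) := by
    conv_lhs => rw [← lamR_neg_self (gg_nonneg _) (gg_rel p.fst) hH]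
    exact lamI_lamR (gg_nonneg _) (gg_rel _)
  have e2 : lamI (1 - ‖p.fst‖) (gg p.fst) (1 - ‖p.fst‖) = (1 - ‖p.fst‖) := by
    nth_rewrite 2 [← lamR_self (gg_nonneg _) (gg_rel p.fst) hH]
    exact lamI_lamR (gg_nonneg _) (gg_rel _)
  have : |lamI (1 - ‖p.fst‖) (gg p.fst) p.snd| ≤ 1 - ‖p.fst‖ := by
    rw [abs_le]
    constructor
    · have := lamI_mono (H := 1 - ‖p.fst‖) (gg_nonneg p.fst) h1.1
      rw [e1] at this; exact this
    · have := lamI_mono (H := 1 - ‖p.fst‖) (gg_nonneg p.fst) h1.2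
      rw [e2] at this; exact this
  linarith

lemma homeoOn_vmap : HomeoOn (vmap : Up F → Up F) (closedBall 0 1) (closedBall 0 1) := by
  refine ⟨continuous_vmap.continuousOn, ?_, ?_, ?_⟩
  · intro p hp
    rw [mem_closedBall_zero_iff] at hp ⊢; exact vmap_mem_ball hp
  · intro p _ q _ h
    rw [← vinv_vmap p, ← vinv_vmap q, h]
  · intro p hp
    rw [mem_closedBall_zero_iff] at hp
    exact ⟨vinv p, by rw [mem_closedBall_zero_iff]; exact vinv_mem_ball hp, vmap_vinv p⟩

lemma vmap_of_norm_eq_one {p : Up F} (hp : ‖p‖ = 1) : vmap p = p := by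
  have hp' := hp
  rw [norm_up] at hp
  apply up_ext
  · rfl
  · rw [vmap_snd]
    have hH : 0 ≤ 1 - ‖p.fst‖ := by have := abs_nonneg p.snd; linarith
    rcases abs_cases p.snd with ⟨h, _⟩ | ⟨h, _⟩
    · have : p.snd = 1 - ‖p.fst‖ := by linarith
      rw [this]; exact lamR_self (gg_nonneg _) (gg_rel _) hH
    · have : p.snd = -(1 - ‖p.fst‖) := by linarith
      rw [this]; exact lamR_neg_self (gg_nonneg _) (gg_rel _) hH

lemma norm_vmap_eq_one {p : Up F} : ‖vmap p‖ = 1 ↔ ‖p‖ = 1 := by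
  constructor
  · intro h
    have h1 : vmap (vmap p) = vmap p := vmap_of_norm_eq_one h
    have h2 : vmap p = p := by
      have := congrArg vinv h1
      rwa [vinv_vmap, vinv_vmap] at this
    rw [← h2]; exact h
  · intro h; rw [vmap_of_norm_eq_one h]; exact h

end NE3
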