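import Pool.Agent.Hhelper58.Absorb

/-! The ambient homeomorphism of the realisation. -/

set_option linter.unusedSectionVars false
set_option linter.deprecated false
set_option linter.unusedSimpArgs false

namespace NE3

open Set Topology Metric

lemma sign_real {s a b z ρ : ℝ} (hs : 0 < s) (hs1 : s ≤ 1) (ha : 0 ≤ a) (hb : 0 ≤ b)
    (hm : 0 < max a b) (hρ : ρ = s * max a b / (1 - s + s * max a b))
    (hz1 : 0 < z ↔ b < a) (hz2 : z < 0 ↔ a < b) :
    (0 < ρ * z + max 0 (1 / 2 - ρ * (1 - |z|)) ↔ s * b < max (1 - s) (s * a)) ∧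
    (ρ * z + max 0 (1 / 2 - ρ * (1 - |z|)) < 0 ↔ max (1 - s) (s * a) < s * b) ∧
    (0 < ρ * z - max 0 (1 / 2 - ρ * (1 - |z|)) ↔ max (1 - s) (s * b) < s * a) ∧
    (ρ * z - max 0 (1 / 2 - ρ * (1 - |z|)) < 0 ↔ s * a < max (1 - s) (s * b)) := by
  have hden : 0 < 1 - s + s * max a b := by
    have := mul_pos hs hm
    linarith
  have h1 : ρ < 1 / 2 ↔ s * max a b < 1 - s := by
    rw [hρ, div_lt_iff₀ hden]
    constructor <;> intro h <;> linarith
  have h2 : 1 / 2 < ρ ↔ 1 - s < s * max a b := by
    rw [hρ, lt_div_iff₀ hden]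
    constructor <;> intro h <;> linarith
  have h0 : 0 < ρ := by rw [hρ]; exact div_pos (mul_pos hs hm) hden
  clear hρ hden
  rcases lt_trichotomy z 0 with hz | hz | hz
  · have hab := hz2.1 hz
    rw [max_eq_right hab.le] at h1 h2
    have hsab : s * a < s * b := mul_lt_mul_of_pos_left hab hs
    have hρz : ρ * z < 0 := mul_neg_of_pos_of_neg h0 hz
    rw [abs_of_neg hz]
    have e : ρ * (1 - -z) = ρ + ρ * z := by ring
    rw [e]
    refine ⟨?_, ?_, ?_, ?_⟩
    · rw [lt_max_iff]
      constructor
      · intro h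
        left
        rw [← h1]
        by_contra hc
        rcases le_total 0 (1 / 2 - (ρ + ρ * z)) with h' | h'
        · rw [max_eq_right h'] at h; linarith
        · rw [max_eq_left h'] at h; linarith
      · rintro (h | h)
        · rw [← h1] at h
          have := le_max_right 0 (1 / 2 - (ρ + ρ * z))
          linarith
        · linarith
    · rw [max_lt_iff]
      constructor
      · intro h
        refine ⟨?_, hsab⟩
        rw [← h2]
        have := le_max_right 0 (1 / 2 - (ρ + ρ * z))
        linarith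
      · rintro ⟨h, _⟩
        rw [← h2] at h
        rcases le_total 0 (1 / 2 - (ρ + ρ * z)) with h' | h'
        · rw [max_eq_right h']; linarith
        · rw [max_eq_left h']; linarith
    · constructor
      · intro h
        have := le_max_left 0 (1 / 2 - (ρ + ρ * z))
        linarith
      · intro h
        have := (max_lt_iff.1 h).2
        linarith
    · constructor
      · intro _
        exact lt_max_of_lt_right hsab
      · intro _
        have := le_max_left 0 (1 / 2 - (ρ + ρ * z))
        linarith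
  · have hab : a = b := by
      apply le_antisymm
      · by_contra h; have := hz1.2 (not_le.1 h); linarith
      · by_contra h; have := hz2.2 (not_le.1 h); linarith
    subst hab
    rw [max_self] at h1 h2
    rw [hz]
    simp only [mul_zero, abs_zero, sub_zero, mul_one, zero_add, zero_sub]
    refine ⟨?_, ?_, ?_, ?_⟩
    · rw [lt_max_iff, lt_max_iff, ← h1]
      constructor
      · rintro (h | h)
        · exact absurd h (lt_irrefl _)
        · left; linarith
      · rintro (h | h)
        · right; linarith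
        · exact absurd h (lt_irrefl _)
    · constructor
      · intro h
        have := le_max_left 0 (1 / 2 - ρ)
        linarith
      · intro h
        exact absurd (max_lt_iff.1 h).2 (lt_irrefl _)
    · constructor
      · intro h
        have := le_max_left 0 (1 / 2 - ρ)
        linarith
      · intro h
        exact absurd (max_lt_iff.1 h).2 (lt_irrefl _)
    · rw [neg_lt_zero, lt_max_iff, lt_max_iff, ← h1]
      constructor
      · rintro (h | h)
        · exact absurd h (lt_irrefl _)
        · left; linarith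
      · rintro (h | h)
        · right; linarith
        · exact absurd h (lt_irrefl _)
  · have hab := hz1.1 hz
    rw [max_eq_left hab.le] at h1 h2
    have hsab : s * b < s * a := mul_lt_mul_of_pos_left hab hs
    have hρz : 0 < ρ * z := mul_pos h0 hz
    rw [abs_of_pos hz]
    have e : ρ * (1 - z) = ρ - ρ * z := by ring
    rw [e]
    refine ⟨?_, ?_, ?_, ?_⟩
    · constructor
      · intro _
        exact lt_max_of_lt_right hsab
      · intro _
        have := le_max_left 0 (1 / 2 - (ρ - ρ * z))
        linarith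
    · constructor
      · intro h
        have := le_max_left 0 (1 / 2 - (ρ - ρ * z))
        linarith
      · intro h
        have := (max_lt_iff.1 h).2
        linarith
    · rw [max_lt_iff]
      constructor
      · intro h
        refine ⟨?_, hsab⟩
        rw [← h2]
        have := le_max_right 0 (1 / 2 - (ρ - ρ * z))
        linarith
      · rintro ⟨h, _⟩
        rw [← h2] at h
        rcases le_total 0 (1 / 2 - (ρ - ρ * z)) with h' | h'
        · rw [max_eq_right h']; linarith
        · rw [max_eq_left h']; linarith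
    · rw [lt_max_iff]
      constructor
      · intro h
        left
        rw [← h1]
        by_contra hc
        rcases le_total 0 (1 / 2 - (ρ - ρ * z)) with h' | h'
        · rw [max_eq_right h'] at h; linarith
        · rw [max_eq_left h'] at h; linarith
      · rintro (h | h)
        · rw [← h1] at h
          have := le_max_right 0 (1 / 2 - (ρ - ρ * z))
          linarith
        · linarith

variable {V : Type*} [DecidableEq V] [Fintype V]
variable {K S : PreAbstractSimplicialComplex V}
variable {F : Type*} [NormedAddCommGroup F] [NormedSpace ℝ F]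

/-- A homeomorphism from the realisation to the unit sphere of `F × ℝ` whose last coordinate has
the same sign as `max_W - max_{Wᶜ}`. -/
structure StdMap (Ψ : (V → ℝ) → Up F) (S : PreAbstractSimplicialComplex V) (W : Set V) : Prop where
  homeo : HomeoOn Ψ (geo S) (sphere 0 1)
  pos : ∀ x ∈ geo S, (0 < (Ψ x).snd ↔ mx Wᶜ x < mx W x)
  neg : ∀ x ∈ geo S, ((Ψ x).snd < 0 ↔ mx W x < mx Wᶜ x)

lemma mx_compl_eq {W : Set V} {v : V} (hv : v ∉ W) {y : V → ℝ} (hy : y v = 0) :
    mx Wᶜ y = mx (insert v W)ᶜ y := by
  have : Wᶜ = insert v ((insert v W)ᶜ) := by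
    ext u
    simp only [Set.mem_compl_iff, Set.mem_insert_iff]
    by_cases h : u = v
    · subst h; simp [hv]
    · simp [h]
  rw [this, mx_insert_of_zero hy]

lemma mx_compl_insert {W : Set V} {v : V} (hv : v ∉ W) {x : V → ℝ} (hx : 0 ≤ x v) :
    mx Wᶜ x = max (x v) (mx (insert v W)ᶜ x) := by
  have : Wᶜ = insert v ((insert v W)ᶜ) := by
    ext u
    simp only [Set.mem_compl_iff, Set.mem_insert_iff]
    by_cases h : u = v
    · subst h; simp [hv]
    · simp [h]
  rw [this, mx_insert hx]

lemma mx_compl_singleton {W : Set V} {v : V} (hv : v ∉ W) {x : V → ℝ} :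
    mx {v}ᶜ x = max (mx W x) (mx (insert v W)ᶜ x) := by
  apply le_antisymm
  · apply mx_le (le_max_of_le_left (mx_nonneg _ _))
    intro u hu
    by_cases h : u ∈ W
    · refine le_max_of_le_left ?_
      have := norm_le_pi_norm (W.indicator x) u
      rw [Set.indicator_of_mem h] at this
      exact this
    · refine le_max_of_le_right ?_
      have := norm_le_pi_norm (((insert v W)ᶜ).indicator x) u
      rw [Set.indicator_of_mem (by
        simp only [Set.mem_compl_iff, Set.mem_insert_iff, not_or]
        exact ⟨by simpa using hu, h⟩)] at this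
      exact this
  · apply max_le
    · apply mx_le (mx_nonneg _ _)
      intro u hu
      have := norm_le_pi_norm (({v}ᶜ : Set V).indicator x) u
      rw [Set.indicator_of_mem (by
        simp only [Set.mem_compl_iff, Set.mem_singleton_iff]; rintro rfl; exact hv hu)] at this
      exact this
    · apply mx_le (mx_nonneg _ _)
      intro u hu
      have := norm_le_pi_norm (({v}ᶜ : Set V).indicator x) u
      rw [Set.indicator_of_mem (by
        simp only [Set.mem_compl_iff, Set.mem_insert_iff, not_or, Set.mem_singleton_iff] at hu ⊢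
        exact hu.1)] at this
      exact this

lemma sign_star {v : V} {W : Set V} (hv : v ∉ W) {Ψ : (V → ℝ) → Up F}
    (h : StdMap Ψ (link S v) W) {x : V → ℝ} (hx : x ∈ star' S v) :
    (0 < (cmap v Ψ x).snd + gg (cmap v Ψ x).fst ↔ mx (insert v W)ᶜ x < mx (insert v W) x) ∧
    ((cmap v Ψ x).snd + gg (cmap v Ψ x).fst < 0 ↔ mx (insert v W) x < mx (insert v W)ᶜ x) ∧
    (0 < (cmap v Ψ x).snd - gg (cmap v Ψ x).fst ↔ mx Wᶜ x < mx W x) ∧
    ((cmap v Ψ x).snd - gg (cmap v Ψ x).fst < 0 ↔ mx W x < mx Wᶜ x) := by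
  by_cases h1 : x v < 1
  · have hy := prj_mem hx h1
    set y := prj v x with hydef
    have hyv : y v = 0 := link_apply_self hy
    set s := 1 - x v with hs
    have hs0 : 0 < s := by linarith
    have hs1 : s ≤ 1 := by have := hx.1 v; linarith
    have ex : x = jn v s y := (jn_prj h1).symm
    have hnorm : ‖(Ψ y).fst‖ + |(Ψ y).snd| = 1 := by
      rw [← norm_up, ← mem_sphere_zero_iff_norm]; exact h.homeo.mapsTo hy
    have hmax : mx {v}ᶜ y = max (mx W y) (mx Wᶜ y) := by
      rw [mx_compl_singleton hv, mx_compl_eq hv hyv]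
    have key := sign_real (z := (Ψ y).snd) (ρ := s * max (mx W y) (mx Wᶜ y) /
      (1 - s + s * max (mx W y) (mx Wᶜ y))) hs0 hs1 (mx_nonneg W y) (mx_nonneg Wᶜ y)
      (by rw [← hmax]; exact mx_link_pos hy) rfl (h.pos y hy) (h.neg y hy)
    set ρ := s * max (mx W y) (mx Wᶜ y) / (1 - s + s * max (mx W y) (mx Wᶜ y)) with hρ
    have hρ0 : 0 ≤ ρ := by
      rw [hρ]
      apply div_nonneg
      · exact mul_nonneg hs0.le (le_max_of_le_left (mx_nonneg _ _))
      · have := mul_nonneg hs0.le (le_max_of_le_left (mx_nonneg W y) : 0 ≤ max (mx W y) (mx Wᶜ y))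
        linarith
    have ec : cmap v Ψ x = ρ • Ψ y := by
      rw [ex, cmap_jn hy ⟨hs0.le, hs1⟩, hmax]
    have e1 : (cmap v Ψ x).snd = ρ * (Ψ y).snd := by rw [ec]; rfl
    have e2 : gg (cmap v Ψ x).fst = max 0 (1 / 2 - ρ * (1 - |(Ψ y).snd|)) := by
      unfold gg
      have : ‖(cmap v Ψ x).fst‖ = ρ * (1 - |(Ψ y).snd|) := by
        rw [ec]
        change ‖ρ • (Ψ y).fst‖ = _
        rw [norm_smul, Real.norm_of_nonneg hρ0]
        congr 1; linarith
      rw [this]
    have e3 : mx W x = s * mx W y := by rw [ex]; exact mx_jn_notMem hv hs0.le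
    have e4 : mx (insert v W)ᶜ x = s * mx Wᶜ y := by
      rw [mx_compl_eq hv hyv, ex]; exact mx_jn_notMem (by simp) hs0.le
    have e5 : mx (insert v W) x = max (1 - s) (s * mx W y) := by
      rw [mx_insert (hx.1 v), e3]; congr 1; rw [hs]; ring
    have e6 : mx Wᶜ x = max (1 - s) (s * mx Wᶜ y) := by
      rw [mx_compl_insert hv (hx.1 v), e4]; congr 1; rw [hs]; ring
    rw [e1, e2, e3, e4, e5, e6]
    exact key
  · have hxe := geo_lt_one_or (star'_subset hx) h1
    have e0 : cmap v Ψ x = 0 := by simp only [cmap]; rw [if_neg h1]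
    have e1 : (cmap v Ψ x).snd = 0 := by rw [e0]; rfl
    have e2 : gg (cmap v Ψ x).fst = 1 / 2 := by
      rw [e0]
      change gg (0 : F) = 1 / 2
      unfold gg; rw [norm_zero]; norm_num
    have hxv : x v = 1 := by rw [hxe]; simp
    have hz := mx_compl_eq_zero (star'_subset hx) h1
    rw [mx_compl_singleton hv] at hz
    have hW : mx W x = 0 := le_antisymm (hz ▸ le_max_left _ _) (mx_nonneg _ _)
    have hW' : mx (insert v W)ᶜ x = 0 := le_antisymm (hz ▸ le_max_right _ _) (mx_nonneg _ _)
    have e5 : mx (insert v W) x = 1 := by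
      rw [mx_insert (hx.1 v), hxv, hW]; norm_num
    have e6 : mx Wᶜ x = 1 := by
      rw [mx_compl_insert hv (hx.1 v), hW', hxv]; norm_num
    rw [e1, e2, hW, hW', e5, e6]
    norm_num

lemma vmap_sign (p : Up F) :
    (0 < (vmap p).snd - gg (vmap p).fst ↔ 0 < p.snd + gg p.fst) ∧
    ((vmap p).snd - gg (vmap p).fst < 0 ↔ p.snd + gg p.fst < 0) := by
  simp only [vmap_snd, vmap_fst]
  have hg := gg_nonneg p.fst
  have hr := gg_rel p.fst
  rcases lt_trichotomy p.snd (-gg p.fst) with h | h | h
  · have h1 := lamR_lt hg hr h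
    exact ⟨⟨fun h2 => by linarith, fun h2 => by linarith⟩,
      ⟨fun h2 => by linarith, fun h2 => by linarith⟩⟩
  · have h1 := lamR_neg_g hg hr
    rw [h, h1]
    exact ⟨⟨fun h2 => by linarith, fun h2 => by linarith⟩,
      ⟨fun h2 => by linarith, fun h2 => by linarith⟩⟩
  · have h1 := lamR_gt hg hr h
    exact ⟨⟨fun h2 => by linarith, fun h2 => by linarith⟩,
      ⟨fun h2 => by linarith, fun h2 => by linarith⟩⟩

/-- The ambient homeomorphism attached to a vertex `v` whose link is a standard sphere. -/
theorem exists_ambient {v : V} (hvS : {v} ∈ S) {W : Set V} (hv : v ∉ W) {Ψ : (V → ℝ) → Up F}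
    (h : StdMap Ψ (link S v) W) :
    ∃ φ : (V → ℝ) → (V → ℝ), HomeoOn φ (geo S) (geo S) ∧
      (∀ x ∈ geo S, x v = 0 → φ x = x) ∧
      (∀ x ∈ star' S v, φ x ∈ star' S v ∧ cmap v Ψ (φ x) = vmap (cmap v Ψ x)) ∧
      (∀ x ∈ geo S, (mx (insert v W)ᶜ x < mx (insert v W) x ↔ mx Wᶜ (φ x) < mx W (φ x)) ∧
        (mx (insert v W) x < mx (insert v W)ᶜ x ↔ mx W (φ x) < mx Wᶜ (φ x))) := by
  classical
  have hc := homeoOn_cmap hvS h.homeo
  obtain ⟨ci, hci, hleft, hright⟩ := hc.exists_inv isCompact_star'
  set φ : (V → ℝ) → (V → ℝ) := fun x => if x ∈ star' S v then ci (vmap (cmap v Ψ x)) else x with hφ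
  have hA : HomeoOn φ (star' S v) (star' S v) := by
    have h1 : HomeoOn (ci ∘ (vmap ∘ cmap v Ψ)) (star' S v) (star' S v) :=
      hci.comp (homeoOn_vmap.comp hc)
    apply h1.congr
    intro x hx
    simp only [hφ, if_pos hx, Function.comp]
  have hid : ∀ x ∈ geo S, x v = 0 → φ x = x := by
    intro x hx hx0
    simp only [hφ]
    split_ifs with hxs
    · have h1 : ‖cmap v Ψ x‖ = 1 := (norm_cmap_eq_one h.homeo hxs).2 hx0
      rw [vmap_of_norm_eq_one h1, hleft x hxs]
    · rfl
  have hB : HomeoOn φ (geo S ∩ {x | x v = 0}) (geo S ∩ {x | x v = 0}) := by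
    apply (HomeoOn.id (geo S ∩ {x : V → ℝ | x v = 0})).congr
    intro x hx
    exact (hid x hx.1 hx.2).symm
  have hunion : star' S v ∪ (geo S ∩ {x | x v = 0}) = geo S := by
    apply Set.Subset.antisymm
    · exact Set.union_subset star'_subset Set.inter_subset_left
    · intro x hx
      by_cases h0 : x v = 0
      · exact Or.inr ⟨hx, h0⟩
      · exact Or.inl (mem_star'_of_pos hx h0)
  have hstar : ∀ x ∈ star' S v, φ x ∈ star' S v ∧ cmap v Ψ (φ x) = vmap (cmap v Ψ x) := by
    intro x hx
    refine ⟨hA.mapsTo hx, ?_⟩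
    simp only [hφ, if_pos hx]
    apply hright
    rw [mem_closedBall_zero_iff]
    apply vmap_mem_ball
    rw [← mem_closedBall_zero_iff]
    exact hc.mapsTo hx
  refine ⟨φ, ?_, hid, hstar, ?_⟩
  · rw [← hunion]
    apply hA.union hB isCompact_star'.isClosed
      (isClosed_geo.inter (isClosed_eq (continuous_apply v) continuous_const))
    intro x hx y hy hxy
    right
    have h1 : φ y = y := hid y hy.1 hy.2
    rw [← h1, ← hxy]
    exact hA.mapsTo hx
  · intro x hx
    by_cases hxs : x ∈ star' S v
    · obtain ⟨h1, h2⟩ := hstar x hxs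
      obtain ⟨a1, a2, _, _⟩ := sign_star hv h hxs
      obtain ⟨_, _, b3, b4⟩ := sign_star hv h h1
      obtain ⟨c1, c2⟩ := vmap_sign (cmap v Ψ x)
      rw [← a1, ← b3, ← a2, ← b4, h2]
      exact ⟨c1.symm, c2.symm⟩
    · have hx0 : x v = 0 := by
        by_contra h0
        exact hxs (mem_star'_of_pos hx h0)
      rw [hid x hx hx0, mx_insert_of_zero hx0, mx_compl_eq hv hx0]
      exact ⟨Iff.rfl, Iff.rfl⟩

end NE3
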