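import Pool.Agent.Hhelper58.Std

/-! The zero-dimensional base case. -/

set_option linter.unusedSectionVars false
set_option linter.deprecated false
set_option linter.unusedSimpArgs false

namespace NE3

open Set Topology Metric

variable {V : Type*} [DecidableEq V] [Fintype V]
variable {K S : PreAbstractSimplicialComplex V}
variable {F : Type*} [NormedAddCommGroup F] [NormedSpace ℝ F]

lemma eq_single_of_supp {x : V → ℝ} {a : V} (hx : ∑ v, x v = 1) (h : supp x = {a}) :
    x = Pi.single a 1 := by
  have h0 : ∀ u, u ≠ a → x u = 0 := by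
    intro u hu
    by_contra hc
    have := mem_supp.2 hc
    rw [h] at this
    exact hu (by simpa using this)
  ext u
  by_cases hu : u = a
  · subst hu
    rw [sum_split u] at hx
    have : ∑ w ∈ Finset.univ.erase u, x w = 0 :=
      Finset.sum_eq_zero fun w hw => h0 w (Finset.ne_of_mem_erase hw)
    rw [this] at hx
    simp; linarith
  · rw [Pi.single_eq_of_ne hu, h0 u hu]

lemma mx_single_mem {W : Set V} {a : V} (ha : a ∈ W) : mx W (Pi.single a (1:ℝ)) = 1 := by
  apply le_antisymm
  · apply mx_le zero_le_one
    intro u _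
    by_cases h : u = a
    · subst h; simp
    · rw [Pi.single_eq_of_ne h]; simp
  · have := le_mx (x := Pi.single a (1:ℝ)) ha
    simpa using this

lemma mx_single_notMem {W : Set V} {a : V} (ha : a ∉ W) : mx W (Pi.single a (1:ℝ)) = 0 := by
  apply le_antisymm _ (mx_nonneg _ _)
  apply mx_le le_rfl
  intro u hu
  rw [Pi.single_eq_of_ne (by rintro rfl; exact ha hu)]; simp

lemma not_nonEvasive_two {a b : V} (hab : a ≠ b) (h : ∀ s, s ∈ K ↔ s = {a} ∨ s = {b}) :
    ¬ NonEvasive K := by
  intro hne
  cases hne with
  | point _ v hv =>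
    have h1 := (hv {a}).1 ((h _).2 (Or.inl rfl))
    have h2 := (hv {b}).1 ((h _).2 (Or.inr rfl))
    rw [← h2] at h1
    exact hab (by simpa using h1)
  | step _ v hl hd =>
    obtain ⟨u, hu⟩ := hl.exists_vertex
    have h1 := (h _).1 hu.2.2
    have hne : v ≠ u := by
      intro h; apply hu.2.1; simp [h]
    have h2 : (insert v ({u} : Finset V)).card = 2 := Finset.card_pair hne
    rcases h1 with h1 | h1 <;> rw [h1] at h2 <;> simp at h2

lemma std_two [Subsingleton F] {a b : V} (hab : a ≠ b)
    (h : ∀ s, s ∈ S ↔ s = {a} ∨ s = {b}) {W : Set V} (ha : a ∈ W) (hb : b ∉ W) : Std F S W := by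
  have hgeo : ∀ x, x ∈ geo S → x = Pi.single a 1 ∨ x = Pi.single b 1 := by
    intro x hx
    rcases (h _).1 hx.2.2 with h1 | h1
    · left; exact eq_single_of_supp hx.2.1 h1
    · right; exact eq_single_of_supp hx.2.1 h1
  have hga : (Pi.single a 1 : V → ℝ) ∈ geo S := single_mem_geo ((h _).2 (Or.inl rfl))
  have hgb : (Pi.single b 1 : V → ℝ) ∈ geo S := single_mem_geo ((h _).2 (Or.inr rfl))
  have hba : b ≠ a := hab.symm
  refine ⟨fun x => WithLp.toLp 1 ((0 : F), x a - x b), ⟨?_, ?_, ?_, ?_⟩, ?_, ?_⟩
  · apply Continuous.continuousOn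
    exact (WithLp.prod_continuous_toLp 1 F ℝ).comp
      (continuous_const.prodMk ((continuous_apply a).sub (continuous_apply b)))
  · intro x hx
    rw [mem_sphere_zero_iff_norm, norm_up]
    change ‖(0:F)‖ + |x a - x b| = 1
    rcases hgeo x hx with rfl | rfl
    · rw [Pi.single_eq_of_ne hba]; simp
    · rw [Pi.single_eq_of_ne hab]; simp
  · intro x hx y hy hxy
    have h1 : x a - x b = y a - y b := congrArg (fun p : Up F => p.snd) hxy
    rcases hgeo x hx with rfl | rfl <;> rcases hgeo y hy with rfl | rfl
    · rfl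
    · exfalso
      rw [Pi.single_eq_of_ne hba, Pi.single_eq_of_ne hab] at h1; norm_num at h1
    · exfalso
      rw [Pi.single_eq_of_ne hba, Pi.single_eq_of_ne hab] at h1; norm_num at h1
    · rfl
  · intro p hp
    rw [mem_sphere_zero_iff_norm, norm_up] at hp
    have h0 : p.fst = 0 := Subsingleton.elim _ _
    rw [h0, norm_zero, zero_add] at hp
    rcases abs_cases p.snd with ⟨h1, _⟩ | ⟨h1, _⟩
    · refine ⟨Pi.single a 1, hga, ?_⟩
      apply up_ext
      · exact h0.symm
      · change (Pi.single a 1 : V → ℝ) a - (Pi.single a 1 : V → ℝ) b = p.snd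
        rw [Pi.single_eq_of_ne hba]; simp; linarith
    · refine ⟨Pi.single b 1, hgb, ?_⟩
      apply up_ext
      · exact h0.symm
      · change (Pi.single b 1 : V → ℝ) a - (Pi.single b 1 : V → ℝ) b = p.snd
        rw [Pi.single_eq_of_ne hab]; simp; linarith
  · intro x hx
    change 0 < x a - x b ↔ _
    rcases hgeo x hx with rfl | rfl
    · rw [Pi.single_eq_of_ne hba, mx_single_mem ha, mx_single_notMem (by simpa using ha)]; simp
    · rw [Pi.single_eq_of_ne hab, mx_single_notMem hb, mx_single_mem (by simpa using hb)]; simp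
  · intro x hx
    change x a - x b < 0 ↔ _
    rcases hgeo x hx with rfl | rfl
    · rw [Pi.single_eq_of_ne hba, mx_single_mem ha, mx_single_notMem (by simpa using ha)]; simp
    · rw [Pi.single_eq_of_ne hab, mx_single_notMem hb, mx_single_mem (by simpa using hb)]; simp

theorem good_zero [Subsingleton F] : Good V F 0 := by
  rintro S W ⟨a, b, hab, h⟩ hW
  by_cases ha : a ∈ W
  · by_cases hb : b ∈ W
    · exfalso
      apply not_nonEvasive_two hab _ hW
      intro s
      rw [mem_res, h]
      constructor
      · exact fun h => h.1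
      · rintro (rfl | rfl)
        · exact ⟨Or.inl rfl, by simpa using ha⟩
        · exact ⟨Or.inr rfl, by simpa using hb⟩
    · exact std_two hab h ha hb
  · by_cases hb : b ∈ W
    · exact std_two hab.symm (fun s => (h s).trans or_comm) hb ha
    · exfalso
      obtain ⟨v, hv⟩ := hW.exists_vertex
      have h1 := (h _).1 hv.1
      have h2 : v ∈ W := by simpa using hv.2
      rcases h1 with h1 | h1
      · have : v = a := by simpa using h1
        exact ha (this ▸ h2)
      · have : v = b := by simpa using h1
        exact hb (this ▸ h2)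

/-- zero-dimensional model space -/
abbrev E0 := EuclideanSpace ℝ (Fin 0)
abbrev E1 := Up E0
abbrev E2 := Up E1
abbrev E3 := Up E2

theorem good_two : Good V E2 2 := good_step (good_step good_zero)

end NE3
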