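import Pool.Agent.Hhelper58.Links

/-! Boundary complex, cone over the boundary, and the main theorem with a spare vertex. -/

set_option linter.unusedSectionVars false
set_option linter.deprecated false
set_option linter.unusedSimpArgs false

namespace NE3

open Set Topology Metric

variable {V : Type*} [DecidableEq V] [Fintype V]
variable {K S L B : PreAbstractSimplicialComplex V}

lemma simp'_mono {s t : Finset V} (h : t ⊆ s) : simp' t ⊆ simp' s := fun _ hx =>
  ⟨hx.1, hx.2.1, fun v hv => hx.2.2 v fun h' => hv (h h')⟩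

/-- the boundary complex of a triangulated ball -/
def bd (K : PreAbstractSimplicialComplex V) (h : (V → ℝ) → Up ℂ) :
    PreAbstractSimplicialComplex V where
  faces := {s | s ∈ K ∧ ∀ x ∈ simp' s, ‖h x‖ = 1}
  isRelLowerSet_faces := by
    rintro s ⟨hs1, hs2⟩
    refine ⟨(K.isRelLowerSet_faces hs1).1, ?_⟩
    intro t hts ht
    exact ⟨(K.isRelLowerSet_faces hs1).2 hts ht, fun x hx => hs2 x (simp'_mono hts hx)⟩

lemma mem_bd {h : (V → ℝ) → Up ℂ} {s : Finset V} :
    s ∈ bd K h ↔ s ∈ K ∧ ∀ x ∈ simp' s, ‖h x‖ = 1 := Iff.rfl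

lemma mem_simp'_supp {x : V → ℝ} (hx : x ∈ geo K) : x ∈ simp' (supp x) :=
  ⟨hx.1, hx.2.1, fun v hv => by by_contra h; exact hv (mem_supp.2 h)⟩

theorem mem_bd_iff {h : (V → ℝ) → Up ℂ} (hh : HomeoOn h (geo K) (closedBall 0 1)) {x : V → ℝ}
    (hx : x ∈ geo K) : supp x ∈ bd K h ↔ ‖h x‖ = 1 := by
  constructor
  · intro hs
    exact hs.2 x (mem_simp'_supp hx)
  · intro hx1
    refine ⟨hx.2.2, ?_⟩
    intro y hy
    by_contra hy1
    have hyK : y ∈ geo K := by
      refine ⟨hy.1, hy.2.1, mem_of_subset hx.2.2 ?_ (supp_nonempty hy.2.1)⟩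
      intro v hv
      by_contra hc
      exact mem_supp.1 hv (hy.2.2 v hc)
    have hy2 : ‖h y‖ < 1 :=
      lt_of_le_of_ne (mem_closedBall_zero_iff.1 (hh.mapsTo hyK)) hy1
    -- the segment
    set p : ℝ → V → ℝ := fun t => (1 - t) • y + t • x with hp
    have hps : ∀ t ∈ Ioc (0:ℝ) 1, supp (p t) = supp x := by
      intro t ht
      ext v
      rw [mem_supp, mem_supp]
      change (1 - t) * y v + t * x v ≠ 0 ↔ _
      have h1 : 0 ≤ (1 - t) * y v := mul_nonneg (by linarith [ht.2]) (hy.1 v)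
      constructor
      · intro h2 h3
        apply h2
        rw [h3, hy.2.2 v (fun h4 => mem_supp.1 h4 h3)]
        ring
      · intro h2
        have h3 : 0 < x v := lt_of_le_of_ne (hx.1 v) (Ne.symm h2)
        have h4 : 0 < t * x v := mul_pos ht.1 h3
        linarith
    have hpK : ∀ t ∈ Icc (0:ℝ) 1, p t ∈ geo K := by
      intro t ht
      rcases ht.1.eq_or_lt with h0 | h0
      · rw [← h0]
        have : p 0 = y := by
          rw [hp]; dsimp only; rw [sub_zero, one_smul, zero_smul, add_zero]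
        rw [this]; exact hyK
      · refine ⟨?_, ?_, ?_⟩
        · intro v
          change 0 ≤ (1 - t) * y v + t * x v
          have h1 : 0 ≤ (1 - t) * y v := mul_nonneg (by linarith [ht.2]) (hy.1 v)
          have h2 : 0 ≤ t * x v := mul_nonneg ht.1 (hx.1 v)
          linarith
        · change ∑ v, ((1 - t) * y v + t * x v) = 1
          rw [Finset.sum_add_distrib, ← Finset.mul_sum, ← Finset.mul_sum, hy.2.1, hx.2.1]
          ring
        · rw [hps t ⟨h0, ht.2⟩]; exact hx.2.2
    have hpc : Continuous p := by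
      rw [hp]; fun_prop
    have hev : ∀ᶠ t in 𝓝[Icc 0 1] (0:ℝ), ‖h (p t)‖ < 1 := by
      have h1 : ContinuousOn (fun t => ‖h (p t)‖) (Icc 0 1) :=
        (hh.cont.comp hpc.continuousOn hpK).norm
      have h2 := h1 0 ⟨le_rfl, zero_le_one⟩
      apply h2.eventually_lt_const
      have : p 0 = y := by
        rw [hp]; dsimp only; rw [sub_zero, one_smul, zero_smul, add_zero]
      dsimp only
      rw [this]; exact hy2
    have hev2 : ∀ᶠ t in 𝓝[>] (0:ℝ), ‖h (p t)‖ < 1 := by
      have : 𝓝[>] (0:ℝ) ≤ 𝓝[Icc 0 1] (0:ℝ) := by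
        rw [← nhdsWithin_Ioc_eq_nhdsGT (zero_lt_one (α := ℝ))]
        exact nhdsWithin_mono _ Ioc_subset_Icc_self
      exact this hev
    have hev3 : ∀ᶠ t in 𝓝[>] (0:ℝ), t ∈ Ioc (0:ℝ) 1 := Ioc_mem_nhdsGT zero_lt_one
    obtain ⟨t, ht1, ht2⟩ := (hev2.and hev3).exists
    have hLE := LE.of_ball hh (hpK t ⟨ht2.1.le, ht2.2⟩) ht1
    have hLEx := hLE.translate (hpK t ⟨ht2.1.le, ht2.2⟩) hx (hps t ht2)
    have hn := hLEx.nhds_image (E := Up ℂ) finrank_Q (N0 := geo K) self_mem_nhdsWithin hh.cont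
      hh.injOn
    rw [hh.image_eq, ← mem_interior_iff_mem_nhds, interior_closedBall _ one_ne_zero,
      mem_ball_zero_iff, hx1] at hn
    exact lt_irrefl _ hn

/-- `K` with a cone over `B` from the new vertex `o` -/
def coneC (K B : PreAbstractSimplicialComplex V) (o : V) : PreAbstractSimplicialComplex V where
  faces := {s | s.Nonempty ∧ (s.erase o = ∅ ∨ s.erase o ∈ K) ∧
    (o ∈ s → s.erase o = ∅ ∨ s.erase o ∈ B)}
  isRelLowerSet_faces := by
    have key : ∀ (M : PreAbstractSimplicialComplex V) (s t : Finset V), t ⊆ s →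
        (s = ∅ ∨ s ∈ M) → (t = ∅ ∨ t ∈ M) := by
      intro M s t hts hs
      rcases Finset.eq_empty_or_nonempty t with h | h
      · exact Or.inl h
      · rcases hs with h1 | h1
        · rw [h1, Finset.subset_empty] at hts
          exact Or.inl hts
        · exact Or.inr (mem_of_subset h1 hts h)
    rintro s ⟨hs1, hs2, hs3⟩
    refine ⟨hs1, ?_⟩
    intro t hts ht
    exact ⟨ht, key K _ _ (Finset.erase_subset_erase o hts) hs2,
      fun ho => key B _ _ (Finset.erase_subset_erase o hts) (hs3 (hts ho))⟩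

lemma mem_coneC {o : V} {s : Finset V} : s ∈ coneC K B o ↔ s.Nonempty ∧
    (s.erase o = ∅ ∨ s.erase o ∈ K) ∧ (o ∈ s → s.erase o = ∅ ∨ s.erase o ∈ B) := Iff.rfl

lemma link_coneC {o : V} (hB : ∀ s, s ∈ B → s ∈ K) (ho : ({o} : Finset V) ∉ K) :
    link (coneC K B o) o = B := by
  apply ext_mem
  intro s
  rw [mem_link, mem_coneC]
  constructor
  · rintro ⟨h1, h2, _, _, h3⟩
    have := h3 (Finset.mem_insert_self _ _)
    rw [Finset.erase_insert h2] at this
    exact this.resolve_left h1.ne_empty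
  · intro hs
    have h2 : o ∉ s := fun h => ho (singleton_mem (hB s hs) h)
    refine ⟨nonempty_of_mem hs, h2, Finset.insert_nonempty _ _, ?_, ?_⟩
    · rw [Finset.erase_insert h2]; exact Or.inr (hB s hs)
    · intro _; rw [Finset.erase_insert h2]; exact Or.inr hs

lemma del_coneC {o : V} (ho : ({o} : Finset V) ∉ K) : del (coneC K B o) o = K := by
  apply ext_mem
  intro s
  rw [mem_del, mem_coneC]
  constructor
  · rintro ⟨⟨h1, h2, _⟩, h3⟩
    rw [Finset.erase_eq_of_notMem h3] at h2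
    exact h2.resolve_left h1.ne_empty
  · intro hs
    have h2 : o ∉ s := fun h => ho (singleton_mem hs h)
    refine ⟨⟨nonempty_of_mem hs, ?_, fun h => absurd h h2⟩, h2⟩
    rw [Finset.erase_eq_of_notMem h2]; exact Or.inr hs

lemma apex_mem_coneC {o : V} : ({o} : Finset V) ∈ coneC K B o := by
  rw [mem_coneC]
  refine ⟨Finset.singleton_nonempty _, Or.inl ?_, fun _ => Or.inl ?_⟩ <;>
    exact Finset.erase_singleton o

/-- gluing a ball and the star of the cone point gives a sphere -/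
theorem sphere_of_ball {o : V} (hoS : {o} ∈ S) {h : (V → ℝ) → Up ℂ}
    (hh : HomeoOn h (geo (del S o)) (closedBall 0 1))
    (hb : ∀ x ∈ geo (del S o), (‖h x‖ = 1 ↔ x ∈ geo (link S o))) :
    ∃ G : (V → ℝ) → Up (Up ℂ), HomeoOn G (geo S) (sphere 0 1) := by
  have hlinkdel : ∀ x, x ∈ geo (link S o) → x ∈ geo (del S o) := by
    intro x hx
    rw [mem_geo_del]
    exact ⟨star'_subset (mem_link_geo.1 hx).1, (mem_link_geo.1 hx).2⟩
  have hsphere : HomeoOn h (geo (link S o)) (sphere 0 1) := by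
    have := hh.restr (p := geo (link S o)) (q := sphere (0 : Up ℂ) 1) (fun x hx => by
      rw [mem_sphere_zero_iff_norm]; exact (hb x hx).symm)
    rw [inter_eq_right.2 sphere_subset_closedBall] at this
    rwa [inter_eq_right.2 (fun x hx => hlinkdel x hx)] at this
  have hq := homeoOn_cmap hoS hsphere
  obtain ⟨G, θ, hG, _, _, _⟩ := glue_two_balls' (isCompact_geo (K := del S o))
    (isCompact_star' (K := S) (v := o)) hh hq
    (by
      intro x hx
      rw [hb x hx, mem_link_geo]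
      constructor
      · intro hx2; exact ⟨hx2, (mem_geo_del.1 hx).2⟩
      · intro hx2; exact hx2.1)
    (by
      intro x hx
      rw [norm_cmap_eq_one hsphere hx, mem_geo_del]
      constructor
      · intro hx2; exact hx2.2
      · intro hx2; exact ⟨star'_subset hx, hx2⟩)
  have hun : geo (del S o) ∪ star' S o = geo S := by
    apply Set.Subset.antisymm
    · apply union_subset
      · intro x hx; exact (mem_geo_del.1 hx).1
      · exact star'_subset
    · intro x hx
      by_cases h0 : x o = 0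
      · exact Or.inl (mem_geo_del.2 ⟨hx, h0⟩)
      · exact Or.inr (mem_star'_of_pos hx h0)
  rw [hun] at hG
  exact ⟨G, hG⟩

/-- the main theorem with a spare vertex -/
theorem main_o {o u w : V} (ho : ({o} : Finset V) ∉ K) (hK : NonEvasive K)
    {h : (V → ℝ) → Up ℂ} (hh : HomeoOn h (geo K) (closedBall 0 1)) (huw : u ≠ w)
    (he : ({u, w} : Finset V) ∈ K) (hu : ‖h (Pi.single u 1)‖ = 1) (hw : ‖h (Pi.single w 1)‖ = 1)
    (hin : ∃ x ∈ simp' {u, w}, ‖h x‖ ≠ 1)
    {γ : ℝ → Up ℂ} (hγ : ContinuousOn γ (Icc 0 1)) (hγi : InjOn γ (Icc 0 1))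
    (hγs : ∀ s ∈ Icc (0:ℝ) 1, ‖γ s‖ = 1) (hγ0 : γ 0 = h (Pi.single u 1))
    (hγ1 : γ 1 = h (Pi.single w 1)) :
    ∃ Ξ : Up ℂ ≃ₜ Up ℂ, Ξ '' (h '' simp' {u, w} ∪ γ '' Icc 0 1) =
      {b | ‖b.fst‖ = 1 ∧ b.snd = 0} := by
  set S := coneC K (bd K h) o with hS
  have hlinkS : link S o = bd K h := link_coneC (fun s hs => hs.1) ho
  have hdelS : del S o = K := del_coneC ho
  have hoS : ({o} : Finset V) ∈ S := apex_mem_coneC
  have hle : ∀ s, s ∈ K → s ∈ S := by
    intro s hs
    rw [← hdelS] at hs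
    exact hs.1
  have hb : ∀ x ∈ geo (del S o), (‖h x‖ = 1 ↔ x ∈ geo (link S o)) := by
    intro x hx
    rw [hdelS] at hx
    rw [hlinkS, ← mem_bd_iff hh hx]
    constructor
    · intro h1; exact ⟨hx.1, hx.2.1, h1⟩
    · intro h1; exact h1.2.2
  have hh' : HomeoOn h (geo (del S o)) (closedBall 0 1) := by rw [hdelS]; exact hh
  obtain ⟨G, hG⟩ := sphere_of_ball hoS hh' hb
  have hlk : ∀ v, v ≠ o → {v} ∈ S → PS 2 (link S v) := fun v _ hv =>
    ps_two_link (fun x hx => LE.of_sphere hG hx) hv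
  have huK : ({u} : Finset V) ∈ K := mem_left he
  have hwK : ({w} : Finset V) ∈ K := mem_right he
  have huo : u ≠ o := by rintro rfl; exact ho huK
  have hwo : w ≠ o := by rintro rfl; exact ho hwK
  have hbv : ∀ v, ({v} : Finset V) ∈ K → ‖h (Pi.single v 1)‖ = 1 → ({v} : Finset V) ∈ bd K h := by
    intro v hv h1
    have h2 := (mem_bd_iff hh (single_mem_geo hv)).2 h1
    have h3 : supp (Pi.single v 1 : V → ℝ) = {v} := by
      ext x
      rw [mem_supp, Finset.mem_singleton]
      by_cases hx : x = v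
      · subst hx; simp
      · simp [hx]
    rwa [h3] at h2
  have h2 : ({u, o} : Finset V) ∈ S := by
    have := hbv u huK hu
    rw [← hlinkS, single_mem_link] at this
    rw [Finset.pair_comm]; exact this.2
  have h3 : ({w, o} : Finset V) ∈ S := by
    have := hbv w hwK hw
    rw [← hlinkS, single_mem_link] at this
    rw [Finset.pair_comm]; exact this.2
  have h4 : ({u, w} : Finset V) ∉ link S o := by
    rw [hlinkS]
    rintro ⟨_, h5⟩
    obtain ⟨x, hx, hx1⟩ := hin
    exact hx1 (h5 x hx)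
  have hKne : NonEvasive (del S o) := by rw [hdelS]; exact hK
  obtain ⟨Θ, hΘ, hΘC⟩ := MB huw huo hwo (hle _ he) h2 h3 h4 hlk hKne hh' hb hγ hγi hγs hγ0 hγ1
  apply MC _ hΘ hΘC
  rintro _ (⟨x, hx, rfl⟩ | ⟨s, hs, rfl⟩)
  · exact hh.mapsTo (simp'_subset_geo he hx)
  · rw [mem_closedBall_zero_iff]; exact (hγs s hs).le

end NE3
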