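import Pool.Agent.Hhelper58.LemX

/-! The chain of ambient homeomorphisms, preserving the boundary of a missing triangle. -/

set_option linter.unusedSectionVars false
set_option linter.deprecated false
set_option linter.unusedSimpArgs false

namespace NE3

open Set Topology Metric

variable {V : Type*} [DecidableEq V] [Fintype V]
variable {K S : PreAbstractSimplicialComplex V}
variable {F : Type*} [NormedAddCommGroup F] [NormedSpace ℝ F]

/-- sign-compatible homeomorphism preserving `C` -/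
def CAmb (S : PreAbstractSimplicialComplex V) (C : Set (V → ℝ)) (W W' : Set V) : Prop :=
  ∃ φ : (V → ℝ) → (V → ℝ), HomeoOn φ (geo S) (geo S) ∧ φ '' C = C ∧
    ∀ x ∈ geo S, (mx Wᶜ x < mx W x ↔ mx W'ᶜ (φ x) < mx W' (φ x)) ∧
      (mx W x < mx Wᶜ x ↔ mx W' (φ x) < mx W'ᶜ (φ x))

lemma CAmb.refl (C : Set (V → ℝ)) (W : Set V) : CAmb S C W W :=
  ⟨fun x => x, HomeoOn.id _, by simp, fun _ _ => ⟨Iff.rfl, Iff.rfl⟩⟩

lemma CAmb.symm {C : Set (V → ℝ)} (hC : C ⊆ geo S) {W W' : Set V} (h : CAmb S C W W') :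
    CAmb S C W' W := by
  obtain ⟨φ, h1, hφC, h2⟩ := h
  obtain ⟨ψ, h3, h4, h5⟩ := h1.exists_inv isCompact_geo
  refine ⟨ψ, h3, ?_, fun x hx => ?_⟩
  · conv_lhs => rw [← hφC]
    rw [image_image]
    conv_rhs => rw [← image_id C]
    apply image_congr
    intro x hx
    exact h4 x (hC hx)
  · have h6 := h2 (ψ x) (h3.mapsTo hx)
    rw [h5 x hx] at h6
    exact ⟨h6.1.symm, h6.2.symm⟩

lemma CAmb.trans {C : Set (V → ℝ)} {W W' W'' : Set V} (h : CAmb S C W W')
    (h' : CAmb S C W' W'') : CAmb S C W W'' := by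
  obtain ⟨φ, h1, hφC, h2⟩ := h
  obtain ⟨ψ, h3, hψC, h4⟩ := h'
  refine ⟨ψ ∘ φ, h3.comp h1, ?_, fun x hx => ?_⟩
  · rw [image_comp, hφC, hψC]
  · exact ⟨(h2 x hx).1.trans (h4 _ (h1.mapsTo hx)).1, (h2 x hx).2.trans (h4 _ (h1.mapsTo hx)).2⟩

lemma CAmb.of_vertices (C : Set (V → ℝ)) {W W' : Set V} (h : ∀ u, {u} ∈ S → (u ∈ W ↔ u ∈ W')) :
    CAmb S C W W' := by
  refine ⟨fun x => x, HomeoOn.id _, by simp, fun x hx => ?_⟩
  have h' : ∀ u, {u} ∈ S → (u ∈ Wᶜ ↔ u ∈ W'ᶜ) := fun u hu => not_congr (h u hu)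
  rw [mx_eq_of_vertices h hx, mx_eq_of_vertices h' hx]
  exact ⟨Iff.rfl, Iff.rfl⟩

lemma camb_away {C : Set (V → ℝ)} (hC : C ⊆ geo S) {v : V} (hvC : ∀ x ∈ C, x v = 0)
    (hvS : {v} ∈ S) {W : Set V} (hv : v ∉ W) (h : Std F (link S v) W) :
    CAmb S C (insert v W) W := by
  obtain ⟨Ψ, hΨ⟩ := h
  obtain ⟨φ, h1, h2, _, h4⟩ := exists_ambient hvS hv hΨ
  refine ⟨φ, h1, ?_, h4⟩
  conv_rhs => rw [← image_id C]
  apply image_congr
  intro x hx
  exact h2 x (hC hx) (hvC x hx)

/-! ### segments -/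

lemma mem_simp'_pair {a b : V} (hab : a ≠ b) {x : V → ℝ} :
    x ∈ simp' {a, b} ↔ ∃ s ∈ Icc (0:ℝ) 1, x = jn a s (Pi.single b 1) := by
  constructor
  · rintro ⟨h0, h1, h2⟩
    have hz : ∀ c, c ≠ a → c ≠ b → x c = 0 := fun c hca hcb => h2 c (by simp [hca, hcb])
    have hsum : x a + x b = 1 := by
      rw [← h1, sum_split a]
      congr 1
      symm
      apply Finset.sum_eq_single b
      · intro c hc hcb
        exact hz c (Finset.ne_of_mem_erase hc) hcb
      · intro h
        exact absurd (Finset.mem_erase.2 ⟨hab.symm, Finset.mem_univ b⟩) h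
    refine ⟨x b, ⟨h0 b, by linarith [h0 a]⟩, ?_⟩
    ext c
    unfold jn
    split_ifs with hc
    · rw [hc]; linarith
    · by_cases hcb : c = b
      · subst hcb; simp
      · rw [Pi.single_eq_of_ne hcb, mul_zero]; exact hz c hc hcb
  · rintro ⟨s, hs, rfl⟩
    have hz : ∀ c, c ≠ a → c ≠ b → jn a s (Pi.single b 1) c = 0 := by
      intro c hca hcb
      unfold jn
      rw [if_neg hca, Pi.single_eq_of_ne hcb, mul_zero]
    have ha : jn a s (Pi.single b 1) a = 1 - s := jn_apply_self
    have hb : jn a s (Pi.single b 1) b = s := by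
      unfold jn; rw [if_neg hab.symm]; simp
    refine ⟨?_, ?_, ?_⟩
    · intro c
      by_cases hca : c = a
      · rw [hca, ha]; linarith [hs.2]
      · by_cases hcb : c = b
        · rw [hcb, hb]; exact hs.1
        · rw [hz c hca hcb]
    · rw [sum_split a, ha]
      have : ∑ c ∈ Finset.univ.erase a, jn a s (Pi.single b 1) c = jn a s (Pi.single b 1) b := by
        apply Finset.sum_eq_single b
        · intro c hc hcb
          exact hz c (Finset.ne_of_mem_erase hc) hcb
        · intro h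
          exact absurd (Finset.mem_erase.2 ⟨hab.symm, Finset.mem_univ b⟩) h
      rw [this, hb]; ring
    · intro c hc
      simp only [Finset.mem_insert, Finset.mem_singleton, not_or] at hc
      exact hz c hc.1 hc.2

lemma simp'_subset_geo {s : Finset V} (hs : s ∈ S) : simp' s ⊆ geo S := by
  rw [geo_eq_iUnion]
  intro x hx
  exact Set.mem_biUnion (show s ∈ {s : Finset V | s ∈ S} from hs) hx

lemma singleton_mem_link {a b : V} (hab : a ≠ b) (h : ({a, b} : Finset V) ∈ S) :
    ({b} : Finset V) ∈ link S a :=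
  ⟨Finset.singleton_nonempty b, by simpa using hab, h⟩

lemma cmap_jn_single {N : Type*} [NormedAddCommGroup N] [NormedSpace ℝ N] {a b : V} (hab : a ≠ b)
    (h : ({a, b} : Finset V) ∈ S) {Ψ : (V → ℝ) → N} {s : ℝ} (hs : s ∈ Icc (0:ℝ) 1) :
    cmap a Ψ (jn a s (Pi.single b 1)) = s • Ψ (Pi.single b 1) := by
  rw [cmap_jn (K := S) (single_mem_geo (singleton_mem_link hab h)) hs,
    mx_single_mem (show b ∈ ({a}ᶜ : Set V) by simpa using hab.symm)]
  congr 1
  rw [mul_one]
  have : 1 - s + s = 1 := by ring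
  rw [this, div_one]

/-- boundary of the triangle `u, w, o` -/
def Ctri (u w o : V) : Set (V → ℝ) := simp' {u, w} ∪ simp' {w, o} ∪ simp' {u, o}

lemma Ctri_swap (u w o : V) : Ctri u w o = Ctri w u o := by
  unfold Ctri
  rw [Finset.pair_comm u w, Set.union_assoc, Set.union_comm (simp' {w, o}), ← Set.union_assoc]

lemma Ctri_subset {u w o : V} (huw : ({u, w} : Finset V) ∈ S) (hwo : ({w, o} : Finset V) ∈ S)
    (huo : ({u, o} : Finset V) ∈ S) : Ctri u w o ⊆ geo S :=
  union_subset (union_subset (simp'_subset_geo huw) (simp'_subset_geo hwo)) (simp'_subset_geo huo)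

lemma Ctri_zero {u w o v : V} (hu : v ≠ u) (hw : v ≠ w) (ho : v ≠ o) {x : V → ℝ}
    (hx : x ∈ Ctri u w o) : x v = 0 := by
  rcases hx with (hx | hx) | hx
  · exact hx.2.2 v (by simp [hu, hw])
  · exact hx.2.2 v (by simp [ho, hw])
  · exact hx.2.2 v (by simp [hu, ho])

lemma simp'_pair_subset_star {a b : V} (h : ({a, b} : Finset V) ∈ S) : simp' {a, b} ⊆ star' S a := by
  rintro x ⟨h0, h1, h2⟩
  refine ⟨h0, h1, mem_of_subset h ?_ (Finset.insert_nonempty _ _)⟩
  intro c hc
  rcases Finset.mem_insert.1 hc with rfl | hc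
  · exact Finset.mem_insert_self _ _
  · by_contra hcn
    exact mem_supp.1 hc (h2 c hcn)

/-- vertical line through the star -/
lemma fst_cmap_eq_zero {u w o : V} (huw : u ≠ w) (huo : u ≠ o) (h1 : ({u, w} : Finset V) ∈ S)
    (h2 : ({u, o} : Finset V) ∈ S) {Ψ : (V → ℝ) → Up F} {W : Set V}
    (hΨ : StdMap Ψ (link S u) W) (hw : w ∈ W) (ho : o ∉ W) (e1 : (Ψ (Pi.single w 1)).fst = 0)
    (e2 : (Ψ (Pi.single o 1)).fst = 0) {x : V → ℝ} (hx : x ∈ star' S u) :
    (cmap u Ψ x).fst = 0 ↔ x ∈ simp' {u, w} ∪ simp' {u, o} := by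
  have hwg : (Pi.single w 1 : V → ℝ) ∈ geo (link S u) := single_mem_geo (singleton_mem_link huw h1)
  have hog : (Pi.single o 1 : V → ℝ) ∈ geo (link S u) := single_mem_geo (singleton_mem_link huo h2)
  have hwp : 0 < (Ψ (Pi.single w 1)).snd := by
    rw [hΨ.pos _ hwg, mx_single_mem hw, mx_single_notMem (by simpa using hw)]; norm_num
  have hop : (Ψ (Pi.single o 1)).snd < 0 := by
    rw [hΨ.neg _ hog, mx_single_mem (show o ∈ Wᶜ from ho), mx_single_notMem ho]; norm_num
  have nw := mem_sphere_zero_iff_norm.1 (hΨ.homeo.mapsTo hwg)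
  have no := mem_sphere_zero_iff_norm.1 (hΨ.homeo.mapsTo hog)
  rw [norm_up, e1, norm_zero, zero_add, abs_of_pos hwp] at nw
  rw [norm_up, e2, norm_zero, zero_add, abs_of_neg hop] at no
  constructor
  · intro h0
    by_cases hlt : x u < 1
    · have hy := prj_mem hx hlt
      have hc : cmap u Ψ x = rho u x • Ψ (prj u x) := by unfold cmap; rw [if_pos hlt]
      have hr : rho u x ≠ 0 := by
        have e : x = jn u (1 - x u) (prj u x) := (jn_prj hlt).symm
        unfold rho
        apply div_ne_zero _ (den_pos (star'_subset hx)).ne'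
        rw [e, mx_jn_notMem (by simp) (by linarith)]
        exact (mul_pos (by linarith) (mx_link_pos hy)).ne'
      have hf : (Ψ (prj u x)).fst = 0 := by
        rw [hc] at h0
        have h0 : rho u x • (Ψ (prj u x)).fst = 0 := h0
        exact (smul_eq_zero.1 h0).resolve_left hr
      have hn := mem_sphere_zero_iff_norm.1 (hΨ.homeo.mapsTo hy)
      rw [norm_up, hf, norm_zero, zero_add] at hn
      have hxe : x = jn u (1 - x u) (prj u x) := (jn_prj hlt).symm
      have hs : 1 - x u ∈ Icc (0:ℝ) 1 := ⟨by linarith, by linarith [hx.1 u]⟩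
      rcases abs_cases (Ψ (prj u x)).snd with ⟨h, _⟩ | ⟨h, _⟩
      · left
        rw [mem_simp'_pair huw]
        refine ⟨1 - x u, hs, ?_⟩
        have : prj u x = Pi.single w 1 := by
          apply hΨ.homeo.injOn hy hwg
          apply up_ext
          · rw [hf, e1]
          · rw [nw]; linarith
        rw [this] at hxe
        exact hxe
      · right
        rw [mem_simp'_pair huo]
        refine ⟨1 - x u, hs, ?_⟩
        have : prj u x = Pi.single o 1 := by
          apply hΨ.homeo.injOn hy hog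
          apply up_ext
          · rw [hf, e2]
          · linarith
        rw [this] at hxe
        exact hxe
    · left
      rw [mem_simp'_pair huw]
      refine ⟨0, by norm_num, ?_⟩
      rw [geo_lt_one_or (star'_subset hx) hlt]
      ext c
      unfold jn
      split_ifs with hc
      · rw [hc]; simp
      · rw [Pi.single_eq_of_ne hc, zero_mul]
  · rintro (h | h)
    · obtain ⟨s, hs, rfl⟩ := (mem_simp'_pair huw).1 h
      rw [cmap_jn_single huw h1 hs]
      change s • (Ψ (Pi.single w 1)).fst = 0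
      rw [e1, smul_zero]
    · obtain ⟨s, hs, rfl⟩ := (mem_simp'_pair huo).1 h
      rw [cmap_jn_single huo h2 hs]
      change s • (Ψ (Pi.single o 1)).fst = 0
      rw [e2, smul_zero]

lemma camb_mid [ProperSpace F] {u w o : V} (huw : u ≠ w) (huo : u ≠ o) (hwo : w ≠ o)
    (h1 : ({u, w} : Finset V) ∈ S) (h2 : ({u, o} : Finset V) ∈ S) (h3 : ({w, o} : Finset V) ∈ S)
    {W : Set V} (hu : u ∉ W) (hw : w ∈ W) (ho : o ∉ W) (h : Std F (link S u) W) :
    CAmb S (Ctri u w o) (insert u W) W := by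
  obtain ⟨Ψ0, hΨ0⟩ := h
  have hwg : (Pi.single w 1 : V → ℝ) ∈ geo (link S u) := single_mem_geo (singleton_mem_link huw h1)
  have hog : (Pi.single o 1 : V → ℝ) ∈ geo (link S u) := single_mem_geo (singleton_mem_link huo h2)
  obtain ⟨Ψ, hΨ, e1, e2⟩ := hΨ0.mark hwg hog
    (by rw [mx_single_mem hw, mx_single_notMem (by simpa using hw)]; norm_num)
    (by rw [mx_single_mem (show o ∈ Wᶜ from ho), mx_single_notMem ho]; norm_num)
  have hus : ({u} : Finset V) ∈ S := singleton_mem h1 (by simp)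
  obtain ⟨φ, hφ, hφ0, hφs, hφm⟩ := exists_ambient hus hu hΨ
  have hchar := fun (x : V → ℝ) (hx : x ∈ star' S u) =>
    fst_cmap_eq_zero huw huo h1 h2 hΨ hw ho e1 e2 hx
  have hsub : simp' {u, w} ∪ simp' {u, o} ⊆ star' S u :=
    union_subset (simp'_pair_subset_star h1) (simp'_pair_subset_star h2)
  have hCmem : ∀ x, x u ≠ 0 → (x ∈ Ctri u w o ↔ x ∈ simp' {u, w} ∪ simp' {u, o}) := by
    intro x hxu
    unfold Ctri
    constructor
    · rintro ((hx | hx) | hx)
      · exact Or.inl hx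
      · exact absurd (hx.2.2 u (by simp [huw, huo])) hxu
      · exact Or.inr hx
    · rintro (hx | hx)
      · exact Or.inl (Or.inl hx)
      · exact Or.inr hx
  have hCsub : Ctri u w o ⊆ geo S := Ctri_subset h1 h3 h2
  have hu0 : ∀ x ∈ geo S, x u ≠ 0 → (φ x) u ≠ 0 := by
    intro x hx hxu hc
    have h4 : φ (φ x) = φ x := hφ0 _ (hφ.mapsTo hx) hc
    have h5 : φ x = x := hφ.injOn (hφ.mapsTo hx) hx h4
    rw [h5] at hc
    exact hxu hc
  refine ⟨φ, hφ, ?_, hφm⟩
  apply hφ.image_of_iff hCsub hCsub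
  intro x hx
  by_cases hxu : x u = 0
  · rw [hφ0 x hx hxu]
  · have hxs : x ∈ star' S u := mem_star'_of_pos hx hxu
    obtain ⟨h4, h5⟩ := hφs x hxs
    rw [hCmem x hxu, hCmem (φ x) (hu0 x hx hxu), ← hchar x hxs, ← hchar _ h4, h5]
    rfl

/-! ### the chain -/

/-- the data at the end of the chain -/
def EndData (S : PreAbstractSimplicialComplex V) (C : Set (V → ℝ)) (u w o : V) (W : Set V) : Prop :=
  ∃ W'' : Set V, w ∉ W'' ∧ u ∉ W'' ∧ o ∉ W'' ∧ NonEvasive (res S W'') ∧ Std E2 (link S w) W'' ∧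
    CAmb S C W (insert w W'')

lemma insert_diff_self' {W : Set V} {v : V} (hv : v ∈ W) : insert v (W \ {v}) = W := by
  ext u; simp only [Set.mem_insert_iff, Set.mem_diff, Set.mem_singleton_iff]
  constructor
  · rintro (rfl | h)
    · exact hv
    · exact h.1
  · intro h
    by_cases hu : u = v
    · exact Or.inl hu
    · exact Or.inr ⟨h, hu⟩

theorem phase_two {u w o : V} (huw : u ≠ w) (huo : u ≠ o) (hwo : w ≠ o)
    (h1 : ({u, w} : Finset V) ∈ S) (h2 : ({u, o} : Finset V) ∈ S) (h3 : ({w, o} : Finset V) ∈ S)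
    (hlink : ∀ v W, v ≠ o → {v} ∈ S → NonEvasive (res (link S v) W) → Std E2 (link S v) W)
    (hx : ∃ x, x ≠ u ∧ x ≠ o ∧ x ≠ w ∧ ({w, x} : Finset V) ∈ S) :
    ∀ (K : PreAbstractSimplicialComplex V), NonEvasive K → ∀ W, K = res S W → w ∈ W → u ∉ W →
      o ∉ W → EndData S (Ctri u w o) u w o W := by
  have hCsub : Ctri u w o ⊆ geo S := Ctri_subset h1 h3 h2
  intro K h
  induction h with
  | point K v h =>
    rintro W rfl hw hu ho
    have hwS : ({w} : Finset V) ∈ S := singleton_mem h3 (by simp)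
    have hwr : ({w} : Finset V) ∈ res S W := ⟨hwS, by simpa using hw⟩
    have hwv : w = v := by simpa using (h _).1 hwr
    obtain ⟨x, hxu, hxo, hxw, hwx⟩ := hx
    have hxS : ({x} : Finset V) ∈ S := singleton_mem hwx (by simp)
    refine ⟨{x}, by simpa using hxw.symm, by simpa using hxu.symm, by simpa using hxo.symm,
      nonEvasive_res_vertex hxS, ?_, ?_⟩
    · exact hlink w _ hwo hwS (nonEvasive_res_singleton hxw (by rw [Finset.pair_comm]; exact hwx))
    · have a1 : CAmb S (Ctri u w o) W {w} := CAmb.of_vertices _ (by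
        intro y hy
        constructor
        · intro hyW
          have : ({y} : Finset V) ∈ res S W := ⟨hy, by simpa using hyW⟩
          have := (h _).1 this
          rw [hwv]; simpa using this
        · rintro rfl; exact hw)
      have a2 : CAmb S (Ctri u w o) (insert x {w}) {w} := by
        apply camb_away hCsub (fun y hy => Ctri_zero hxu hxw hxo hy) hxS
          (by simpa using hxw) (hlink x _ hxo hxS (nonEvasive_res_singleton hxw.symm hwx))
      rw [Set.pair_comm] at a2
      exact a1.trans (a2.symm hCsub)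
  | step K v hl hd _ ihd =>
    rintro W rfl hw hu ho
    have hvm : {v} ∈ res S W := NonEvasive.vertex_of_step hl
    have hvW : v ∈ W := by simpa using hvm.2
    have hvS : {v} ∈ S := hvm.1
    have hvo : v ≠ o := by rintro rfl; exact ho hvW
    have hvu : v ≠ u := by rintro rfl; exact hu hvW
    rw [link_res hvW, res_link_diff] at hl
    have hstd := hlink v _ hvo hvS hl
    by_cases hvw : v = w
    · subst hvw
      refine ⟨W \ {v}, by simp, fun h => hu h.1, fun h => ho h.1, ?_, hstd, ?_⟩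
      · rw [← del_res]; exact hd
      · rw [insert_diff_self' hw]; exact CAmb.refl _ _
    · obtain ⟨W'', a1, a2, a3, a4, a5, a6⟩ := ihd (W \ {v}) del_res ⟨hw, fun h => hvw h.symm⟩
        (fun h => hu h.1) (fun h => ho h.1)
      refine ⟨W'', a1, a2, a3, a4, a5, ?_⟩
      have := camb_away hCsub (fun y hy => Ctri_zero hvu hvw hvo hy) hvS (by simp) hstd
      rw [insert_diff_self' hvW] at this
      exact this.trans a6

theorem phase_one {u w o : V} (huw : u ≠ w) (huo : u ≠ o) (hwo : w ≠ o)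
    (h1 : ({u, w} : Finset V) ∈ S) (h2 : ({u, o} : Finset V) ∈ S) (h3 : ({w, o} : Finset V) ∈ S)
    (hlink : ∀ v W, v ≠ o → {v} ∈ S → NonEvasive (res (link S v) W) → Std E2 (link S v) W)
    (hx : ∃ x, x ≠ u ∧ x ≠ o ∧ x ≠ w ∧ ({w, x} : Finset V) ∈ S)
    (hx' : ∃ x, x ≠ w ∧ x ≠ o ∧ x ≠ u ∧ ({u, x} : Finset V) ∈ S) :
    ∀ (K : PreAbstractSimplicialComplex V), NonEvasive K → ∀ W, K = res S W → w ∈ W → u ∈ W →
      o ∉ W → EndData S (Ctri u w o) u w o W ∨ EndData S (Ctri u w o) w u o W := by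
  have hCsub : Ctri u w o ⊆ geo S := Ctri_subset h1 h3 h2
  intro K h
  induction h with
  | point K v h =>
    rintro W rfl hw hu ho
    exfalso
    have hwS : ({w} : Finset V) ∈ S := singleton_mem h3 (by simp)
    have huS : ({u} : Finset V) ∈ S := singleton_mem h1 (by simp)
    have hwr : ({w} : Finset V) ∈ res S W := ⟨hwS, by simpa using hw⟩
    have hur : ({u} : Finset V) ∈ res S W := ⟨huS, by simpa using hu⟩
    have e1 : w = v := by simpa using (h _).1 hwr
    have e2 : u = v := by simpa using (h _).1 hur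
    exact huw (e2.trans e1.symm)
  | step K v hl hd _ ihd =>
    rintro W rfl hw hu ho
    have hvm : {v} ∈ res S W := NonEvasive.vertex_of_step hl
    have hvW : v ∈ W := by simpa using hvm.2
    have hvS : {v} ∈ S := hvm.1
    have hvo : v ≠ o := by rintro rfl; exact ho hvW
    rw [link_res hvW, res_link_diff] at hl
    have hstd := hlink v _ hvo hvS hl
    by_cases hvu : v = u
    · subst hvu
      left
      have a1 : CAmb S (Ctri v w o) (insert v (W \ {v})) (W \ {v}) :=
        camb_mid huw huo hwo h1 h2 h3 (by simp) ⟨hw, fun h => huw h.symm⟩ (fun h => ho h.1) hstd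
      rw [insert_diff_self' hvW] at a1
      obtain ⟨W'', b1, b2, b3, b4, b5, b6⟩ := phase_two huw huo hwo h1 h2 h3 hlink hx _ hd
        (W \ {v}) del_res ⟨hw, fun h => huw h.symm⟩ (by simp) (fun h => ho h.1)
      exact ⟨W'', b1, b2, b3, b4, b5, a1.trans b6⟩
    · by_cases hvw : v = w
      · subst hvw
        right
        rw [Ctri_swap]
        have h1' : ({v, u} : Finset V) ∈ S := by rw [Finset.pair_comm]; exact h1
        have a1 : CAmb S (Ctri v u o) (insert v (W \ {v})) (W \ {v}) :=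
          camb_mid huw.symm hwo huo h1' h3 h2 (by simp) ⟨hu, huw⟩ (fun h => ho h.1) hstd
        rw [insert_diff_self' hvW] at a1
        obtain ⟨W'', b1, b2, b3, b4, b5, b6⟩ := phase_two huw.symm hwo huo h1' h3 h2 hlink hx' _ hd
          (W \ {v}) del_res ⟨hu, huw⟩ (by simp) (fun h => ho h.1)
        exact ⟨W'', b1, b2, b3, b4, b5, a1.trans b6⟩
      · have a1 := camb_away hCsub (fun y hy => Ctri_zero hvu hvw hvo hy) hvS (by simp) hstd
        rw [insert_diff_self' hvW] at a1
        rcases ihd (W \ {v}) del_res ⟨hw, fun h => hvw h.symm⟩ ⟨hu, fun h => hvu h.symm⟩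
          (fun h => ho h.1) with ⟨W'', b1, b2, b3, b4, b5, b6⟩ | ⟨W'', b1, b2, b3, b4, b5, b6⟩
        · exact Or.inl ⟨W'', b1, b2, b3, b4, b5, a1.trans b6⟩
        · exact Or.inr ⟨W'', b1, b2, b3, b4, b5, a1.trans b6⟩

end NE3
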