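import Pool.Agent.Hhelper58.NLin

/-! Adding an external collar piece to a ball. -/

set_option linter.unusedSectionVars false
set_option linter.deprecated false
set_option linter.unusedSimpArgs false

namespace NE3

open Set Topology Metric

variable {N : Type*} [NormedAddCommGroup N] [NormedSpace ℝ N]

lemma dir_smul {c : ℝ} (hc : 0 < c) (b : N) : ‖c • b‖⁻¹ • (c • b) = ‖b‖⁻¹ • b := by
  rw [norm_smul, Real.norm_of_nonneg hc.le, smul_smul]
  congr 1
  rw [mul_inv, mul_assoc, mul_comm ‖b‖⁻¹ c, ← mul_assoc, inv_mul_cancel₀ hc.ne', one_mul]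

theorem ext_collar {X : Type*} [TopologicalSpace X] [T2Space X] [Nonempty X] {A B : Set X}
    (hA : IsCompact A) (hB : IsCompact B) {fA : X → N} (hf : HomeoOn fA A (closedBall 0 1))
    {e : X → X} {χ β : X → ℝ}
    (he : ContinuousOn e B) (hχ : ContinuousOn χ B) (hβ : ContinuousOn β {x ∈ A | ‖fA x‖ = 1})
    (he1 : ∀ x ∈ B, e x ∈ A ∧ ‖fA (e x)‖ = 1)
    (hβ0 : ∀ x ∈ A, ‖fA x‖ = 1 → 0 ≤ β x)
    (hχ0 : ∀ x ∈ B, 0 ≤ χ x ∧ χ x ≤ β (e x))
    (hinj : ∀ x ∈ B, ∀ y ∈ B, e x = e y → χ x = χ y → x = y)
    (hsurj : ∀ y ∈ A, ‖fA y‖ = 1 → ∀ s, 0 < s → s ≤ β y → ∃ x ∈ B, e x = y ∧ χ x = s)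
    (hAB : ∀ x ∈ B, (x ∈ A ↔ χ x = 0)) (hAB' : ∀ x ∈ B, x ∈ A → e x = x) :
    ∃ j : X → N, HomeoOn j (A ∪ B) (closedBall 0 1) ∧
      (∀ x ∈ B, j x = ((1 + χ x) / (1 + β (e x))) • fA (e x)) ∧
      (∀ x ∈ A, (‖j x‖ = 1 ↔ ‖fA x‖ = 1 ∧ β x = 0)) := by
  classical
  obtain ⟨g, hg, hgl, hgr⟩ := hf.exists_inv hA
  set D : N → X := fun b => g (‖b‖⁻¹ • b) with hD
  have hDmem : ∀ b : N, b ≠ 0 → D b ∈ A ∧ ‖fA (D b)‖ = 1 := by
    intro b hb
    have h1 := unit_mem hb
    have h2 : ‖b‖⁻¹ • b ∈ closedBall (0:N) 1 := sphere_subset_closedBall h1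
    refine ⟨hg.mapsTo h2, ?_⟩
    rw [hD]
    dsimp only
    rw [hgr _ h2]
    exact mem_sphere_zero_iff_norm.1 h1
  have hDpos : ∀ b : N, b ≠ 0 → 0 ≤ β (D b) := fun b hb => hβ0 _ (hDmem b hb).1 (hDmem b hb).2
  have hDc : ContinuousOn (fun b => β (D b)) {b : N | b ≠ 0} := by
    apply hβ.comp
    · apply hg.cont.comp
      · apply ContinuousOn.smul
        · exact ContinuousOn.inv₀ continuous_norm.continuousOn fun x hx => norm_ne_zero_iff.2 hx
        · exact continuousOn_id
      · intro b hb
        exact sphere_subset_closedBall (unit_mem hb)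
    · intro b hb; exact hDmem b hb
  set jA : X → N := fun x => (1 + β (D (fA x)))⁻¹ • fA x with hjA
  set jB : X → N := fun x => ((1 + χ x) / (1 + β (e x))) • fA (e x) with hjB
  have hnA : ∀ x ∈ A, ‖fA x‖ ≤ 1 := fun x hx => mem_closedBall_zero_iff.1 (hf.mapsTo hx)
  have hjAn : ∀ x ∈ A, ‖jA x‖ ≤ ‖fA x‖ := by
    intro x hx
    by_cases h0 : fA x = 0
    · rw [hjA]; dsimp only; rw [h0, smul_zero]
    · rw [hjA]
      dsimp only
      have := hDpos _ h0
      rw [norm_smul, norm_inv, Real.norm_of_nonneg (by linarith)]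
      have h1 : (1 + β (D (fA x)))⁻¹ ≤ 1 := inv_le_one_of_one_le₀ (by linarith)
      nlinarith [norm_nonneg (fA x)]
  have hjAc : ContinuousOn jA A := by
    intro x hx
    by_cases h0 : fA x = 0
    · have e0 : jA x = 0 := by rw [hjA]; dsimp only; rw [h0, smul_zero]
      rw [ContinuousWithinAt, e0, tendsto_zero_iff_norm_tendsto_zero]
      have h1 : Filter.Tendsto (fun x => ‖fA x‖) (𝓝[A] x) (𝓝 0) := by
        have := (hf.cont x hx).norm
        rw [ContinuousWithinAt, h0, norm_zero] at this
        exact this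
      apply squeeze_zero' (Filter.Eventually.of_forall fun _ => norm_nonneg _) _ h1
      filter_upwards [self_mem_nhdsWithin] with y hy
      exact hjAn y hy
    · have h1 : ContinuousWithinAt jA (A ∩ {y | fA y ≠ 0}) x := by
        have h2 : ContinuousOn jA (A ∩ {y | fA y ≠ 0}) := by
          apply ContinuousOn.smul
          · apply ContinuousOn.inv₀
            · apply continuousOn_const.add
              exact hDc.comp (hf.cont.mono inter_subset_left) fun y hy => hy.2
            · rintro y ⟨_, hy⟩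
              have := hDpos _ hy
              linarith
          · exact hf.cont.mono inter_subset_left
        exact h2 x ⟨hx, h0⟩
      have h2 : {y | fA y ≠ 0} ∈ 𝓝[A] x := (hf.cont x hx).eventually_ne h0
      rw [ContinuousWithinAt] at h1 ⊢
      rwa [nhdsWithin_inter_of_mem' h2] at h1
  have hinvpos : ∀ x, fA x ≠ 0 → 0 < (1 + β (D (fA x)))⁻¹ := fun x hx => by
    have := hDpos _ hx
    exact inv_pos.2 (by linarith)
  have hjAinj : InjOn jA A := by
    intro x hx y hy hxy
    rw [hjA] at hxy
    dsimp only at hxy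
    by_cases h0 : fA x = 0
    · rw [h0, smul_zero] at hxy
      by_cases h1 : fA y = 0
      · exact hf.injOn hx hy (h0.trans h1.symm)
      · exact absurd hxy.symm (smul_ne_zero (hinvpos y h1).ne' h1)
    · by_cases h1 : fA y = 0
      · rw [h1, smul_zero] at hxy
        exact absurd hxy (smul_ne_zero (hinvpos x h0).ne' h0)
      · have e1 : ‖fA x‖⁻¹ • fA x = ‖fA y‖⁻¹ • fA y := by
          have a1 := dir_smul (hinvpos x h0) (fA x)
          have a2 := dir_smul (hinvpos y h1) (fA y)
          rw [hxy] at a1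
          rw [← a1, ← a2]
        have e2 : D (fA x) = D (fA y) := by rw [hD]; dsimp only; rw [e1]
        rw [e2] at hxy
        have h3 : (1 + β (D (fA y)))⁻¹ ≠ 0 := (hinvpos y h1).ne'
        exact hf.injOn hx hy (smul_right_injective N h3 hxy)
  have hβe : ∀ x ∈ B, 0 ≤ β (e x) := fun x hx => hβ0 _ (he1 x hx).1 (he1 x hx).2
  have hrpos : ∀ x ∈ B, 0 < (1 + χ x) / (1 + β (e x)) := fun x hx =>
    div_pos (by linarith [(hχ0 x hx).1]) (by linarith [hβe x hx])
  have hjBc : ContinuousOn jB B := by
    apply ContinuousOn.smul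
    · apply ContinuousOn.div
      · exact continuousOn_const.add hχ
      · exact continuousOn_const.add (hβ.comp he fun x hx => he1 x hx)
      · intro x hx
        have := hβe x hx
        linarith
    · exact hf.cont.comp he fun x hx => (he1 x hx).1
  have hjBn : ∀ x ∈ B, ‖jB x‖ = (1 + χ x) / (1 + β (e x)) := by
    intro x hx
    rw [hjB]
    dsimp only
    rw [norm_smul, (he1 x hx).2, mul_one, Real.norm_of_nonneg (hrpos x hx).le]
  have hdirB : ∀ x ∈ B, ‖jB x‖⁻¹ • jB x = fA (e x) := by
    intro x hx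
    rw [hjB]
    dsimp only
    rw [dir_smul (hrpos x hx), (he1 x hx).2, inv_one, one_smul]
  have hjBinj : InjOn jB B := by
    intro x hx y hy hxy
    have e1 : e x = e y := by
      apply hf.injOn (he1 x hx).1 (he1 y hy).1
      rw [← hdirB x hx, ← hdirB y hy, hxy]
    have e2 : (1 + χ x) / (1 + β (e x)) = (1 + χ y) / (1 + β (e y)) := by
      rw [← hjBn x hx, ← hjBn y hy, hxy]
    rw [e1] at e2
    have h3 : 1 + β (e y) ≠ 0 := by have := hβe y hy; linarith
    rw [div_left_inj' h3] at e2
    exact hinj x hx y hy e1 (by linarith)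
  have hagree : ∀ x ∈ A, x ∈ B → jA x = jB x := by
    intro x hxA hxB
    have h1 := hAB' x hxB hxA
    have h2 := (hAB x hxB).1 hxA
    have h3 := (he1 x hxB).2
    rw [h1] at h3
    rw [hjA, hjB]
    dsimp only
    rw [h1, h2]
    have h4 : D (fA x) = x := by
      rw [hD]; dsimp only; rw [h3, inv_one, one_smul, hgl x hxA]
    rw [h4]
    congr 1
    rw [add_zero, one_div]
  set j : X → N := fun x => if x ∈ A then jA x else jB x with hj
  have hjeA : EqOn jA j A := fun x hx => by simp only [hj, if_pos hx]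
  have hjeB : EqOn jB j B := fun x hx => by
    simp only [hj]
    split_ifs with h
    · exact (hagree x h hx).symm
    · rfl
  have hHA : HomeoOn j A (jA '' A) := (HomeoOn.mk hjAc (hjAinj.bijOn_image)).congr hjeA
  have hHB : HomeoOn j B (jB '' B) := (HomeoOn.mk hjBc (hjBinj.bijOn_image)).congr hjeB
  refine ⟨j, ?_, ?_, ?_⟩
  · have hU := hHA.union hHB hA.isClosed hB.isClosed (by
      intro x hx y hy hxy
      right
      rw [← hjeA hx, ← hjeB hy] at hxy
      have hx0 : fA x ≠ 0 := by
        intro h0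
        have e1 : jA x = 0 := by rw [hjA]; dsimp only; rw [h0, smul_zero]
        have e2 := hjBn y hy
        rw [← hxy, e1, norm_zero] at e2
        exact absurd e2 (hrpos y hy).ne
      have e1 : ‖fA x‖⁻¹ • fA x = fA (e y) := by
        rw [← hdirB y hy, ← hxy, hjA]
        dsimp only
        rw [dir_smul (hinvpos x hx0)]
      have e2 : D (fA x) = e y := by
        rw [hD]; dsimp only; rw [e1, hgl _ (he1 y hy).1]
      have e3 : ‖jA x‖ = (1 + β (e y))⁻¹ * ‖fA x‖ := by
        rw [hjA]
        dsimp only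
        rw [norm_smul, e2, norm_inv, Real.norm_of_nonneg (by linarith [hβe y hy])]
      have e4 := hjBn y hy
      rw [← hxy, e3, ← div_eq_inv_mul, div_left_inj' (by linarith [hβe y hy])] at e4
      rw [hAB y hy]
      have := hnA x hx
      have := (hχ0 y hy).1
      linarith)
    have hun : jA '' A ∪ jB '' B = closedBall 0 1 := by
      apply Set.Subset.antisymm
      · rintro _ (⟨x, hx, rfl⟩ | ⟨x, hx, rfl⟩)
        · rw [mem_closedBall_zero_iff]
          exact (hjAn x hx).trans (hnA x hx)
        · rw [mem_closedBall_zero_iff, hjBn x hx, div_le_one (by linarith [hβe x hx])]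
          linarith [(hχ0 x hx).2]
      · intro c hc
        rw [mem_closedBall_zero_iff] at hc
        by_cases h0 : c = 0
        · left
          have h0m : (0:N) ∈ closedBall (0:N) 1 := by simp
          refine ⟨g 0, hg.mapsTo h0m, ?_⟩
          rw [hjA]
          dsimp only
          rw [hgr 0 h0m, smul_zero, h0]
        · have hcpos := norm_pos_iff.2 h0
          obtain ⟨hy1, hy2⟩ := hDmem c h0
          have hy3 := hDpos c h0
          by_cases hcase : (1 + β (D c)) * ‖c‖ ≤ 1
          · left
            have hm : (1 + β (D c)) • c ∈ closedBall (0:N) 1 := by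
              rw [mem_closedBall_zero_iff, norm_smul, Real.norm_of_nonneg (by linarith)]
              exact hcase
            refine ⟨g ((1 + β (D c)) • c), hg.mapsTo hm, ?_⟩
            rw [hjA]
            dsimp only
            rw [hgr _ hm]
            have e5 : D ((1 + β (D c)) • c) = D c := by
              change g (‖(1 + β (D c)) • c‖⁻¹ • ((1 + β (D c)) • c)) = g (‖c‖⁻¹ • c)
              rw [dir_smul (by linarith)]
            rw [e5, smul_smul, inv_mul_cancel₀ (by linarith), one_smul]
          · right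
            rw [not_le] at hcase
            obtain ⟨x, hx, hxe, hxs⟩ := hsurj (D c) hy1 hy2 ((1 + β (D c)) * ‖c‖ - 1)
              (by linarith) (by nlinarith)
            refine ⟨x, hx, ?_⟩
            rw [hjB]
            dsimp only
            rw [hxe, hxs]
            have e6 : fA (D c) = ‖c‖⁻¹ • c := hgr _ (sphere_subset_closedBall (unit_mem h0))
            rw [e6, smul_smul]
            have e7 : (1 + ((1 + β (D c)) * ‖c‖ - 1)) / (1 + β (D c)) * ‖c‖⁻¹ = 1 := by
              have : 1 + β (D c) ≠ 0 := by linarith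
              field_simp
              ring
            rw [e7, one_smul]
    rw [hun] at hU
    exact hU
  · intro x hx
    rw [← hjeB hx]
  · intro x hx
    rw [← hjeA hx]
    by_cases h0 : fA x = 0
    · have e1 : jA x = 0 := by rw [hjA]; dsimp only; rw [h0, smul_zero]
      rw [e1, h0, norm_zero]
      simp
    · have hp := hDpos _ h0
      have e3 : ‖jA x‖ = (1 + β (D (fA x)))⁻¹ * ‖fA x‖ := by
        rw [hjA]
        dsimp only
        rw [norm_smul, norm_inv, Real.norm_of_nonneg (by linarith)]
      have hn1 := hnA x hx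
      have hn0 := norm_pos_iff.2 h0
      constructor
      · intro h
        rw [e3, ← div_eq_inv_mul, div_eq_one_iff_eq (by linarith)] at h
        have h1 : ‖fA x‖ = 1 := by linarith
        refine ⟨h1, ?_⟩
        have h4 : D (fA x) = x := by
          rw [hD]; dsimp only; rw [h1, inv_one, one_smul, hgl x hx]
        rw [h4] at h
        linarith
      · rintro ⟨h1, h2⟩
        have h4 : D (fA x) = x := by
          rw [hD]; dsimp only; rw [h1, inv_one, one_smul, hgl x hx]
        rw [e3, h4, h2, h1]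
        norm_num

end NE3
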