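import Pool.Agent.Hhelper58.Base0

/-! Connectedness and first cohomology mod 2 of complexes. -/

set_option linter.unusedSectionVars false
set_option linter.deprecated false
set_option linter.unusedSimpArgs false

namespace NE3

open Set Topology Metric

variable {V : Type*} [DecidableEq V]
variable {K L M : PreAbstractSimplicialComplex V}

/-- connectedness -/
def Conn (K : PreAbstractSimplicialComplex V) : Prop :=
  (∃ v, {v} ∈ K) ∧ ∀ A : Set V, (∃ a, a ∈ A ∧ {a} ∈ K) → (∃ b, b ∉ A ∧ {b} ∈ K) →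
    ∃ a, a ∈ A ∧ ∃ b, b ∉ A ∧ ({a, b} : Finset V) ∈ K

/-- cocycles mod 2 -/
def Cocyc (K : PreAbstractSimplicialComplex V) (c : Finset V → ZMod 2) : Prop :=
  ∀ u v w, u ≠ v → u ≠ w → v ≠ w → ({u, v, w} : Finset V) ∈ K →
    c {u, v} + c {u, w} + c {v, w} = 0

/-- vanishing of the first cohomology mod 2 -/
def H1 (K : PreAbstractSimplicialComplex V) : Prop :=
  ∀ c : Finset V → ZMod 2, Cocyc K c →
    ∃ b : V → ZMod 2, ∀ u v, u ≠ v → ({u, v} : Finset V) ∈ K → c {u, v} = b u + b v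

lemma mem_left {a b : V} (h : ({a, b} : Finset V) ∈ K) : ({a} : Finset V) ∈ K :=
  singleton_mem h (by simp)

lemma mem_right {a b : V} (h : ({a, b} : Finset V) ∈ K) : ({b} : Finset V) ∈ K :=
  singleton_mem h (by simp)

lemma single_mem_link {v a : V} : ({a} : Finset V) ∈ link K v ↔ v ≠ a ∧ ({v, a} : Finset V) ∈ K := by
  constructor
  · rintro ⟨_, h2, h3⟩
    exact ⟨by simpa using h2, h3⟩
  · rintro ⟨h1, h2⟩
    exact ⟨Finset.singleton_nonempty a, by simpa using h1, h2⟩

lemma single_mem_del {v a : V} : ({a} : Finset V) ∈ del K v ↔ v ≠ a ∧ ({a} : Finset V) ∈ K := by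
  rw [mem_del]
  constructor
  · rintro ⟨h1, h2⟩; exact ⟨by simpa using h2, h1⟩
  · rintro ⟨h1, h2⟩; exact ⟨h2, by simpa using h1⟩

lemma pair_mem_del {v a b : V} :
    ({a, b} : Finset V) ∈ del K v ↔ v ≠ a ∧ v ≠ b ∧ ({a, b} : Finset V) ∈ K := by
  rw [mem_del]
  constructor
  · rintro ⟨h1, h2⟩
    simp only [Finset.mem_insert, Finset.mem_singleton, not_or] at h2
    exact ⟨h2.1, h2.2, h1⟩
  · rintro ⟨h1, h2, h3⟩
    refine ⟨h3, ?_⟩
    simp only [Finset.mem_insert, Finset.mem_singleton, not_or]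
    exact ⟨h1, h2⟩

lemma pair_mem_link {v a b : V} :
    ({a, b} : Finset V) ∈ link K v ↔ v ≠ a ∧ v ≠ b ∧ ({v, a, b} : Finset V) ∈ K := by
  rw [mem_link]
  constructor
  · rintro ⟨_, h2, h3⟩
    simp only [Finset.mem_insert, Finset.mem_singleton, not_or] at h2
    exact ⟨h2.1, h2.2, h3⟩
  · rintro ⟨h1, h2, h3⟩
    refine ⟨Finset.insert_nonempty _ _, ?_, h3⟩
    simp only [Finset.mem_insert, Finset.mem_singleton, not_or]
    exact ⟨h1, h2⟩

theorem Conn.del' {w : V} (hK : Conn K)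
    (hne : ∃ u, ({u} : Finset V) ∈ link K w)
    (hlk : ∀ A : Set V, (∃ a, a ∈ A ∧ ({a} : Finset V) ∈ link K w) →
      (∃ b, b ∉ A ∧ ({b} : Finset V) ∈ link K w) →
      ∃ a, a ∈ A ∧ ∃ b, b ∉ A ∧ ({a, b} : Finset V) ∈ del K w) : Conn (del K w) := by
  obtain ⟨u0, hu0⟩ := hne
  rw [single_mem_link] at hu0
  refine ⟨⟨u0, single_mem_del.2 ⟨hu0.1, mem_right hu0.2⟩⟩, ?_⟩
  rintro A ⟨a, haA, ha⟩ ⟨b, hbA, hb⟩
  rw [single_mem_del] at ha hb
  by_cases h1 : ∃ a, a ∈ A ∧ ({a} : Finset V) ∈ link K w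
  · by_cases h2 : ∃ b, b ∉ A ∧ ({b} : Finset V) ∈ link K w
    · exact hlk A h1 h2
    · -- all link vertices are in A
      push Not at h2
      obtain ⟨a', ha', b', hb', hab⟩ := hK.2 (A ∪ {w}) ⟨a, Or.inl haA, ha.2⟩
        ⟨b, by rintro (h | h); exacts [hbA h, hb.1 h.symm], hb.2⟩
      have hb'A : b' ∉ A := fun h => hb' (Or.inl h)
      have hb'w : w ≠ b' := fun h => hb' (Or.inr h.symm)
      by_cases haw : w = a'
      · exfalso
        subst haw
        exact h2 b' hb'A (single_mem_link.2 ⟨hb'w, hab⟩)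
      · have ha'A : a' ∈ A := by
          rcases ha' with h | h
          · exact h
          · exact absurd h.symm haw
        exact ⟨a', ha'A, b', hb'A, pair_mem_del.2 ⟨haw, hb'w, hab⟩⟩
  · push Not at h1
    obtain ⟨a', ha', b', hb', hab⟩ := hK.2 (A \ {w}) ⟨a, ⟨haA, fun h => ha.1 h.symm⟩, ha.2⟩
      ⟨b, fun h => hbA h.1, hb.2⟩
    have ha'w : w ≠ a' := fun h => ha'.2 h.symm
    by_cases hbw : w = b'
    · exfalso
      subst hbw
      rw [Finset.pair_comm] at hab
      exact h1 a' ha'.1 (single_mem_link.2 ⟨ha'w, hab⟩)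
    · exact ⟨a', ha'.1, b', fun h => hb' ⟨h, fun h' => hbw h'.symm⟩,
        pair_mem_del.2 ⟨ha'w, hbw, hab⟩⟩

lemma link_le_del {w : V} {s : Finset V} (h : s ∈ link K w) : s ∈ del K w :=
  ⟨link_le _ h, h.2.1⟩

theorem Conn.del {w : V} (hK : Conn K) (hlk : Conn (link K w)) : Conn (del K w) := by
  apply hK.del' hlk.1
  intro A h1 h2
  obtain ⟨a, ha, b, hb, hab⟩ := hlk.2 A h1 h2
  exact ⟨a, ha, b, hb, link_le_del hab⟩

theorem Conn.of_del {v : V} (h : Conn (NE3.del K v)) (hne : ∃ u, ({u} : Finset V) ∈ link K v) :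
    Conn K := by
  obtain ⟨u, hu⟩ := hne
  rw [single_mem_link] at hu
  refine ⟨⟨u, mem_right hu.2⟩, ?_⟩
  rintro A ⟨a, haA, ha⟩ ⟨b, hbA, hb⟩
  by_cases h1 : ∃ a, a ∈ A ∧ ({a} : Finset V) ∈ NE3.del K v
  · by_cases h2 : ∃ b, b ∉ A ∧ ({b} : Finset V) ∈ NE3.del K v
    · obtain ⟨a', ha', b', hb', hab⟩ := h.2 A h1 h2
      exact ⟨a', ha', b', hb', hab.1⟩
    · push Not at h2
      have hbv : v = b := by
        by_contra hc
        exact h2 b hbA (single_mem_del.2 ⟨hc, hb⟩)
      have huA : u ∈ A := by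
        by_contra hc
        exact h2 u hc (single_mem_del.2 ⟨hu.1, mem_right hu.2⟩)
      subst hbv
      exact ⟨u, huA, v, hbA, by rw [Finset.pair_comm]; exact hu.2⟩
  · push Not at h1
    have hav : v = a := by
      by_contra hc
      exact h1 a haA (single_mem_del.2 ⟨hc, ha⟩)
    have huA : u ∉ A := fun hc => h1 u hc (single_mem_del.2 ⟨hu.1, mem_right hu.2⟩)
    subst hav
    exact ⟨v, haA, u, huA, hu.2⟩


theorem H1.of_del {v : V} (h : H1 (NE3.del K v)) (hlk : Conn (link K v)) : H1 K := by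
  intro c hc
  obtain ⟨b, hb⟩ := h c (fun u w x h1 h2 h3 h4 => hc u w x h1 h2 h3 h4.1)
  obtain ⟨⟨a0, ha0⟩, hcn⟩ := hlk
  have key : ∀ a, ({a} : Finset V) ∈ link K v → c {v, a} + b a = c {v, a0} + b a0 := by
    by_contra hcon
    push Not at hcon
    obtain ⟨a1, ha1, hne⟩ := hcon
    obtain ⟨a, ha, a', ha', haa⟩ := hcn {a | c {v, a} + b a = c {v, a0} + b a0} ⟨a0, rfl, ha0⟩
      ⟨a1, hne, ha1⟩
    apply ha'
    have ha : c {v, a} + b a = c {v, a0} + b a0 := ha
    change c {v, a'} + b a' = c {v, a0} + b a0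
    rw [← ha]
    have haane : a ≠ a' := by
      rintro rfl; exact ha' ha
    have hva := (pair_mem_link.1 haa)
    have h1 := hc v a a' hva.1 hva.2.1 haane hva.2.2
    have h2 := hb a a' haane (link_le_del haa)
    rw [h2] at h1
    have : ∀ p q r s : ZMod 2, p + q + (r + s) = 0 → q + s = p + r := by decide
    exact this _ _ _ _ h1
  refine ⟨Function.update b v (c {v, a0} + b a0), ?_⟩
  have hz : ∀ p q r : ZMod 2, p + q = r → p = r + q := by decide
  intro u w huw he
  by_cases huv : u = v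
  · subst huv
    rw [Function.update_self, Function.update_of_ne (Ne.symm huw)]
    exact hz _ _ _ (key w (single_mem_link.2 ⟨huw, he⟩))
  · by_cases hwv : w = v
    · subst hwv
      rw [Function.update_self, Function.update_of_ne huv, Finset.pair_comm]
      rw [Finset.pair_comm] at he
      rw [add_comm]
      exact hz _ _ _ (key u (single_mem_link.2 ⟨Ne.symm huv, he⟩))
    · rw [Function.update_of_ne huv, Function.update_of_ne hwv]
      exact hb u w huw (pair_mem_del.2 ⟨Ne.symm huv, Ne.symm hwv, he⟩)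

/-- extension of a cochain to a cone -/
noncomputable def cext (w : V) (β : V → ZMod 2) (c : Finset V → ZMod 2) (e : Finset V) : ZMod 2 :=
  if w ∈ e then ∑ v ∈ e.erase w, β v else c e

lemma cext_left {w a : V} {β : V → ZMod 2} {c : Finset V → ZMod 2} (h : w ≠ a) :
    cext w β c {w, a} = β a := by
  unfold cext
  rw [if_pos (by simp)]
  have : ({w, a} : Finset V).erase w = {a} := by
    ext x
    simp only [Finset.mem_erase, Finset.mem_insert, Finset.mem_singleton]
    constructor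
    · rintro ⟨h1, h2 | h2⟩
      · exact absurd h2 h1
      · exact h2
    · rintro rfl; exact ⟨h.symm, Or.inr rfl⟩
  rw [this]; simp

lemma cext_right {w a : V} {β : V → ZMod 2} {c : Finset V → ZMod 2} (h : w ≠ a) :
    cext w β c {a, w} = β a := by
  rw [Finset.pair_comm, cext_left h]

lemma cext_of_ne {w a b : V} {β : V → ZMod 2} {c : Finset V → ZMod 2} (h : w ≠ a) (h' : w ≠ b) :
    cext w β c {a, b} = c {a, b} := by
  unfold cext
  rw [if_neg]
  simp only [Finset.mem_insert, Finset.mem_singleton, not_or]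
  exact ⟨h, h'⟩

lemma Cocyc.cext {w : V} {β : V → ZMod 2} {c : Finset V → ZMod 2}
    (hc : Cocyc (NE3.del K w) c)
    (hβ : ∀ u v, u ≠ v → ({u, v} : Finset V) ∈ link K w → c {u, v} = β u + β v) :
    Cocyc K (NE3.cext w β c) := by
  have hz : ∀ p q : ZMod 2, p + q + (p + q) = 0 := by decide
  have hz2 : ∀ p q : ZMod 2, p + (p + q) + q = 0 := by decide
  have hz3 : ∀ p q : ZMod 2, p + q + p + q = 0 := by decide
  intro u v x huv hux hvx hf
  by_cases h1 : w = u
  · subst h1
    rw [cext_left huv, cext_left hux, cext_of_ne huv hux, hβ v x hvx (pair_mem_link.2 ⟨huv, hux, hf⟩)]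
    exact hz _ _
  · by_cases h2 : w = v
    · subst h2
      have hf' : ({w, u, x} : Finset V) ∈ K := by rw [Finset.insert_comm]; exact hf
      rw [cext_right h1, cext_of_ne h1 hvx, cext_left hvx,
        hβ u x hux (pair_mem_link.2 ⟨h1, hvx, hf'⟩)]
      exact hz2 _ _
    · by_cases h3 : w = x
      · subst h3
        have hf' : ({w, u, v} : Finset V) ∈ K := by
          rw [Finset.insert_comm, Finset.pair_comm w v]; exact hf
        rw [cext_of_ne h1 h2, cext_right h1, cext_right h2,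
          hβ u v huv (pair_mem_link.2 ⟨h1, h2, hf'⟩)]
        exact hz3 _ _
      · rw [cext_of_ne h1 h2, cext_of_ne h1 h3, cext_of_ne h2 h3]
        apply hc u v x huv hux hvx
        refine ⟨hf, ?_⟩
        simp only [Finset.mem_insert, Finset.mem_singleton, not_or]
        exact ⟨h1, h2, h3⟩

theorem H1.del' {w : V} (hK : H1 K)
    (hlk : ∀ c, Cocyc (NE3.del K w) c → ∃ β : V → ZMod 2, ∀ u v, u ≠ v →
      ({u, v} : Finset V) ∈ link K w → c {u, v} = β u + β v) : H1 (NE3.del K w) := by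
  intro c hc
  obtain ⟨β, hβ⟩ := hlk c hc
  obtain ⟨b, hb⟩ := hK _ (hc.cext hβ)
  refine ⟨b, ?_⟩
  intro u v huv he
  rw [pair_mem_del] at he
  rw [← hb u v huv he.2.2, cext_of_ne he.1 he.2.1]

theorem H1.del {w : V} (hK : H1 K) (hlk : H1 (link K w)) : H1 (NE3.del K w) := by
  apply hK.del'
  intro c hc
  obtain ⟨β, hβ⟩ := hlk c (fun u v x h1 h2 h3 h4 => hc u v x h1 h2 h3 (link_le_del h4))
  exact ⟨β, hβ⟩

theorem NonEvasive.conn_H1 (h : NonEvasive K) : Conn K ∧ H1 K := by
  induction h with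
  | point K v h =>
    refine ⟨⟨⟨v, (h _).2 rfl⟩, ?_⟩, ?_⟩
    · rintro A ⟨a, haA, ha⟩ ⟨b, hbA, hb⟩
      have h1 := (h _).1 ha
      have h2 := (h _).1 hb
      rw [← h2, Finset.singleton_inj] at h1
      exact absurd (h1 ▸ haA) hbA
    · intro c _
      refine ⟨fun _ => 0, ?_⟩
      intro u w huw he
      have h1 := (h _).1 he
      have h2 := Finset.card_pair huw
      rw [h1] at h2
      simp at h2
  | step K v hl hd ihl ihd =>
    exact ⟨ihd.1.of_del hl.exists_vertex, ihd.2.of_del ihl.1⟩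

lemma ps0_other {S : PreAbstractSimplicialComplex V} (h : PS 0 S) {x : V} (hx : {x} ∈ S) :
    ∃ y, y ≠ x ∧ ∀ s, s ∈ S ↔ s = {x} ∨ s = {y} := by
  obtain ⟨a, b, hab, h⟩ := h
  rcases (h _).1 hx with h1 | h1
  · rw [Finset.singleton_inj] at h1
    subst h1
    exact ⟨b, hab.symm, h⟩
  · rw [Finset.singleton_inj] at h1
    subst h1
    refine ⟨a, hab, fun s => ?_⟩
    rw [h s, or_comm]

/-- all vertex links consist of two points -/
def Reg (Γ : PreAbstractSimplicialComplex V) : Prop := ∀ v, {v} ∈ Γ → PS 0 (link Γ v)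

variable {Γ : PreAbstractSimplicialComplex V}

lemma single_mem_res {W : Set V} {a : V} : ({a} : Finset V) ∈ res K W ↔ {a} ∈ K ∧ a ∈ W := by
  rw [mem_res]; simp

lemma pair_mem_res {W : Set V} {a b : V} :
    ({a, b} : Finset V) ∈ res K W ↔ {a, b} ∈ K ∧ a ∈ W ∧ b ∈ W := by
  rw [mem_res]; simp [Set.insert_subset_iff]

theorem Reg.nonEvasive (hΓ : Reg Γ) : ∀ (n : ℕ) (W : Finset V), W.card = n →
    Conn (res Γ W) → (∃ a, a ∈ W ∧ ∃ a', a' ∉ W ∧ ({a, a'} : Finset V) ∈ Γ) →
    NonEvasive (res Γ W) := by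
  intro n
  induction n with
  | zero =>
    rintro W hW _ ⟨a, ha, _⟩
    rw [Finset.card_eq_zero] at hW
    rw [hW] at ha
    simp at ha
  | succ n ih =>
    rintro W hW hC ⟨a, ha, a', ha', he⟩
    have haa : a ≠ a' := by rintro rfl; exact ha' ha
    have hlk : ({a'} : Finset V) ∈ link Γ a := single_mem_link.2 ⟨haa, he⟩
    obtain ⟨b, hba', hb⟩ := ps0_other (hΓ a (mem_left he)) hlk
    have hbl : ({b} : Finset V) ∈ link Γ a := (hb _).2 (Or.inr rfl)
    have hbl' := single_mem_link.1 hbl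
    by_cases hbW : b ∈ W
    · have hlink : ∀ s, s ∈ link (res Γ W) a ↔ s = {b} := by
        intro s
        rw [link_res (by exact_mod_cast ha), mem_res, hb s]
        constructor
        · rintro ⟨h1 | h1, h2⟩
          · exfalso; rw [h1] at h2; apply ha'; simpa using h2
          · exact h1
        · rintro rfl
          exact ⟨Or.inr rfl, by simpa using hbW⟩
      have hlne : NonEvasive (link (res Γ W) a) := NonEvasive.point _ b hlink
      have hdel : NE3.del (res Γ (W : Set V)) a = res Γ ((W.erase a : Finset V) : Set V) := by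
        rw [del_res, Finset.coe_erase]
      apply NonEvasive.step _ a hlne
      have hCd := hC.del hlne.conn_H1.1
      rw [hdel] at hCd ⊢
      apply ih (W.erase a) (by rw [Finset.card_erase_of_mem ha, hW]; rfl) hCd
      refine ⟨b, Finset.mem_erase.2 ⟨Ne.symm hbl'.1, hbW⟩, a, Finset.notMem_erase _ _, ?_⟩
      rw [Finset.pair_comm]; exact hbl'.2
    · have hiso : ∀ x, ({x} : Finset V) ∈ res Γ (W : Set V) → x = a := by
        intro x hx
        by_contra hxa
        obtain ⟨p, hp, q, hq, hpq⟩ := hC.2 {a} ⟨a, rfl, single_mem_res.2 ⟨mem_left he, ha⟩⟩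
          ⟨x, hxa, hx⟩
        have hp : p = a := hp
        subst hp
        have hq : q ≠ p := hq
        rw [pair_mem_res] at hpq
        rcases (hb _).1 (single_mem_link.2 ⟨Ne.symm hq, hpq.1⟩) with h | h
        · rw [Finset.singleton_inj] at h
          subst h; exact ha' hpq.2.2
        · rw [Finset.singleton_inj] at h
          subst h; exact hbW hpq.2.2
      apply NonEvasive.point _ a
      intro s
      constructor
      · intro hs
        apply Finset.eq_singleton_iff_nonempty_unique_mem.2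
        exact ⟨nonempty_of_mem hs, fun x hx => hiso x (singleton_mem hs hx)⟩
      · rintro rfl
        exact single_mem_res.2 ⟨mem_left he, ha⟩

lemma PS.conn_one (h : PS 1 Γ) : Conn Γ := by
  obtain ⟨h1, x, hx, hne⟩ := h
  apply hne.conn_H1.1.of_del
  obtain ⟨a, b, _, hab⟩ := h1 x hx
  exact ⟨a, (hab _).2 (Or.inl rfl)⟩

lemma PS.reg (h : PS 1 Γ) : Reg Γ := h.1

end NE3
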