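import Pool.Agent.Hhelper58.Comb

/-! Components of two-regular graphs are cycles. -/

set_option linter.unusedSectionVars false
set_option linter.deprecated false
set_option linter.unusedSimpArgs false

namespace NE3

open Set Topology Metric

variable {V : Type*} [DecidableEq V]
variable {K L M Γ : PreAbstractSimplicialComplex V}

/-- a component -/
theorem exists_comp {x0 : V} (hx0 : {x0} ∈ Γ) :
    ∃ W : Set V, x0 ∈ W ∧ (∀ u ∈ W, ∀ v, ({u, v} : Finset V) ∈ Γ → v ∈ W) ∧ Conn (res Γ W) := by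
  set W : Set V := {v | ∀ A : Set V, x0 ∈ A → (∀ u ∈ A, ∀ v, ({u, v} : Finset V) ∈ Γ → v ∈ A) →
    v ∈ A} with hW
  have h0 : x0 ∈ W := fun A hA _ => hA
  have hcl : ∀ u ∈ W, ∀ v, ({u, v} : Finset V) ∈ Γ → v ∈ W := by
    intro u hu v huv A hA hAc
    exact hAc u (hu A hA hAc) v huv
  refine ⟨W, h0, hcl, ⟨x0, single_mem_res.2 ⟨hx0, h0⟩⟩, ?_⟩
  rintro A ⟨a, haA, ha⟩ ⟨b, hbA, hb⟩
  rw [single_mem_res] at ha hb
  by_contra hcon
  push Not at hcon
  by_cases hx : x0 ∈ A
  · have := hb.2 (A ∩ W) ⟨hx, h0⟩ (by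
      rintro u ⟨hu, huW⟩ v huv
      have hvW := hcl u huW v huv
      refine ⟨?_, hvW⟩
      by_contra hv
      exact hcon u hu v hv (pair_mem_res.2 ⟨huv, huW, hvW⟩))
    exact hbA this.1
  · have := ha.2 (W \ A) ⟨h0, hx⟩ (by
      rintro u ⟨huW, hu⟩ v huv
      have hvW := hcl u huW v huv
      refine ⟨hvW, ?_⟩
      intro hv
      rw [Finset.pair_comm] at huv
      exact hcon v hv u hu (pair_mem_res.2 ⟨huv, hvW, huW⟩))
    exact this.2 haA

/-- handshake argument -/
lemma no_odd [Fintype V] (hΓ : Reg Γ) {x p q : V} (hp : ({p} : Finset V) ∈ link Γ x)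
    (h : ∀ s, s ∈ link Γ x ↔ s = {p} ∨ s = {q}) {A : Set V} (hpA : p ∈ A) (hqA : q ∉ A)
    (hx : x ∉ A) (hA : ∀ v ∈ A, ({v} : Finset V) ∈ Γ)
    (hcl : ∀ u ∈ A, ∀ v, v ≠ x → ({u, v} : Finset V) ∈ Γ → v ∈ A) : False := by
  classical
  set G : SimpleGraph V :=
    { Adj := fun u v => u ≠ v ∧ u ∈ A ∧ v ∈ A ∧ ({u, v} : Finset V) ∈ Γ
      symm := ⟨fun u v h => ⟨h.1.symm, h.2.2.1, h.2.1, by rw [Finset.pair_comm]; exact h.2.2.2⟩⟩
      loopless := ⟨fun u h => h.1 rfl⟩ } with hG
  have hadj : ∀ u v, G.Adj u v ↔ u ≠ v ∧ u ∈ A ∧ v ∈ A ∧ ({u, v} : Finset V) ∈ Γ :=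
    fun u v => Iff.rfl
  have hsum := G.sum_degrees_eq_twice_card_edges
  have hpx := single_mem_link.1 hp
  have hdegp : G.degree p = 1 := by
    have hxl : ({x} : Finset V) ∈ link Γ p :=
      single_mem_link.2 ⟨hpx.1.symm, by rw [Finset.pair_comm]; exact hpx.2⟩
    obtain ⟨y, hyx, hy⟩ := ps0_other (hΓ p (hA p hpA)) hxl
    have hyl := single_mem_link.1 ((hy {y}).2 (Or.inr rfl))
    have : G.neighborFinset p = {y} := by
      ext v
      rw [SimpleGraph.mem_neighborFinset, hadj, Finset.mem_singleton]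
      constructor
      · rintro ⟨h1, h2, h3, h4⟩
        rcases (hy {v}).1 (single_mem_link.2 ⟨h1, h4⟩) with h5 | h5
        · rw [Finset.singleton_inj] at h5
          subst h5; exact absurd h3 hx
        · exact Finset.singleton_inj.1 h5
      · rintro rfl
        exact ⟨hyl.1, hpA, hcl p hpA v hyx hyl.2, hyl.2⟩
    rw [← SimpleGraph.card_neighborFinset_eq_degree, this, Finset.card_singleton]
  have hdeg : ∀ u ∈ A, u ≠ p → G.degree u = 2 := by
    intro u hu hup
    obtain ⟨a, b, hab, hl⟩ := hΓ u (hA u hu)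
    have hal := single_mem_link.1 ((hl {a}).2 (Or.inl rfl))
    have hbl := single_mem_link.1 ((hl {b}).2 (Or.inr rfl))
    have hnx : ∀ v, ({v} : Finset V) ∈ link Γ u → v ≠ x := by
      rintro v hv rfl
      have hv' := single_mem_link.1 hv
      have : ({u} : Finset V) ∈ link Γ v :=
        single_mem_link.2 ⟨hv'.1.symm, by rw [Finset.pair_comm]; exact hv'.2⟩
      rcases (h {u}).1 this with h5 | h5
      · exact hup (Finset.singleton_inj.1 h5)
      · rw [Finset.singleton_inj] at h5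
        exact hqA (h5 ▸ hu)
    have : G.neighborFinset u = {a, b} := by
      ext v
      rw [SimpleGraph.mem_neighborFinset, hadj, Finset.mem_insert, Finset.mem_singleton]
      constructor
      · rintro ⟨h1, h2, h3, h4⟩
        rcases (hl {v}).1 (single_mem_link.2 ⟨h1, h4⟩) with h5 | h5
        · exact Or.inl (Finset.singleton_inj.1 h5)
        · exact Or.inr (Finset.singleton_inj.1 h5)
      · rintro (rfl | rfl)
        · exact ⟨hal.1, hu, hcl u hu v (hnx v ((hl _).2 (Or.inl rfl))) hal.2, hal.2⟩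
        · exact ⟨hbl.1, hu, hcl u hu v (hnx v ((hl _).2 (Or.inr rfl))) hbl.2, hbl.2⟩
    rw [← SimpleGraph.card_neighborFinset_eq_degree, this, Finset.card_pair hab]
  have hdeg0 : ∀ u, u ∉ A → G.degree u = 0 := by
    intro u hu
    have : G.neighborFinset u = ∅ := by
      ext v
      rw [SimpleGraph.mem_neighborFinset, hadj]
      constructor
      · rintro ⟨_, h2, _⟩; exact absurd h2 hu
      · intro h; simp at h
    rw [← SimpleGraph.card_neighborFinset_eq_degree, this, Finset.card_empty]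
  have hmod : ((∑ v, G.degree v : ℕ) : ZMod 2) = 1 := by
    rw [Nat.cast_sum, Finset.sum_eq_single p]
    · rw [hdegp]; rfl
    · intro u _ hup
      by_cases hu : u ∈ A
      · rw [hdeg u hu hup]; rfl
      · rw [hdeg0 u hu]; rfl
    · intro h; exact absurd (Finset.mem_univ p) h
  rw [hsum] at hmod
  push_cast at hmod
  have h2 : (2 : ZMod 2) = 0 := rfl
  rw [h2, zero_mul] at hmod
  exact absurd hmod (by decide)

theorem Reg.conn_del [Fintype V] (hΓ : Reg Γ) (hC : Conn Γ) {x : V} (hx : {x} ∈ Γ) :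
    Conn (del Γ x) := by
  obtain ⟨p, q, hpq, h⟩ := hΓ x hx
  have hp : ({p} : Finset V) ∈ link Γ x := (h _).2 (Or.inl rfl)
  have hq : ({q} : Finset V) ∈ link Γ x := (h _).2 (Or.inr rfl)
  have hpx := single_mem_link.1 hp
  have hqx := single_mem_link.1 hq
  -- a separating set containing `p` but not `q` is impossible
  have key : ∀ A : Set V, p ∈ A → q ∉ A →
      (∀ a ∈ A, ∀ b, b ∉ A → ({a, b} : Finset V) ∉ del Γ x) → False := by
    intro A hpA hqA hsep
    refine no_odd hΓ hp h (A := {v | v ∈ A ∧ v ≠ x ∧ ({v} : Finset V) ∈ Γ})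
      ⟨hpA, hpx.1.symm, mem_right hpx.2⟩ (fun h => hqA h.1) (fun h => h.2.1 rfl)
      (fun v hv => hv.2.2) ?_
    rintro u ⟨hu, hux, huΓ⟩ v hvx huv
    refine ⟨?_, hvx, mem_right huv⟩
    by_contra hvA
    exact hsep u hu v hvA (pair_mem_del.2 ⟨hux.symm, hvx.symm, huv⟩)
  apply hC.del' ⟨p, hp⟩
  rintro A ⟨a, haA, ha⟩ ⟨b, hbA, hb⟩
  by_contra hcon
  push Not at hcon
  rcases (h _).1 ha with h1 | h1
  · rw [Finset.singleton_inj] at h1
    subst h1
    rcases (h _).1 hb with h2 | h2
    · rw [Finset.singleton_inj] at h2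
      subst h2; exact hbA haA
    · rw [Finset.singleton_inj] at h2
      subst h2
      exact key A haA hbA (fun a ha b hb => hcon a ha b hb)
  · rw [Finset.singleton_inj] at h1
    subst h1
    rcases (h _).1 hb with h2 | h2
    · rw [Finset.singleton_inj] at h2
      subst h2
      refine key Aᶜ hbA (fun h => h haA) ?_
      intro u hu v hv huv
      rw [Finset.pair_comm] at huv
      exact hcon v (not_not.1 hv) u hu huv
    · rw [Finset.singleton_inj] at h2
      subst h2; exact hbA haA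

/-- a connected two-regular graph is a cycle -/
theorem Reg.ps_one [Fintype V] (hΓ : Reg Γ) (hC : Conn Γ) : PS 1 Γ := by
  obtain ⟨⟨x, hx⟩, _⟩ := id hC
  refine ⟨hΓ, x, hx, ?_⟩
  have hd := hΓ.conn_del hC hx
  have e : del Γ x = res Γ ((Finset.univ.erase x : Finset V) : Set V) := by
    rw [del_eq_res]
    congr 1
    ext v; simp
  rw [e] at hd ⊢
  obtain ⟨p, q, hpq, h⟩ := hΓ x hx
  have hp : ({p} : Finset V) ∈ link Γ x := (h _).2 (Or.inl rfl)
  have hpx := single_mem_link.1 hp
  apply hΓ.nonEvasive _ _ rfl hd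
  exact ⟨p, by simp [hpx.1.symm], x, by simp, by rw [Finset.pair_comm]; exact hpx.2⟩

lemma res_closed_link {W : Set V} (hΓ : Reg Γ)
    (hcl : ∀ u ∈ W, ∀ v, ({u, v} : Finset V) ∈ Γ → v ∈ W) : Reg (res Γ W) := by
  intro v hv
  rw [single_mem_res] at hv
  obtain ⟨a, b, hab, h⟩ := hΓ v hv.1
  refine ⟨a, b, hab, ?_⟩
  intro s
  rw [link_res hv.2, mem_res, h s]
  have ha := single_mem_link.1 ((h {a}).2 (Or.inl rfl))
  have hb := single_mem_link.1 ((h {b}).2 (Or.inr rfl))
  constructor
  · exact fun h => h.1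
  · rintro (rfl | rfl)
    · exact ⟨Or.inl rfl, by simpa using hcl v hv.2 a ha.2⟩
    · exact ⟨Or.inr rfl, by simpa using hcl v hv.2 b hb.2⟩

/-- every two-regular graph contains a cycle as a union of components -/
theorem Reg.exists_cycle [Fintype V] (hΓ : Reg Γ) {x : V} (hx : {x} ∈ Γ) :
    ∃ W : Set V, PS 1 (res Γ W) := by
  obtain ⟨W, _, hcl, hC⟩ := exists_comp hx
  exact ⟨W, (res_closed_link hΓ hcl).ps_one hC⟩

/-! ### counting -/

open Classical in
/-- cofaces of a face -/
noncomputable def cof [Fintype V] (M : PreAbstractSimplicialComplex V) (e : Finset V) :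
    Finset (Finset V) :=
  Finset.univ.filter fun t => t ∈ M ∧ t.card = e.card + 1 ∧ e ⊆ t

lemma mem_cof [Fintype V] {e t : Finset V} : t ∈ cof M e ↔ t ∈ M ∧ t.card = e.card + 1 ∧ e ⊆ t := by
  simp [cof]

lemma exists_insert {e t : Finset V} (h1 : t.card = e.card + 1) (h2 : e ⊆ t) :
    ∃ p, p ∉ e ∧ t = insert p e := by
  have : (t \ e).card = 1 := by rw [Finset.card_sdiff_of_subset h2, h1]; omega
  obtain ⟨p, hp⟩ := Finset.card_eq_one.1 this
  have hpm : p ∈ t \ e := by rw [hp]; simp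
  rw [Finset.mem_sdiff] at hpm
  refine ⟨p, hpm.2, ?_⟩
  ext x
  constructor
  · intro hx
    by_cases hxe : x ∈ e
    · exact Finset.mem_insert_of_mem hxe
    · have : x ∈ t \ e := Finset.mem_sdiff.2 ⟨hx, hxe⟩
      rw [hp, Finset.mem_singleton] at this
      rw [this]; exact Finset.mem_insert_self _ _
  · intro hx
    rcases Finset.mem_insert.1 hx with rfl | h
    · exact hpm.1
    · exact h2 h

/-- the two cofaces of a vertex of a two-regular graph -/
lemma cof_vertex [Fintype V] (hΓ : Reg Γ) {v : V} (hv : {v} ∈ Γ) :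
    ∃ p q, p ≠ q ∧ v ≠ p ∧ v ≠ q ∧ ({p} : Finset V) ∈ link Γ v ∧ ({q} : Finset V) ∈ link Γ v ∧
      cof Γ {v} = {{v, p}, {v, q}} := by
  obtain ⟨p, q, hpq, h⟩ := hΓ v hv
  have hp : ({p} : Finset V) ∈ link Γ v := (h _).2 (Or.inl rfl)
  have hq : ({q} : Finset V) ∈ link Γ v := (h _).2 (Or.inr rfl)
  have hp' := single_mem_link.1 hp
  have hq' := single_mem_link.1 hq
  refine ⟨p, q, hpq, hp'.1, hq'.1, hp, hq, ?_⟩
  ext t
  rw [mem_cof, Finset.mem_insert, Finset.mem_singleton]
  constructor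
  · rintro ⟨h1, h2, h3⟩
    obtain ⟨x, hx, rfl⟩ := exists_insert h2 h3
    have hvx : v ≠ x := fun h => hx (by simp [h])
    rw [Finset.pair_comm] at h1
    rcases (h _).1 (single_mem_link.2 ⟨hvx, h1⟩) with h4 | h4
    · rw [Finset.singleton_inj] at h4
      rw [h4]; left; exact Finset.pair_comm _ _
    · rw [Finset.singleton_inj] at h4
      rw [h4]; right; exact Finset.pair_comm _ _
  · rintro (rfl | rfl)
    · exact ⟨hp'.2, by rw [Finset.card_pair hp'.1]; simp, by simp⟩
    · exact ⟨hq'.2, by rw [Finset.card_pair hq'.1]; simp, by simp⟩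

lemma no_triangle (hΓ : Reg Γ) {u v w : V} (h1 : u ≠ v) (h2 : u ≠ w) (h3 : v ≠ w) :
    ({u, v, w} : Finset V) ∉ Γ := by
  intro h
  have hu : ({u} : Finset V) ∈ Γ := singleton_mem h (by simp)
  obtain ⟨p, q, _, hl⟩ := hΓ u hu
  have h4 : ({v, w} : Finset V) ∈ link Γ u := pair_mem_link.2 ⟨h1, h2, h⟩
  have h5 := Finset.card_pair h3
  rcases (hl _).1 h4 with h6 | h6 <;> rw [h6] at h5 <;> simp at h5

open Classical in
/-- on a cycle a cochain with zero total is a coboundary. -/
theorem cycle_H1 [Fintype V] (h : PS 1 Γ) (c : Finset V → ZMod 2)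
    (hc : ∑ e ∈ Finset.univ.filter (fun e : Finset V => e ∈ Γ ∧ e.card = 2), c e = 0) :
    ∃ β : V → ZMod 2, ∀ u v, u ≠ v → ({u, v} : Finset V) ∈ Γ → c {u, v} = β u + β v := by
  obtain ⟨hΓ, y, hy, hne⟩ := h
  have hΓ : Reg Γ := hΓ
  obtain ⟨b, hb⟩ := hne.conn_H1.2 c (fun u v w h1 h2 h3 h4 => absurd h4.1 (no_triangle hΓ h1 h2 h3))
  set E : Finset (Finset V) := Finset.univ.filter (fun e : Finset V => e ∈ Γ ∧ e.card = 2) with hE
  have hsb : ∑ e ∈ E, ∑ v ∈ e, b v = 0 := by
    have e1 : ∀ e ∈ E, ∑ v ∈ e, b v = ∑ v, if v ∈ e then b v else 0 := by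
      intro e _; rw [Finset.sum_ite_mem, Finset.univ_inter]
    rw [Finset.sum_congr rfl e1, Finset.sum_comm]
    apply Finset.sum_eq_zero
    intro v _
    rw [← Finset.sum_filter]
    by_cases hv : ({v} : Finset V) ∈ Γ
    · obtain ⟨p, q, hpq, hvp, hvq, _, _, hcof⟩ := cof_vertex hΓ hv
      have e2 : E.filter (fun e => v ∈ e) = cof Γ {v} := by
        ext t
        rw [mem_cof, Finset.mem_filter, hE, Finset.mem_filter]
        simp only [Finset.mem_univ, true_and, Finset.card_singleton, Finset.singleton_subset_iff]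
        tauto
      have hne' : ({v, p} : Finset V) ≠ {v, q} := by
        intro h
        have : p ∈ ({v, q} : Finset V) := by rw [← h]; simp
        simp only [Finset.mem_insert, Finset.mem_singleton] at this
        rcases this with h | h
        · exact hvp h.symm
        · exact hpq h
      rw [e2, hcof, Finset.sum_pair hne']
      exact CharTwo.add_self_eq_zero _
    · apply Finset.sum_eq_zero
      intro e he
      rw [Finset.mem_filter, hE, Finset.mem_filter] at he
      exact absurd (singleton_mem he.1.2.1 he.2) hv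
  obtain ⟨p, q, hpq, hyp, hyq, hpl, hql, hcof⟩ := cof_vertex hΓ hy
  have hne' : ({y, p} : Finset V) ≠ {y, q} := by
    intro h
    have : p ∈ ({y, q} : Finset V) := by rw [← h]; simp
    simp only [Finset.mem_insert, Finset.mem_singleton] at this
    rcases this with h | h
    · exact hyp h.symm
    · exact hpq h
  have hsum : ∑ e ∈ E, (c e + ∑ v ∈ e, b v) = 0 := by
    rw [Finset.sum_add_distrib, hc, hsb, add_zero]
  have hsum2 : (c {y, p} + (b y + b p)) + (c {y, q} + (b y + b q)) = 0 := by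
    rw [← hsum]
    have e2 : cof Γ {y} ⊆ E := by
      intro t ht
      rw [mem_cof] at ht
      rw [hE, Finset.mem_filter]
      refine ⟨Finset.mem_univ _, ht.1, ?_⟩
      rw [ht.2.1]; simp
    rw [← Finset.sum_subset e2, hcof, Finset.sum_pair hne', Finset.sum_pair hyp,
      Finset.sum_pair hyq]
    intro t ht htn
    rw [hE, Finset.mem_filter] at ht
    have hyt : y ∉ t := by
      intro hyt
      apply htn
      rw [mem_cof]
      exact ⟨ht.2.1, by rw [ht.2.2]; simp, by simpa using hyt⟩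
    obtain ⟨u, v, huv, rfl⟩ := Finset.card_eq_two.1 ht.2.2
    simp only [Finset.mem_insert, Finset.mem_singleton, not_or] at hyt
    rw [Finset.sum_pair huv, hb u v huv (pair_mem_del.2 ⟨hyt.1, hyt.2, ht.2.1⟩)]
    exact CharTwo.add_self_eq_zero _
  have hlk : ∀ x, ({x} : Finset V) ∈ link Γ y → x = p ∨ x = q := by
    intro x hx
    have hx' := single_mem_link.1 hx
    have : ({y, x} : Finset V) ∈ cof Γ {y} := by
      rw [mem_cof]; exact ⟨hx'.2, by rw [Finset.card_pair hx'.1]; simp, by simp⟩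
    rw [hcof, Finset.mem_insert, Finset.mem_singleton] at this
    rcases this with h | h
    · left
      have : x ∈ ({y, p} : Finset V) := by rw [← h]; simp
      simp only [Finset.mem_insert, Finset.mem_singleton] at this
      rcases this with h | h
      · exact absurd h.symm hx'.1
      · exact h
    · right
      have : x ∈ ({y, q} : Finset V) := by rw [← h]; simp
      simp only [Finset.mem_insert, Finset.mem_singleton] at this
      rcases this with h | h
      · exact absurd h.symm hx'.1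
      · exact h
  set β : V → ZMod 2 := Function.update b y (c {y, p} + b p) with hβ
  have hβy : ∀ x, ({x} : Finset V) ∈ link Γ y → c {y, x} = β y + β x := by
    intro x hx
    have hx' := single_mem_link.1 hx
    rw [hβ, Function.update_self, Function.update_of_ne hx'.1.symm]
    rcases hlk x hx with rfl | rfl
    · have : ∀ r s : ZMod 2, r = r + s + s := by decide
      exact this _ _
    · have : ∀ r s t u v : ZMod 2, (r + (s + t)) + (u + (s + v)) = 0 → u = r + t + v := by decide
      exact this _ _ _ _ _ hsum2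
  refine ⟨β, ?_⟩
  intro u v huv he
  by_cases hu : y = u
  · subst hu
    exact hβy v (single_mem_link.2 ⟨huv, he⟩)
  · by_cases hv : y = v
    · subst hv
      rw [Finset.pair_comm] at he ⊢
      rw [hβy u (single_mem_link.2 ⟨hu, he⟩), add_comm]
    · rw [hβ, Function.update_of_ne (Ne.symm hu), Function.update_of_ne (Ne.symm hv)]
      exact hb u v huv (pair_mem_del.2 ⟨hu, hv, he⟩)

end NE3
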