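import Pool.Agent.Hhelper58.Comb2

/-! Connected closed surfaces with vanishing first cohomology are combinatorial spheres. -/

set_option linter.unusedSectionVars false
set_option linter.deprecated false
set_option linter.unusedSimpArgs false

namespace NE3

open Set Topology Metric

variable {V : Type*} [DecidableEq V] [Fintype V]
variable {K L M Γ : PreAbstractSimplicialComplex V}

/-- all vertex links are cycles -/
def Surf (L : PreAbstractSimplicialComplex V) : Prop := ∀ v, {v} ∈ L → PS 1 (link L v)

lemma res_link_eq {W : Finset V} {w : V} (hw : w ∈ W) :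
    link (res L (W : Set V)) w = res (link L w) (W : Set V) := link_res (by exact_mod_cast hw)

/-- a boundary vertex with connected link is good -/
lemma good_of_conn (hL : Surf L) {W : Finset V} {a a' : V} (ha : a ∈ W) (ha' : a' ∉ W)
    (he : ({a, a'} : Finset V) ∈ L) (hC : Conn (link (res L (W : Set V)) a)) :
    NonEvasive (link (res L (W : Set V)) a) ∧
      ∃ p, p ∈ W ∧ p ≠ a ∧ ({p} : Finset V) ∈ link (res L (W : Set V)) a ∧
        ∃ p', p' ∉ W ∧ ({p, p'} : Finset V) ∈ L := by
  have haa : a ≠ a' := by rintro rfl; exact ha' ha
  rw [res_link_eq ha] at hC ⊢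
  have hPS := hL a (mem_left he)
  obtain ⟨⟨u, hu⟩, _⟩ := id hC
  rw [single_mem_res] at hu
  obtain ⟨p, hp, p', hp', hpp⟩ := hPS.conn_one.2 (W : Set V) ⟨u, hu.2, hu.1⟩
    ⟨a', ha', single_mem_link.2 ⟨haa, he⟩⟩
  refine ⟨hPS.reg.nonEvasive _ W rfl hC ⟨p, hp, p', hp', hpp⟩, p, hp, ?_, ?_, p', hp', ?_⟩
  · rintro rfl
    exact (pair_mem_link.1 hpp).1 rfl
  · rw [single_mem_res]; exact ⟨mem_left hpp, hp⟩
  · exact link_le _ hpp

/-- two good vertices -/
theorem two_good (hL : Surf L) : ∀ (n : ℕ) (W : Finset V), W.card ≤ n →
    Conn (res L (W : Set V)) → H1 (res L (W : Set V)) →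
    (∃ a, a ∈ W ∧ ∃ a', a' ∉ W ∧ ({a, a'} : Finset V) ∈ L) →
    (∃ x y, x ≠ y ∧ ({x} : Finset V) ∈ res L (W : Set V) ∧
      ({y} : Finset V) ∈ res L (W : Set V)) →
    ∃ x y, x ≠ y ∧ x ∈ W ∧ y ∈ W ∧ NonEvasive (link (res L (W : Set V)) x) ∧
      NonEvasive (link (res L (W : Set V)) y) := by
  intro n
  induction n with
  | zero =>
    rintro W hW _ _ ⟨a, ha, _⟩
    rw [Nat.le_zero, Finset.card_eq_zero] at hW
    rw [hW] at ha
    simp at ha
  | succ n ih =>
    rintro W hW hC hH ⟨a, ha, a', ha', he⟩ ⟨x0, y0, hxy0, hx0, hy0⟩
    set K := res L (W : Set V) with hK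
    by_cases hcut : ∀ w ∈ W, {w} ∈ L → Conn (link K w)
    · obtain ⟨h1, p, hpW, hpa, hpl, p', hp', hpp⟩ :=
        good_of_conn hL ha ha' he (hcut a ha (mem_left he))
      obtain ⟨h2, _⟩ := good_of_conn hL hpW hp' hpp (hcut p hpW (mem_left hpp))
      exact ⟨a, p, hpa.symm, ha, hpW, h1, h2⟩
    · push Not at hcut
      obtain ⟨w, hwW, hwL, hnC⟩ := hcut
      have hwK : ({w} : Finset V) ∈ K := single_mem_res.2 ⟨hwL, hwW⟩
      -- the link of `w` is nonempty
      have hlne : ∃ u, ({u} : Finset V) ∈ link K w := by
        obtain ⟨z, hzw, hz⟩ : ∃ z, z ≠ w ∧ ({z} : Finset V) ∈ K := by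
          by_cases h : x0 = w
          · exact ⟨y0, fun h' => hxy0 (h.trans h'.symm), hy0⟩
          · exact ⟨x0, h, hx0⟩
        obtain ⟨p, hp, q, hq, hpq⟩ := hC.2 {w} ⟨w, rfl, hwK⟩ ⟨z, hzw, hz⟩
        have hp : p = w := hp
        subst hp
        exact ⟨q, single_mem_link.2 ⟨fun h => hq h.symm, hpq⟩⟩
      unfold Conn at hnC
      push Not at hnC
      obtain ⟨A, ⟨a1, ha1A, ha1⟩, ⟨a2, ha2A, ha2⟩, hsep⟩ := hnC hlne
      have hsep' : ∀ u v, ({u, v} : Finset V) ∈ link K w → (u ∈ A ↔ v ∈ A) := by
        intro u v huv
        constructor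
        · intro hu
          by_contra hv
          exact hsep u hu v hv huv
        · intro hv
          by_contra hu
          rw [Finset.pair_comm] at huv
          exact hsep v hv u hu huv
      -- the cutting cocycle
      classical
      set χ : V → ZMod 2 := fun v => if v ∈ A then 1 else 0 with hχ
      have hcoc : Cocyc K (cext w χ (fun _ => 0)) := by
        apply Cocyc.cext
        · intro u v x _ _ _ _; rfl
        · intro u v _ huv
          have := hsep' u v huv
          simp only [hχ]
          by_cases hu : u ∈ A
          · rw [if_pos hu, if_pos (this.1 hu)]; rfl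
          · rw [if_neg hu, if_neg (fun h => hu (this.2 h))]; rfl
      obtain ⟨b, hb⟩ := hH _ hcoc
      have hbe : ∀ u v, w ≠ u → w ≠ v → ({u, v} : Finset V) ∈ K → b u = b v := by
        intro u v hu hv huv
        by_cases huv' : u = v
        · rw [huv']
        · have h1 := hb u v huv' huv
          rw [cext_of_ne hu hv] at h1
          have : ∀ p q : ZMod 2, 0 = p + q → p = q := by decide
          exact this _ _ h1
      have hb1 : b a1 = b w + 1 := by
        have h1 := single_mem_link.1 ha1
        have h2 := hb w a1 h1.1 h1.2
        rw [cext_left h1.1] at h2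
        simp only [hχ, if_pos ha1A] at h2
        have : ∀ p q : ZMod 2, 1 = p + q → q = p + 1 := by decide
        exact this _ _ h2
      have hb2 : b a2 = b w + 0 := by
        have h1 := single_mem_link.1 ha2
        have h2 := hb w a2 h1.1 h1.2
        rw [cext_left h1.1] at h2
        simp only [hχ, if_neg ha2A] at h2
        have : ∀ p q : ZMod 2, 0 = p + q → q = p + 0 := by decide
        exact this _ _ h2
      -- one side
      have side : ∀ (i j : ZMod 2) (p q : V), i ≠ j → ({p} : Finset V) ∈ link K w →
          ({q} : Finset V) ∈ link K w → b p = b w + i → b q = b w + j →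
          ∃ x, x ∈ W ∧ x ≠ w ∧ b x = b w + i ∧ NonEvasive (link K x) := by
        intro i j p q hij hp hq hbp hbq
        have hp' := single_mem_link.1 hp
        have hq' := single_mem_link.1 hq
        have hpW : p ∈ W := (single_mem_res.1 (mem_right hp'.2)).2
        have hqW : q ∈ W := (single_mem_res.1 (mem_right hq'.2)).2
        set Wi : Finset V := W.filter fun v => v = w ∨ b v = b w + i with hWi
        have hmem : ∀ v, v ∈ Wi ↔ v ∈ W ∧ (v = w ∨ b v = b w + i) := by
          intro v; rw [hWi, Finset.mem_filter]
        have hsub : Wi ⊆ W := Finset.filter_subset _ _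
        have hwi : w ∈ Wi := (hmem w).2 ⟨hwW, Or.inl rfl⟩
        have hpi : p ∈ Wi := (hmem p).2 ⟨hpW, Or.inr hbp⟩
        have hqi : q ∉ Wi := by
          intro h
          rcases ((hmem q).1 h).2 with h1 | h1
          · exact hq'.1 h1.symm
          · rw [hbq] at h1
            exact hij (add_left_cancel h1).symm
        have hcard : Wi.card < W.card :=
          Finset.card_lt_card ((Finset.ssubset_iff_of_subset hsub).2 ⟨q, hqW, hqi⟩)
        have hstep : ∀ u v, u ≠ w → u ∈ Wi → v ≠ w → ({u, v} : Finset V) ∈ K → v ∈ Wi := by
          intro u v hu hui hv huv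
          have h1 : b u = b w + i := by
            rcases ((hmem u).1 hui).2 with h | h
            · exact absurd h hu
            · exact h
          have h2 := hbe u v (Ne.symm hu) (Ne.symm hv) huv
          exact (hmem v).2 ⟨(pair_mem_res.1 huv).2.2, Or.inr (by rw [← h2, h1])⟩
        have hle : ∀ s, s ∈ res L (Wi : Set V) → s ∈ K := by
          intro s hs
          exact ⟨hs.1, fun x hx => by exact_mod_cast hsub (by exact_mod_cast hs.2 hx)⟩
        have hCi : Conn (res L (Wi : Set V)) := by
          refine ⟨⟨w, single_mem_res.2 ⟨hwL, by exact_mod_cast hwi⟩⟩, ?_⟩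
          rintro B ⟨u, huB, hu⟩ ⟨v, hvB, hv⟩
          have hui := (single_mem_res.1 hu).2
          have hvi := (single_mem_res.1 hv).2
          by_cases hwB : w ∈ B
          · obtain ⟨u', hu', v', hv', huv⟩ := hC.2 (B ∪ (Wi : Set V)ᶜ)
              ⟨u, Or.inl huB, hle _ hu⟩
              ⟨v, by rintro (h | h); exacts [hvB h, h hvi], hle _ hv⟩
            have hv'B : v' ∉ B := fun h => hv' (Or.inl h)
            have hv'i : v' ∈ Wi := by
              by_contra h; exact hv' (Or.inr (fun h' => h (Finset.mem_coe.1 h')))
            have hv'w : v' ≠ w := by rintro rfl; exact hv'B hwB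
            have hu'i : u' ∈ Wi := by
              by_contra h
              have hu'w : u' ≠ w := by rintro rfl; exact h hwi
              rw [Finset.pair_comm] at huv
              exact h (hstep v' u' hv'w hv'i hu'w huv)
            have hu'B : u' ∈ B := by
              rcases hu' with h | h
              · exact h
              · exact absurd (by exact_mod_cast hu'i) h
            exact ⟨u', hu'B, v', hv'B, pair_mem_res.2 ⟨huv.1, by exact_mod_cast hu'i,
              by exact_mod_cast hv'i⟩⟩
          · obtain ⟨u', hu', v', hv', huv⟩ := hC.2 (B ∩ (Wi : Set V))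
              ⟨u, ⟨huB, hui⟩, hle _ hu⟩ ⟨v, fun h => hvB h.1, hle _ hv⟩
            have hu'i : u' ∈ Wi := by exact_mod_cast hu'.2
            have hu'w : u' ≠ w := by rintro rfl; exact hwB hu'.1
            have hv'i : v' ∈ Wi := by
              by_contra h
              have hv'w : v' ≠ w := by rintro rfl; exact h hwi
              exact h (hstep u' v' hu'w hu'i hv'w huv)
            exact ⟨u', hu'.1, v', fun h => hv' ⟨h, by exact_mod_cast hv'i⟩,
              pair_mem_res.2 ⟨huv.1, hu'.2, by exact_mod_cast hv'i⟩⟩
        have hHi : H1 (res L (Wi : Set V)) := by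
          intro c hc
          have hext : Cocyc K (fun e => if e ⊆ Wi then c e else 0) := by
            have key : ∀ u v x, u ≠ v → u ≠ x → v ≠ x → ({u, v, x} : Finset V) ∈ K → u ∉ Wi →
                ¬ ({u, v} : Finset V) ⊆ Wi ∧ ¬ ({u, x} : Finset V) ⊆ Wi ∧
                ¬ ({v, x} : Finset V) ⊆ Wi := by
              intro u v x huv hux hvx hf hu
              refine ⟨fun h => hu (h (by simp)), fun h => hu (h (by simp)), ?_⟩
              intro h
              have hvi : v ∈ Wi := h (by simp)
              have hxi : x ∈ Wi := h (by simp)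
              have huw : u ≠ w := by rintro rfl; exact hu hwi
              have hvu : ({v, u} : Finset V) ∈ K :=
                mem_of_subset hf (by intro z; simp only [Finset.mem_insert, Finset.mem_singleton]; tauto)
                  (Finset.insert_nonempty _ _)
              have hxu : ({x, u} : Finset V) ∈ K :=
                mem_of_subset hf (by intro z; simp only [Finset.mem_insert, Finset.mem_singleton]; tauto)
                  (Finset.insert_nonempty _ _)
              have hvw : v = w := by
                by_contra hvw
                exact hu (hstep v u hvw hvi huw hvu)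
              have hxw : x = w := by
                by_contra hxw
                exact hu (hstep x u hxw hxi huw hxu)
              exact hvx (hvw.trans hxw.symm)
            intro u v x huv hux hvx hf
            dsimp only
            by_cases hu : u ∈ Wi
            · by_cases hv : v ∈ Wi
              · by_cases hx : x ∈ Wi
                · have e1 : ({u, v} : Finset V) ⊆ Wi := by
                    intro z; simp only [Finset.mem_insert, Finset.mem_singleton]
                    rintro (rfl | rfl) <;> assumption
                  have e2 : ({u, x} : Finset V) ⊆ Wi := by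
                    intro z; simp only [Finset.mem_insert, Finset.mem_singleton]
                    rintro (rfl | rfl) <;> assumption
                  have e3 : ({v, x} : Finset V) ⊆ Wi := by
                    intro z; simp only [Finset.mem_insert, Finset.mem_singleton]
                    rintro (rfl | rfl) <;> assumption
                  rw [if_pos e1, if_pos e2, if_pos e3]
                  apply hc u v x huv hux hvx
                  refine ⟨hf.1, ?_⟩
                  intro z hz
                  simp only [Finset.coe_insert, Finset.coe_singleton, Set.mem_insert_iff,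
                    Set.mem_singleton_iff] at hz
                  rcases hz with rfl | rfl | rfl
                  · exact_mod_cast hu
                  · exact_mod_cast hv
                  · exact_mod_cast hx
                · have hf' : ({x, u, v} : Finset V) ∈ K := by
                    rw [Finset.insert_comm, Finset.pair_comm x v]; exact hf
                  obtain ⟨h1, h2, h3⟩ := key x u v hux.symm hvx.symm huv hf' hx
                  rw [Finset.pair_comm] at h1 h2
                  rw [if_neg h1, if_neg h2, if_neg h3]; rfl
              · have hf' : ({v, u, x} : Finset V) ∈ K := by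
                  rw [Finset.insert_comm]; exact hf
                obtain ⟨h1, h2, h3⟩ := key v u x huv.symm hvx hux hf' hv
                rw [Finset.pair_comm] at h1
                rw [if_neg h1, if_neg h2, if_neg h3]; rfl
            · obtain ⟨h1, h2, h3⟩ := key u v x huv hux hvx hf hu
              rw [if_neg h1, if_neg h2, if_neg h3]; rfl
          obtain ⟨b', hb'⟩ := hH _ hext
          refine ⟨b', ?_⟩
          intro u v huv he
          rw [← hb' u v huv (hle _ he)]
          rw [pair_mem_res] at he
          have e1 : ({u, v} : Finset V) ⊆ Wi := by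
            intro z; simp only [Finset.mem_insert, Finset.mem_singleton]
            rintro (rfl | rfl)
            · exact_mod_cast he.2.1
            · exact_mod_cast he.2.2
          rw [if_pos e1]
        obtain ⟨x, y, hxy, hxi, hyi, hx, hy⟩ := ih Wi (by omega) hCi hHi
          ⟨w, hwi, q, hqi, hq'.2.1⟩ ⟨w, p, hp'.1,
            single_mem_res.2 ⟨hwL, by exact_mod_cast hwi⟩,
            single_mem_res.2 ⟨(single_mem_res.1 (mem_right hp'.2)).1, by exact_mod_cast hpi⟩⟩
        have hlift : ∀ x, x ∈ Wi → x ≠ w → NonEvasive (link (res L (Wi : Set V)) x) →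
            NonEvasive (link K x) := by
          intro x hxi hxw hx
          have : link K x = link (res L (Wi : Set V)) x := by
            apply ext_mem
            intro s
            constructor
            · rintro ⟨h1, h2, h3⟩
              refine ⟨h1, h2, h3.1, ?_⟩
              intro z hz
              rw [Finset.coe_insert] at hz
              rcases hz with rfl | hz
              · exact_mod_cast hxi
              · have hzs : z ∈ s := by exact_mod_cast hz
                by_cases hzw : z = w
                · rw [hzw]; exact_mod_cast hwi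
                · have : ({x, z} : Finset V) ∈ K := by
                    apply mem_of_subset h3 _ (Finset.insert_nonempty _ _)
                    intro y
                    simp only [Finset.mem_insert, Finset.mem_singleton]
                    rintro (rfl | rfl)
                    · exact Or.inl rfl
                    · exact Or.inr hzs
                  exact_mod_cast hstep x z hxw hxi hzw this
            · rintro ⟨h1, h2, h3⟩
              exact ⟨h1, h2, hle _ h3⟩
          rw [this]; exact hx
        have hbx : ∀ x, x ∈ Wi → x ≠ w → b x = b w + i := by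
          intro x hxi hxw
          rcases ((hmem x).1 hxi).2 with h | h
          · exact absurd h hxw
          · exact h
        by_cases hxw : x = w
        · have hyw : y ≠ w := fun h => hxy (hxw.trans h.symm)
          exact ⟨y, hsub hyi, hyw, hbx y hyi hyw, hlift y hyi hyw hy⟩
        · exact ⟨x, hsub hxi, hxw, hbx x hxi hxw, hlift x hxi hxw hx⟩
      obtain ⟨x, hxW, hxw, hbx, hx⟩ := side 1 0 a1 a2 (by decide) ha1 ha2 hb1 hb2
      obtain ⟨y, hyW, hyw, hby, hy⟩ := side 0 1 a2 a1 (by decide) ha2 ha1 hb2 hb1
      refine ⟨x, y, ?_, hxW, hyW, hx, hy⟩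
      rintro rfl
      rw [hbx] at hby
      exact absurd (add_left_cancel hby) (by decide)

/-- proper pieces with vanishing cohomology are non-evasive -/
theorem Surf.nonEvasive (hL : Surf L) : ∀ (n : ℕ) (W : Finset V), W.card ≤ n →
    Conn (res L (W : Set V)) → H1 (res L (W : Set V)) →
    (∃ a, a ∈ W ∧ ∃ a', a' ∉ W ∧ ({a, a'} : Finset V) ∈ L) →
    NonEvasive (res L (W : Set V)) := by
  intro n
  induction n with
  | zero =>
    rintro W hW _ _ ⟨a, ha, _⟩
    rw [Nat.le_zero, Finset.card_eq_zero] at hW
    rw [hW] at ha
    simp at ha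
  | succ n ih =>
    rintro W hW hC hH ⟨a, ha, a', ha', he⟩
    by_cases h : ∃ x y, x ≠ y ∧ ({x} : Finset V) ∈ res L (W : Set V) ∧
      ({y} : Finset V) ∈ res L (W : Set V)
    · obtain ⟨x, _, _, hxW, _, hx, _⟩ := two_good hL _ W le_rfl hC hH ⟨a, ha, a', ha', he⟩ h
      obtain ⟨u, hu⟩ := hx.exists_vertex
      have hCd := hC.del hx.conn_H1.1
      have hHd := hH.del hx.conn_H1.2
      have hdel : NE3.del (res L (W : Set V)) x = res L ((W.erase x : Finset V) : Set V) := by
        rw [del_res, Finset.coe_erase]
      apply NonEvasive.step _ x hx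
      rw [hdel] at hCd hHd ⊢
      have hc : (W.erase x).card ≤ n := by
        rw [Finset.card_erase_of_mem hxW]; omega
      apply ih _ hc hCd hHd
      have hu' := single_mem_link.1 hu
      rw [pair_mem_res] at hu'
      refine ⟨u, Finset.mem_erase.2 ⟨Ne.symm hu'.1, by exact_mod_cast hu'.2.2.2⟩, x,
        Finset.notMem_erase _ _, ?_⟩
      rw [Finset.pair_comm]; exact hu'.2.1
    · push Not at h
      have hav : ({a} : Finset V) ∈ res L (W : Set V) :=
        single_mem_res.2 ⟨mem_left he, by exact_mod_cast ha⟩
      apply NonEvasive.point _ a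
      intro s
      constructor
      · intro hs
        apply Finset.eq_singleton_iff_nonempty_unique_mem.2
        refine ⟨nonempty_of_mem hs, fun x hx => ?_⟩
        by_contra hxa
        exact h x a hxa (singleton_mem hs hx) hav
      · rintro rfl; exact hav

/-- deleting a vertex of a closed surface keeps the first cohomology zero -/
theorem Surf.H1_del (hL : Surf L) (hH : H1 L) {x : V} (hx : {x} ∈ L) : H1 (del L x) := by
  classical
  apply hH.del'
  intro c hc
  apply cycle_H1 (hL x hx) c
  set T : Finset (Finset V) := Finset.univ.filter (fun t : Finset V => t ∈ L ∧ t.card = 3 ∧ x ∉ t)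
    with hT
  set E2 : Finset (Finset V) := Finset.univ.filter (fun e : Finset V => e ∈ L ∧ e.card = 2 ∧ x ∉ e)
    with hE2
  have hTs : ∑ t ∈ T, ∑ e ∈ E2, (if e ⊆ t then c e else 0) = 0 := by
    apply Finset.sum_eq_zero
    intro t ht
    rw [hT, Finset.mem_filter] at ht
    obtain ⟨_, htL, htc, hxt⟩ := ht
    obtain ⟨u, v, w, huv, huw, hvw, rfl⟩ := Finset.card_eq_three.1 htc
    rw [← Finset.sum_filter]
    have hE : E2.filter (fun e => e ⊆ ({u, v, w} : Finset V)) = {{u, v}, {u, w}, {v, w}} := by
      ext e
      rw [Finset.mem_filter, hE2, Finset.mem_filter]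
      simp only [Finset.mem_univ, true_and, Finset.mem_insert, Finset.mem_singleton]
      constructor
      · rintro ⟨⟨h1, h2, h3⟩, h4⟩
        obtain ⟨p, q, hpq, rfl⟩ := Finset.card_eq_two.1 h2
        have hp : p = u ∨ p = v ∨ p = w := by
          have := h4 (show p ∈ ({p, q} : Finset V) by simp)
          simpa using this
        have hq : q = u ∨ q = v ∨ q = w := by
          have := h4 (show q ∈ ({p, q} : Finset V) by simp)
          simpa using this
        rcases hp with rfl | rfl | rfl <;> rcases hq with rfl | rfl | rfl
        · exact absurd rfl hpq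
        · left; rfl
        · right; left; rfl
        · left; exact Finset.pair_comm _ _
        · exact absurd rfl hpq
        · right; right; rfl
        · right; left; exact Finset.pair_comm _ _
        · right; right; exact Finset.pair_comm _ _
        · exact absurd rfl hpq
      · have aux : ∀ p q, p ≠ q → ({p, q} : Finset V) ⊆ {u, v, w} →
            ((({p, q} : Finset V) ∈ L ∧ ({p, q} : Finset V).card = 2 ∧ x ∉ ({p, q} : Finset V)) ∧
              ({p, q} : Finset V) ⊆ {u, v, w}) := by
          intro p q hpq hs
          exact ⟨⟨mem_of_subset htL hs (Finset.insert_nonempty _ _), Finset.card_pair hpq,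
            fun h => hxt (hs h)⟩, hs⟩
        rintro (rfl | rfl | rfl)
        · apply aux u v huv
          intro z; simp only [Finset.mem_insert, Finset.mem_singleton]; tauto
        · apply aux u w huw
          intro z; simp only [Finset.mem_insert, Finset.mem_singleton]; tauto
        · apply aux v w hvw
          intro z; simp only [Finset.mem_insert, Finset.mem_singleton]; tauto
    rw [hE]
    have hne1 : ({u, v} : Finset V) ≠ {u, w} := by
      intro h
      have : v ∈ ({u, w} : Finset V) := by rw [← h]; simp
      simp only [Finset.mem_insert, Finset.mem_singleton] at this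
      rcases this with h | h
      · exact huv h.symm
      · exact hvw h
    have hne2 : ({u, v} : Finset V) ≠ {v, w} := by
      intro h
      have : u ∈ ({v, w} : Finset V) := by rw [← h]; simp
      simp only [Finset.mem_insert, Finset.mem_singleton] at this
      rcases this with h | h
      · exact huv h
      · exact huw h
    have hne3 : ({u, w} : Finset V) ≠ {v, w} := by
      intro h
      have : u ∈ ({v, w} : Finset V) := by rw [← h]; simp
      simp only [Finset.mem_insert, Finset.mem_singleton] at this
      rcases this with h | h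
      · exact huv h
      · exact huw h
    rw [Finset.sum_insert (by simp [hne1, hne2]), Finset.sum_pair hne3, ← add_assoc]
    exact hc u v w huv huw hvw ⟨htL, hxt⟩
  rw [Finset.sum_comm] at hTs
  have hcount : ∀ e ∈ E2, ∑ t ∈ T, (if e ⊆ t then c e else 0) = if e ∈ link L x then c e else 0 := by
    intro e he
    rw [hE2, Finset.mem_filter] at he
    obtain ⟨_, heL, hec, hxe⟩ := he
    rw [← Finset.sum_filter]
    obtain ⟨u, v, huv, rfl⟩ := Finset.card_eq_two.1 hec
    have hvlink : ({v} : Finset V) ∈ link L u := single_mem_link.2 ⟨huv, heL⟩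
    obtain ⟨p, q, hpq, h⟩ := (hL u (mem_left heL)).reg v hvlink
    have hcof : ∀ y, ({y} : Finset V) ∈ link (link L u) v ↔
        (y ∉ ({u, v} : Finset V) ∧ insert y ({u, v} : Finset V) ∈ L) := by
      intro y
      have e1 : ({u, v, y} : Finset V) = insert y {u, v} := by
        ext z; simp only [Finset.mem_insert, Finset.mem_singleton]; tauto
      rw [single_mem_link, pair_mem_link, e1]
      simp only [Finset.mem_insert, Finset.mem_singleton, not_or]
      constructor
      · rintro ⟨h1, _, h3, h4⟩; exact ⟨⟨Ne.symm h3, Ne.symm h1⟩, h4⟩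
      · rintro ⟨⟨h1, h2⟩, h3⟩; exact ⟨Ne.symm h2, huv, Ne.symm h1, h3⟩
    have hall : ∀ y, (y ∉ ({u, v} : Finset V) ∧ insert y ({u, v} : Finset V) ∈ L) ↔
        (y = p ∨ y = q) := by
      intro y
      rw [← hcof, h, Finset.singleton_inj, Finset.singleton_inj]
    have hp := (hall p).2 (Or.inl rfl)
    have hq := (hall q).2 (Or.inr rfl)
    have hTm : ∀ t, t ∈ T.filter (fun t => ({u, v} : Finset V) ⊆ t) ↔
        ∃ y, y ≠ x ∧ (y = p ∨ y = q) ∧ t = insert y {u, v} := by
      intro t
      rw [Finset.mem_filter, hT, Finset.mem_filter]
      constructor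
      · rintro ⟨⟨_, h1, h2, h3⟩, h4⟩
        obtain ⟨y, hy, rfl⟩ := exists_insert (by rw [h2, hec]) h4
        refine ⟨y, ?_, (hall y).1 ⟨hy, h1⟩, rfl⟩
        rintro rfl; exact h3 (Finset.mem_insert_self _ _)
      · rintro ⟨y, hyx, hy, rfl⟩
        have hy' := (hall y).2 hy
        refine ⟨⟨Finset.mem_univ _, hy'.2, ?_, ?_⟩, Finset.subset_insert _ _⟩
        · rw [Finset.card_insert_of_notMem hy'.1, hec]
        · rw [Finset.mem_insert, not_or]; exact ⟨Ne.symm hyx, hxe⟩
    have hxl : ({u, v} : Finset V) ∈ link L x ↔ (x = p ∨ x = q) := by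
      rw [← hall, mem_link]
      constructor
      · rintro ⟨_, h2, h3⟩; exact ⟨h2, h3⟩
      · rintro ⟨h2, h3⟩; exact ⟨Finset.insert_nonempty _ _, h2, h3⟩
    have hins : ∀ y z, y ∉ ({u, v} : Finset V) → insert y ({u, v} : Finset V) = insert z {u, v} →
        y = z := by
      intro y z hy h
      have : y ∈ insert z ({u, v} : Finset V) := by rw [← h]; exact Finset.mem_insert_self _ _
      rcases Finset.mem_insert.1 this with h | h
      · exact h
      · exact absurd h hy
    by_cases hxp : x = p
    · rw [if_pos (hxl.2 (Or.inl hxp))]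
      have : T.filter (fun t => ({u, v} : Finset V) ⊆ t) = {insert q {u, v}} := by
        ext t
        rw [hTm, Finset.mem_singleton]
        constructor
        · rintro ⟨y, hyx, hy | hy, rfl⟩
          · exact absurd (hy.trans hxp.symm) hyx
          · rw [hy]
        · rintro rfl
          exact ⟨q, fun h => hpq (hxp.symm.trans h.symm), Or.inr rfl, rfl⟩
      rw [this, Finset.sum_singleton]
    · by_cases hxq : x = q
      · rw [if_pos (hxl.2 (Or.inr hxq))]
        have : T.filter (fun t => ({u, v} : Finset V) ⊆ t) = {insert p {u, v}} := by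
          ext t
          rw [hTm, Finset.mem_singleton]
          constructor
          · rintro ⟨y, hyx, hy | hy, rfl⟩
            · rw [hy]
            · exact absurd (hy.trans hxq.symm) hyx
          · rintro rfl
            exact ⟨p, Ne.symm hxp, Or.inl rfl, rfl⟩
        rw [this, Finset.sum_singleton]
      · rw [if_neg (fun h => by rcases hxl.1 h with h | h; exacts [hxp h, hxq h])]
        have : T.filter (fun t => ({u, v} : Finset V) ⊆ t) =
            {insert p {u, v}, insert q {u, v}} := by
          ext t
          rw [hTm, Finset.mem_insert, Finset.mem_singleton]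
          constructor
          · rintro ⟨y, hyx, hy | hy, rfl⟩
            · rw [hy]; left; rfl
            · rw [hy]; right; rfl
          · rintro (rfl | rfl)
            · exact ⟨p, Ne.symm hxp, Or.inl rfl, rfl⟩
            · exact ⟨q, Ne.symm hxq, Or.inr rfl, rfl⟩
        rw [this, Finset.sum_pair (fun h => hpq (hins _ _ hp.1 h))]
        exact CharTwo.add_self_eq_zero _
  rw [Finset.sum_congr rfl hcount, ← Finset.sum_filter] at hTs
  rw [← hTs]
  apply Finset.sum_congr _ (fun _ _ => rfl)
  ext e
  rw [Finset.mem_filter, Finset.mem_filter, hE2, Finset.mem_filter]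
  constructor
  · rintro ⟨_, h1, h2⟩
    exact ⟨⟨Finset.mem_univ _, link_le _ h1, h2, h1.2.1⟩, h1⟩
  · rintro ⟨⟨_, _, h2, _⟩, h1⟩
    exact ⟨Finset.mem_univ _, h1, h2⟩

/-- a closed connected surface with vanishing first cohomology is a combinatorial sphere -/
theorem Surf.ps_two (hL : Surf L) (hC : Conn L) (hH : H1 L) : PS 2 L := by
  obtain ⟨⟨x, hx⟩, _⟩ := id hC
  refine ⟨hL, x, hx, ?_⟩
  have hlx := (hL x hx).conn_one
  have hCd := hC.del hlx
  have hHd := hL.H1_del hH hx
  have e : del L x = res L ((Finset.univ.erase x : Finset V) : Set V) := by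
    rw [del_eq_res]
    congr 1
    ext v; simp
  rw [e] at hCd hHd ⊢
  apply hL.nonEvasive _ _ le_rfl hCd hHd
  obtain ⟨p, hp⟩ := hlx.1
  have hp' := single_mem_link.1 hp
  exact ⟨p, by simp [hp'.1.symm], x, by simp, by rw [Finset.pair_comm]; exact hp'.2⟩

end NE3
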