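import Pool.Agent.Hhelper58.Cplx

/-! The closed star of a vertex is a ball, once the link is a sphere. -/

set_option linter.unusedSectionVars false
set_option linter.deprecated false
set_option linter.unusedSimpArgs false

namespace NE3

open Set Topology Metric

variable {V : Type*} [DecidableEq V] [Fintype V]
variable {K S : PreAbstractSimplicialComplex V}
variable {N : Type*} [NormedAddCommGroup N] [NormedSpace ℝ N]

/-- normalised radius -/
noncomputable def rho (v : V) (x : V → ℝ) : ℝ := mx {v}ᶜ x / (x v + mx {v}ᶜ x)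

/-- cone map from the star to the ball -/
noncomputable def cmap (v : V) (Ψ : (V → ℝ) → N) (x : V → ℝ) : N :=
  if x v < 1 then rho v x • Ψ (prj v x) else 0

lemma den_pos {v : V} {x : V → ℝ} (hx : x ∈ geo K) : 0 < x v + mx {v}ᶜ x := by
  have h := mx_univ_pos hx
  rw [mx_union_max (W := {v})] at h
  rcases lt_max_iff.1 h with h | h
  · have : mx {v} x = x v := by
      have h1 : mx (insert v (∅ : Set V)) x = max (x v) (mx ∅ x) := mx_insert (hx.1 v)
      have h2 : mx (∅ : Set V) x = 0 := by
        apply le_antisymm _ (mx_nonneg _ _)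
        apply mx_le le_rfl
        intro u hu; exact absurd hu (Set.notMem_empty u)
      rw [h2, max_eq_left (hx.1 v)] at h1
      simpa using h1
    rw [this] at h
    have := mx_nonneg {v}ᶜ x
    linarith
  · have := hx.1 v
    linarith

lemma rho_nonneg {v : V} {x : V → ℝ} (hx : x ∈ geo K) : 0 ≤ rho v x :=
  div_nonneg (mx_nonneg _ _) (den_pos hx).le

lemma rho_le_one {v : V} {x : V → ℝ} (hx : x ∈ geo K) : rho v x ≤ 1 := by
  unfold rho
  rw [div_le_one (den_pos hx)]
  have := hx.1 v
  linarith

lemma continuousOn_rho {v : V} : ContinuousOn (rho v) (geo K) := by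
  unfold rho
  refine ContinuousOn.div (continuous_mx _).continuousOn
    (((continuous_apply v).add (continuous_mx _)).continuousOn) ?_
  intro x hx
  exact (den_pos hx).ne'

lemma mx_compl_eq_zero {v : V} {x : V → ℝ} (hx : x ∈ geo K) (h : ¬ x v < 1) : mx {v}ᶜ x = 0 := by
  rw [geo_lt_one_or hx h]
  apply le_antisymm _ (mx_nonneg _ _)
  apply mx_le le_rfl
  intro u hu
  rw [Pi.single_eq_of_ne (by simpa using hu)]; simp

lemma norm_cmap {v : V} {Ψ : (V → ℝ) → N} (hΨ : HomeoOn Ψ (geo (link K v)) (sphere 0 1))
    {x : V → ℝ} (hx : x ∈ star' K v) : ‖cmap v Ψ x‖ = rho v x := by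
  unfold cmap
  split_ifs with h
  · have h1 : Ψ (prj v x) ∈ sphere (0:N) 1 := hΨ.mapsTo (prj_mem hx h)
    rw [norm_smul, mem_sphere_zero_iff_norm.1 h1, mul_one,
      Real.norm_of_nonneg (rho_nonneg (star'_subset hx))]
  · rw [norm_zero, rho, mx_compl_eq_zero (star'_subset hx) h, zero_div]

lemma continuousOn_cmap {v : V} {Ψ : (V → ℝ) → N}
    (hΨ : HomeoOn Ψ (geo (link K v)) (sphere 0 1)) :
    ContinuousOn (cmap v Ψ) (star' K v) := by
  intro x₀ hx₀
  by_cases h : x₀ v < 1
  · have h1 : ContinuousWithinAt (fun x => rho v x • Ψ (prj v x)) (star' K v ∩ {x | x v < 1}) x₀ := by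
      apply ContinuousWithinAt.smul
      · exact (continuousOn_rho (K := K) x₀ (star'_subset hx₀)).mono
          (inter_subset_left.trans star'_subset)
      · have h2 : ContinuousOn (fun x => Ψ (prj v x)) (star' K v ∩ {x | x v < 1}) :=
          hΨ.cont.comp (continuous_prj_on.mono inter_subset_right) fun x hx => prj_mem hx.1 hx.2
        exact h2 x₀ ⟨hx₀, h⟩
    have h3 : ContinuousWithinAt (cmap v Ψ) (star' K v ∩ {x | x v < 1}) x₀ := by
      apply h1.congr
      · intro x hx; simp only [cmap]; rw [if_pos (show x v < 1 from hx.2)]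
      · simp only [cmap]; rw [if_pos h]
    rw [ContinuousWithinAt] at h3 ⊢
    have h4 : {x : V → ℝ | x v < 1} ∈ 𝓝 x₀ :=
      (isOpen_lt (continuous_apply v) continuous_const).mem_nhds h
    rwa [nhdsWithin_inter_of_mem' (mem_nhdsWithin_of_mem_nhds h4)] at h3
  · have h0 : cmap v Ψ x₀ = 0 := by simp only [cmap]; rw [if_neg h]
    rw [ContinuousWithinAt, h0, tendsto_zero_iff_norm_tendsto_zero]
    have h1 : Filter.Tendsto (rho v) (𝓝[star' K v] x₀) (𝓝 (rho v x₀)) :=
      (continuousOn_rho (K := K) x₀ (star'_subset hx₀)).mono star'_subset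
    have h2 : rho v x₀ = 0 := by
      rw [rho, mx_compl_eq_zero (star'_subset hx₀) h, zero_div]
    rw [h2] at h1
    refine h1.congr' ?_
    filter_upwards [self_mem_nhdsWithin] with x hx
    exact (norm_cmap hΨ hx).symm

lemma link_apply_self {v : V} {y : V → ℝ} (hy : y ∈ geo (link K v)) : y v = 0 :=
  (mem_link_geo.1 hy).2

lemma mx_link_pos {v : V} {y : V → ℝ} (hy : y ∈ geo (link K v)) : 0 < mx {v}ᶜ y := by
  have := den_pos (v := v) hy
  rw [link_apply_self hy] at this
  linarith

lemma rho_jn {v : V} {y : V → ℝ} {s : ℝ} (hs : 0 ≤ s) :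
    rho v (jn v s y) = s * mx {v}ᶜ y / (1 - s + s * mx {v}ᶜ y) := by
  rw [rho, mx_jn_notMem (by simp) hs, jn_apply_self]

lemma cmap_jn {v : V} {Ψ : (V → ℝ) → N} {y : V → ℝ} (hy : y ∈ geo (link K v)) {s : ℝ}
    (hs : s ∈ Set.Icc (0:ℝ) 1) :
    cmap v Ψ (jn v s y) = (s * mx {v}ᶜ y / (1 - s + s * mx {v}ᶜ y)) • Ψ y := by
  unfold cmap
  rw [jn_apply_self]
  rcases eq_or_lt_of_le hs.1 with h | h
  · rw [← h]; simp
  · rw [if_pos (by linarith), rho_jn hs.1, prj_jn (link_apply_self hy) h]

lemma homeoOn_cmap {v : V} (hv : {v} ∈ K) {Ψ : (V → ℝ) → N}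
    (hΨ : HomeoOn Ψ (geo (link K v)) (sphere 0 1)) :
    HomeoOn (cmap v Ψ) (star' K v) (closedBall 0 1) := by
  refine ⟨continuousOn_cmap hΨ, ?_, ?_, ?_⟩
  · intro x hx
    rw [mem_closedBall_zero_iff, norm_cmap hΨ hx]
    exact rho_le_one (star'_subset hx)
  · intro x hx x' hx' hxx
    have hn : rho v x = rho v x' := by rw [← norm_cmap hΨ hx, ← norm_cmap hΨ hx', hxx]
    by_cases h : x v < 1
    · by_cases h' : x' v < 1
      · have e1 : x = jn v (1 - x v) (prj v x) := (jn_prj h).symm
        have e2 : x' = jn v (1 - x' v) (prj v x') := (jn_prj h').symm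
        have m1 := mx_link_pos (prj_mem hx h)
        have m2 := mx_link_pos (prj_mem hx' h')
        have r1 : rho v x = (1 - x v) * mx {v}ᶜ (prj v x) /
            (1 - (1 - x v) + (1 - x v) * mx {v}ᶜ (prj v x)) := by
          conv_lhs => rw [e1]
          exact rho_jn (by linarith)
        have r2 : rho v x' = (1 - x' v) * mx {v}ᶜ (prj v x') /
            (1 - (1 - x' v) + (1 - x' v) * mx {v}ᶜ (prj v x')) := by
          conv_lhs => rw [e2]
          exact rho_jn (by linarith)
        have hx0 := hx.1 v
        have hx0' := hx'.1 v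
        have hpos : 0 < rho v x := by
          rw [r1]
          apply div_pos (mul_pos (by linarith) m1)
          have := mul_pos (show 0 < 1 - x v by linarith) m1
          linarith
        have hy : prj v x = prj v x' := by
          have h5 : rho v x • Ψ (prj v x) = rho v x • Ψ (prj v x') := by
            have := hxx
            simp only [cmap] at this
            rw [if_pos h, if_pos h', ← hn] at this
            exact this
          have h6 := smul_right_injective N hpos.ne' h5
          exact hΨ.injOn (prj_mem hx h) (prj_mem hx' h') h6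
        rw [r1, r2, hy] at hn
        set m := mx {v}ᶜ (prj v x') with hm
        have d1 : 0 < 1 - (1 - x v) + (1 - x v) * m := by
          have := mul_pos (show 0 < 1 - x v by linarith) m2
          linarith
        have d2 : 0 < 1 - (1 - x' v) + (1 - x' v) * m := by
          have := mul_pos (show 0 < 1 - x' v by linarith) m2
          linarith
        rw [div_eq_div_iff d1.ne' d2.ne'] at hn
        have h7 : m * (x' v - x v) = 0 := by ring_nf at hn ⊢; linarith
        have h8 : x' v = x v := by
          rcases mul_eq_zero.1 h7 with h | h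
          · exact absurd h m2.ne'
          · linarith
        rw [e1, e2, hy, h8]
      · exfalso
        have h9 : rho v x' = 0 := by
          rw [rho, mx_compl_eq_zero (star'_subset hx') h', zero_div]
        rw [h9] at hn
        unfold rho at hn
        rcases div_eq_zero_iff.1 hn with h10 | h10
        · have e1 : x = jn v (1 - x v) (prj v x) := (jn_prj h).symm
          rw [e1, mx_jn_notMem (by simp) (by linarith)] at h10
          have m1 := mx_link_pos (prj_mem hx h)
          have := mul_pos (show 0 < 1 - x v by linarith) m1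
          linarith
        · exact absurd h10 (den_pos (star'_subset hx)).ne'
    · by_cases h' : x' v < 1
      · exfalso
        have h9 : rho v x = 0 := by
          rw [rho, mx_compl_eq_zero (star'_subset hx) h, zero_div]
        rw [h9] at hn
        have hn := hn.symm
        unfold rho at hn
        rcases div_eq_zero_iff.1 hn with h10 | h10
        · have e1 : x' = jn v (1 - x' v) (prj v x') := (jn_prj h').symm
          rw [e1, mx_jn_notMem (by simp) (by linarith)] at h10
          have m1 := mx_link_pos (prj_mem hx' h')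
          have := mul_pos (show 0 < 1 - x' v by linarith) m1
          linarith
        · exact absurd h10 (den_pos (star'_subset hx')).ne'
      · rw [geo_lt_one_or (star'_subset hx) h, geo_lt_one_or (star'_subset hx') h']
  · intro p hp
    rw [mem_closedBall_zero_iff] at hp
    by_cases h0 : p = 0
    · refine ⟨Pi.single v 1, single_mem_star' hv, ?_⟩
      simp [cmap, h0]
    · have hpos : 0 < ‖p‖ := norm_pos_iff.2 h0
      obtain ⟨y, hy, hyp⟩ := hΨ.surjOn (show (‖p‖⁻¹ • p) ∈ sphere (0:N) 1 by
        rw [mem_sphere_zero_iff_norm, norm_smul, norm_inv, norm_norm, inv_mul_cancel₀ hpos.ne'])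
      have hm := mx_link_pos hy
      set m := mx {v}ᶜ y with hmdef
      set r := ‖p‖ with hr
      have hden : 0 < r + m * (1 - r) := by
        have := mul_nonneg hm.le (show 0 ≤ 1 - r by linarith)
        linarith
      refine ⟨jn v (r / (r + m * (1 - r))) y, jn_mem hy ⟨by positivity, ?_⟩, ?_⟩
      · rw [div_le_one hden]
        have := mul_nonneg hm.le (show 0 ≤ 1 - r by linarith)
        linarith
      · rw [cmap_jn hy ⟨by positivity, by
          rw [div_le_one hden]
          have := mul_nonneg hm.le (show 0 ≤ 1 - r by linarith)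
          linarith⟩, hyp, ← hmdef, smul_smul]
        have : r / (r + m * (1 - r)) * m / (1 - r / (r + m * (1 - r)) +
            r / (r + m * (1 - r)) * m) = r := by
          have hm0 := hm.ne'
          have h3 : (1 - r / (r + m * (1 - r)) + r / (r + m * (1 - r)) * m) =
              m / (r + m * (1 - r)) := by
            field_simp
            ring
          rw [h3]
          field_simp
        rw [this, mul_inv_cancel₀ hpos.ne', one_smul]

lemma norm_cmap_eq_one {v : V} {Ψ : (V → ℝ) → N}
    (hΨ : HomeoOn Ψ (geo (link K v)) (sphere 0 1)) {x : V → ℝ} (hx : x ∈ star' K v) :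
    ‖cmap v Ψ x‖ = 1 ↔ x v = 0 := by
  rw [norm_cmap hΨ hx, rho, div_eq_one_iff_eq (den_pos (star'_subset hx)).ne']
  constructor <;> intro h <;> linarith

end NE3
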