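import Pool.Agent.Hhelper58.LocE

/-! Local structure at cone points. -/

set_option linter.unusedSectionVars false
set_option linter.deprecated false
set_option linter.unusedSimpArgs false

namespace NE3

open Set Topology Metric

variable {V : Type*} [DecidableEq V] [Fintype V]
variable {K S L T : PreAbstractSimplicialComplex V}

/-- the infinite cone over a complex -/
def cn (L : PreAbstractSimplicialComplex V) : Set (V → ℝ) :=
  {z | (∀ v, 0 ≤ z v) ∧ (z = 0 ∨ supp z ∈ L)}

lemma zero_mem_cn : (0 : V → ℝ) ∈ cn L := ⟨fun _ => le_rfl, Or.inl rfl⟩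

lemma supp_eq_empty {z : V → ℝ} : supp z = ∅ ↔ z = 0 := by
  constructor
  · intro h
    ext v
    by_contra hv
    have := mem_supp.2 hv
    rw [h] at this
    simp at this
  · rintro rfl
    ext v
    simp [mem_supp]

lemma mem_cn {z : V → ℝ} : z ∈ cn L ↔ (∀ v, 0 ≤ z v) ∧ (supp z = ∅ ∨ supp z ∈ L) := by
  unfold cn
  rw [mem_setOf_eq, supp_eq_empty]

/-- the link of a vertex has a locally Euclidean open cone. -/
theorem LE.cone {v : V} (hv : {v} ∈ S) (h : ∀ x ∈ geo S, LE (geo S) x) {z : V → ℝ}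
    (hz : z ∈ cn (link S v)) : LE (cn (link S v)) z := by
  set A : (V → ℝ) → (V → ℝ) := fun z => (1 + ∑ u, z u)⁻¹ • (Pi.single v 1 + z) with hA
  set B : (V → ℝ) → (V → ℝ) := fun x u => if u = v then 0 else x u / x v with hB
  have hv0 : ∀ z ∈ cn (link S v), z v = 0 := by
    intro z hz
    rcases hz.2 with h0 | h0
    · rw [h0]; rfl
    · by_contra hc; exact h0.2.1 (mem_supp.2 hc)
  have hpos : ∀ z ∈ cn (link S v), 0 < 1 + ∑ u, z u := by
    intro z hz
    have : 0 ≤ ∑ u, z u := Finset.sum_nonneg fun u _ => hz.1 u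
    linarith
  have hAv : ∀ z ∈ cn (link S v), A z v = (1 + ∑ u, z u)⁻¹ := by
    intro z hz
    change (1 + ∑ u, z u)⁻¹ * ((Pi.single v 1 : V → ℝ) v + z v) = _
    rw [hv0 z hz, Pi.single_eq_same, add_zero, mul_one]
  have hAu : ∀ z, ∀ u, u ≠ v → A z u = (1 + ∑ u, z u)⁻¹ * z u := by
    intro z u hu
    change (1 + ∑ u, z u)⁻¹ * ((Pi.single v 1 : V → ℝ) u + z u) = _
    rw [Pi.single_eq_of_ne hu, zero_add]
  have hsuppA : ∀ z ∈ cn (link S v), supp (A z) = insert v (supp z) := by
    intro z hz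
    ext u
    rw [mem_supp, Finset.mem_insert, mem_supp]
    by_cases hu : u = v
    · rw [hu, hAv z hz]
      simp [(hpos z hz).ne']
    · rw [hAu z u hu]
      simp [(hpos z hz).ne', hu]
  have hAgeo : ∀ z ∈ cn (link S v), A z ∈ geo S := by
    intro z hz
    refine ⟨?_, ?_, ?_⟩
    · intro u
      by_cases hu : u = v
      · rw [hu, hAv z hz]; exact (inv_pos.2 (hpos z hz)).le
      · rw [hAu z u hu]; exact mul_nonneg (inv_pos.2 (hpos z hz)).le (hz.1 u)
    · change ∑ u, (1 + ∑ u, z u)⁻¹ * ((Pi.single v 1 : V → ℝ) u + z u) = 1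
      rw [← Finset.mul_sum, Finset.sum_add_distrib]
      have : ∑ u, (Pi.single v 1 : V → ℝ) u = 1 := by simp
      rw [this, inv_mul_cancel₀ (hpos z hz).ne']
    · rw [hsuppA z hz]
      rcases hz.2 with h0 | h0
      · rw [supp_eq_empty.2 h0]; exact hv
      · exact h0.2.2
  have hBmem : ∀ x ∈ geo S, 0 < x v → B x ∈ cn (link S v) := by
    intro x hx hxv
    have hs : supp (B x) = (supp x).erase v := by
      ext u
      rw [mem_supp, Finset.mem_erase, mem_supp]
      change (if u = v then 0 else x u / x v) ≠ 0 ↔ _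
      by_cases hu : u = v
      · simp [hu]
      · simp [hu, hxv.ne']
    rw [mem_cn]
    refine ⟨?_, ?_⟩
    · intro u
      change 0 ≤ (if u = v then 0 else x u / x v)
      split_ifs
      · exact le_rfl
      · exact div_nonneg (hx.1 u) hxv.le
    · rw [hs]
      rcases Finset.eq_empty_or_nonempty ((supp x).erase v) with h0 | h0
      · left; exact h0
      · right
        refine ⟨h0, Finset.notMem_erase _ _, ?_⟩
        rw [Finset.insert_erase (mem_supp.2 hxv.ne')]
        exact hx.2.2
  refine LE.transfer (X := geo S) (X' := cn (link S v)) (W0 := {x | 0 < x v}) (W1 := univ)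
    (A := A) (B := B) (isOpen_lt continuous_const (continuous_apply v)) isOpen_univ
    ?_ ?_ ?_ ?_ ?_ ?_ ⟨hz, mem_univ _⟩ (h _ (hAgeo z hz))
  · apply ContinuousOn.fun_smul
    · apply ContinuousOn.fun_inv₀
      · exact (continuous_const.add (continuous_finsetSum _ fun u _ => continuous_apply u)).continuousOn
      · intro z hz; exact (hpos z hz.1).ne'
    · exact (continuous_const.add continuous_id).continuousOn
  · intro z hz
    refine ⟨hAgeo z hz.1, ?_⟩
    change 0 < A z v
    rw [hAv z hz.1]; exact inv_pos.2 (hpos z hz.1)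
  · apply continuousOn_pi.2
    intro u
    by_cases hu : u = v
    · simp only [hB, hu, if_true]; exact continuousOn_const
    · simp only [hB, hu, if_false]
      refine ContinuousOn.div (continuous_apply u).continuousOn (continuous_apply v).continuousOn ?_
      rintro x ⟨_, hx⟩
      exact (ne_of_gt hx)
  · intro x hx
    exact ⟨hBmem x hx.1 hx.2, mem_univ _⟩
  · intro z hz
    ext u
    change (if u = v then 0 else A z u / A z v) = z u
    split_ifs with hu
    · rw [hu, hv0 z hz.1]
    · rw [hAv z hz.1, hAu z u hu]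
      have := (hpos z hz.1).ne'
      field_simp
  · intro x hx
    have hxv : 0 < x v := hx.2
    have hs : 1 + ∑ u, B x u = (x v)⁻¹ := by
      rw [sum_split v]
      have e1 : B x v = 0 := by simp [hB]
      have e2 : ∑ u ∈ Finset.univ.erase v, B x u = (∑ u ∈ Finset.univ.erase v, x u) / x v := by
        rw [Finset.sum_div]
        apply Finset.sum_congr rfl
        intro u hu
        simp [hB, Finset.ne_of_mem_erase hu]
      have e3 := hx.1.2.1
      rw [sum_split v] at e3
      rw [e1, e2]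
      have : ∑ u ∈ Finset.univ.erase v, x u = 1 - x v := by linarith
      rw [this]
      field_simp
      ring
    ext u
    change (1 + ∑ u, B x u)⁻¹ * ((Pi.single v 1 : V → ℝ) u + B x u) = x u
    rw [hs, inv_inv]
    by_cases hu : u = v
    · rw [hu]; simp [hB]
    · rw [Pi.single_eq_of_ne hu]
      simp only [hB, hu, if_false]
      field_simp
      ring

/-- faces disjoint from `τ` joinable with `τ` -/
def lks (L : PreAbstractSimplicialComplex V) (τ : Finset V) : PreAbstractSimplicialComplex V where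
  faces := {ρ | ρ.Nonempty ∧ Disjoint ρ τ ∧ ρ ∪ τ ∈ L}
  isRelLowerSet_faces := by
    rintro s ⟨hs1, hs2, hs3⟩
    refine ⟨hs1, ?_⟩
    intro t hts ht
    refine ⟨ht, Finset.disjoint_of_subset_left hts hs2, ?_⟩
    exact (L.isRelLowerSet_faces hs3).2 (Finset.union_subset_union_left hts)
      (ht.mono Finset.subset_union_left)

lemma mem_lks {τ ρ : Finset V} : ρ ∈ lks L τ ↔ ρ.Nonempty ∧ Disjoint ρ τ ∧ ρ ∪ τ ∈ L := Iff.rfl

/-- indicator function -/
noncomputable def ind (τ : Finset V) : V → ℝ := fun v => if v ∈ τ then 1 else 0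

lemma supp_ind (τ : Finset V) : supp (ind τ) = τ := by
  ext v
  rw [mem_supp]
  unfold ind
  split_ifs with h <;> simp [h]

variable {F : Type*} [NormedAddCommGroup F] [NormedSpace ℝ F]

lemma continuousOn_smul_bdd {X : Type*} [TopologicalSpace X] {s : Set X} {g : X → ℝ} {T : X → F}
    (hg : ContinuousOn g s) (hT : ContinuousOn T (s ∩ {x | g x ≠ 0}))
    (hb : ∀ x ∈ s, g x ≠ 0 → ‖T x‖ ≤ 1) : ContinuousOn (fun x => g x • T x) s := by
  intro x hx
  by_cases h0 : g x = 0
  · have e : g x • T x = 0 := by rw [h0, zero_smul]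
    rw [ContinuousWithinAt, e, tendsto_zero_iff_norm_tendsto_zero]
    have h1 : Filter.Tendsto (fun x => |g x|) (𝓝[s] x) (𝓝 0) := by
      have := (hg x hx).abs
      rw [ContinuousWithinAt, h0, abs_zero] at this
      exact this
    apply squeeze_zero' (Filter.Eventually.of_forall fun _ => norm_nonneg _) _ h1
    filter_upwards [self_mem_nhdsWithin] with y hy
    rw [norm_smul, Real.norm_eq_abs]
    by_cases hy0 : g y = 0
    · rw [hy0]; simp
    · exact mul_le_of_le_one_right (abs_nonneg _) (hb y hy hy0)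
  · have h1 : ContinuousWithinAt (fun x => g x • T x) (s ∩ {x | g x ≠ 0}) x :=
      ((hg x hx).mono inter_subset_left).smul (hT x ⟨hx, h0⟩)
    have h2 : {x | g x ≠ 0} ∈ 𝓝[s] x := (hg x hx).eventually_ne h0
    rw [ContinuousWithinAt] at h1 ⊢
    rwa [nhdsWithin_inter_of_mem' h2] at h1

variable [FiniteDimensional ℝ F]

lemma finrank_prod_fun (τ : Finset V) :
    Module.finrank ℝ ((τ → ℝ) × F) = Module.finrank ℝ F + τ.card := by
  rw [Module.finrank_prod, Module.finrank_fintype_fun_eq_card, Fintype.card_coe, add_comm]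

/-- if a subcomplex of the link of `τ` is a sphere of the right dimension, it is everything. -/
theorem LE.link_eq {τ : Finset V} (hL : LE (cn L) (ind τ)) (hF : Module.finrank ℝ F + τ.card = 3)
    (hT : ∀ ρ ∈ T, ρ ∈ lks L τ) {Ψ : (V → ℝ) → F} (hΨ : HomeoOn Ψ (geo T) (sphere 0 1))
    (hτ : τ = ∅ ∨ τ ∈ L) {ρ : Finset V} (hρ : ρ ∈ lks L τ) : ρ ∈ T := by
  obtain ⟨g, hg, hgl, hgr⟩ := hΨ.exists_inv isCompact_geo
  set w : F → V → ℝ := fun p u => ‖p‖ * g (‖p‖⁻¹ • p) u with hw
  set Φ : (τ → ℝ) × F → V → ℝ := fun q u => if h : u ∈ τ then 1 + q.1 ⟨u, h⟩ else w q.2 u with hΦ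
  set U : Set ((τ → ℝ) × F) := ball 0 1 with hU
  have hUq : ∀ q ∈ U, ∀ i, |q.1 i| < 1 := by
    intro q hq i
    rw [hU, mem_ball_zero_iff] at hq
    have h1 : ‖q.1 i‖ ≤ ‖q.1‖ := norm_le_pi_norm _ _
    have h2 : ‖q.1‖ ≤ ‖q‖ := _root_.norm_fst_le q
    rw [Real.norm_eq_abs] at h1
    linarith
  have hsph : ∀ p : F, p ≠ 0 → ‖p‖⁻¹ • p ∈ sphere (0:F) 1 := by
    intro p hp
    rw [mem_sphere_zero_iff_norm, norm_smul, norm_inv, norm_norm, inv_mul_cancel₀]
    exact norm_ne_zero_iff.2 hp
  have hy : ∀ p : F, p ≠ 0 → g (‖p‖⁻¹ • p) ∈ geo T := fun p hp => hg.mapsTo (hsph p hp)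
  have hyτ : ∀ y ∈ geo T, ∀ u ∈ τ, y u = 0 := by
    intro y hy u hu
    by_contra hc
    exact Finset.disjoint_left.1 (hT _ hy.2.2).2.1 (mem_supp.2 hc) hu
  have hwsum : ∀ p : F, ∑ u, w p u = ‖p‖ := by
    intro p
    by_cases hp : p = 0
    · rw [hp]; simp [hw]
    · change ∑ u, ‖p‖ * g (‖p‖⁻¹ • p) u = ‖p‖
      rw [← Finset.mul_sum, (hy p hp).2.1, mul_one]
  have hwτ : ∀ p : F, ∀ u ∈ τ, w p u = 0 := by
    intro p u hu
    by_cases hp : p = 0
    · rw [hp]; simp [hw]
    · change ‖p‖ * g (‖p‖⁻¹ • p) u = 0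
      rw [hyτ _ (hy p hp) u hu, mul_zero]
  have hwinj : ∀ p p' : F, w p = w p' → p = p' := by
    intro p p' e
    have hn : ‖p‖ = ‖p'‖ := by rw [← hwsum p, ← hwsum p', e]
    by_cases hp : p = 0
    · rw [hp, norm_zero] at hn
      rw [hp]; exact (norm_eq_zero.1 hn.symm).symm
    · have hn0 : ‖p‖ ≠ 0 := norm_ne_zero_iff.2 hp
      have hp' : p' ≠ 0 := by
        intro h0; rw [h0, norm_zero] at hn; exact hn0 hn
      have e1 : g (‖p‖⁻¹ • p) = g (‖p'‖⁻¹ • p') := by
        ext u
        have e2 : ‖p‖ * g (‖p‖⁻¹ • p) u = ‖p'‖ * g (‖p'‖⁻¹ • p') u := congrFun e u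
        rw [← hn] at e2
        rw [← hn]
        exact mul_left_cancel₀ hn0 e2
      have e2 : ‖p‖⁻¹ • p = ‖p'‖⁻¹ • p' := by
        rw [← hgr _ (hsph p hp), e1, hgr _ (hsph p' hp')]
      rw [← hn] at e2
      exact smul_right_injective F (inv_ne_zero hn0) e2
  have hwnn : ∀ p u, 0 ≤ w p u := by
    intro p u
    by_cases hp : p = 0
    · rw [hp]; simp [hw]
    · exact mul_nonneg (norm_nonneg _) ((hy p hp).1 u)
  have hwsupp : ∀ p : F, p ≠ 0 → supp (w p) = supp (g (‖p‖⁻¹ • p)) := by
    intro p hp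
    ext u
    rw [mem_supp, mem_supp]
    change ‖p‖ * g (‖p‖⁻¹ • p) u ≠ 0 ↔ _
    simp [norm_ne_zero_iff.2 hp, hp]
  have hΦsupp : ∀ q ∈ U, supp (Φ q) = supp (w q.2) ∪ τ := by
    intro q hq
    ext u
    rw [mem_supp, Finset.mem_union, mem_supp]
    change (if h : u ∈ τ then 1 + q.1 ⟨u, h⟩ else w q.2 u) ≠ 0 ↔ _
    split_ifs with h
    · have := (abs_lt.1 (hUq q hq ⟨u, h⟩)).1
      simp only [h, or_true, iff_true]
      intro h0
      linarith
    · simp [h]
  have hcw : ∀ u, Continuous fun p : F => w p u := by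
    intro u
    rw [← continuousOn_univ]
    apply continuousOn_mul_bdd continuous_norm.continuousOn
    · have h1 : ContinuousOn (fun p : F => ‖p‖⁻¹ • p) (univ ∩ {p | ‖p‖ ≠ 0}) := by
        apply ContinuousOn.smul _ continuousOn_id
        exact continuous_norm.continuousOn.inv₀ fun p hp => hp.2
      exact (continuous_apply u).comp_continuousOn
        (hg.cont.comp h1 fun p hp => hsph p (norm_ne_zero_iff.1 hp.2))
    · intro p _
      by_cases hp : p = 0
      · rw [hp]; simp
      · rw [abs_mul]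
        apply mul_le_of_le_one_right (abs_nonneg _)
        rw [abs_of_nonneg ((hy p hp).1 u)]
        exact geo_le_one (hy p hp) u
  have hΦc : Continuous Φ := by
    apply continuous_pi
    intro u
    by_cases h : u ∈ τ
    · simp only [hΦ, h, dif_pos]
      exact continuous_const.add ((continuous_apply _).comp continuous_fst)
    · simp only [hΦ, h, dif_neg, not_false_iff]
      exact (hcw u).comp continuous_snd
  have hnhd := LE.open_image (E := (τ → ℝ) × F) (by rw [finrank_prod_fun, hF]) hL (U := U)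
    isOpen_ball (Φ := Φ) hΦc.continuousOn
    (by
      intro q hq q' hq' e
      have e1 : q.1 = q'.1 := by
        ext i
        have := congrFun e i.1
        simp only [hΦ, i.2, dif_pos] at this
        linarith
      have e2 : w q.2 = w q'.2 := by
        ext u
        by_cases h : u ∈ τ
        · rw [hwτ _ u h, hwτ _ u h]
        · have := congrFun e u
          simp only [hΦ, h, dif_neg, not_false_iff] at this
          exact this
      exact Prod.ext e1 (hwinj _ _ e2))
    (by
      intro q hq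
      rw [mem_cn]
      refine ⟨?_, ?_⟩
      · intro u
        change 0 ≤ (if h : u ∈ τ then 1 + q.1 ⟨u, h⟩ else w q.2 u)
        split_ifs with h
        · have := (abs_lt.1 (hUq q hq ⟨u, h⟩)).1
          linarith
        · exact hwnn _ _
      · rw [hΦsupp q hq]
        by_cases hq0 : q.2 = 0
        · have : supp (w q.2) = ∅ := by
            rw [supp_eq_empty, hq0]
            ext u; simp [hw]
          rw [this, Finset.empty_union]
          exact hτ
        · right
          rw [hwsupp _ hq0]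
          exact (hT _ (hy _ hq0).2.2).2.2)
    (a := 0) (by rw [hU]; exact mem_ball_self one_pos)
    (by
      ext u
      change (if h : u ∈ τ then 1 + (0:ℝ) else w 0 u) = if u ∈ τ then 1 else 0
      split_ifs with h
      · ring
      · simp [hw])
  -- the path
  have hpm : ∀ ε : ℝ, 0 < ε → ind τ + ε • ind ρ ∈ cn L := by
    intro ε hε
    rw [mem_cn]
    have hs : supp (ind τ + ε • ind ρ) = ρ ∪ τ := by
      ext u
      rw [mem_supp, Finset.mem_union]
      change (if u ∈ τ then (1:ℝ) else 0) + ε * (if u ∈ ρ then 1 else 0) ≠ 0 ↔ _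
      split_ifs with h1 h2 h2
      · simp [h1, h2]; linarith
      · simp [h1, h2]
      · simp [h1, h2]; linarith
      · simp [h1, h2]
    refine ⟨?_, ?_⟩
    · intro u
      change 0 ≤ (if u ∈ τ then (1:ℝ) else 0) + ε * (if u ∈ ρ then 1 else 0)
      split_ifs <;> linarith
    · rw [hs]; exact Or.inr hρ.2.2
  have htend : Filter.Tendsto (fun ε : ℝ => ind τ + ε • ind ρ) (𝓝[>] 0) (𝓝[cn L] (ind τ)) := by
    apply tendsto_nhdsWithin_iff.2
    refine ⟨?_, ?_⟩
    · have : Continuous fun ε : ℝ => ind τ + ε • ind ρ := by fun_prop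
      have h1 := this.tendsto 0
      rw [zero_smul, add_zero] at h1
      exact h1.mono_left nhdsWithin_le_nhds
    · filter_upwards [self_mem_nhdsWithin] with ε hε
      exact hpm ε hε
  have hev : ∀ᶠ ε in 𝓝[>] (0:ℝ), ind τ + ε • ind ρ ∈ Φ '' U := htend hnhd
  obtain ⟨ε, ⟨q, hq, hqe⟩, hε⟩ := (Filter.Eventually.and hev self_mem_nhdsWithin).exists
  have hε : 0 < ε := hε
  have hval : ∀ u, u ∉ τ → w q.2 u = ε * (if u ∈ ρ then 1 else 0) := by
    intro u hu
    have h1 := congrFun hqe u
    change (if h : u ∈ τ then 1 + q.1 ⟨u, h⟩ else w q.2 u) =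
      (if u ∈ τ then (1:ℝ) else 0) + ε * (if u ∈ ρ then 1 else 0) at h1
    simp only [hu, if_false, dif_neg, not_false_iff, zero_add] at h1
    exact h1
  have hws : supp (w q.2) = ρ := by
    ext u
    rw [mem_supp]
    by_cases hu : u ∈ τ
    · rw [hwτ _ u hu]
      simp only [ne_eq, not_true_eq_false, false_iff]
      exact fun h => Finset.disjoint_left.1 hρ.2.1 h hu
    · rw [hval u hu]
      split_ifs with h
      · simp [h, hε.ne']
      · simp [h]
  have hq0 : q.2 ≠ 0 := by
    intro h0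
    have : supp (w q.2) = ∅ := by
      rw [supp_eq_empty, h0]
      ext u; simp [hw]
    rw [hws] at this
    exact hρ.1.ne_empty this
  rw [← hws, hwsupp _ hq0]
  exact (hy _ hq0).2.2

/-- a continuous injection of the link of `τ` to the sphere is onto. -/
theorem LE.link_surj {τ : Finset V} (hL : LE (cn L) (ind τ))
    (hF : Module.finrank ℝ F + τ.card = 3) {Ψ : (V → ℝ) → F}
    (hc : ContinuousOn Ψ (geo (lks L τ))) (hi : InjOn Ψ (geo (lks L τ)))
    (hm : MapsTo Ψ (geo (lks L τ)) (sphere 0 1)) : SurjOn Ψ (geo (lks L τ)) (sphere 0 1) := by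
  set o : (V → ℝ) → V → ℝ := fun z u => if u ∈ τ then 0 else z u with ho
  set r : (V → ℝ) → ℝ := fun z => ∑ u, o z u with hr
  set P : (V → ℝ) → (τ → ℝ) × F := fun z => (fun i => z i, r z • Ψ ((r z)⁻¹ • o z)) with hP
  set N0 : Set (V → ℝ) := cn L ∩ {z | ∀ t ∈ τ, 0 < z t} with hN0
  have hN0m : N0 ∈ 𝓝[cn L] (ind τ) := by
    apply inter_mem_nhdsWithin
    have : {z : V → ℝ | ∀ t ∈ τ, 0 < z t} = ⋂ t ∈ τ, {z : V → ℝ | 0 < z t} := by ext z; simp
    rw [this]
    apply IsOpen.mem_nhds
    · apply isOpen_biInter_finset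
      intro t _
      exact isOpen_lt continuous_const (continuous_apply t)
    · simp only [mem_iInter, mem_setOf_eq]
      intro t ht
      simp [ind, ht]
  have hoc : Continuous o := by
    apply continuous_pi
    intro u
    by_cases h : u ∈ τ
    · simp only [ho, h, if_true]; exact continuous_const
    · simp only [ho, h, if_false]; exact continuous_apply u
  have hrc : Continuous r := continuous_finsetSum _ fun u _ => (continuous_apply u).comp hoc
  have honn : ∀ z ∈ cn L, ∀ u, 0 ≤ o z u := by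
    intro z hz u
    simp only [ho]
    split_ifs
    · exact le_rfl
    · exact hz.1 u
  have hrnn : ∀ z ∈ cn L, 0 ≤ r z := fun z hz => Finset.sum_nonneg fun u _ => honn z hz u
  have hr0 : ∀ z ∈ cn L, r z = 0 → o z = 0 := by
    intro z hz h0
    have h1 := (Finset.sum_eq_zero_iff_of_nonneg fun u _ => honn z hz u).1 h0
    ext u
    exact h1 u (Finset.mem_univ u)
  have hgeo : ∀ z ∈ N0, r z ≠ 0 → (r z)⁻¹ • o z ∈ geo (lks L τ) := by
    intro z hz h0
    have hrpos : 0 < r z := lt_of_le_of_ne (hrnn z hz.1) h0.symm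
    refine ⟨?_, ?_, ?_⟩
    · intro u
      exact mul_nonneg (inv_pos.2 hrpos).le (honn z hz.1 u)
    · change ∑ u, (r z)⁻¹ * o z u = 1
      rw [← Finset.mul_sum]
      exact inv_mul_cancel₀ h0
    · have hs : supp ((r z)⁻¹ • o z) = supp z \ τ := by
        ext u
        rw [mem_supp, Finset.mem_sdiff, mem_supp]
        change (r z)⁻¹ * (if u ∈ τ then 0 else z u) ≠ 0 ↔ _
        split_ifs with h
        · simp [h]
        · simp [h, h0]
      have hne : (supp ((r z)⁻¹ • o z)).Nonempty := by
        rw [Finset.nonempty_iff_ne_empty]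
        intro h1
        rw [supp_eq_empty] at h1
        apply h0
        have h2 : o z = 0 := by
          have := congrArg (fun y => r z • y) h1
          simp only [smul_smul, mul_inv_cancel₀ h0, one_smul, smul_zero] at this
          exact this
        change ∑ u, o z u = 0
        rw [h2]; simp
      refine ⟨hne, ?_, ?_⟩
      · rw [hs]; exact Finset.sdiff_disjoint
      · rw [hs]
        have hsub : τ ⊆ supp z := fun t ht => mem_supp.2 (hz.2 t ht).ne'
        rw [Finset.sdiff_union_of_subset hsub]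
        rcases (mem_cn.1 hz.1).2 with h1 | h1
        · exfalso
          rw [hs, h1] at hne
          simp at hne
        · exact h1
  have hPc : ContinuousOn P N0 := by
    apply ContinuousOn.prodMk
    · exact (continuous_pi fun i => continuous_apply _).continuousOn
    · apply continuousOn_smul_bdd hrc.continuousOn
      · apply hc.comp
        · apply ContinuousOn.fun_smul
          · exact hrc.continuousOn.fun_inv₀ fun z hz => hz.2
          · exact hoc.continuousOn
        · intro z hz; exact hgeo z hz.1 hz.2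
      · intro z hz h0
        exact (mem_sphere_zero_iff_norm.1 (hm (hgeo z hz h0))).le
  have hnorm : ∀ z ∈ N0, ‖(P z).2‖ = r z := by
    intro z hz
    change ‖r z • Ψ ((r z)⁻¹ • o z)‖ = r z
    rw [norm_smul, Real.norm_of_nonneg (hrnn z hz.1)]
    by_cases h0 : r z = 0
    · rw [h0, zero_mul]
    · rw [mem_sphere_zero_iff_norm.1 (hm (hgeo z hz h0)), mul_one]
  have hPi : InjOn P N0 := by
    intro z hz z' hz' e
    have e1 : ∀ u ∈ τ, z u = z' u := by
      intro u hu
      have := congrFun (congrArg Prod.fst e) ⟨u, hu⟩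
      exact this
    have hrr : r z = r z' := by rw [← hnorm z hz, ← hnorm z' hz', e]
    have e2 : o z = o z' := by
      by_cases h0 : r z = 0
      · rw [hr0 z hz.1 h0, hr0 z' hz'.1 (by rw [← hrr, h0])]
      · have h0' : r z' ≠ 0 := by rwa [← hrr]
        have e3 : r z • Ψ ((r z)⁻¹ • o z) = r z' • Ψ ((r z')⁻¹ • o z') := congrArg Prod.snd e
        rw [← hrr] at e3
        have e4 := smul_right_injective F h0 e3
        have h5 := hgeo z' hz' h0'
        rw [← hrr] at h5
        have e5 := hi (hgeo z hz h0) h5 e4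
        exact smul_right_injective _ (inv_ne_zero h0) e5
    ext u
    by_cases h : u ∈ τ
    · exact e1 u h
    · have := congrFun e2 u
      simpa [ho, h] using this
  have hnhd := LE.nhds_image (E := (τ → ℝ) × F) (by rw [finrank_prod_fun, hF]) hL hN0m hPc hPi
  intro q hq
  have hq1 : ‖q‖ = 1 := mem_sphere_zero_iff_norm.1 hq
  have hP0 : P (ind τ) = (fun _ => 1, 0) := by
    have h1 : o (ind τ) = 0 := by
      ext u
      simp only [ho, ind]
      split_ifs <;> rfl
    have h2 : r (ind τ) = 0 := by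
      change ∑ u, o (ind τ) u = 0
      rw [h1]; simp
    simp only [hP]
    rw [h2, zero_smul]
    congr 1
    ext i
    simp [ind, i.2]
  rw [hP0] at hnhd
  have htend : Filter.Tendsto (fun ε : ℝ => ((fun _ => 1 : τ → ℝ), ε • q)) (𝓝[>] 0)
      (𝓝 ((fun _ => 1 : τ → ℝ), (0:F))) := by
    have : Continuous fun ε : ℝ => ((fun _ => 1 : τ → ℝ), ε • q) := by fun_prop
    have h1 := this.tendsto 0
    rw [zero_smul] at h1
    exact h1.mono_left nhdsWithin_le_nhds
  have hev : ∀ᶠ ε in 𝓝[>] (0:ℝ), ((fun _ => 1 : τ → ℝ), ε • q) ∈ P '' N0 := htend hnhd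
  obtain ⟨ε, ⟨z, hz, hze⟩, hε⟩ := (Filter.Eventually.and hev self_mem_nhdsWithin).exists
  have hε : 0 < ε := hε
  have h1 : (P z).2 = ε • q := congrArg Prod.snd hze
  have h2 : r z = ε := by
    rw [← hnorm z hz, h1, norm_smul, hq1, Real.norm_of_nonneg hε.le, mul_one]
  have h3 : r z ≠ 0 := by rw [h2]; exact hε.ne'
  refine ⟨(r z)⁻¹ • o z, hgeo z hz h3, ?_⟩
  have h4 : r z • Ψ ((r z)⁻¹ • o z) = ε • q := h1
  rw [← h2] at h4
  exact smul_right_injective F h3 h4

end NE3
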