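import Pool.Agent.Hhelper58.HomeoOn

/-! Finite simplicial complexes, links, deletions, non-evasiveness, geometric realisation. -/

set_option linter.unusedSectionVars false
set_option linter.deprecated false

namespace NE3

open Set Topology

variable {V : Type*} [DecidableEq V]

/-- The link of the vertex `v`: nonempty faces `s` avoiding `v` with `s ∪ {v}` a face. -/
def link (K : PreAbstractSimplicialComplex V) (v : V) : PreAbstractSimplicialComplex V where
  faces := {s | s.Nonempty ∧ v ∉ s ∧ insert v s ∈ K}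
  isRelLowerSet_faces := by
    rintro s ⟨hs1, hs2, hs3⟩
    refine ⟨hs1, ?_⟩
    intro t hts ht
    refine ⟨ht, fun h => hs2 (hts h), ?_⟩
    exact (K.isRelLowerSet_faces hs3).2 (Finset.insert_subset_insert v hts)
      (Finset.insert_nonempty v t)

/-- The deletion of the vertex `v`: faces avoiding `v`. -/
def del (K : PreAbstractSimplicialComplex V) (v : V) : PreAbstractSimplicialComplex V where
  faces := {s | s ∈ K ∧ v ∉ s}
  isRelLowerSet_faces := by
    rintro s ⟨hs1, hs2⟩
    refine ⟨(K.isRelLowerSet_faces hs1).1, ?_⟩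
    intro t hts ht
    exact ⟨(K.isRelLowerSet_faces hs1).2 hts ht, fun h => hs2 (hts h)⟩

/-- The induced subcomplex on the vertex set `W`. -/
def res (K : PreAbstractSimplicialComplex V) (W : Set V) : PreAbstractSimplicialComplex V where
  faces := {s | s ∈ K ∧ (s : Set V) ⊆ W}
  isRelLowerSet_faces := by
    rintro s ⟨hs1, hs2⟩
    refine ⟨(K.isRelLowerSet_faces hs1).1, ?_⟩
    intro t hts ht
    exact ⟨(K.isRelLowerSet_faces hs1).2 hts ht,
      fun x hx => hs2 (Finset.mem_coe.2 (hts (Finset.mem_coe.1 hx)))⟩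

/-- Non-evasive complexes. -/
inductive NonEvasive : PreAbstractSimplicialComplex V → Prop
  | point (K : PreAbstractSimplicialComplex V) (v : V) (h : ∀ s, s ∈ K ↔ s = {v}) : NonEvasive K
  | step (K : PreAbstractSimplicialComplex V) (v : V) (hl : NonEvasive (link K v))
      (hd : NonEvasive (del K v)) : NonEvasive K

variable {K S : PreAbstractSimplicialComplex V}

lemma mem_link {v : V} {s : Finset V} :
    s ∈ link K v ↔ s.Nonempty ∧ v ∉ s ∧ insert v s ∈ K := Iff.rfl

lemma mem_del {v : V} {s : Finset V} : s ∈ del K v ↔ s ∈ K ∧ v ∉ s := Iff.rfl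

lemma mem_res {W : Set V} {s : Finset V} : s ∈ res K W ↔ s ∈ K ∧ (s : Set V) ⊆ W := Iff.rfl

lemma nonempty_of_mem {s : Finset V} (h : s ∈ K) : s.Nonempty := (K.isRelLowerSet_faces h).1

lemma mem_of_subset {s t : Finset V} (h : s ∈ K) (hts : t ⊆ s) (ht : t.Nonempty) : t ∈ K :=
  (K.isRelLowerSet_faces h).2 hts ht

lemma singleton_mem {s : Finset V} (h : s ∈ K) {v : V} (hv : v ∈ s) : {v} ∈ K :=
  mem_of_subset h (Finset.singleton_subset_iff.2 hv) (Finset.singleton_nonempty v)

lemma ext_mem {K L : PreAbstractSimplicialComplex V} (h : ∀ s, s ∈ K ↔ s ∈ L) : K = L :=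
  SetLike.ext h

lemma link_le (v : V) {s : Finset V} (h : s ∈ link K v) : s ∈ K :=
  mem_of_subset h.2.2 (Finset.subset_insert v s) h.1

lemma link_res {W : Set V} {v : V} (hv : v ∈ W) : link (res K W) v = res (link K v) W := by
  apply ext_mem
  intro s
  simp only [mem_link, mem_res, Finset.coe_insert, Set.insert_subset_iff]
  tauto

lemma del_res {W : Set V} {v : V} : del (res K W) v = res K (W \ {v}) := by
  apply ext_mem
  intro s
  simp only [mem_del, mem_res, Set.subset_diff, Set.disjoint_singleton_right, Finset.mem_coe]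
  tauto

lemma res_univ : res K Set.univ = K := by
  apply ext_mem; intro s; simp [mem_res]

lemma del_eq_res (v : V) : del K v = res K {v}ᶜ := by
  apply ext_mem
  intro s
  simp only [mem_del, mem_res, Set.subset_compl_singleton_iff, Finset.mem_coe]

/-- a non-evasive complex has a vertex -/
lemma NonEvasive.exists_vertex (h : NonEvasive K) : ∃ v, {v} ∈ K := by
  induction h with
  | point K v h => exact ⟨v, (h _).2 rfl⟩
  | step K v hl hd _ ih =>
    obtain ⟨u, hu⟩ := ih
    exact ⟨u, hu.1⟩

lemma NonEvasive.vertex_of_step {v : V} (hl : NonEvasive (link K v)) : {v} ∈ K := by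
  obtain ⟨u, hu⟩ := hl.exists_vertex
  exact singleton_mem hu.2.2 (Finset.mem_insert_self v _)

/-! ### geometric realisation -/

variable [Fintype V]

/-- the support of a point -/
noncomputable def supp (x : V → ℝ) : Finset V := Finset.univ.filter fun v => x v ≠ 0

lemma mem_supp {x : V → ℝ} {v : V} : v ∈ supp x ↔ x v ≠ 0 := by simp [supp]

/-- The geometric realisation: functions `x : V → ℝ` with nonnegative values, sum `1` and support
a face. -/
def geo (K : PreAbstractSimplicialComplex V) : Set (V → ℝ) :=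
  {x | (∀ v, 0 ≤ x v) ∧ ∑ v, x v = 1 ∧ supp x ∈ K}

lemma supp_nonempty {x : V → ℝ} (h : ∑ v, x v = 1) : (supp x).Nonempty := by
  by_contra hne
  rw [Finset.not_nonempty_iff_eq_empty] at hne
  have : ∑ v, x v = 0 := by
    apply Finset.sum_eq_zero
    intro v _
    by_contra hv
    have := mem_supp.2 hv
    rw [hne] at this
    simp at this
  linarith

/-- the closed simplex spanned by `s` -/
def simp' (s : Finset V) : Set (V → ℝ) := {x | (∀ v, 0 ≤ x v) ∧ ∑ v, x v = 1 ∧ ∀ v, v ∉ s → x v = 0}

lemma isCompact_simp' (s : Finset V) : IsCompact (simp' s) := by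
  have h1 : simp' s ⊆ Set.pi Set.univ (fun _ : V => Set.Icc (0:ℝ) 1) := by
    rintro x ⟨h0, h1, h2⟩ v _
    refine ⟨h0 v, ?_⟩
    rw [← h1]
    exact Finset.single_le_sum (fun i _ => h0 i) (Finset.mem_univ v)
  refine IsCompact.of_isClosed_subset (isCompact_univ_pi fun _ => isCompact_Icc) ?_ h1
  have : simp' s = (⋂ v, {x : V → ℝ | 0 ≤ x v}) ∩ {x | ∑ v, x v = 1} ∩
      (⋂ v, ⋂ _ : v ∉ s, {x : V → ℝ | x v = 0}) := by
    ext x
    simp only [simp', Set.mem_setOf_eq, Set.mem_inter_iff, Set.mem_iInter]
    tauto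
  rw [this]
  refine IsClosed.inter (IsClosed.inter ?_ ?_) ?_
  · exact isClosed_iInter fun v => isClosed_le continuous_const (continuous_apply v)
  · exact isClosed_eq (continuous_finsetSum _ fun v _ => continuous_apply v) continuous_const
  · exact isClosed_iInter fun v => isClosed_iInter fun _ =>
      isClosed_eq (continuous_apply v) continuous_const

lemma geo_eq_iUnion : geo K = ⋃ s ∈ {s : Finset V | s ∈ K}, simp' s := by
  ext x
  simp only [Set.mem_iUnion, Set.mem_setOf_eq, exists_prop]
  constructor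
  · rintro ⟨h0, h1, h2⟩
    refine ⟨supp x, h2, h0, h1, fun v hv => ?_⟩
    by_contra h; exact hv (mem_supp.2 h)
  · rintro ⟨s, hs, h0, h1, h2⟩
    refine ⟨h0, h1, mem_of_subset hs ?_ (supp_nonempty h1)⟩
    intro v hv
    by_contra h
    exact mem_supp.1 hv (h2 v h)

lemma isCompact_geo : IsCompact (geo K) := by
  rw [geo_eq_iUnion]
  exact (Set.toFinite _).isCompact_biUnion fun s _ => isCompact_simp' s

lemma isClosed_geo : IsClosed (geo K) := isCompact_geo.isClosed

lemma geo_mono {K L : PreAbstractSimplicialComplex V} (h : ∀ s, s ∈ K → s ∈ L) : geo K ⊆ geo L :=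
  fun _ hx => ⟨hx.1, hx.2.1, h _ hx.2.2⟩

lemma geo_le_one {x : V → ℝ} (hx : x ∈ geo K) (v : V) : x v ≤ 1 := by
  rw [← hx.2.1]
  exact Finset.single_le_sum (fun i _ => hx.1 i) (Finset.mem_univ v)

/-- closed star of a vertex -/
def star' (K : PreAbstractSimplicialComplex V) (v : V) : Set (V → ℝ) :=
  {x | (∀ v, 0 ≤ x v) ∧ ∑ v, x v = 1 ∧ insert v (supp x) ∈ K}

lemma star'_subset {v : V} : star' K v ⊆ geo K := fun _ hx =>
  ⟨hx.1, hx.2.1, mem_of_subset hx.2.2 (Finset.subset_insert _ _) (supp_nonempty hx.2.1)⟩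

/-- the star as a realisation -/
def starC (K : PreAbstractSimplicialComplex V) (v : V) : PreAbstractSimplicialComplex V where
  faces := {s | s.Nonempty ∧ insert v s ∈ K}
  isRelLowerSet_faces := by
    rintro s ⟨hs1, hs3⟩
    refine ⟨hs1, ?_⟩
    intro t hts ht
    refine ⟨ht, ?_⟩
    exact (K.isRelLowerSet_faces hs3).2 (Finset.insert_subset_insert v hts)
      (Finset.insert_nonempty v t)

lemma geo_starC {v : V} : geo (starC K v) = star' K v := by
  ext x
  constructor
  · rintro ⟨h0, h1, h2⟩; exact ⟨h0, h1, h2.2⟩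
  · rintro ⟨h0, h1, h2⟩; exact ⟨h0, h1, supp_nonempty h1, h2⟩

lemma isCompact_star' {v : V} : IsCompact (star' K v) := by
  rw [← geo_starC]; exact isCompact_geo

/-- in the open star or on the rest -/
lemma mem_star'_of_pos {v : V} {x : V → ℝ} (hx : x ∈ geo K) (hv : x v ≠ 0) : x ∈ star' K v := by
  refine ⟨hx.1, hx.2.1, ?_⟩
  rw [Finset.insert_eq_self.2 (mem_supp.2 hv)]
  exact hx.2.2

lemma mem_link_geo {v : V} {x : V → ℝ} :
    x ∈ geo (link K v) ↔ x ∈ star' K v ∧ x v = 0 := by
  constructor
  · rintro ⟨h0, h1, h2⟩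
    refine ⟨⟨h0, h1, h2.2.2⟩, ?_⟩
    by_contra h; exact h2.2.1 (mem_supp.2 h)
  · rintro ⟨⟨h0, h1, h2⟩, h3⟩
    exact ⟨h0, h1, supp_nonempty h1, fun h => mem_supp.1 h h3, h2⟩

/-! ### cone coordinates -/

/-- projection from the vertex `v` to the link -/
noncomputable def prj (v : V) (x : V → ℝ) : V → ℝ := fun u => if u = v then 0 else x u / (1 - x v)

/-- the point on the segment from the vertex `v` to `y` with parameter `s` -/
def jn (v : V) (s : ℝ) (y : V → ℝ) : V → ℝ := fun u => if u = v then 1 - s else s * y u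

lemma sum_split (v : V) (x : V → ℝ) : ∑ u, x u = x v + ∑ u ∈ Finset.univ.erase v, x u := by
  rw [← Finset.add_sum_erase _ _ (Finset.mem_univ v)]

lemma prj_mem {v : V} {x : V → ℝ} (hx : x ∈ star' K v) (h1 : x v < 1) : prj v x ∈ geo (link K v) := by
  obtain ⟨h0, hs, hf⟩ := hx
  have hpos : 0 < 1 - x v := by linarith
  have hsum : ∑ u, prj v x u = 1 := by
    rw [sum_split v]
    have e1 : prj v x v = 0 := by simp [prj]
    have e2 : ∑ u ∈ Finset.univ.erase v, prj v x u = (∑ u ∈ Finset.univ.erase v, x u) / (1 - x v) := by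
      rw [Finset.sum_div]
      apply Finset.sum_congr rfl
      intro u hu
      simp [prj, Finset.ne_of_mem_erase hu]
    rw [e1, e2, zero_add]
    rw [sum_split v] at hs
    rw [div_eq_one_iff_eq hpos.ne']
    linarith
  have hsupp : supp (prj v x) = (supp x).erase v := by
    ext u
    simp only [mem_supp, Finset.mem_erase, prj]
    by_cases h : u = v
    · simp [h]
    · simp [h, hpos.ne']
  refine ⟨?_, hsum, ?_⟩
  · intro u
    simp only [prj]
    split_ifs
    · exact le_rfl
    · exact div_nonneg (h0 u) hpos.le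
  · rw [hsupp]
    refine ⟨?_, Finset.notMem_erase v _, ?_⟩
    · rw [← hsupp]; exact supp_nonempty hsum
    · refine mem_of_subset hf ?_ (Finset.insert_nonempty _ _)
      exact Finset.insert_subset_insert _ (Finset.erase_subset _ _)

lemma jn_mem {v : V} {y : V → ℝ} (hy : y ∈ geo (link K v)) {s : ℝ} (hs : s ∈ Set.Icc (0:ℝ) 1) :
    jn v s y ∈ star' K v := by
  obtain ⟨h0, h1, hf⟩ := hy
  have hyv : y v = 0 := by
    by_contra h; exact hf.2.1 (mem_supp.2 h)
  refine ⟨?_, ?_, ?_⟩
  · intro u
    simp only [jn]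
    split_ifs
    · linarith [hs.2]
    · exact mul_nonneg hs.1 (h0 u)
  · rw [sum_split v]
    have e1 : jn v s y v = 1 - s := by simp [jn]
    have e2 : ∑ u ∈ Finset.univ.erase v, jn v s y u = s * ∑ u ∈ Finset.univ.erase v, y u := by
      rw [Finset.mul_sum]
      apply Finset.sum_congr rfl
      intro u hu
      simp [jn, Finset.ne_of_mem_erase hu]
    rw [e1, e2]
    rw [sum_split v, hyv] at h1
    have : ∑ u ∈ Finset.univ.erase v, y u = 1 := by linarith
    rw [this]; ring
  · refine mem_of_subset hf.2.2 ?_ (Finset.insert_nonempty _ _)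
    intro u hu
    rcases Finset.mem_insert.1 hu with rfl | hu
    · exact Finset.mem_insert_self _ _
    · by_cases h : u = v
      · subst h; exact Finset.mem_insert_self _ _
      · apply Finset.mem_insert_of_mem
        rw [mem_supp] at hu ⊢
        simp only [jn, h, if_false] at hu
        exact fun h' => hu (by rw [h', mul_zero])

lemma jn_apply_self {v : V} {s : ℝ} {y : V → ℝ} : jn v s y v = 1 - s := by simp [jn]

lemma geo_lt_one_or {v : V} {x : V → ℝ} (hx : x ∈ geo K) (h : ¬ x v < 1) : x = Pi.single v 1 := by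
  have h1 : x v = 1 := le_antisymm (geo_le_one hx v) (not_lt.1 h)
  have hs := hx.2.1
  rw [sum_split v, h1] at hs
  have hz : ∑ u ∈ Finset.univ.erase v, x u = 0 := by linarith
  rw [Finset.sum_eq_zero_iff_of_nonneg fun i _ => hx.1 i] at hz
  ext u
  by_cases hu : u = v
  · subst hu; simp [h1]
  · rw [Pi.single_eq_of_ne hu]; exact hz u (Finset.mem_erase.2 ⟨hu, Finset.mem_univ _⟩)

lemma jn_prj {v : V} {x : V → ℝ} (h1 : x v < 1) : jn v (1 - x v) (prj v x) = x := by
  have hpos : 0 < 1 - x v := by linarith
  ext u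
  simp only [jn, prj]
  split_ifs with h
  · subst h; ring
  · field_simp

lemma prj_jn {v : V} {y : V → ℝ} (hy : y v = 0) {s : ℝ} (hs : 0 < s) : prj v (jn v s y) = y := by
  ext u
  simp only [jn, prj]
  split_ifs with h
  · subst h; exact hy.symm
  · simp only [if_true, sub_sub_cancel]
    field_simp

lemma continuous_prj_on {v : V} : ContinuousOn (prj v) {x : V → ℝ | x v < 1} := by
  apply continuousOn_pi.2
  intro u
  simp only [prj]
  by_cases h : u = v
  · simp only [h, if_true]; exact continuousOn_const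
  · simp only [h, if_false]
    refine ContinuousOn.div (continuous_apply u).continuousOn
      (continuousOn_const.sub (continuous_apply v).continuousOn) ?_
    intro x hx
    have : x v < 1 := hx
    linarith

lemma continuous_jn (v : V) : Continuous fun p : ℝ × (V → ℝ) => jn v p.1 p.2 := by
  apply continuous_pi
  intro u
  simp only [jn]
  by_cases h : u = v
  · simp only [h, if_true]; exact continuous_const.sub continuous_fst
  · simp only [h, if_false]
    exact continuous_fst.mul ((continuous_apply u).comp continuous_snd)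

lemma single_mem_geo {v : V} (hv : {v} ∈ K) : (Pi.single v 1 : V → ℝ) ∈ geo K := by
  refine ⟨?_, ?_, ?_⟩
  · intro u
    by_cases h : u = v
    · subst h; simp
    · rw [Pi.single_eq_of_ne h]
  · simp
  · convert hv
    ext u
    simp only [mem_supp, Finset.mem_singleton]
    by_cases h : u = v
    · subst h; simp
    · simp [h]

lemma single_mem_star' {v : V} (hv : {v} ∈ K) : (Pi.single v 1 : V → ℝ) ∈ star' K v :=
  mem_star'_of_pos (single_mem_geo hv) (by simp)

/-! ### the maximum over a set of coordinates -/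

/-- maximum of `|x v|` for `v ∈ W` -/
noncomputable def mx (W : Set V) (x : V → ℝ) : ℝ := ‖W.indicator x‖

lemma continuous_mx (W : Set V) : Continuous (mx W) := by
  unfold mx
  apply Continuous.norm
  apply continuous_pi
  intro u
  by_cases h : u ∈ W
  · simp only [Set.indicator_of_mem h]; exact continuous_apply u
  · simp only [Set.indicator_of_notMem h]; exact continuous_const

lemma mx_nonneg (W : Set V) (x : V → ℝ) : 0 ≤ mx W x := norm_nonneg _

lemma le_mx {W : Set V} {x : V → ℝ} {v : V} (hv : v ∈ W) : x v ≤ mx W x := by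
  have := norm_le_pi_norm (W.indicator x) v
  rw [Set.indicator_of_mem hv] at this
  exact (le_abs_self _).trans this

lemma mx_le {W : Set V} {x : V → ℝ} {r : ℝ} (hr : 0 ≤ r) (h : ∀ v ∈ W, |x v| ≤ r) : mx W x ≤ r := by
  unfold mx
  rw [pi_norm_le_iff_of_nonneg hr]
  intro v
  by_cases hv : v ∈ W
  · rw [Set.indicator_of_mem hv]; exact h v hv
  · rw [Set.indicator_of_notMem hv]; simpa using hr

lemma mx_congr {W W' : Set V} {x x' : V → ℝ} (h : W.indicator x = W'.indicator x') :
    mx W x = mx W' x' := by unfold mx; rw [h]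

/-- coordinates of the maxima along a segment -/
lemma mx_jn_notMem {W : Set V} {v : V} (hv : v ∉ W) {s : ℝ} (hs : 0 ≤ s) {y : V → ℝ} :
    mx W (jn v s y) = s * mx W y := by
  have : W.indicator (jn v s y) = s • W.indicator y := by
    ext u
    by_cases hu : u ∈ W
    · have : u ≠ v := fun h => hv (h ▸ hu)
      simp [Set.indicator_of_mem hu, jn, this]
    · simp [Set.indicator_of_notMem hu]
  unfold mx
  rw [this, norm_smul, Real.norm_of_nonneg hs]

lemma mx_insert {W : Set V} {v : V} {x : V → ℝ} (hx : 0 ≤ x v) :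
    mx (insert v W) x = max (x v) (mx W x) := by
  apply le_antisymm
  · apply mx_le (le_max_of_le_left hx)
    intro u hu
    rcases hu with rfl | hu
    · rw [abs_of_nonneg hx]; exact le_max_left _ _
    · refine le_max_of_le_right ?_
      have := norm_le_pi_norm (W.indicator x) u
      rw [Set.indicator_of_mem hu] at this
      exact this
  · apply max_le (le_mx (Set.mem_insert _ _))
    unfold mx
    rw [pi_norm_le_iff_of_nonneg (norm_nonneg _)]
    intro u
    by_cases hu : u ∈ W
    · rw [Set.indicator_of_mem hu]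
      have := norm_le_pi_norm ((insert v W).indicator x) u
      rw [Set.indicator_of_mem (Set.mem_insert_of_mem _ hu)] at this
      exact this
    · rw [Set.indicator_of_notMem hu]; simp

lemma mx_insert_of_zero {W : Set V} {v : V} {x : V → ℝ} (hx : x v = 0) :
    mx (insert v W) x = mx W x := by
  rw [mx_insert hx.ge, hx, max_eq_right (mx_nonneg _ _)]

lemma mx_union_max {W : Set V} {x : V → ℝ} : mx Set.univ x = max (mx W x) (mx Wᶜ x) := by
  apply le_antisymm
  · apply mx_le (le_max_of_le_left (mx_nonneg _ _))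
    intro u _
    by_cases hu : u ∈ W
    · refine le_max_of_le_left ?_
      have := norm_le_pi_norm (W.indicator x) u
      rw [Set.indicator_of_mem hu] at this
      exact this
    · refine le_max_of_le_right ?_
      have := norm_le_pi_norm (Wᶜ.indicator x) u
      rw [Set.indicator_of_mem (by exact hu)] at this
      exact this
  · apply max_le
    · apply mx_le (mx_nonneg _ _)
      intro u _
      have := norm_le_pi_norm (Set.univ.indicator x) u
      rw [Set.indicator_of_mem (Set.mem_univ u)] at this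
      exact this
    · apply mx_le (mx_nonneg _ _)
      intro u _
      have := norm_le_pi_norm (Set.univ.indicator x) u
      rw [Set.indicator_of_mem (Set.mem_univ u)] at this
      exact this

lemma mx_univ_pos {x : V → ℝ} (hx : x ∈ geo K) : 0 < mx Set.univ x := by
  obtain ⟨v, hv⟩ := supp_nonempty hx.2.1
  have h1 : 0 < x v := lt_of_le_of_ne (hx.1 v) (Ne.symm (mem_supp.1 hv))
  exact h1.trans_le (le_mx (Set.mem_univ v))

end NE3
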