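import Pool.Agent.Hhelper58.Bdry

/-! Adding a spare vertex, and passing to Euclidean space. -/

set_option linter.unusedSectionVars false
set_option linter.deprecated false
set_option linter.unusedSimpArgs false

namespace NE3

open Set Topology Metric

variable {V : Type*} [DecidableEq V]
variable {K S L B : PreAbstractSimplicialComplex V}

/-- the same complex on `Option V` -/
def optC (K : PreAbstractSimplicialComplex V) : PreAbstractSimplicialComplex (Option V) where
  faces := {s | ∃ t : Finset V, t ∈ K ∧ s = t.map Function.Embedding.some}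
  isRelLowerSet_faces := by
    rintro s ⟨t, ht, rfl⟩
    refine ⟨(nonempty_of_mem ht).map, ?_⟩
    intro s' hs' hne
    obtain ⟨u, hu, rfl⟩ := Finset.subset_map_iff.1 hs'
    exact ⟨u, mem_of_subset ht hu (by simpa using hne), rfl⟩

lemma mem_optC {s : Finset (Option V)} :
    s ∈ optC K ↔ ∃ t : Finset V, t ∈ K ∧ s = t.map Function.Embedding.some := Iff.rfl

lemma map_mem_optC {t : Finset V} : t.map Function.Embedding.some ∈ optC K ↔ t ∈ K := by
  constructor
  · rintro ⟨u, hu, he⟩
    rw [Finset.map_injective _ he]; exact hu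
  · intro h; exact ⟨t, h, rfl⟩

lemma none_notMem_optC : ({none} : Finset (Option V)) ∉ optC K := by
  rintro ⟨t, _, he⟩
  have : none ∈ t.map Function.Embedding.some := by rw [← he]; simp
  simp at this

lemma map_insert_some (v : V) (t : Finset V) :
    (insert v t).map Function.Embedding.some = insert (some v) (t.map Function.Embedding.some) := by
  rw [Finset.map_insert]; rfl

lemma link_optC (v : V) : link (optC K) (some v) = optC (link K v) := by
  apply ext_mem
  intro s
  constructor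
  · rintro ⟨h1, h2, t, ht, he⟩
    have hsub : s ⊆ t.map Function.Embedding.some := by
      rw [← he]; exact Finset.subset_insert _ _
    obtain ⟨u, hu, rfl⟩ := Finset.subset_map_iff.1 hsub
    refine ⟨u, ⟨by simpa using h1, ?_, ?_⟩, rfl⟩
    · intro h; apply h2; simpa using h
    · rw [← map_insert_some] at he
      rw [Finset.map_injective _ he]; exact ht
  · rintro ⟨u, ⟨h1, h2, h3⟩, rfl⟩
    refine ⟨h1.map, ?_, insert v u, h3, (map_insert_some v u).symm⟩
    simpa using h2

lemma del_optC (v : V) : del (optC K) (some v) = optC (del K v) := by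
  apply ext_mem
  intro s
  constructor
  · rintro ⟨⟨t, ht, rfl⟩, h2⟩
    exact ⟨t, ⟨ht, by simpa using h2⟩, rfl⟩
  · rintro ⟨t, ⟨ht, h2⟩, rfl⟩
    exact ⟨⟨t, ht, rfl⟩, by simpa using h2⟩

theorem NonEvasive.optC (h : NonEvasive K) : NonEvasive (NE3.optC K) := by
  induction h with
  | point K v h =>
    apply NonEvasive.point _ (some v)
    intro s
    constructor
    · rintro ⟨t, ht, rfl⟩
      rw [(h t).1 ht]; rfl
    · rintro rfl
      exact ⟨{v}, (h _).2 rfl, rfl⟩
  | step K v hl hd ihl ihd =>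
    apply NonEvasive.step _ (some v)
    · rw [link_optC]; exact ihl
    · rw [del_optC]; exact ihd

variable [Fintype V]

/-- forget the spare coordinate -/
def pull (x : Option V → ℝ) : V → ℝ := fun v => x (some v)
/-- add a zero coordinate -/
def pushz (y : V → ℝ) : Option V → ℝ := fun o => o.elim 0 y

lemma continuous_pull : Continuous (pull : (Option V → ℝ) → V → ℝ) :=
  continuous_pi fun v => continuous_apply (some v)

lemma supp_pushz (y : V → ℝ) : supp (pushz y) = (supp y).map Function.Embedding.some := by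
  ext o
  cases o with
  | none => simp [mem_supp, pushz]
  | some v => simp [mem_supp, pushz]

lemma geo_optC_none {x : Option V → ℝ} (hx : x ∈ geo (optC K)) : x none = 0 := by
  obtain ⟨t, _, he⟩ := hx.2.2
  by_contra hc
  have := mem_supp.2 hc
  rw [he] at this
  simp at this

lemma pushz_pull {x : Option V → ℝ} (hx : x none = 0) : pushz (pull x) = x := by
  ext o
  cases o with
  | none => exact hx.symm
  | some v => rfl

lemma pull_pushz (y : V → ℝ) : pull (pushz y) = y := rfl

lemma pushz_mem {y : V → ℝ} : pushz y ∈ geo (optC K) ↔ y ∈ geo K := by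
  constructor
  · rintro ⟨h0, h1, h2⟩
    refine ⟨fun v => h0 (some v), ?_, ?_⟩
    · rw [Fintype.sum_option] at h1
      simpa [pushz] using h1
    · rw [supp_pushz, map_mem_optC] at h2; exact h2
  · rintro ⟨h0, h1, h2⟩
    refine ⟨?_, ?_, ?_⟩
    · intro o
      cases o with
      | none => exact le_rfl
      | some v => exact h0 v
    · rw [Fintype.sum_option]
      simpa [pushz] using h1
    · rw [supp_pushz, map_mem_optC]; exact h2

lemma homeoOn_pull : HomeoOn (pull : (Option V → ℝ) → V → ℝ) (geo (optC K)) (geo K) := by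
  apply HomeoOn.of_inv (g := pushz) continuous_pull.continuousOn
  · intro x hx
    rw [← pushz_pull (geo_optC_none hx), pushz_mem] at hx
    exact hx
  · intro y hy; exact pushz_mem.2 hy
  · intro x hx; exact pushz_pull (geo_optC_none hx)
  · intro y _; exact pull_pushz y

lemma pull_single (u : V) : pull (Pi.single (some u) 1) = (Pi.single u 1 : V → ℝ) := by
  ext v
  unfold pull
  by_cases h : v = u
  · subst h; simp
  · rw [Pi.single_eq_of_ne h, Pi.single_eq_of_ne (by simpa using h)]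

lemma pull_simp' (u w : V) : pull '' simp' {some u, some w} = simp' {u, w} := by
  apply Set.Subset.antisymm
  · rintro _ ⟨x, ⟨h0, h1, h2⟩, rfl⟩
    have hn : x none = 0 := h2 none (by simp)
    refine ⟨fun v => h0 (some v), ?_, ?_⟩
    · rw [Fintype.sum_option, hn, zero_add] at h1
      exact h1
    · intro v hv
      apply h2
      simpa using hv
  · rintro y ⟨h0, h1, h2⟩
    refine ⟨pushz y, ⟨?_, ?_, ?_⟩, rfl⟩
    · intro o
      cases o with
      | none => exact le_rfl
      | some v => exact h0 v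
    · rw [Fintype.sum_option]
      simpa [pushz] using h1
    · intro o ho
      cases o with
      | none => rfl
      | some v => exact h2 v (by simpa using ho)

/-- the main theorem, without a spare vertex -/
theorem main_q {u w : V} (hK : NonEvasive K)
    {h : (V → ℝ) → Up ℂ} (hh : HomeoOn h (geo K) (closedBall 0 1)) (huw : u ≠ w)
    (he : ({u, w} : Finset V) ∈ K) (hu : ‖h (Pi.single u 1)‖ = 1) (hw : ‖h (Pi.single w 1)‖ = 1)
    (hin : ∃ x ∈ simp' {u, w}, ‖h x‖ ≠ 1)
    {γ : ℝ → Up ℂ} (hγ : ContinuousOn γ (Icc 0 1)) (hγi : InjOn γ (Icc 0 1))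
    (hγs : ∀ s ∈ Icc (0:ℝ) 1, ‖γ s‖ = 1) (hγ0 : γ 0 = h (Pi.single u 1))
    (hγ1 : γ 1 = h (Pi.single w 1)) :
    ∃ Ξ : Up ℂ ≃ₜ Up ℂ, Ξ '' (h '' simp' {u, w} ∪ γ '' Icc 0 1) =
      {b | ‖b.fst‖ = 1 ∧ b.snd = 0} := by
  have hs : (h ∘ pull) '' simp' {some u, some w} = h '' simp' {u, w} := by
    rw [image_comp, pull_simp']
  have heq : ({some u, some w} : Finset (Option V)) =
      ({u, w} : Finset V).map Function.Embedding.some := by
    rw [map_insert_some, Finset.map_singleton]; rfl
  have := main_o (K := optC K) (o := none) (u := some u) (w := some w) none_notMem_optC hK.optC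
    (h := h ∘ pull) (hh.comp homeoOn_pull) (by simpa using huw)
    (by rw [heq, map_mem_optC]; exact he)
    (by rw [Function.comp_apply, pull_single]; exact hu)
    (by rw [Function.comp_apply, pull_single]; exact hw)
    (by
      obtain ⟨x, hx, hx1⟩ := hin
      rw [← pull_simp'] at hx
      obtain ⟨y, hy, rfl⟩ := hx
      exact ⟨y, hy, hx1⟩)
    hγ hγi hγs
    (by rw [Function.comp_apply, pull_single]; exact hγ0)
    (by rw [Function.comp_apply, pull_single]; exact hγ1)
  rwa [hs] at this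

/-! ### radial homeomorphisms -/

section radial
variable {N M : Type*} [NormedAddCommGroup N] [NormedSpace ℝ N]
  [NormedAddCommGroup M] [NormedSpace ℝ M]

/-- norm preserving radial map -/
noncomputable def rad (L : N ≃L[ℝ] M) (x : N) : M := ‖x‖ • (‖L x‖⁻¹ • L x)

lemma norm_rad (L : N ≃L[ℝ] M) (x : N) : ‖rad L x‖ = ‖x‖ := by
  unfold rad
  by_cases h : x = 0
  · rw [h]; simp
  · have : ‖L x‖ ≠ 0 := by
      rw [norm_ne_zero_iff]; simpa using h
    rw [norm_smul, norm_smul, norm_inv, norm_norm, norm_norm, inv_mul_cancel₀ this, mul_one]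

lemma rad_rad (L : N ≃L[ℝ] M) (x : N) : rad L.symm (rad L x) = x := by
  by_cases h : x = 0
  · rw [h]; simp [rad]
  · have h1 : ‖L x‖ ≠ 0 := by
      rw [norm_ne_zero_iff]; simpa using h
    have h2 : ‖x‖ ≠ 0 := norm_ne_zero_iff.2 h
    have e : L.symm (rad L x) = (‖x‖ * ‖L x‖⁻¹) • x := by
      unfold rad
      rw [smul_smul, map_smul, L.symm_apply_apply]
    have h3 : 0 < ‖x‖ * ‖L x‖⁻¹ := by positivity
    have e2 : rad L.symm (rad L x) = ‖x‖ • (‖(‖x‖ * ‖L x‖⁻¹) • x‖⁻¹ • ((‖x‖ * ‖L x‖⁻¹) • x)) := by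
      conv_lhs => unfold rad
      rw [show ‖‖x‖ • (‖L x‖⁻¹ • L x)‖ = ‖x‖ from norm_rad L x,
        show L.symm (‖x‖ • (‖L x‖⁻¹ • L x)) = (‖x‖ * ‖L x‖⁻¹) • x from e]
    rw [e2, norm_smul, Real.norm_of_nonneg h3.le, smul_smul, smul_smul]
    have : ‖x‖ * (‖x‖ * ‖L x‖⁻¹ * ‖x‖)⁻¹ * (‖x‖ * ‖L x‖⁻¹) = 1 := by
      field_simp
    rw [this, one_smul]

lemma continuous_rad (L : N ≃L[ℝ] M) : Continuous (rad L) := by
  rw [← continuousOn_univ]
  apply continuousOn_smul_bdd continuous_norm.continuousOn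
  · apply ContinuousOn.fun_smul
    · apply ContinuousOn.fun_inv₀ L.continuous.norm.continuousOn
      intro x hx
      rw [norm_ne_zero_iff]
      have : x ≠ 0 := norm_ne_zero_iff.1 hx.2
      simpa using this
    · exact L.continuous.continuousOn
  · intro x _ hx
    have h1 : ‖L x‖ ≠ 0 := by
      rw [norm_ne_zero_iff]
      have : x ≠ 0 := norm_ne_zero_iff.1 hx
      simpa using this
    rw [norm_smul, norm_inv, norm_norm, inv_mul_cancel₀ h1]

/-- norm preserving radial homeomorphism -/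
noncomputable def radH (L : N ≃L[ℝ] M) : N ≃ₜ M where
  toFun := rad L
  invFun := rad L.symm
  left_inv := rad_rad L
  right_inv := by
    intro y
    have := rad_rad L.symm y
    rwa [ContinuousLinearEquiv.symm_symm] at this
  continuous_toFun := continuous_rad L
  continuous_invFun := continuous_rad L.symm

lemma radH_apply (L : N ≃L[ℝ] M) (x : N) : radH L x = rad L x := rfl

end radial

/-- linear coordinates -/
noncomputable def linQ : EuclideanSpace ℝ (Fin 3) ≃ₗ[ℝ] Up ℂ where
  toFun x := WithLp.toLp 1 ((⟨x 0, x 1⟩ : ℂ), x 2)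
  invFun q := !₂[q.fst.re, q.fst.im, q.snd]
  map_add' x y := rfl
  map_smul' r x := by
    apply up_ext
    · change (⟨r * x 0, r * x 1⟩ : ℂ) = r • (⟨x 0, x 1⟩ : ℂ)
      apply Complex.ext <;> simp
    · rfl
  left_inv x := by
    ext i
    fin_cases i <;> rfl
  right_inv q := rfl

lemma linQ_snd (x : EuclideanSpace ℝ (Fin 3)) : (linQ x).snd = x 2 := rfl

/-- the coordinates as a continuous linear equivalence -/
noncomputable def contQ : EuclideanSpace ℝ (Fin 3) ≃L[ℝ] Up ℂ := linQ.toContinuousLinearEquiv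

lemma contQ_apply (x : EuclideanSpace ℝ (Fin 3)) : contQ x = linQ x := rfl

lemma rad_contQ {x : EuclideanSpace ℝ (Fin 3)} (hx : ‖x‖ = 1) :
    (‖(rad contQ x).fst‖ = 1 ∧ (rad contQ x).snd = 0) ↔ x 2 = 0 := by
  have hx0 : x ≠ 0 := by rintro rfl; rw [norm_zero] at hx; norm_num at hx
  have h1 : ‖contQ x‖ ≠ 0 := by
    rw [norm_ne_zero_iff]; simpa using hx0
  have h2 : (rad contQ x).snd = ‖contQ x‖⁻¹ * x 2 := by
    unfold rad
    rw [hx, one_smul]
    change ‖contQ x‖⁻¹ * (linQ x).snd = _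
    rw [linQ_snd]
  have h3 : ‖rad contQ x‖ = 1 := by rw [norm_rad, hx]
  have h4 : ‖rad contQ x‖ = ‖(rad contQ x).fst‖ + |(rad contQ x).snd| := by
    rw [WithLp.prod_norm_eq_of_L1]; rfl
  constructor
  · rintro ⟨_, h5⟩
    rw [h2] at h5
    rcases mul_eq_zero.1 h5 with h6 | h6
    · exact absurd h6 (inv_ne_zero h1)
    · exact h6
  · intro h5
    have h6 : (rad contQ x).snd = 0 := by rw [h2, h5, mul_zero]
    refine ⟨?_, h6⟩
    rw [h3, h6, abs_zero, add_zero] at h4
    exact h4.symm

/-- the main theorem in Euclidean space -/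
theorem main_e {u w : V} (hK : NonEvasive K)
    {h : (V → ℝ) → EuclideanSpace ℝ (Fin 3)} (hh : HomeoOn h (geo K) (closedBall 0 1))
    (huw : u ≠ w)
    (he : ({u, w} : Finset V) ∈ K) (hu : ‖h (Pi.single u 1)‖ = 1) (hw : ‖h (Pi.single w 1)‖ = 1)
    (hin : ∃ x ∈ simp' {u, w}, ‖h x‖ ≠ 1)
    {γ : ℝ → EuclideanSpace ℝ (Fin 3)} (hγ : ContinuousOn γ (Icc 0 1)) (hγi : InjOn γ (Icc 0 1))
    (hγs : ∀ s ∈ Icc (0:ℝ) 1, ‖γ s‖ = 1) (hγ0 : γ 0 = h (Pi.single u 1))
    (hγ1 : γ 1 = h (Pi.single w 1)) :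
    ∃ Ξ : EuclideanSpace ℝ (Fin 3) ≃ₜ EuclideanSpace ℝ (Fin 3),
      Ξ '' (h '' simp' {u, w} ∪ γ '' Icc 0 1) = {x | ‖x‖ = 1 ∧ x 2 = 0} := by
  set κ := radH contQ with hκ
  have hκn : ∀ x, ‖κ x‖ = ‖x‖ := fun x => norm_rad contQ x
  have hκb : HomeoOn κ (closedBall 0 1) (closedBall 0 1) := by
    apply HomeoOn.of_inv (g := κ.symm) κ.continuous.continuousOn
    · intro x hx
      rw [mem_closedBall_zero_iff] at hx ⊢
      rw [hκn]; exact hx
    · intro y hy
      rw [mem_closedBall_zero_iff] at hy ⊢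
      rw [← hκn, κ.apply_symm_apply]; exact hy
    · intro x _; exact κ.symm_apply_apply x
    · intro y _; exact κ.apply_symm_apply y
  obtain ⟨Ξ, hΞ⟩ := main_q hK (h := κ ∘ h) (hκb.comp hh) huw he
    (by rw [Function.comp_apply, hκn]; exact hu) (by rw [Function.comp_apply, hκn]; exact hw)
    (by
      obtain ⟨x, hx, hx1⟩ := hin
      exact ⟨x, hx, by rw [Function.comp_apply, hκn]; exact hx1⟩)
    (γ := κ ∘ γ) (κ.continuous.comp_continuousOn hγ) (κ.injective.comp_injOn hγi)
    (fun s hs => by rw [Function.comp_apply, hκn]; exact hγs s hs)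
    (by rw [Function.comp_apply, Function.comp_apply, hγ0])
    (by rw [Function.comp_apply, Function.comp_apply, hγ1])
  refine ⟨(κ.trans Ξ).trans κ.symm, ?_⟩
  have e1 : ((κ.trans Ξ).trans κ.symm) '' (h '' simp' {u, w} ∪ γ '' Icc 0 1) =
      κ.symm '' (Ξ '' (κ '' (h '' simp' {u, w} ∪ γ '' Icc 0 1))) := by
    rw [image_image, image_image]; rfl
  have e2 : κ '' (h '' simp' {u, w} ∪ γ '' Icc 0 1) =
      (κ ∘ h) '' simp' {u, w} ∪ (κ ∘ γ) '' Icc 0 1 := by
    rw [image_union, image_comp κ h, image_comp κ γ]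
  rw [e1, e2, hΞ]
  ext x
  constructor
  · rintro ⟨b, hb, rfl⟩
    have hb' : ‖b.fst‖ = 1 ∧ b.snd = 0 := hb
    have hbn : ‖b‖ = 1 := by
      have : ‖b‖ = ‖b.fst‖ + |b.snd| := by rw [WithLp.prod_norm_eq_of_L1]; rfl
      rw [this, hb'.1, hb'.2, abs_zero, add_zero]
    have hxn : ‖κ.symm b‖ = 1 := by rw [← hκn, κ.apply_symm_apply, hbn]
    refine ⟨hxn, ?_⟩
    apply (rad_contQ hxn).1
    have : rad contQ (κ.symm b) = b := κ.apply_symm_apply b
    rw [this]; exact hb'
  · rintro ⟨hx1, hx2⟩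
    refine ⟨κ x, ?_, κ.symm_apply_apply x⟩
    exact (rad_contQ hx1).2 hx2

end NE3
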