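import Pool.Agent.Hhelper58.Absorb

/-! Radial extension of sphere homeomorphisms, and gluing two balls to a sphere. -/

set_option linter.unusedSectionVars false
set_option linter.deprecated false
set_option linter.unusedSimpArgs false

namespace NE3

open Set Topology Metric

variable {N M : Type*} [NormedAddCommGroup N] [NormedSpace ℝ N]
  [NormedAddCommGroup M] [NormedSpace ℝ M]

/-- radial extension of a map of unit spheres -/
noncomputable def ext (θ : N → M) (b : N) : M := ‖b‖ • θ (‖b‖⁻¹ • b)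

lemma unit_mem {b : N} (hb : b ≠ 0) : ‖b‖⁻¹ • b ∈ sphere (0:N) 1 := by
  rw [mem_sphere_zero_iff_norm, norm_smul, norm_inv, norm_norm,
    inv_mul_cancel₀ (norm_ne_zero_iff.2 hb)]

lemma norm_ext {θ : N → M} (hθ : MapsTo θ (sphere 0 1) (sphere 0 1)) (b : N) :
    ‖ext θ b‖ = ‖b‖ := by
  by_cases hb : b = 0
  · simp [ext, hb]
  · have := mem_sphere_zero_iff_norm.1 (hθ (unit_mem hb))
    rw [ext, norm_smul, this, mul_one, norm_norm]

lemma ext_of_norm_one {θ : N → M} {b : N} (hb : ‖b‖ = 1) : ext θ b = θ b := by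
  simp [ext, hb]

lemma ext_smul {θ : N → M} {b : N} (hb : ‖b‖ = 1) {r : ℝ} (hr : 0 ≤ r) :
    ext θ (r • b) = r • θ b := by
  rcases eq_or_lt_of_le hr with h | h
  · rw [← h]; simp [ext]
  · rw [ext, norm_smul, hb, Real.norm_of_nonneg hr, mul_one, smul_smul,
      inv_mul_cancel₀ h.ne', one_smul]

lemma continuous_ext {θ : N → M} (hθ : ContinuousOn θ (sphere 0 1))
    (hm : MapsTo θ (sphere 0 1) (sphere 0 1)) : Continuous (ext θ) := by
  rw [continuous_iff_continuousAt]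
  intro b
  by_cases hb : b = 0
  · subst hb
    have h0 : ext θ (0:N) = 0 := by simp [ext]
    rw [ContinuousAt, h0, tendsto_zero_iff_norm_tendsto_zero]
    have : (fun x => ‖ext θ x‖) = fun x => ‖x‖ := funext fun x => norm_ext hm x
    rw [this]
    have := (continuous_norm (E := N)).tendsto 0
    rwa [norm_zero] at this
  · have h1 : ContinuousOn (ext θ) {x | x ≠ 0} := by
      unfold ext
      apply ContinuousOn.smul continuous_norm.continuousOn
      apply hθ.comp
      · apply ContinuousOn.smul _ continuousOn_id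
        exact ContinuousOn.inv₀ continuous_norm.continuousOn fun x hx => norm_ne_zero_iff.2 hx
      · intro x hx; exact unit_mem hx
    exact h1.continuousAt (isOpen_ne.mem_nhds hb)

lemma homeoOn_ext {θ : N → M} (hθ : HomeoOn θ (sphere 0 1) (sphere 0 1)) :
    Continuous (ext θ) ∧ Function.Injective (ext θ) ∧
    ∀ c : M, ∃ b : N, ext θ b = c ∧ ‖b‖ = ‖c‖ := by
  refine ⟨continuous_ext hθ.cont hθ.mapsTo, ?_, ?_⟩
  · intro a b hab
    have hn : ‖a‖ = ‖b‖ := by
      rw [← norm_ext hθ.mapsTo a, ← norm_ext hθ.mapsTo b, hab]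
    by_cases ha : a = 0
    · rw [ha, norm_zero] at hn
      rw [ha, (norm_eq_zero.1 hn.symm)]
    · have hb : b ≠ 0 := by
        intro h; rw [h, norm_zero] at hn; exact ha (norm_eq_zero.1 hn)
      have hpos := norm_pos_iff.2 ha
      unfold ext at hab
      rw [← hn] at hab
      have h1 := smul_right_injective M hpos.ne' hab
      have h2 := hθ.injOn (unit_mem ha) (by rw [hn]; exact unit_mem hb) h1
      exact smul_right_injective N (inv_ne_zero hpos.ne') h2
  · intro c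
    by_cases hc : c = 0
    · exact ⟨0, by simp [ext, hc], by rw [hc, norm_zero, norm_zero]⟩
    · obtain ⟨u, hu, huc⟩ := hθ.surjOn (unit_mem hc)
      have hu1 := mem_sphere_zero_iff_norm.1 hu
      refine ⟨‖c‖ • u, ?_, ?_⟩
      · rw [ext_smul hu1 (norm_nonneg _), huc, smul_smul,
          mul_inv_cancel₀ (norm_ne_zero_iff.2 hc), one_smul]
      · rw [norm_smul, hu1, mul_one, norm_norm]

lemma HomeoOn.ext_ball {θ : N → M} (hθ : HomeoOn θ (sphere 0 1) (sphere 0 1)) :
    HomeoOn (ext θ) (closedBall 0 1) (closedBall 0 1) := by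
  obtain ⟨h1, h2, h3⟩ := homeoOn_ext hθ
  refine ⟨h1.continuousOn, ?_, h2.injOn, ?_⟩
  · intro b hb
    rw [mem_closedBall_zero_iff] at hb ⊢
    rwa [norm_ext hθ.mapsTo]
  · intro c hc
    rw [mem_closedBall_zero_iff] at hc
    obtain ⟨b, hb, hbc⟩ := h3 c
    exact ⟨b, by rw [mem_closedBall_zero_iff, hbc]; exact hc, hb⟩

/-- upper hemisphere -/
noncomputable def upH (b : N) : Up N := WithLp.toLp 1 (b, 1 - ‖b‖)
/-- lower hemisphere -/
noncomputable def loH (b : N) : Up N := WithLp.toLp 1 (b, ‖b‖ - 1)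

lemma continuous_upH : Continuous (upH : N → Up N) :=
  (WithLp.prod_continuous_toLp 1 N ℝ).comp
    (continuous_id.prodMk (continuous_const.sub continuous_norm))

lemma continuous_loH : Continuous (loH : N → Up N) :=
  (WithLp.prod_continuous_toLp 1 N ℝ).comp
    (continuous_id.prodMk (continuous_norm.sub continuous_const))

lemma homeoOn_upH : HomeoOn (upH : N → Up N) (closedBall 0 1)
    (sphere 0 1 ∩ {p | 0 ≤ p.snd}) := by
  refine ⟨continuous_upH.continuousOn, ?_, ?_, ?_⟩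
  · intro b hb
    rw [mem_closedBall_zero_iff] at hb
    refine ⟨?_, ?_⟩
    · rw [mem_sphere_zero_iff_norm, norm_up]
      change ‖b‖ + |1 - ‖b‖| = 1
      rw [abs_of_nonneg (by linarith)]; ring
    · change 0 ≤ 1 - ‖b‖; linarith
  · intro a _ b _ h
    exact congrArg (fun p : Up N => p.fst) h
  · rintro p ⟨hp, hp0⟩
    rw [mem_sphere_zero_iff_norm, norm_up] at hp
    have hp0 : 0 ≤ p.snd := hp0
    rw [abs_of_nonneg hp0] at hp
    refine ⟨p.fst, ?_, ?_⟩
    · rw [mem_closedBall_zero_iff]; linarith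
    · apply up_ext
      · rfl
      · change 1 - ‖p.fst‖ = p.snd; linarith

lemma homeoOn_loH : HomeoOn (loH : N → Up N) (closedBall 0 1)
    (sphere 0 1 ∩ {p | p.snd ≤ 0}) := by
  refine ⟨continuous_loH.continuousOn, ?_, ?_, ?_⟩
  · intro b hb
    rw [mem_closedBall_zero_iff] at hb
    refine ⟨?_, ?_⟩
    · rw [mem_sphere_zero_iff_norm, norm_up]
      change ‖b‖ + |‖b‖ - 1| = 1
      rw [abs_of_nonpos (by linarith)]; ring
    · change ‖b‖ - 1 ≤ 0; linarith
  · intro a _ b _ h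
    exact congrArg (fun p : Up N => p.fst) h
  · rintro p ⟨hp, hp0⟩
    rw [mem_sphere_zero_iff_norm, norm_up] at hp
    have hp0 : p.snd ≤ 0 := hp0
    rw [abs_of_nonpos hp0] at hp
    refine ⟨p.fst, ?_, ?_⟩
    · rw [mem_closedBall_zero_iff]; linarith
    · apply up_ext
      · rfl
      · change ‖p.fst‖ - 1 = p.snd; linarith

/-- Two balls glued along their boundary spheres form a sphere. -/
theorem glue_two_balls' {X : Type*} [TopologicalSpace X] [T2Space X] [Nonempty X]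
    {P Q : Set X} (hP : IsCompact P) (hQ : IsCompact Q)
    {p q : X → N} (hp : HomeoOn p P (closedBall 0 1)) (hq : HomeoOn q Q (closedBall 0 1))
    (hpQ : ∀ x ∈ P, (x ∈ Q ↔ ‖p x‖ = 1)) (hqP : ∀ x ∈ Q, (x ∈ P ↔ ‖q x‖ = 1)) :
    ∃ (Ψ : X → Up N) (θ : N → N), HomeoOn Ψ (P ∪ Q) (sphere 0 1) ∧
      HomeoOn θ (sphere 0 1) (sphere 0 1) ∧
      (∀ x ∈ P, Ψ x = upH (p x)) ∧ (∀ x ∈ Q, Ψ x = loH (ext θ (q x))) := by
  classical
  obtain ⟨qi, hqi, hleft, hright⟩ := hq.exists_inv hQ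
  -- the sphere map
  have hqs : HomeoOn q (Q ∩ P) (sphere 0 1) := by
    have := hq.restr (p := P) (q := sphere (0:N) 1) (fun x hx => by
      rw [mem_sphere_zero_iff_norm]; exact hqP x hx)
    rwa [inter_eq_right.2 sphere_subset_closedBall] at this
  have hps : HomeoOn p (P ∩ Q) (sphere 0 1) := by
    have := hp.restr (p := Q) (q := sphere (0:N) 1) (fun x hx => by
      rw [mem_sphere_zero_iff_norm]; exact hpQ x hx)
    rwa [inter_eq_right.2 sphere_subset_closedBall] at this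
  have hqis : HomeoOn qi (sphere 0 1) (P ∩ Q) := by
    have := hqi.restr (p := sphere (0:N) 1) (q := P) (fun y hy => by
      rw [mem_sphere_zero_iff_norm, hqP _ (hqi.mapsTo hy), hright y hy])
    rw [inter_eq_right.2 sphere_subset_closedBall, inter_comm] at this
    exact this
  have hθ : HomeoOn (p ∘ qi) (sphere (0:N) 1) (sphere (0:N) 1) := hps.comp hqis
  have hUp : HomeoOn (upH ∘ p) P (sphere 0 1 ∩ {p | 0 ≤ p.snd}) := homeoOn_upH.comp hp
  have hLo : HomeoOn (loH ∘ (ext (p ∘ qi) ∘ q)) Q (sphere 0 1 ∩ {p | p.snd ≤ 0}) :=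
    homeoOn_loH.comp (hθ.ext_ball.comp hq)
  have hagree : ∀ x ∈ P, x ∈ Q → (upH ∘ p) x = (loH ∘ (ext (p ∘ qi) ∘ q)) x := by
    intro x hxP hxQ
    have h1 : ‖q x‖ = 1 := (hqP x hxQ).1 hxP
    have h2 : ‖p x‖ = 1 := (hpQ x hxP).1 hxQ
    simp only [Function.comp]
    rw [ext_of_norm_one h1]
    simp only [Function.comp]
    rw [hleft x hxQ]
    apply up_ext
    · rfl
    · change 1 - ‖p x‖ = ‖p x‖ - 1; rw [h2]
  set Ψ : X → Up N := fun x => if x ∈ P then (upH ∘ p) x else (loH ∘ (ext (p ∘ qi) ∘ q)) x with hΨ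
  have hΨP : EqOn (upH ∘ p) Ψ P := fun x hx => by simp only [hΨ, if_pos hx]
  have hΨQ : EqOn (loH ∘ (ext (p ∘ qi) ∘ q)) Ψ Q := fun x hx => by
    simp only [hΨ]
    split_ifs with h
    · exact (hagree x h hx).symm
    · rfl
  have h1 := hUp.congr hΨP
  have h2 := hLo.congr hΨQ
  refine ⟨Ψ, p ∘ qi, ?_, hθ, ?_, ?_⟩
  · have h3 := h1.union h2 hP.isClosed hQ.isClosed (by
      intro x hx y hy hxy
      left
      rw [hpQ x hx]
      have e1 : (Ψ x).snd = 1 - ‖p x‖ := by rw [← hΨP hx]; rfl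
      have e2 : (Ψ y).snd ≤ 0 := (h2.mapsTo hy).2
      have e3 : ‖p x‖ ≤ 1 := mem_closedBall_zero_iff.1 (hp.mapsTo hx)
      rw [hxy] at e1
      linarith)
    convert h3 using 1
    ext z
    simp only [mem_union, mem_inter_iff]
    constructor
    · intro hz
      rcases le_total 0 z.snd with h | h
      · exact Or.inl ⟨hz, h⟩
      · exact Or.inr ⟨hz, h⟩
    · rintro (h | h) <;> exact h.1
  · intro x hx; rw [← hΨP hx]; rfl
  · intro x hx
    rw [← hΨQ hx]; rfl

/-- Two balls glued along their boundary spheres form a sphere. -/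
theorem glue_two_balls {X : Type*} [TopologicalSpace X] [T2Space X] [Nonempty X]
    {P Q : Set X} (hP : IsCompact P) (hQ : IsCompact Q)
    {p q : X → N} (hp : HomeoOn p P (closedBall 0 1)) (hq : HomeoOn q Q (closedBall 0 1))
    (hpQ : ∀ x ∈ P, (x ∈ Q ↔ ‖p x‖ = 1)) (hqP : ∀ x ∈ Q, (x ∈ P ↔ ‖q x‖ = 1)) :
    ∃ Ψ : X → Up N, HomeoOn Ψ (P ∪ Q) (sphere 0 1) ∧
      (∀ x ∈ P, (Ψ x).snd = 1 - ‖p x‖) ∧ (∀ x ∈ Q, (Ψ x).snd = ‖q x‖ - 1) := by
  obtain ⟨Ψ, θ, h1, h2, h3, h4⟩ := glue_two_balls' hP hQ hp hq hpQ hqP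
  refine ⟨Ψ, h1, fun x hx => ?_, fun x hx => ?_⟩
  · rw [h3 x hx]; rfl
  · rw [h4 x hx]
    change ‖ext θ (q x)‖ - 1 = _
    rw [norm_ext h2.mapsTo]

end NE3
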