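import Mathlib

/-! Homeomorphisms between subsets, written with global functions. -/

namespace NE3

open Set Topology

variable {X Y Z : Type*} [TopologicalSpace X] [TopologicalSpace Y] [TopologicalSpace Z]

/-- `f` restricts to a continuous bijection from `A` onto `B`. For compact `A` (and `T2` target)
this is a homeomorphism. -/
structure HomeoOn (f : X → Y) (A : Set X) (B : Set Y) : Prop where
  cont : ContinuousOn f A
  bij : BijOn f A B

namespace HomeoOn

variable {f : X → Y} {g : Y → Z} {A : Set X} {B : Set Y} {C : Set Z}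

lemma mapsTo (h : HomeoOn f A B) : MapsTo f A B := h.bij.mapsTo

lemma injOn (h : HomeoOn f A B) : InjOn f A := h.bij.injOn

lemma surjOn (h : HomeoOn f A B) : SurjOn f A B := h.bij.surjOn

lemma image_eq (h : HomeoOn f A B) : f '' A = B := h.bij.image_eq

lemma comp (hg : HomeoOn g B C) (hf : HomeoOn f A B) : HomeoOn (g ∘ f) A C :=
  ⟨hg.cont.comp hf.cont hf.mapsTo, hg.bij.comp hf.bij⟩

lemma id (A : Set X) : HomeoOn (fun x => x) A A := ⟨continuousOn_id, bijOn_id A⟩

lemma congr {f' : X → Y} (h : HomeoOn f A B) (h' : EqOn f f' A) : HomeoOn f' A B :=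
  ⟨h.cont.congr h'.symm, h.bij.congr h'⟩

lemma isCompact (h : HomeoOn f A B) (hA : IsCompact A) : IsCompact B := by
  rw [← h.image_eq]; exact hA.image_of_continuousOn h.cont

lemma isClosedMap_image (h : HomeoOn f A B) (hA : IsCompact A) [T2Space Y] {C : Set X}
    (hC : IsClosed C) : IsClosed (f '' (A ∩ C)) :=
  ((hA.inter_right hC).image_of_continuousOn (h.cont.mono inter_subset_left)).isClosed

/-- the inverse of a homeomorphism from a compact set. -/
lemma exists_inv (h : HomeoOn f A B) (hA : IsCompact A) [T2Space Y] [Nonempty X] :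
    ∃ g : Y → X, HomeoOn g B A ∧ (∀ x ∈ A, g (f x) = x) ∧ (∀ y ∈ B, f (g y) = y) := by
  refine ⟨Function.invFunOn f A, ?_, ?_, ?_⟩
  · have hleft : LeftInvOn (Function.invFunOn f A) f A := h.injOn.leftInvOn_invFunOn
    have hright : RightInvOn (Function.invFunOn f A) f B := h.surjOn.rightInvOn_invFunOn
    have hmaps : MapsTo (Function.invFunOn f A) B A := h.surjOn.mapsTo_invFunOn
    refine ⟨?_, ?_⟩
    · rw [continuousOn_iff_isClosed]
      intro t ht
      refine ⟨f '' (A ∩ t), h.isClosedMap_image hA ht, ?_⟩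
      ext y
      constructor
      · rintro ⟨hy1, hy2⟩
        exact ⟨⟨Function.invFunOn f A y, ⟨hmaps hy2, hy1⟩, hright hy2⟩, hy2⟩
      · rintro ⟨⟨x, ⟨hxA, hxt⟩, rfl⟩, hy2⟩
        refine ⟨?_, hy2⟩
        change Function.invFunOn f A (f x) ∈ t
        rw [hleft hxA]; exact hxt
    · exact ⟨hmaps, hright.injOn, fun x hx => ⟨f x, h.mapsTo hx, hleft hx⟩⟩
  · exact fun x hx => h.injOn.leftInvOn_invFunOn hx
  · exact fun y hy => h.surjOn.rightInvOn_invFunOn hy

/-- restriction to a subset described on both sides. -/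
lemma restr (h : HomeoOn f A B) {p : Set X} {q : Set Y} (hpq : ∀ x ∈ A, (x ∈ p ↔ f x ∈ q)) :
    HomeoOn f (A ∩ p) (B ∩ q) := by
  refine ⟨h.cont.mono inter_subset_left, ?_, h.injOn.mono inter_subset_left, ?_⟩
  · rintro x ⟨hx, hxp⟩; exact ⟨h.mapsTo hx, (hpq x hx).1 hxp⟩
  · rintro y ⟨hy, hyq⟩
    obtain ⟨x, hx, rfl⟩ := h.surjOn hy
    exact ⟨x, ⟨hx, (hpq x hx).2 hyq⟩, rfl⟩

/-- gluing two homeomorphisms along closed sets. -/
lemma union {A₁ A₂ : Set X} {B₁ B₂ : Set Y} (h1 : HomeoOn f A₁ B₁) (h2 : HomeoOn f A₂ B₂)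
    (hA₁ : IsClosed A₁) (hA₂ : IsClosed A₂)
    (hinter : ∀ x ∈ A₁, ∀ y ∈ A₂, f x = f y → x ∈ A₂ ∨ y ∈ A₁) :
    HomeoOn f (A₁ ∪ A₂) (B₁ ∪ B₂) := by
  refine ⟨h1.cont.union_of_isClosed h2.cont hA₁ hA₂, ?_, ?_, ?_⟩
  · exact h1.mapsTo.union_union h2.mapsTo
  · rintro x (hx | hx) y (hy | hy) hxy
    · exact h1.injOn hx hy hxy
    · rcases hinter x hx y hy hxy with h | h
      · exact h2.injOn h hy hxy
      · exact h1.injOn hx h hxy
    · rcases hinter y hy x hx hxy.symm with h | h
      · exact h2.injOn hx h hxy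
      · exact h1.injOn h hy hxy
    · exact h2.injOn hx hy hxy
  · exact h1.surjOn.union_union h2.surjOn

end HomeoOn

/-- a homeomorphism of compact sets as a `Homeomorph` of subtypes. -/
noncomputable def HomeoOn.toHomeomorph {f : X → Y} {A : Set X} {B : Set Y} (h : HomeoOn f A B)
    (hA : IsCompact A) [T2Space Y] : A ≃ₜ B :=
  haveI : CompactSpace A := isCompact_iff_compactSpace.1 hA
  Continuous.homeoOfEquivCompactToT2 (f := Set.BijOn.equiv f h.bij)
    (by
      refine Continuous.subtype_mk ?_ _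
      exact h.cont.domRestrict)

lemma HomeoOn.toHomeomorph_apply {f : X → Y} {A : Set X} {B : Set Y} (h : HomeoOn f A B)
    (hA : IsCompact A) [T2Space Y] (x : A) : (h.toHomeomorph hA x : Y) = f x := rfl

end NE3
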