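import Pool.Agent.Hhelper58.Polar

/-! A closed curve with two monotone strands is unknotted. -/

set_option linter.unusedSectionVars false
set_option linter.deprecated false
set_option linter.unusedSimpArgs false

namespace NE3

open Set Topology Metric

/-- clamp to `[-1, z0]` -/
noncomputable def clp (z0 z : ℝ) : ℝ := max (-1) (min z z0)

lemma continuous_clp (z0 : ℝ) : Continuous (clp z0) :=
  continuous_const.max (continuous_id.min continuous_const)

lemma clp_mem {z0 z : ℝ} (h : -1 ≤ z0) : clp z0 z ∈ Icc (-1) z0 :=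
  ⟨le_max_left _ _, max_le h (min_le_right _ _)⟩

lemma clp_of_mem {z0 z : ℝ} (h : z ∈ Icc (-1) z0) : clp z0 z = z := by
  unfold clp
  rw [min_eq_left h.2, max_eq_right h.1]

lemma clp_of_ge {z0 z : ℝ} (h0 : -1 ≤ z0) (h : z0 ≤ z) : clp z0 z = z0 := by
  unfold clp
  rw [min_eq_right h, max_eq_right h0]

lemma clp_of_le {z0 z : ℝ} (h0 : -1 ≤ z0) (h : z ≤ -1) : clp z0 z = -1 := by
  unfold clp
  rw [min_eq_left (by linarith), max_eq_left h]

theorem exists_twist {z0 : ℝ} (hz0 : 0 < z0) (hz1 : z0 < 1) {ζ : ℝ → ℂ} {a : ℝ → ℝ}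
    (hζ : ContinuousOn ζ (Icc (-1) z0)) (ha : ContinuousOn a (Icc (-1) z0))
    (hn : ∀ z ∈ Icc (-1) z0, ‖ζ z‖ + |a z| + |z| = 1) (hne : ∀ z ∈ Ioo (-1) z0, ζ z ≠ 0)
    (h0 : ζ z0 = 0) :
    ∃ U : ℝ → ℝ → ℂ, (∀ t z, ‖U t z‖ = 1) ∧
      ContinuousOn (fun q : ℝ × ℝ => U q.1 q.2) {q | |q.1| + |q.2| < 1} ∧
      ∀ z ∈ Ioo (-1) z0, U (a z) z * (ζ z / (‖ζ z‖ : ℂ)) = 1 := by
  classical
  -- lift the argument
  let A := (Ioo (-1) z0 : Set ℝ)
  have hAne : (Ioo (-1) z0 : Set ℝ).Nonempty := ⟨0, by norm_num, hz0⟩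
  have hconv : Convex ℝ (Ioo (-1) z0 : Set ℝ) := convex_Ioo _ _
  haveI : ContractibleSpace (Ioo (-1) z0 : Set ℝ) := hconv.contractibleSpace hAne
  haveI : LocallyPathConnectedSpace (Ioo (-1) z0 : Set ℝ) := isOpen_Ioo.locallyPathConnectedSpace
  let f : C((Ioo (-1) z0 : Set ℝ), ℂ) := ⟨fun z => ζ z, by
    have : ContinuousOn ζ (Ioo (-1) z0) := hζ.mono Ioo_subset_Icc_self
    exact this.domRestrict⟩
  let a₀ : (Ioo (-1) z0 : Set ℝ) := ⟨0, by norm_num, hz0⟩
  have hf0 : ∀ z, f z ≠ 0 := fun z => hne z z.2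
  obtain ⟨L, ⟨_, hL⟩, _⟩ := Complex.isCoveringMapOn_exp.existsUnique_continuousMap_lifts f
    (a₀ := a₀) (e₀ := Complex.log (f a₀)) (Complex.exp_log (hf0 a₀)) (fun z => hf0 z)
  have hL' : ∀ z : (Ioo (-1) z0 : Set ℝ), Complex.exp (L z) = ζ z := fun z => congrFun hL z
  -- the open diamond and the graph
  let X := {q : ℝ × ℝ // |q.1| + |q.2| < 1}
  let G : Set X := {q | q.1.2 ≤ z0 ∧ q.1.1 = a (clp z0 q.1.2)}
  have ha' : Continuous fun z => a (clp z0 z) :=
    continuousOn_univ.1 (ha.comp (continuous_clp z0).continuousOn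
      (fun z _ => clp_mem (by linarith)))
  have hG : IsClosed G := by
    apply IsClosed.inter
    · exact isClosed_le (continuous_snd.comp continuous_subtype_val) continuous_const
    · exact isClosed_eq (continuous_fst.comp continuous_subtype_val)
        (ha'.comp (continuous_snd.comp continuous_subtype_val))
  have hGmem : ∀ q ∈ G, (q : X).1.2 ∈ Ioo (-1) z0 := by
    rintro ⟨⟨t, z⟩, hq⟩ ⟨h1, h2⟩
    have hq : |t| + |z| < 1 := hq
    have h1 : z ≤ z0 := h1
    have h2 : t = a (clp z0 z) := h2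
    have hz : |z| < 1 := by linarith [abs_nonneg t]
    rw [abs_lt] at hz
    refine ⟨hz.1, lt_of_le_of_ne h1 ?_⟩
    intro h3
    have h3 : z = z0 := h3
    rw [h3, clp_of_mem ⟨by linarith, le_rfl⟩] at h2
    have h4 := hn z0 ⟨by linarith, le_rfl⟩
    rw [h0, norm_zero] at h4
    rw [h3, h2] at hq
    linarith
  let g : C(G, ℝ) := ⟨fun q => (L ⟨q.1.1.2, hGmem q.1 q.2⟩).im, by
    apply Complex.continuous_im.comp
    apply L.continuous.comp
    apply Continuous.subtype_mk
    exact continuous_snd.comp (continuous_subtype_val.comp continuous_subtype_val)⟩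
  obtain ⟨Θ, hΘ⟩ := ContinuousMap.exists_restrict_eq hG g
  refine ⟨fun t z => if h : |t| + |z| < 1 then Complex.exp (-(Θ ⟨(t, z), h⟩ : ℂ) * Complex.I) else 1,
    ?_, ?_, ?_⟩
  · intro t z
    dsimp only
    split_ifs with h
    · have := Complex.norm_exp_ofReal_mul_I (-(Θ ⟨(t, z), h⟩))
      rwa [Complex.ofReal_neg] at this
    · simp
  · rw [continuousOn_iff_continuous_domRestrict]
    have : (Set.domRestrict {q : ℝ × ℝ | |q.1| + |q.2| < 1} fun q : ℝ × ℝ =>
        (if h : |q.1| + |q.2| < 1 then Complex.exp (-(Θ ⟨(q.1, q.2), h⟩ : ℂ) * Complex.I) else 1)) =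
        fun q : X => Complex.exp (-(Θ q : ℂ) * Complex.I) := by
      funext q
      have hq : |q.1.1| + |q.1.2| < 1 := q.2
      exact dif_pos hq
    rw [this]
    apply Complex.continuous_exp.comp
    exact ((Complex.continuous_ofReal.comp Θ.continuous).neg).mul continuous_const
  · intro z hz
    have h1 : |a z| + |z| < 1 := by
      have := hn z (Ioo_subset_Icc_self hz)
      have h2 := norm_pos_iff.2 (hne z hz)
      linarith
    simp only [dif_pos h1]
    have hq : (⟨(a z, z), h1⟩ : X) ∈ G := by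
      refine ⟨hz.2.le, ?_⟩
      change a z = a (clp z0 z)
      rw [clp_of_mem (Ioo_subset_Icc_self hz)]
    have h3 : Θ ⟨(a z, z), h1⟩ = (L ⟨z, hz⟩).im := by
      have := congrArg (fun k : C(G, ℝ) => k ⟨⟨(a z, z), h1⟩, hq⟩) hΘ
      exact this
    rw [h3, ← hL' ⟨z, hz⟩]
    rw [Complex.norm_exp]
    set w := L ⟨z, hz⟩ with hw
    rw [Complex.ofReal_exp, ← Complex.exp_sub, ← Complex.exp_add]
    have h4 : -(w.im : ℂ) * Complex.I + (w - (w.re : ℂ)) = 0 := by
      linear_combination -Complex.re_add_im w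
    rw [h4, Complex.exp_zero]

/-- squeezing function for the radial straightening -/
noncomputable def gfun (z0 : ℝ) (a : ℝ → ℝ) (z : ℝ) : ℝ :=
  (1 - z0) * max 0 (clp z0 z) / z0 - a (clp z0 z)

noncomputable def bfun (z0 : ℝ) (z : ℝ) : ℝ := (1 - z0) * max 0 z / z0

lemma bfun_lt {z0 z : ℝ} (hz0 : 0 < z0) (hz1 : z0 < 1) (hz : z ∈ Ioo (-1) z0) :
    0 ≤ bfun z0 z ∧ bfun z0 z < 1 - |z| := by
  unfold bfun
  have h1 : 0 ≤ (1 - z0) * max 0 z / z0 :=
    div_nonneg (mul_nonneg (by linarith) (le_max_left _ _)) hz0.le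
  refine ⟨h1, ?_⟩
  rcases le_total z 0 with h | h
  · rw [max_eq_left h, abs_of_nonpos h]; simp; linarith [hz.1]
  · rw [max_eq_right h, abs_of_nonneg h, div_lt_iff₀ hz0]
    nlinarith [hz.2]

open Classical in
theorem lemX_polar {z0 : ℝ} (hz0 : 0 < z0) (hz1 : z0 < 1) {ζ : ℝ → ℂ} {a : ℝ → ℝ}
    (hζ : ContinuousOn ζ (Icc (-1) z0)) (ha : ContinuousOn a (Icc (-1) z0))
    (hn : ∀ z ∈ Icc (-1) z0, ‖ζ z‖ + |a z| + |z| = 1) (hne : ∀ z ∈ Ioo (-1) z0, ζ z ≠ 0)
    (h0 : ζ z0 = 0) (ha0 : a z0 = 1 - z0) :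
    ∃ f : Up (Up ℂ) → Up (Up ℂ), HomeoOn f (sphere 0 1) (sphere 0 1) ∧
      (∀ z ∈ Icc (-1) z0, f (mk3 0 (1 - |z|) z) = mk3 0 (1 - |z|) z) ∧
      (∀ z ∈ Icc (-1) z0, f (mk3 (ζ z) (a z) z) =
        mk3 ((1 - |z| - bfun z0 z : ℝ) : ℂ) (bfun z0 z) z) := by
  obtain ⟨U, hU1, hU2, hU3⟩ := exists_twist hz0 hz1 hζ ha hn hne h0
  have haR : ∀ z ∈ Ioo (-1) z0, -(1 - |z|) < a z ∧ a z < 1 - |z| := by
    intro z hz
    have h1 := hn z (Ioo_subset_Icc_self hz)
    have h2 := norm_pos_iff.2 (hne z hz)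
    exact abs_lt.1 (by linarith)
  have hbR : ∀ z ∈ Ioo (-1) z0, -(1 - |z|) < bfun z0 z ∧ bfun z0 z < 1 - |z| := by
    intro z hz
    obtain ⟨h1, h2⟩ := bfun_lt hz0 hz1 hz
    exact ⟨by linarith, h2⟩
  have hg0 : gfun z0 a z0 = 0 := by
    unfold gfun
    rw [clp_of_mem ⟨by linarith, le_rfl⟩, ha0, max_eq_right hz0.le]
    field_simp
    ring
  have hgm : gfun z0 a (-1) = 0 := by
    unfold gfun
    rw [clp_of_mem ⟨le_rfl, by linarith⟩, max_eq_left (by norm_num)]
    have := hn (-1) ⟨le_rfl, by linarith⟩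
    rw [abs_neg, abs_one] at this
    have h2 : |a (-1)| = 0 := by
      linarith [norm_nonneg (ζ (-1)), abs_nonneg (a (-1))]
    rw [abs_eq_zero.1 h2]; ring
  have hgc : Continuous (gfun z0 a) := by
    unfold gfun
    have ha' : Continuous fun z => a (clp z0 z) :=
      continuousOn_univ.1 (ha.comp (continuous_clp z0).continuousOn
        (fun z _ => clp_mem (by linarith)))
    have := continuous_clp z0
    exact ((continuous_const.mul (continuous_const.max this)).div_const _).sub ha'
  have hgout : ∀ z, z ∉ Ioo (-1) z0 → gfun z0 a z = 0 := by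
    intro z hz
    rcases le_or_gt z (-1) with h | h
    · have : gfun z0 a z = gfun z0 a (-1) := by
        unfold gfun
        rw [clp_of_le (by linarith) h, clp_of_le (by linarith) le_rfl]
      rw [this, hgm]
    · have h' : z0 ≤ z := by
        by_contra hc
        exact hz ⟨h, not_le.1 hc⟩
      have : gfun z0 a z = gfun z0 a z0 := by
        unfold gfun
        rw [clp_of_ge (by linarith) h', clp_of_ge (by linarith) le_rfl]
      rw [this, hg0]
  have hgin : ∀ z ∈ Ioo (-1) z0, gfun z0 a z = bfun z0 z - a z := by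
    intro z hz
    unfold gfun bfun
    rw [clp_of_mem (Ioo_subset_Icc_self hz)]
  let P : ℝ → ℝ → ℝ := fun z t => if z ∈ Ioo (-1) z0 then plm (1 - |z|) (a z) (bfun z0 z) t else t
  have hPin : ∀ z ∈ Ioo (-1) z0, ∀ t, P z t = plm (1 - |z|) (a z) (bfun z0 z) t :=
    fun z hz t => if_pos hz
  have hPout : ∀ z, z ∉ Ioo (-1) z0 → ∀ t, P z t = t := fun z hz t => if_neg hz
  have hPc : ContinuousOn (fun q : ℝ × ℝ => P q.2 q.1) Dia := by
    have e : ∀ q : ℝ × ℝ, P q.2 q.1 = q.1 + gfun z0 a q.2 *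
        (if q.2 ∈ Ioo (-1) z0 then tent (1 - |q.2|) (a (clp z0 q.2)) q.1 else 0) := by
      intro q
      by_cases h : q.2 ∈ Ioo (-1) z0
      · rw [hPin _ h, if_pos h, hgin _ h, clp_of_mem (Ioo_subset_Icc_self h)]
        rfl
      · rw [hPout _ h, if_neg h, mul_zero, add_zero]
    simp only [e]
    apply continuous_fst.continuousOn.add
    apply continuousOn_mul_bdd
    · exact (hgc.comp continuous_snd).continuousOn
    · have hsub : Dia ∩ {q : ℝ × ℝ | gfun z0 a q.2 ≠ 0} ⊆ {q : ℝ × ℝ | q.2 ∈ Ioo (-1) z0} := by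
        rintro q ⟨_, hq⟩
        by_contra hc
        exact hq (hgout _ hc)
      have hc1 : ContinuousOn (fun q : ℝ × ℝ => tent (1 - |q.2|) (a (clp z0 q.2)) q.1)
          {q : ℝ × ℝ | q.2 ∈ Ioo (-1) z0} := by
        unfold tent
        have ha' : Continuous fun q : ℝ × ℝ => a (clp z0 q.2) :=
          (continuousOn_univ.1 (ha.comp (continuous_clp z0).continuousOn
            (fun z _ => clp_mem (by linarith)))).comp continuous_snd
        have habs : Continuous fun q : ℝ × ℝ => |q.2| := continuous_snd.abs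
        refine ContinuousOn.inf ?_ ?_
        · apply ContinuousOn.div
          · exact (continuous_fst.add (continuous_const.sub habs)).continuousOn
          · exact (ha'.add (continuous_const.sub habs)).continuousOn
          · intro q hq
            have := (haR q.2 hq).1
            rw [clp_of_mem (Ioo_subset_Icc_self hq)]
            linarith
        · apply ContinuousOn.div
          · exact ((continuous_const.sub habs).sub continuous_fst).continuousOn
          · exact ((continuous_const.sub habs).sub ha').continuousOn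
          · intro q hq
            have := (haR q.2 hq).2
            rw [clp_of_mem (Ioo_subset_Icc_self hq)]
            linarith
      apply (hc1.mono hsub).congr
      intro q hq
      exact if_pos (hsub hq)
    · intro q hq
      have hq : |q.1| + |q.2| ≤ 1 := hq
      rw [abs_mul]
      split_ifs with h
      · rw [clp_of_mem (Ioo_subset_Icc_self h)]
        obtain ⟨h1, h2⟩ := haR _ h
        have h3 : q.1 ∈ Icc (-(1 - |q.2|)) (1 - |q.2|) := abs_le.1 (by linarith)
        rw [abs_of_nonneg (tent_nonneg h1 h2 h3)]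
        have := tent_le_one (t := q.1) h1 h2
        nlinarith [abs_nonneg (gfun z0 a q.2)]
      · rw [abs_zero, mul_zero]; exact abs_nonneg _
  have hpol := homeoOn_pol (U := U) (P := P) (fun t z _ => hU1 t z) hU2 hPc
    (by
      intro z hz
      by_cases h : z ∈ Ioo (-1) z0
      · obtain ⟨h1, h2⟩ := haR _ h
        obtain ⟨h3, h4⟩ := hbR _ h
        refine ⟨?_, ?_, ?_⟩
        · intro t ht
          rw [hPin _ h]
          exact plm_mem h1 h2 h3 h4 ht
        · intro t _ t' _ htt
          rw [hPin _ h, hPin _ h] at htt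
          rw [← plm_plm (t := t) h1 h2 h3 h4, htt, plm_plm h1 h2 h3 h4]
        · intro t ht
          refine ⟨plm (1 - |z|) (bfun z0 z) (a z) t, plm_mem h3 h4 h1 h2 ht, ?_⟩
          rw [hPin _ h]
          exact plm_plm h3 h4 h1 h2
      · apply (bijOn_id _).congr
        intro t _
        exact (hPout _ h t).symm)
    (by
      intro z t hz ht
      by_cases h : z ∈ Ioo (-1) z0
      · obtain ⟨h1, h2⟩ := haR _ h
        obtain ⟨h3, h4⟩ := hbR _ h
        rw [hPin _ h]
        exact plm_abs_eq h1 h2 h3 h4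
      · rw [hPout _ h])
  have hm1 : |(-1 : ℝ)| = 1 := by norm_num
  have hPR : ∀ z ∈ Icc (-1) z0, P z (1 - |z|) = 1 - |z| := by
    intro z hz
    by_cases h : z ∈ Ioo (-1) z0
    · rw [hPin _ h]
      exact plm_right (haR _ h).1 (haR _ h).2
    · rw [hPout _ h]
  refine ⟨pol U P, hpol, ?_, ?_⟩
  · intro z hz
    rw [pol_mk3, hPR z hz]
    simp
  · intro z hz
    rw [pol_mk3]
    by_cases h : z ∈ Ioo (-1) z0
    · rw [hPin _ h, plm_self (haR _ h).1 (haR _ h).2, hU3 z h, mul_one]
      congr 1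
      rw [abs_of_nonneg (bfun_lt hz0 hz1 h).1]
    · rcases eq_or_lt_of_le hz.1 with h' | h'
      · subst h'
        have h2 := hn (-1) hz
        rw [hm1] at h2
        have h3 : |a (-1)| = 0 := by
          linarith [norm_nonneg (ζ (-1)), abs_nonneg (a (-1))]
        have h4 : ‖ζ (-1)‖ = 0 := by
          linarith [norm_nonneg (ζ (-1)), abs_nonneg (a (-1))]
        have h5 : bfun z0 (-1) = 0 := by
          unfold bfun; rw [max_eq_left (by norm_num)]; ring
        rw [hPout _ h, abs_eq_zero.1 h3, norm_eq_zero.1 h4, h5, hm1]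
        simp
      · have h'' : z = z0 := by
          apply le_antisymm hz.2
          by_contra hc
          exact h ⟨h', not_le.1 hc⟩
        subst h''
        have h5 : bfun z z = 1 - z := by
          unfold bfun; rw [max_eq_right hz0.le]; field_simp
        rw [hPout _ h, h0, ha0, h5, abs_of_pos hz0]
        simp

/-! ### meridians -/

section
variable {N M : Type*} [NormedAddCommGroup N] [NormedSpace ℝ N]
  [NormedAddCommGroup M] [NormedSpace ℝ M]

/-- the meridian through `ω` -/
def mer (ω : N) : Set (Up N) :=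
  (fun s : ℝ => upH (s • ω)) '' Icc 0 1 ∪ (fun s : ℝ => loH (s • ω)) '' Icc 0 1

lemma susp_mer {θ : N → M} (hθ : HomeoOn θ (sphere 0 1) (sphere 0 1)) {ω : N} (hω : ‖ω‖ = 1) :
    susp θ '' mer ω = mer (θ ω) := by
  unfold mer
  rw [image_union, image_image, image_image]
  congr 1
  · apply image_congr
    intro s hs
    rw [susp_upH hθ, ext_smul hω hs.1]
  · apply image_congr
    intro s hs
    rw [susp_loH hθ, ext_smul hω hs.1]
end

/-- the model circle -/
def C0 : Set (Up (Up ℂ)) := sphere 0 1 ∩ {p | p.fst.fst = 0}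

/-- upper pole of the two-sphere -/
noncomputable def nN : Up ℂ := WithLp.toLp 1 (0, 1)
noncomputable def eE : Up ℂ := WithLp.toLp 1 (1, 0)

lemma nN_eq : nN = upH 0 := (upH_zero).symm

lemma norm_nN : ‖nN‖ = 1 := by
  rw [norm_up]
  change ‖(0:ℂ)‖ + |(1:ℝ)| = 1
  norm_num

lemma norm_eE : ‖eE‖ = 1 := by
  rw [norm_up]
  change ‖(1:ℂ)‖ + |(0:ℝ)| = 1
  norm_num

lemma loH_zero_eq : (loH (0:ℂ)) = -nN := by
  rw [loH_zero]
  apply up_ext
  · change (0:ℂ) = -0; simp
  · rfl

lemma smul_nN (s : ℝ) : s • nN = WithLp.toLp 1 (0, s) := by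
  apply up_ext
  · change s • (0:ℂ) = 0; simp
  · change s * 1 = s; ring

lemma smul_eE (s : ℝ) : s • eE = WithLp.toLp 1 ((s:ℂ), 0) := by
  apply up_ext
  · change s • (1:ℂ) = s; simp
  · change s * 0 = 0; ring

lemma smul_neg_nN (s : ℝ) : s • (-nN) = WithLp.toLp 1 (0, -s) := by
  apply up_ext
  · change s • (-(0:ℂ)) = 0; simp
  · change s * (-1) = -s; ring

lemma upH_mk (ζ : ℂ) (t : ℝ) : upH (WithLp.toLp 1 (ζ, t) : Up ℂ) = mk3 ζ t (1 - ‖ζ‖ - |t|) := by
  apply up_ext
  · rfl
  · change 1 - ‖(WithLp.toLp 1 (ζ, t) : Up ℂ)‖ = 1 - ‖ζ‖ - |t|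
    rw [norm_up]
    change 1 - (‖ζ‖ + |t|) = _
    ring

lemma loH_mk (ζ : ℂ) (t : ℝ) : loH (WithLp.toLp 1 (ζ, t) : Up ℂ) = mk3 ζ t (‖ζ‖ + |t| - 1) := by
  apply up_ext
  · rfl
  · change ‖(WithLp.toLp 1 (ζ, t) : Up ℂ)‖ - 1 = ‖ζ‖ + |t| - 1
    rw [norm_up]
    rfl

lemma mer_C0 : mer nN ∪ mer (-nN) = C0 := by
  ext p
  unfold mer C0
  simp only [mem_union, mem_image, mem_inter_iff, mem_setOf_eq]
  constructor
  · rintro ((⟨s, hs, rfl⟩ | ⟨s, hs, rfl⟩) | (⟨s, hs, rfl⟩ | ⟨s, hs, rfl⟩))
    · refine ⟨upH_mem ?_, ?_⟩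
      · rw [norm_smul, norm_nN, Real.norm_of_nonneg hs.1]; linarith [hs.2]
      · rw [smul_nN]; rfl
    · refine ⟨loH_mem ?_, ?_⟩
      · rw [norm_smul, norm_nN, Real.norm_of_nonneg hs.1]; linarith [hs.2]
      · rw [smul_nN]; rfl
    · refine ⟨upH_mem ?_, ?_⟩
      · rw [norm_smul, norm_neg, norm_nN, Real.norm_of_nonneg hs.1]; linarith [hs.2]
      · rw [smul_neg_nN]; rfl
    · refine ⟨loH_mem ?_, ?_⟩
      · rw [norm_smul, norm_neg, norm_nN, Real.norm_of_nonneg hs.1]; linarith [hs.2]
      · rw [smul_neg_nN]; rfl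
  · rintro ⟨hp, h0⟩
    have hp' := hp
    rw [mem_sphere_zero_iff_norm, norm3, h0, norm_zero, zero_add] at hp
    have h1 := abs_nonneg p.fst.snd
    have h2 := abs_nonneg p.snd
    have e : p.fst = WithLp.toLp 1 (0, p.fst.snd) := by
      apply up_ext
      · exact h0
      · rfl
    rcases le_total 0 p.fst.snd with ht | ht
    · left
      rw [abs_of_nonneg ht] at hp h1
      rcases le_total 0 p.snd with hz | hz
      · left
        refine ⟨p.fst.snd, ⟨ht, by linarith⟩, ?_⟩
        rw [smul_nN, ← e, ← eq_upH hp' hz]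
      · right
        refine ⟨p.fst.snd, ⟨ht, by linarith⟩, ?_⟩
        rw [smul_nN, ← e, ← eq_loH hp' hz]
    · right
      rw [abs_of_nonpos ht] at hp h1
      rcases le_total 0 p.snd with hz | hz
      · left
        refine ⟨-p.fst.snd, ⟨h1, by linarith⟩, ?_⟩
        rw [smul_neg_nN, neg_neg, ← e, ← eq_upH hp' hz]
      · right
        refine ⟨-p.fst.snd, ⟨h1, by linarith⟩, ?_⟩
        rw [smul_neg_nN, neg_neg, ← e, ← eq_loH hp' hz]

/-- two distinct meridians form an unknotted circle -/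
theorem two_mer {p q : Up ℂ} (hp : p ∈ sphere (0 : Up ℂ) 1) (hq : q ∈ sphere (0 : Up ℂ) 1)
    (hpq : p ≠ q) : ∃ f : Up (Up ℂ) → Up (Up ℂ), HomeoOn f (sphere 0 1) (sphere 0 1) ∧
      f '' (mer p ∪ mer q) = C0 := by
  obtain ⟨Θ, hΘ, h1, h2⟩ := two_points hp hq hpq
  refine ⟨susp Θ, homeoOn_susp hΘ, ?_⟩
  rw [image_union, susp_mer hΘ (mem_sphere_zero_iff_norm.1 hp),
    susp_mer hΘ (mem_sphere_zero_iff_norm.1 hq), h1, h2, ← nN_eq, loH_zero_eq, mer_C0]

/-- the two strand lemma -/
theorem lemX {z0 : ℝ} (hz0 : 0 < z0) (hz1 : z0 < 1) {ζ : ℝ → ℂ} {a : ℝ → ℝ}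
    (hζ : ContinuousOn ζ (Icc (-1) z0)) (ha : ContinuousOn a (Icc (-1) z0))
    (hn : ∀ z ∈ Icc (-1) z0, ‖ζ z‖ + |a z| + |z| = 1) (hne : ∀ z ∈ Ioo (-1) z0, ζ z ≠ 0)
    (h0 : ζ z0 = 0) (ha0 : a z0 = 1 - z0) :
    ∃ f : Up (Up ℂ) → Up (Up ℂ), HomeoOn f (sphere 0 1) (sphere 0 1) ∧
      f '' ((fun z : ℝ => mk3 0 (1 - |z|) z) '' Icc (-1) z0 ∪
        (fun z : ℝ => mk3 (ζ z) (a z) z) '' Icc (-1) z0) = C0 := by
  obtain ⟨f1, hf1, hA1, hB1⟩ := lemX_polar hz0 hz1 hζ ha hn hne h0 ha0
  set c : Up ℂ := (1 - z0) • nN with hc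
  have hcn : ‖c‖ < 1 := by
    rw [hc, norm_smul, norm_nN, Real.norm_of_nonneg (by linarith)]; linarith
  obtain ⟨k, hk, hk1, hk2⟩ := (homeoOn_tmap hcn).exists_inv (isCompact_closedBall 0 1)
  have hkb : ∀ x, ‖x‖ = 1 → k x = x := fun x hx => by
    have := hk1 x (mem_closedBall_zero_iff.2 hx.le)
    rwa [tmap_of_norm_one hx] at this
  obtain ⟨f2, hf2, hu, hl, _⟩ := hemi_homeo hk (HomeoOn.id _)
    (fun x hx => by
      have h5 := hk2 x (mem_closedBall_zero_iff.2 hx)
      have h6 := mem_closedBall_zero_iff.1 (hk.mapsTo (mem_closedBall_zero_iff.2 hx))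
      rw [← norm_tmap_eq_one_iff hcn h6, h5])
    (fun x _ => Iff.rfl) (fun x hx => hkb x hx)
  have hNE : nN ≠ eE := by
    intro h
    have : nN.snd = eE.snd := by rw [h]
    have h' : (1:ℝ) = 0 := this
    norm_num at h'
  obtain ⟨f3, hf3, h3⟩ := two_mer (p := nN) (q := eE) (by rw [mem_sphere_zero_iff_norm, norm_nN])
    (by rw [mem_sphere_zero_iff_norm, norm_eE]) hNE
  refine ⟨f3 ∘ (f2 ∘ f1), hf3.comp (hf2.comp hf1), ?_⟩
  rw [image_comp, image_comp]
  rw [← h3]
  congr 1
  rw [image_union, image_union]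
  have hkr : ∀ (ω : Up ℂ), ‖ω‖ = 1 → ∀ r ∈ Icc (0:ℝ) 1, k (r • ω + (1 - r) • c) = r • ω := by
    intro ω hω r hr
    have h5 := hk1 (r • ω) (by
      rw [mem_closedBall_zero_iff, norm_smul, hω, Real.norm_of_nonneg hr.1]; linarith [hr.2])
    unfold tmap at h5
    rw [norm_smul, hω, Real.norm_of_nonneg hr.1, mul_one] at h5
    exact h5
  congr 1
  · -- first strand
    rw [image_image, image_image]
    apply Set.Subset.antisymm
    · rintro _ ⟨z, hz, rfl⟩
      dsimp only
      rw [hA1 z hz]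
      rcases le_total z 0 with h | h
      · right
        refine ⟨1 + z, ⟨by linarith [hz.1], by linarith⟩, ?_⟩
        have e1 : mk3 0 (1 - |z|) z = loH ((1 + z) • nN) := by
          rw [smul_nN, loH_mk, norm_zero, abs_of_nonpos h, abs_of_nonneg (by linarith [hz.1])]
          congr 1 <;> ring
        rw [e1, hl _ (by
          rw [norm_smul, norm_nN, Real.norm_of_nonneg (by linarith [hz.1])]; linarith)]
      · left
        refine ⟨1 - z / z0, ⟨?_, ?_⟩, ?_⟩
        · rw [sub_nonneg, div_le_one hz0]; exact hz.2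
        · rw [sub_le_self_iff]; exact div_nonneg h hz0.le
        · have e1 : mk3 0 (1 - |z|) z = upH ((1 - z) • nN) := by
            rw [smul_nN, upH_mk, norm_zero, abs_of_nonneg h, abs_of_nonneg (by linarith [hz.2])]
            congr 1; ring
          rw [e1, hu _ (by
            rw [norm_smul, norm_nN, Real.norm_of_nonneg (by linarith [hz.2])]; linarith)]
          have e2 : (1 - z) • nN = (1 - z / z0) • nN + (1 - (1 - z / z0)) • c := by
            rw [hc, smul_smul, ← add_smul]
            congr 1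
            field_simp
            ring
          rw [e2, hkr nN norm_nN]
          constructor
          · rw [sub_nonneg, div_le_one hz0]; exact hz.2
          · rw [sub_le_self_iff]; exact div_nonneg h hz0.le
    · rintro _ (⟨s, hs, rfl⟩ | ⟨s, hs, rfl⟩)
      · refine ⟨(1 - s) * z0, ⟨by nlinarith [hs.2], by nlinarith [hs.1]⟩, ?_⟩
        have hz : (1 - s) * z0 ∈ Icc (-1) z0 := ⟨by nlinarith [hs.2], by nlinarith [hs.1]⟩
        have hz' : 0 ≤ (1 - s) * z0 := mul_nonneg (by linarith [hs.2]) hz0.le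
        dsimp only
        rw [hA1 _ hz]
        have e1 : mk3 0 (1 - |(1 - s) * z0|) ((1 - s) * z0) = upH ((1 - (1 - s) * z0) • nN) := by
          rw [smul_nN, upH_mk, norm_zero, abs_of_nonneg hz', abs_of_nonneg (by linarith [hz.2])]
          congr 1; ring
        rw [e1, hu _ (by
          rw [norm_smul, norm_nN, Real.norm_of_nonneg (by linarith [hz.2])]; linarith)]
        have e2 : (1 - (1 - s) * z0) • nN = s • nN + (1 - s) • c := by
          rw [hc, smul_smul, ← add_smul]
          congr 1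
          ring
        rw [e2, hkr nN norm_nN s hs]
      · refine ⟨s - 1, ⟨by linarith [hs.1], by linarith [hs.2]⟩, ?_⟩
        dsimp only
        rw [hA1 _ ⟨by linarith [hs.1], by linarith [hs.2]⟩]
        have e1 : mk3 0 (1 - |s - 1|) (s - 1) = loH (s • nN) := by
          rw [smul_nN, loH_mk, norm_zero, abs_of_nonpos (by linarith [hs.2]), abs_of_nonneg hs.1]
          congr 1 <;> ring
        rw [e1, hl _ (by rw [norm_smul, norm_nN, Real.norm_of_nonneg hs.1]; linarith [hs.2])]
  · rw [image_image, image_image]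
    apply Set.Subset.antisymm
    · rintro _ ⟨z, hz, rfl⟩
      dsimp only
      rw [hB1 z hz]
      rcases le_total z 0 with h | h
      · right
        refine ⟨1 + z, ⟨by linarith [hz.1], by linarith⟩, ?_⟩
        have e1 : mk3 ((1 - |z| - bfun z0 z : ℝ) : ℂ) (bfun z0 z) z = loH ((1 + z) • eE) := by
          have : bfun z0 z = 0 := by unfold bfun; rw [max_eq_left h]; ring
          rw [smul_eE, loH_mk, this, abs_of_nonpos h, Complex.norm_real,
            Real.norm_of_nonneg (by linarith [hz.1]), abs_zero]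
          congr 1
          · congr 1; ring
          · ring
        rw [e1, hl _ (by
          rw [norm_smul, norm_eE, Real.norm_of_nonneg (by linarith [hz.1])]; linarith)]
      · left
        have hr : 1 - z / z0 ∈ Icc (0:ℝ) 1 := by
          constructor
          · rw [sub_nonneg, div_le_one hz0]; exact hz.2
          · rw [sub_le_self_iff]; exact div_nonneg h hz0.le
        refine ⟨1 - z / z0, hr, ?_⟩
        have e0 : (1 - z / z0) • eE + (1 - (1 - z / z0)) • c =
            WithLp.toLp 1 (((1 - |z| - bfun z0 z : ℝ) : ℂ), bfun z0 z) := by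
          rw [hc, smul_smul, smul_eE, smul_nN]
          unfold bfun
          rw [max_eq_right h, abs_of_nonneg h]
          apply up_ext
          · change ((1 - z / z0 : ℝ) : ℂ) + 0 = _
            rw [add_zero]
            change _ = ((1 - z - (1 - z0) * z / z0 : ℝ) : ℂ)
            congr 1
            field_simp
            ring
          · change 0 + (1 - (1 - z / z0)) * (1 - z0) = (1 - z0) * z / z0
            field_simp
            ring
        have e1 : mk3 ((1 - |z| - bfun z0 z : ℝ) : ℂ) (bfun z0 z) z =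
            upH ((1 - z / z0) • eE + (1 - (1 - z / z0)) • c) := by
          have hb0 : 0 ≤ bfun z0 z := by
            unfold bfun
            exact div_nonneg (mul_nonneg (by linarith) (le_max_left _ _)) hz0.le
          have hb1 : bfun z0 z ≤ 1 - |z| := by
            rcases eq_or_lt_of_le hz.2 with h' | h'
            · subst h'
              unfold bfun
              rw [max_eq_right h, abs_of_nonneg h]
              field_simp; rfl
            · exact (bfun_lt hz0 hz1 ⟨by linarith, h'⟩).2.le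
          rw [e0, upH_mk, Complex.norm_real, Real.norm_of_nonneg (by linarith), abs_of_nonneg hb0]
          congr 1
          rw [abs_of_nonneg h]; ring
        rw [e1, hu _ ?_, hkr eE norm_eE _ hr]
        have h7 := (homeoOn_tmap hcn).mapsTo (show (1 - z / z0) • eE ∈ closedBall (0 : Up ℂ) 1 by
          rw [mem_closedBall_zero_iff, norm_smul, norm_eE, Real.norm_of_nonneg hr.1]
          linarith [hr.2])
        rw [mem_closedBall_zero_iff] at h7
        unfold tmap at h7
        rw [norm_smul, norm_eE, Real.norm_of_nonneg hr.1, mul_one] at h7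
        exact h7
    · rintro _ (⟨s, hs, rfl⟩ | ⟨s, hs, rfl⟩)
      · set z := (1 - s) * z0 with hzdef
        have hz : z ∈ Icc (-1) z0 := ⟨by nlinarith [hs.2], by nlinarith [hs.1]⟩
        have h : 0 ≤ z := mul_nonneg (by linarith [hs.2]) hz0.le
        refine ⟨z, hz, ?_⟩
        dsimp only
        rw [hB1 _ hz]
        have hsz : 1 - z / z0 = s := by
          rw [hzdef]; field_simp; ring
        have e0 : s • eE + (1 - s) • c =
            WithLp.toLp 1 (((1 - |z| - bfun z0 z : ℝ) : ℂ), bfun z0 z) := by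
          rw [hc, smul_smul, smul_eE, smul_nN]
          unfold bfun
          rw [max_eq_right h, abs_of_nonneg h]
          apply up_ext
          · change (s : ℂ) + 0 = _
            rw [add_zero]
            change _ = ((1 - z - (1 - z0) * z / z0 : ℝ) : ℂ)
            congr 1
            rw [hzdef]
            field_simp
            ring
          · change 0 + (1 - s) * (1 - z0) = (1 - z0) * z / z0
            rw [hzdef]
            field_simp
            ring
        have e1 : mk3 ((1 - |z| - bfun z0 z : ℝ) : ℂ) (bfun z0 z) z =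
            upH (s • eE + (1 - s) • c) := by
          have hb0 : 0 ≤ bfun z0 z := by
            unfold bfun
            exact div_nonneg (mul_nonneg (by linarith) (le_max_left _ _)) hz0.le
          have hb1 : bfun z0 z ≤ 1 - |z| := by
            rcases eq_or_lt_of_le hz.2 with h' | h'
            · unfold bfun
              rw [max_eq_right h, abs_of_nonneg h, h']
              field_simp; rfl
            · exact (bfun_lt hz0 hz1 ⟨by linarith, h'⟩).2.le
          rw [e0, upH_mk, Complex.norm_real, Real.norm_of_nonneg (by linarith), abs_of_nonneg hb0]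
          congr 1
          rw [abs_of_nonneg h]; ring
        rw [e1, hu _ ?_, hkr eE norm_eE _ hs]
        have h7 := (homeoOn_tmap hcn).mapsTo (show s • eE ∈ closedBall (0 : Up ℂ) 1 by
          rw [mem_closedBall_zero_iff, norm_smul, norm_eE, Real.norm_of_nonneg hs.1]
          linarith [hs.2])
        rw [mem_closedBall_zero_iff] at h7
        unfold tmap at h7
        rw [norm_smul, norm_eE, Real.norm_of_nonneg hs.1, mul_one] at h7
        exact h7
      · refine ⟨s - 1, ⟨by linarith [hs.1], by linarith [hs.2]⟩, ?_⟩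
        dsimp only
        rw [hB1 _ ⟨by linarith [hs.1], by linarith [hs.2]⟩]
        have e1 : mk3 ((1 - |s - 1| - bfun z0 (s - 1) : ℝ) : ℂ) (bfun z0 (s - 1)) (s - 1) =
            loH (s • eE) := by
          have : bfun z0 (s - 1) = 0 := by
            unfold bfun; rw [max_eq_left (by linarith [hs.2])]; ring
          rw [smul_eE, loH_mk, this, abs_of_nonpos (by linarith [hs.2]), Complex.norm_real,
            Real.norm_of_nonneg hs.1, abs_zero]
          congr 1
          · congr 1; ring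
          · ring
        rw [e1, hl _ (by rw [norm_smul, norm_eE, Real.norm_of_nonneg hs.1]; linarith [hs.2])]

end NE3
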