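import Pool.Agent.Hhelper58.LemX

/-! The two strand lemma in the form in which it is used. -/

set_option linter.unusedSectionVars false
set_option linter.deprecated false
set_option linter.unusedSimpArgs false

namespace NE3

open Set Topology Metric

theorem lemX2 {U Z k : ℝ} (hU : 0 < U) (hZ : 0 < Z) (hUZ : U + Z = 1) (hk : 0 ≤ k)
    (hkZ : U < (1 + k) * Z) {kt : ℝ → Up ℂ} (hkc : ContinuousOn kt (Icc 0 (1/2)))
    (hkn : ∀ s ∈ Icc (0:ℝ) (1/2), ‖kt s‖ = 1) (hk0 : kt 0 = nN)
    (hkf : ∀ s ∈ Ioc (0:ℝ) (1/2), (kt s).fst ≠ 0) :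
    ∃ f : Up (Up ℂ) → Up (Up ℂ), HomeoOn f (sphere 0 1) (sphere 0 1) ∧
      f '' (((fun s : ℝ => upH (((3/2 + (1 + k) * s) / (2 + k/2)) • nN)) '' Icc 0 (1/2) ∪
        (fun r : ℝ => loH (r • nN)) '' Icc 0 1) ∪
        ((fun s : ℝ => upH (((1 + ((1/2 - s * U + s * Z) + k * (s * Z))) /
          (1 + (2 + k) * (1/2 - s * U))) • kt s)) '' Icc 0 (1/2) ∪
        (fun r : ℝ => loH (r • kt (1/2))) '' Icc 0 1)) = C0 := by
  set m : ℝ := 2 + k/2 with hm
  set q : ℝ := (1 + k) * Z - U with hq
  set n : ℝ := (2 + k) * U with hn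
  have hm0 : 0 < m := by rw [hm]; linarith
  have hq0 : 0 < q := by rw [hq]; linarith
  have hn0 : 0 < n := by rw [hn]; exact mul_pos (by linarith) hU
  have hU1 : U < 1 := by linarith
  have h2m : 2 * m - n = q + 3 := by
    rw [hm, hn, hq]
    have : Z = 1 - U := by linarith
    rw [this]; ring
  have hmn : ∀ s ∈ Icc (0:ℝ) (1/2), 0 < m - n * s := by
    intro s hs
    have : n * s ≤ n * (1/2) := mul_le_mul_of_nonneg_left hs.2 hn0.le
    linarith
  set z0 : ℝ := 1 - (3/2) / m with hz0def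
  have hpm : (3/2) / m < 1 := by rw [div_lt_one hm0, hm]; linarith
  have hpm0 : 0 < (3/2) / m := div_pos (by norm_num) hm0
  have hz0 : 0 < z0 := by rw [hz0def]; linarith
  have hz1 : z0 < 1 := by rw [hz0def]; linarith
  have hm32 : (3/2) / m * m = 3/2 := div_mul_cancel₀ _ hm0.ne'
  set L : ℝ → ℝ := fun z => ((1 - max 0 z) * m - 3/2) / (q + n * (1 - max 0 z)) with hL
  have hden : ∀ z ∈ Icc (-1) z0, 0 < q + n * (1 - max 0 z) := by
    intro z hz
    have h1 : max 0 z ≤ 1 := max_le (by norm_num) (by linarith [hz.2])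
    have := mul_nonneg hn0.le (show 0 ≤ 1 - max 0 z by linarith)
    linarith
  have hLmem : ∀ z ∈ Icc (-1) z0, L z ∈ Icc (0:ℝ) (1/2) := by
    intro z hz
    have hd := hden z hz
    have h1 : max 0 z ≤ z0 := max_le hz0.le hz.2
    have h2 : 0 ≤ max 0 z := le_max_left _ _
    rw [hL]
    dsimp only
    constructor
    · apply div_nonneg _ hd.le
      have : (3/2) / m * m ≤ (1 - max 0 z) * m :=
        mul_le_mul_of_nonneg_right (by rw [hz0def] at h1; linarith) hm0.le
      linarith
    · rw [div_le_iff₀ hd]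
      nlinarith [mul_nonneg h2 (show 0 ≤ q + 3 by linarith)]
  have hLpos : ∀ z ∈ Ioo (-1) z0, 0 < L z := by
    intro z hz
    have hd := hden z (Ioo_subset_Icc_self hz)
    have h1 : max 0 z < z0 := max_lt hz0 hz.2
    rw [hL]
    dsimp only
    apply div_pos _ hd
    have : (3/2) / m * m < (1 - max 0 z) * m :=
      mul_lt_mul_of_pos_right (by rw [hz0def] at h1; linarith) hm0
    linarith
  have hLc : ContinuousOn L (Icc (-1) z0) := by
    rw [hL]
    apply ContinuousOn.div
    · have : Continuous fun z : ℝ => (1 - max 0 z) * m - 3/2 := by fun_prop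
      exact this.continuousOn
    · have : Continuous fun z : ℝ => q + n * (1 - max 0 z) := by fun_prop
      exact this.continuousOn
    · intro z hz
      exact (hden z hz).ne'
  have hL0 : ∀ z ≤ 0, L z = 1/2 := by
    intro z hz
    rw [hL]
    dsimp only
    rw [max_eq_left hz]
    have : q + n * (1 - 0) ≠ 0 := by linarith
    rw [div_eq_iff this]
    linarith
  have hLz0 : L z0 = 0 := by
    rw [hL]
    dsimp only
    rw [max_eq_right hz0.le]
    have : (1 - z0) * m - 3/2 = 0 := by rw [hz0def]; linarith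
    rw [this, zero_div]
  -- radius identity
  have hrad : ∀ z ∈ Icc 0 z0, (3/2 + q * L z) = (1 - z) * (m - n * L z) := by
    intro z hz
    have hd := hden z ⟨by linarith [hz.1], hz.2⟩
    have e : L z * (q + n * (1 - z)) = (1 - z) * m - 3/2 := by
      rw [hL]
      dsimp only
      rw [max_eq_right hz.1] at hd ⊢
      exact div_mul_cancel₀ _ hd.ne'
    linarith
  set κ : ℝ → Up ℂ := fun z => (1 - |z|) • kt (L z) with hκ
  have hκc : ContinuousOn κ (Icc (-1) z0) := by
    refine ContinuousOn.smul (f := fun z : ℝ => 1 - |z|) (g := fun z => kt (L z)) ?_ ?_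
    · exact (continuous_const.sub continuous_abs).continuousOn
    · exact hkc.comp hLc hLmem
  have habs : ∀ z ∈ Icc (-1) z0, |z| ≤ 1 := by
    intro z hz
    exact abs_le.2 ⟨hz.1, by linarith [hz.2]⟩
  have hκn : ∀ z ∈ Icc (-1) z0, ‖κ z‖ = 1 - |z| := by
    intro z hz
    rw [hκ]
    dsimp only
    rw [norm_smul, hkn _ (hLmem z hz), Real.norm_of_nonneg (by linarith [habs z hz]), mul_one]
  obtain ⟨f, hf, hfX⟩ := lemX hz0 hz1 (ζ := fun z => (κ z).fst) (a := fun z => (κ z).snd)
    (continuous_fst'.comp_continuousOn hκc) (continuous_snd'.comp_continuousOn hκc)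
    (by
      intro z hz
      have := hκn z hz
      rw [norm_up] at this
      linarith)
    (by
      intro z hz
      have hz' := Ioo_subset_Icc_self hz
      have h1 : |z| < 1 := abs_lt.2 ⟨hz.1, by linarith [hz.2]⟩
      change (1 - |z|) • (kt (L z)).fst ≠ 0
      exact smul_ne_zero (by linarith) (hkf _ ⟨hLpos z hz, (hLmem z hz').2⟩))
    (by
      rw [hκ]
      dsimp only
      rw [hLz0, hk0, smul_nN]
      rfl)
    (by
      rw [hκ]
      dsimp only
      rw [hLz0, hk0, smul_nN, abs_of_pos hz0]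
      rfl)
  refine ⟨f, hf, ?_⟩
  rw [← hfX]
  congr 1
  have hup : ∀ z ∈ Icc 0 z0, mk3 (κ z).fst (κ z).snd z = upH ((1 - z) • kt (L z)) := by
    intro z hz
    have hz' : z ∈ Icc (-1) z0 := ⟨by linarith [hz.1], hz.2⟩
    apply up_ext
    · change κ z = (1 - z) • kt (L z)
      rw [hκ]
      dsimp only
      rw [abs_of_nonneg hz.1]
    · change z = 1 - ‖(1 - z) • kt (L z)‖
      rw [norm_smul, hkn _ (hLmem z hz'), Real.norm_of_nonneg (by linarith [hz.2])]
      ring
  have hlo : ∀ z ∈ Icc (-1) (0:ℝ), mk3 (κ z).fst (κ z).snd z = loH ((1 + z) • kt (1/2)) := by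
    intro z hz
    apply up_ext
    · change κ z = (1 + z) • kt (1/2)
      rw [hκ]
      dsimp only
      rw [abs_of_nonpos hz.2, hL0 z hz.2]
      congr 1
      ring
    · change z = ‖(1 + z) • kt (1/2)‖ - 1
      rw [norm_smul, hkn _ ⟨by norm_num, le_rfl⟩, Real.norm_of_nonneg (by linarith [hz.1])]
      ring
  have hup1 : ∀ z ∈ Icc 0 z0, mk3 0 (1 - |z|) z = upH ((1 - z) • nN) := by
    intro z hz
    rw [smul_nN, upH_mk, norm_zero, abs_of_nonneg hz.1, abs_of_nonneg (by linarith [hz.2])]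
    congr 1; ring
  have hlo1 : ∀ z ∈ Icc (-1) (0:ℝ), mk3 0 (1 - |z|) z = loH ((1 + z) • nN) := by
    intro z hz
    rw [smul_nN, loH_mk, norm_zero, abs_of_nonpos hz.2, abs_of_nonneg (by linarith [hz.1])]
    congr 1 <;> ring
  have hr1 : ∀ s ∈ Icc (0:ℝ) (1/2), 1 - (3/2 + (1 + k) * s) / m ∈ Icc 0 z0 := by
    intro s hs
    constructor
    · rw [sub_nonneg, div_le_one hm0, hm]
      nlinarith [hs.2]
    · rw [hz0def]
      have : (3/2) / m ≤ (3/2 + (1 + k) * s) / m :=
        div_le_div_of_nonneg_right (by nlinarith [hs.1]) hm0.le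
      linarith
  have hr2e : ∀ s : ℝ, (1 + ((1/2 - s * U + s * Z) + k * (s * Z))) /
      (1 + (2 + k) * (1/2 - s * U)) = (3/2 + q * s) / (m - n * s) := by
    intro s
    congr 1
    · rw [hq]; ring
    · rw [hm, hn]; ring
  have hr2 : ∀ s ∈ Icc (0:ℝ) (1/2), 1 - (3/2 + q * s) / (m - n * s) ∈ Icc 0 z0 := by
    intro s hs
    have hd := hmn s hs
    constructor
    · rw [sub_nonneg, div_le_one hd]
      nlinarith [hs.2]
    · rw [hz0def]
      have : (3/2) / m ≤ (3/2 + q * s) / (m - n * s) := by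
        rw [div_le_div_iff₀ hm0 hd]
        nlinarith [mul_nonneg hn0.le hs.1, mul_nonneg (mul_nonneg hq0.le hs.1) hm0.le]
      linarith
  have hr2L : ∀ s ∈ Icc (0:ℝ) (1/2), L (1 - (3/2 + q * s) / (m - n * s)) = s := by
    intro s hs
    have hd := hmn s hs
    have h1 := hr2 s hs
    have h2 := hden _ (show 1 - (3/2 + q * s) / (m - n * s) ∈ Icc (-1) z0 from
      ⟨by linarith [h1.1], h1.2⟩)
    rw [max_eq_right h1.1] at h2
    rw [hL]
    dsimp only
    rw [max_eq_right h1.1, div_eq_iff h2.ne']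
    rw [sub_sub_cancel]
    have e1 : (3/2 + q * s) / (m - n * s) * (m - n * s) = 3/2 + q * s :=
      div_mul_cancel₀ _ hd.ne'
    linear_combination e1
  congr 1
  · -- first strand
    apply Set.Subset.antisymm
    · rintro _ (⟨s, hs, rfl⟩ | ⟨r, hr, rfl⟩)
      · refine ⟨_, ⟨by linarith [(hr1 s hs).1], (hr1 s hs).2⟩, ?_⟩
        dsimp only
        rw [hup1 _ (hr1 s hs), sub_sub_cancel]
      · refine ⟨r - 1, ⟨by linarith [hr.1], by linarith [hr.2]⟩, ?_⟩
        dsimp only
        rw [hlo1 _ ⟨by linarith [hr.1], by linarith [hr.2]⟩]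
        congr 2
        ring
    · rintro _ ⟨z, hz, rfl⟩
      dsimp only
      rcases le_total 0 z with h | h
      · left
        refine ⟨((1 - z) * m - 3/2) / (1 + k), ⟨?_, ?_⟩, ?_⟩
        · apply div_nonneg _ (by linarith)
          have : (3/2) / m * m ≤ (1 - z) * m :=
            mul_le_mul_of_nonneg_right (by have := hz.2; rw [hz0def] at this; linarith) hm0.le
          linarith
        · rw [div_le_iff₀ (by linarith)]
          nlinarith
        · dsimp only
          rw [hup1 z ⟨h, hz.2⟩]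
          congr 2
          have : 1 + k ≠ 0 := by linarith
          field_simp
          ring
      · right
        refine ⟨1 + z, ⟨by linarith [hz.1], by linarith⟩, ?_⟩
        dsimp only
        rw [hlo1 z ⟨hz.1, h⟩]
  · apply Set.Subset.antisymm
    · rintro _ (⟨s, hs, rfl⟩ | ⟨r, hr, rfl⟩)
      · refine ⟨_, ⟨by linarith [(hr2 s hs).1], (hr2 s hs).2⟩, ?_⟩
        dsimp only
        rw [hup _ (hr2 s hs), sub_sub_cancel, hr2L s hs, hr2e]
      · refine ⟨r - 1, ⟨by linarith [hr.1], by linarith [hr.2]⟩, ?_⟩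
        dsimp only
        rw [hlo _ ⟨by linarith [hr.1], by linarith [hr.2]⟩]
        congr 2
        ring
    · rintro _ ⟨z, hz, rfl⟩
      dsimp only
      rcases le_total 0 z with h | h
      · left
        refine ⟨L z, hLmem z hz, ?_⟩
        dsimp only
        rw [hup z ⟨h, hz.2⟩, hr2e, hrad z ⟨h, hz.2⟩]
        congr 2
        rw [mul_div_assoc, div_self (hmn _ (hLmem z hz)).ne', mul_one]
      · right
        refine ⟨1 + z, ⟨by linarith [hz.1], by linarith⟩, ?_⟩
        dsimp only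
        rw [hlo z ⟨hz.1, h⟩]

end NE3
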