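import Pool.Agent.Hhelper58.Cone3
import Pool.Agent.Hhelper58.Comb3

/-! Vertex links of triangulated three-manifolds are connected with vanishing first cohomology. -/

set_option linter.unusedSectionVars false
set_option linter.deprecated false
set_option linter.unusedSimpArgs false

namespace NE3

open Set Topology Metric

section cech
variable {B ι : Type*} [TopologicalSpace B]

/-- compatible local sections over `X` -/
def Triv (U : ι → Set B) (c : ι → ι → ZMod 2) (X : Set B) : Prop :=
  ∃ s : ι → B → ZMod 2, (∀ i, ContinuousOn (s i) (U i ∩ X)) ∧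
    ∀ i j, ∀ x ∈ U i ∩ U j ∩ X, s j x = s i x + c i j

theorem triv_simply [SimplyConnectedSpace B] [LocallyPathConnectedSpace B] {U : ι → Set B}
    {c : ι → ι → ZMod 2} (hU : ∀ i, IsOpen (U i)) (hcov : ∀ x, ∃ i, x ∈ U i)
    (hc0 : ∀ i, c i i = 0)
    (hc : ∀ i j k, (U i ∩ U j ∩ U k).Nonempty → c i j + c j k = c i k) :
    ∃ s : ι → B → ZMod 2, (∀ i, ContinuousOn (s i) (U i)) ∧
      ∀ i j, ∀ x ∈ U i ∩ U j, s j x = s i x + c i j := by
  choose ia hia using hcov
  let Z : FiberBundleCore ι B (ZMod 2) :=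
    { baseSet := U
      isOpen_baseSet := hU
      indexAt := ia
      mem_baseSet_at := hia
      coordChange := fun i j _ k => k + c i j
      coordChange_self := by
        intro i x _ v
        rw [hc0, add_zero]
      continuousOn_coordChange := by
        intro i j
        apply Continuous.continuousOn
        exact continuous_snd.add continuous_const
      coordChange_comp := by
        intro i j k x hx v
        rw [add_assoc, hc i j k ⟨x, hx⟩] }
  have cov : IsCoveringMap (Bundle.TotalSpace.proj : Bundle.TotalSpace (ZMod 2) Z.Fiber → B) :=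
    FiberBundle.isCoveringMap
  have hne : Nonempty B := inferInstance
  obtain ⟨x0⟩ := hne
  obtain ⟨F, ⟨_, hF⟩, _⟩ := cov.existsUnique_continuousMap_lifts (ContinuousMap.id B) x0
    (⟨x0, (0 : ZMod 2)⟩ : Bundle.TotalSpace (ZMod 2) Z.Fiber) rfl
  have hFp : ∀ x, (F x).proj = x := fun x => congrFun hF x
  refine ⟨fun i x => (Z.localTriv i (F x)).2, ?_, ?_⟩
  · intro i
    apply continuous_snd.comp_continuousOn
    apply (Z.localTriv i).continuousOn.comp F.continuous.continuousOn
    intro x hx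
    rw [Z.mem_localTriv_source]
    change (F x).proj ∈ U i
    rw [hFp]; exact hx
  · intro i j x hx
    let f : B → ZMod 2 := fun x => (F x).2
    have e : ∀ i, (Z.localTriv i (F x)).2 = f x + c (ia (F x).proj) i := fun i => rfl
    dsimp only
    rw [e, e, hFp, add_assoc, hc _ _ _ ⟨x, ⟨hia x, hx.1⟩, hx.2⟩]

theorem triv_of_open {U : ι → Set B} {c : ι → ι → ZMod 2} {X : Set B} (hX : IsOpen X)
    [SimplyConnectedSpace X] [LocallyPathConnectedSpace X] (hU : ∀ i, IsOpen (U i))
    (hcov : ∀ x ∈ X, ∃ i, x ∈ U i) (hc0 : ∀ i, c i i = 0)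
    (hc : ∀ i j k, (U i ∩ U j ∩ U k).Nonempty → c i j + c j k = c i k) : Triv U c X := by
  classical
  obtain ⟨s, hs1, hs2⟩ := triv_simply (B := X) (U := fun i => Subtype.val ⁻¹' U i) (c := c)
    (fun i => (hU i).preimage continuous_subtype_val) (fun x => hcov x.1 x.2) hc0
    (by
      rintro i j k ⟨x, hx⟩
      exact hc i j k ⟨x.1, hx⟩)
  refine ⟨fun i x => if h : x ∈ X then s i ⟨x, h⟩ else 0, ?_, ?_⟩
  · rintro i x ⟨hx, hxX⟩
    apply ContinuousAt.continuousWithinAt
    have h1 : ContinuousAt (s i) ⟨x, hxX⟩ :=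
      (hs1 i).continuousAt (((hU i).preimage continuous_subtype_val).mem_nhds hx)
    have h2 : ContinuousAt (fun x => if h : x ∈ X then s i ⟨x, h⟩ else 0) ((⟨x, hxX⟩ : X) : B) := by
      rw [← hX.isOpenEmbedding_subtypeVal.continuousAt_iff]
      apply h1.congr
      filter_upwards with y
      simp
    exact h2
  · rintro i j x ⟨hx, hxX⟩
    simp only [hxX, dif_pos]
    exact hs2 i j ⟨x, hxX⟩ hx

theorem Triv.union {U : ι → Set B} {c : ι → ι → ZMod 2} {X Y : Set B} (hX : IsOpen X)
    (hY : IsOpen Y) (hU : ∀ i, IsOpen (U i)) (hcov : ∀ x ∈ X ∩ Y, ∃ i, x ∈ U i)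
    (h1 : Triv U c X) (h2 : Triv U c Y) (hXY : IsPreconnected (X ∩ Y)) : Triv U c (X ∪ Y) := by
  classical
  obtain ⟨s, hs, hsc⟩ := h1
  obtain ⟨t, ht, htc⟩ := h2
  -- the difference
  have hex : ∃ k : ZMod 2, ∀ i, ∀ x ∈ U i ∩ (X ∩ Y), s i x = t i x + k := by
    rcases (X ∩ Y).eq_empty_or_nonempty with h0 | ⟨x0, hx0⟩
    · exact ⟨0, by rintro i x ⟨_, hx⟩; rw [h0] at hx; exact absurd hx (Set.notMem_empty x)⟩
    · have : Nonempty ι := ⟨(hcov x0 hx0).choose⟩
      choose! ia hia using hcov
      set g : B → ZMod 2 := fun x => s (ia x) x + t (ia x) x with hg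
      have hgi : ∀ i, ∀ x ∈ U i ∩ (X ∩ Y), g x = s i x + t i x := by
        rintro i x ⟨hxi, hx⟩
        have e1 := hsc i (ia x) x ⟨⟨hxi, hia x hx⟩, hx.1⟩
        have e2 := htc i (ia x) x ⟨⟨hxi, hia x hx⟩, hx.2⟩
        simp only [hg]
        rw [e1, e2]
        have : ∀ a b c : ZMod 2, a + c + (b + c) = a + b := by decide
        exact this _ _ _
      have hgc : ContinuousOn g (X ∩ Y) := by
        intro x hx
        apply ContinuousAt.continuousWithinAt
        have hopen : IsOpen (U (ia x) ∩ (X ∩ Y)) := (hU _).inter (hX.inter hY)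
        have hmem : x ∈ U (ia x) ∩ (X ∩ Y) := ⟨hia x hx, hx⟩
        have h3 : ContinuousOn (fun y => s (ia x) y + t (ia x) y) (U (ia x) ∩ (X ∩ Y)) := by
          apply ContinuousOn.add
          · exact (hs (ia x)).mono fun y hy => ⟨hy.1, hy.2.1⟩
          · exact (ht (ia x)).mono fun y hy => ⟨hy.1, hy.2.2⟩
        have h4 := h3.continuousAt (hopen.mem_nhds hmem)
        apply h4.congr
        filter_upwards [hopen.mem_nhds hmem] with y hy
        exact (hgi (ia x) y hy).symm
      refine ⟨g x0, ?_⟩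
      intro i x hx
      have e1 : g x = g x0 := hXY.constant hgc hx.2 hx0
      rw [← e1, hgi i x hx]
      have : ∀ a b : ZMod 2, a = b + (a + b) := by decide
      exact this _ _
  obtain ⟨k, hk⟩ := hex
  refine ⟨fun i x => if x ∈ X then s i x else t i x + k, ?_, ?_⟩
  · rintro i x ⟨hxi, hx⟩
    apply ContinuousAt.continuousWithinAt
    rcases hx with hx | hx
    · have h3 := (hs i).continuousAt (((hU i).inter hX).mem_nhds ⟨hxi, hx⟩)
      apply h3.congr
      filter_upwards [hX.mem_nhds hx] with y hy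
      rw [if_pos hy]
    · have h3 := (ht i).continuousAt (((hU i).inter hY).mem_nhds ⟨hxi, hx⟩)
      have h4 : ContinuousAt (fun y => t i y + k) x := h3.add continuousAt_const
      apply h4.congr
      filter_upwards [((hU i).inter hY).mem_nhds ⟨hxi, hx⟩] with y hy
      split_ifs with hyX
      · exact (hk i y ⟨hy.1, hyX, hy.2⟩).symm
      · rfl
  · rintro i j x ⟨⟨hxi, hxj⟩, hx⟩
    dsimp only
    by_cases hxX : x ∈ X
    · rw [if_pos hxX, if_pos hxX]
      exact hsc i j x ⟨⟨hxi, hxj⟩, hxX⟩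
    · rw [if_neg hxX, if_neg hxX]
      have hxY : x ∈ Y := hx.resolve_left hxX
      rw [htc i j x ⟨⟨hxi, hxj⟩, hxY⟩]
      have : ∀ a b c : ZMod 2, a + b + c = a + c + b := by decide
      exact this _ _ _

end cech

/-! ### two star-shaped pieces -/

/-- complement of a half line -/
def slit (ε : ℝ) : Set (Up ℂ) := {p | p.fst ≠ 0 ∨ 0 < ε * p.snd}

lemma isOpen_slit (ε : ℝ) : IsOpen (slit ε) := by
  have h1 : IsOpen {p : Up ℂ | p.fst ≠ 0} :=
    isOpen_ne_fun (WithLp.prod_continuous_ofLp 1 ℂ ℝ).fst continuous_const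
  have h2 : IsOpen {p : Up ℂ | 0 < ε * p.snd} :=
    isOpen_lt continuous_const (continuous_const.mul continuous_snd')
  exact h1.union h2

lemma starConvex_slit {ε : ℝ} (hε : ε ≠ 0) :
    StarConvex ℝ (WithLp.toLp 1 ((0:ℂ), ε) : Up ℂ) (slit ε) := by
  intro p hp a b ha hb hab
  have h1 : (a • (WithLp.toLp 1 ((0:ℂ), ε) : Up ℂ) + b • p).fst = (b : ℂ) * p.fst := by
    change (a : ℝ) • (0:ℂ) + b • p.fst = _
    rw [smul_zero, zero_add]; rfl
  have h2 : (a • (WithLp.toLp 1 ((0:ℂ), ε) : Up ℂ) + b • p).snd = a * ε + b * p.snd := rfl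
  have hεε : 0 < ε * ε := mul_self_pos.2 hε
  unfold slit
  rw [mem_setOf_eq, h1, h2]
  rcases hb.eq_or_lt with hb0 | hb0
  · right
    have : a = 1 := by linarith
    rw [← hb0, this]; linarith
  · rcases hp with hp | hp
    · left
      exact mul_ne_zero (by exact_mod_cast hb0.ne') hp
    · right
      have : 0 < b * (ε * p.snd) := mul_pos hb0 hp
      have h3 : 0 ≤ a * (ε * ε) := mul_nonneg ha hεε.le
      nlinarith

lemma slit_nonempty {ε : ℝ} (hε : ε ≠ 0) : (slit ε).Nonempty :=
  ⟨WithLp.toLp 1 ((0:ℂ), ε), Or.inr (mul_self_pos.2 hε)⟩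

lemma slit_inter : slit 1 ∩ slit (-1) = {p : Up ℂ | p.fst ≠ 0} := by
  ext p
  unfold slit
  simp only [mem_inter_iff, mem_setOf_eq]
  constructor
  · rintro ⟨h1 | h1, h2⟩
    · exact h1
    · rcases h2 with h2 | h2
      · exact h2
      · exfalso; linarith
  · intro h; exact ⟨Or.inl h, Or.inl h⟩

lemma slit_union : slit 1 ∪ slit (-1) = {p : Up ℂ | p ≠ 0} := by
  ext p
  unfold slit
  simp only [mem_union, mem_setOf_eq]
  constructor
  · rintro ((h | h) | (h | h)) <;> rintro rfl
    · exact h rfl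
    · have : (0 : Up ℂ).snd = 0 := rfl
      rw [this] at h; linarith
    · exact h rfl
    · have : (0 : Up ℂ).snd = 0 := rfl
      rw [this] at h; linarith
  · intro h
    by_contra hcon
    push Not at hcon
    apply h
    apply up_ext
    · exact hcon.1.1
    · change p.snd = 0
      have h1 := hcon.1.2
      have h2 := hcon.2.2
      linarith

lemma isPreconnected_slit : IsPreconnected {p : Up ℂ | p.fst ≠ 0} := by
  have h1 : IsPreconnected ({0}ᶜ : Set ℂ) :=
    (isConnected_compl_singleton_of_one_lt_rank (by simp) 0).isPreconnected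
  have h2 := h1.prod (isPreconnected_univ (α := ℝ))
  have h3 := h2.image (fun p : ℂ × ℝ => (WithLp.toLp 1 p : Up ℂ))
    (WithLp.prod_continuous_toLp 1 ℂ ℝ).continuousOn
  have h4 : (fun p : ℂ × ℝ => (WithLp.toLp 1 p : Up ℂ)) '' ({0}ᶜ ×ˢ univ) =
      {p : Up ℂ | p.fst ≠ 0} := by
    ext p
    constructor
    · rintro ⟨q, hq, rfl⟩
      exact hq.1
    · intro hp
      exact ⟨(p.fst, p.snd), ⟨hp, mem_univ _⟩, rfl⟩
  rw [h4] at h3
  exact h3

theorem triv_punctured {ι : Type*} {U : ι → Set (Up ℂ)} {c : ι → ι → ZMod 2}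
    (hU : ∀ i, IsOpen (U i)) (hcov : ∀ x, x ≠ 0 → ∃ i, x ∈ U i) (hc0 : ∀ i, c i i = 0)
    (hc : ∀ i j k, (U i ∩ U j ∩ U k).Nonempty → c i j + c j k = c i k) :
    Triv U c {p | p ≠ 0} := by
  have hs : ∀ ε : ℝ, ε ≠ 0 → slit ε ⊆ {p | p ≠ 0} → Triv U c (slit ε) := by
    intro ε hε hsub
    have h1 : ContractibleSpace (slit ε) := (starConvex_slit hε).contractibleSpace (slit_nonempty hε)
    have h2 : LocallyPathConnectedSpace (slit ε) := (isOpen_slit ε).locallyPathConnectedSpace
    exact triv_of_open (isOpen_slit ε) hU (fun x hx => hcov x (hsub hx)) hc0 hc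
  rw [← slit_union]
  apply Triv.union (isOpen_slit 1) (isOpen_slit (-1)) hU
  · intro x hx
    apply hcov
    have : x ∈ slit 1 ∪ slit (-1) := Or.inl hx.1
    rw [slit_union] at this
    exact this
  · apply hs 1 one_ne_zero
    rw [← slit_union]; exact subset_union_left
  · apply hs (-1) (by norm_num)
    rw [← slit_union]; exact subset_union_right
  · rw [slit_inter]; exact isPreconnected_slit

/-! ### parametrisation of a neighbourhood -/

section param
variable {Y : Type*} [TopologicalSpace Y]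

theorem LE.exists_param {X : Set Y} {x : Y} (h : LE X x) :
    ∃ (D : Up ℂ → Y) (C : Y → Up ℂ), Continuous D ∧ ContinuousOn C (range D) ∧
      (∀ q, C (D q) = q) ∧ (∀ q, D q ∈ X) ∧ D 0 = x ∧ range D ∈ 𝓝[X] x := by
  obtain ⟨c, d, O, hO, hd, hdm, hc, hcd, hdn, hx⟩ := h
  obtain ⟨q0, hq0, hq0x⟩ := mem_of_mem_nhdsWithin hx hdn
  obtain ⟨r, hr, hrO⟩ := Metric.isOpen_iff.1 hO q0 hq0
  set e := OpenPartialHomeomorph.univUnitBall (E := Up ℂ) with he
  have he0 : e 0 = 0 := OpenPartialHomeomorph.univUnitBall_apply_zero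
  have hes : e.source = univ := rfl
  have het : e.target = ball 0 1 := rfl
  have hec : Continuous e := by
    rw [← continuousOn_univ, ← hes]; exact e.continuousOn
  have hem : ∀ q, e q ∈ ball (0 : Up ℂ) 1 := fun q => by
    rw [← het]; exact e.map_source (by rw [hes]; exact mem_univ q)
  have hel : ∀ q, e.symm (e q) = q := fun q => e.left_inv (by rw [hes]; exact mem_univ q)
  set m : Up ℂ → Up ℂ := fun q => q0 + r • e q with hm
  have hmc : Continuous m := continuous_const.add (hec.const_smul r)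
  have hmb : ∀ q, m q ∈ ball q0 r := by
    intro q
    rw [mem_ball_iff_norm, hm]
    simp only [add_sub_cancel_left]
    rw [norm_smul, Real.norm_of_nonneg hr.le]
    have := mem_ball_zero_iff.1 (hem q)
    nlinarith
  have hmi : ∀ q, e.symm (r⁻¹ • (m q - q0)) = q := by
    intro q
    rw [hm]
    simp only [add_sub_cancel_left]
    rw [smul_smul, inv_mul_cancel₀ hr.ne', one_smul, hel]
  have hms : ∀ p ∈ ball q0 r, ∃ q, m q = p := by
    intro p hp
    refine ⟨e.symm (r⁻¹ • (p - q0)), ?_⟩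
    rw [hm]
    dsimp only
    rw [e.right_inv, smul_smul, mul_inv_cancel₀ hr.ne', one_smul, add_sub_cancel]
    rw [het, mem_ball_zero_iff, norm_smul, norm_inv, Real.norm_of_nonneg hr.le]
    rw [mem_ball_iff_norm] at hp
    rw [inv_mul_lt_iff₀ hr]; linarith
  have hrange : range (fun q => d (m q)) = d '' (ball q0 r) := by
    ext y
    constructor
    · rintro ⟨q, rfl⟩; exact ⟨m q, hmb q, rfl⟩
    · rintro ⟨p, hp, rfl⟩
      obtain ⟨q, rfl⟩ := hms p hp
      exact ⟨q, rfl⟩
  refine ⟨fun q => d (m q), fun y => e.symm (r⁻¹ • (c y - q0)), ?_, ?_, ?_, ?_, ?_, ?_⟩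
  · exact hd.comp_continuous hmc fun q => hrO (hmb q)
  · rw [hrange]
    have h1 : ContinuousOn (fun y => r⁻¹ • (c y - q0)) (d '' ball q0 r) :=
      ((hc.mono (image_mono hrO)).fun_sub continuousOn_const).fun_const_smul _
    apply (e.continuousOn_symm).comp h1
    rintro _ ⟨p, hp, rfl⟩
    change r⁻¹ • (c (d p) - q0) ∈ e.target
    rw [hcd p (hrO hp), het, mem_ball_zero_iff, norm_smul, norm_inv, Real.norm_of_nonneg hr.le]
    rw [mem_ball_iff_norm] at hp
    rw [inv_mul_lt_iff₀ hr]; linarith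
  · intro q
    dsimp only
    rw [hcd _ (hrO (hmb q)), hmi]
  · intro q; exact hdm (hrO (hmb q))
  · dsimp only
    have : m 0 = q0 := by
      rw [hm]; dsimp only; rw [he0, smul_zero, add_zero]
    rw [this, hq0x]
  · rw [hrange]
    have hxd : x ∈ d '' O := ⟨q0, hq0, hq0x⟩
    have h1 : ∀ᶠ z in 𝓝[X] x, c z ∈ ball q0 r := by
      have h2 : ∀ᶠ z in 𝓝[d '' O] x, c z ∈ ball q0 r := by
        apply (hc x hxd).eventually
        apply isOpen_ball.mem_nhds
        rw [← hq0x, hcd _ hq0]
        exact mem_ball_self hr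
      exact (nhdsWithin_le_of_mem hdn) h2
    filter_upwards [h1, hdn] with z hz hz2
    obtain ⟨q, hq, rfl⟩ := hz2
    rw [hcd q hq] at hz
    exact ⟨q, hz, rfl⟩

end param

/-! ### links -/

variable {V : Type*} [DecidableEq V] [Fintype V]
variable {K S L T : PreAbstractSimplicialComplex V}

lemma mem_of_pos {z : V → ℝ} (hz : z ∈ cn L) {s : Finset V} (hs : s.Nonempty)
    (h : ∀ v ∈ s, 0 < z v) : s ∈ L := by
  rw [mem_cn] at hz
  have hsub : s ⊆ supp z := fun v hv => mem_supp.2 (h v hv).ne'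
  rcases hz.2 with h0 | h0
  · rw [h0, Finset.subset_empty] at hsub
    rw [hsub] at hs
    simp at hs
  · exact mem_of_subset h0 hsub hs

lemma exists_pos {z : V → ℝ} (hz : z ∈ cn L) (h0 : z ≠ 0) : ∃ v, 0 < z v := by
  by_contra hcon
  push Not at hcon
  apply h0
  ext v
  exact le_antisymm (hcon v) (hz.1 v)

/-- a small multiple of points of the realisation lies in the parametrised neighbourhood. -/
lemma exists_delta {R : Set (V → ℝ)} (h : R ∈ 𝓝[cn L] 0) :
    ∃ δ : ℝ, 0 < δ ∧ ∀ x ∈ geo L, δ • x ∈ R := by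
  obtain ⟨r, hr, hrR⟩ := Metric.mem_nhdsWithin_iff.1 h
  refine ⟨r / 2, by positivity, ?_⟩
  intro x hx
  apply hrR
  refine ⟨?_, ?_⟩
  · rw [mem_ball_zero_iff, norm_smul, Real.norm_of_nonneg (by positivity)]
    have : ‖x‖ ≤ 1 := by
      rw [pi_norm_le_iff_of_nonneg zero_le_one]
      intro v
      rw [Real.norm_of_nonneg (hx.1 v)]
      exact geo_le_one hx v
    nlinarith
  · rw [mem_cn]
    refine ⟨fun v => mul_nonneg (by positivity) (hx.1 v), Or.inr ?_⟩
    have : supp ((r / 2) • x) = supp x := by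
      ext v
      rw [mem_supp, mem_supp]
      change r / 2 * x v ≠ 0 ↔ _
      simp [hr.ne']
    rw [this]; exact hx.2.2

theorem LE.conn_H1 (hL : LE (cn L) 0) (hne : ∃ v, ({v} : Finset V) ∈ L) : Conn L ∧ H1 L := by
  obtain ⟨D, C, hD, hC, hCD, hDm, hD0, hDn⟩ := hL.exists_param
  obtain ⟨δ, hδ, hδR⟩ := exists_delta hDn
  have hDinj : Function.Injective D := fun p q h => by rw [← hCD p, h, hCD q]
  have hDne : ∀ q, q ≠ 0 → D q ≠ 0 := by
    intro q hq h
    apply hq
    apply hDinj
    rw [h, hD0]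
  have hDC : ∀ z ∈ range D, D (C z) = z := by
    rintro _ ⟨q, rfl⟩; rw [hCD]
  have hCne : ∀ z ∈ range D, z ≠ 0 → C z ≠ 0 := by
    intro z hz hz0 h
    apply hz0
    rw [← hDC z hz, h, hD0]
  have hDcoord : ∀ v, Continuous fun q => D q v := fun v => (continuous_apply v).comp hD
  -- vertex points
  have hvert : ∀ v, ({v} : Finset V) ∈ L → δ • (Pi.single v 1 : V → ℝ) ∈ range D := fun v hv =>
    hδR _ (single_mem_geo hv)
  have hvq : ∀ v, ({v} : Finset V) ∈ L → 0 < D (C (δ • (Pi.single v 1 : V → ℝ))) v := by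
    intro v hv
    rw [hDC _ (hvert v hv)]
    change 0 < δ * (Pi.single v 1 : V → ℝ) v
    rw [Pi.single_eq_same, mul_one]; exact hδ
  refine ⟨⟨hne, ?_⟩, ?_⟩
  · rintro A ⟨a, haA, ha⟩ ⟨b, hbA, hb⟩
    by_contra hcon
    push Not at hcon
    have hconn : IsPreconnected ({0}ᶜ : Set (Up ℂ)) := by
      apply IsConnected.isPreconnected
      apply isConnected_compl_singleton_of_one_lt_rank
      rw [← Module.finrank_eq_rank, finrank_Q]
      norm_num
    have hopen : ∀ A : Set V, IsOpen {q : Up ℂ | ∃ u ∈ A, 0 < D q u} := by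
      intro A
      have : {q : Up ℂ | ∃ u ∈ A, 0 < D q u} = ⋃ u ∈ A, {q | 0 < D q u} := by
        ext q; simp
      rw [this]
      exact isOpen_biUnion fun u _ => isOpen_lt continuous_const (hDcoord u)
    obtain ⟨q, _, ⟨u, hu, hqu⟩, v, hv, hqv⟩ := hconn {q | ∃ u ∈ A, 0 < D q u}
      {q | ∃ u ∈ Aᶜ, 0 < D q u} (hopen A) (hopen Aᶜ)
      (by
        intro q hq
        obtain ⟨v, hv⟩ := exists_pos (hDm q) (hDne q hq)
        by_cases hvA : v ∈ A
        · exact Or.inl ⟨v, hvA, hv⟩
        · exact Or.inr ⟨v, hvA, hv⟩)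
      ⟨C (δ • (Pi.single a 1 : V → ℝ)), by
        intro h
        have h : C (δ • (Pi.single a 1 : V → ℝ)) = 0 := h
        have := hvq a ha
        rw [h, hD0] at this
        exact lt_irrefl _ this, a, haA, hvq a ha⟩
      ⟨C (δ • (Pi.single b 1 : V → ℝ)), by
        intro h
        have h : C (δ • (Pi.single b 1 : V → ℝ)) = 0 := h
        have := hvq b hb
        rw [h, hD0] at this
        exact lt_irrefl _ this, b, hbA, hvq b hb⟩
    apply hcon u hu v hv
    apply mem_of_pos (hDm q) (Finset.insert_nonempty _ _)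
    intro x hx
    simp only [Finset.mem_insert, Finset.mem_singleton] at hx
    rcases hx with rfl | rfl
    · exact hqu
    · exact hqv
  · intro c hc
    set U : V → Set (Up ℂ) := fun v => {q | 0 < D q v} with hU
    set cc : V → V → ZMod 2 := fun u v => if u = v then 0 else c {u, v} with hcc
    have hUne : ∀ v, ∀ q ∈ U v, q ≠ 0 := by
      rintro v q hq rfl
      have hq : 0 < D 0 v := hq
      rw [hD0] at hq
      exact lt_irrefl _ hq
    obtain ⟨s, hs, hsc⟩ := triv_punctured (U := U) (c := cc)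
      (fun v => isOpen_lt continuous_const (hDcoord v))
      (fun q hq => exists_pos (hDm q) (hDne q hq)) (fun v => by simp [hcc])
      (by
        rintro i j k ⟨q, ⟨hi, hj⟩, hk⟩
        simp only [hcc]
        have hz : ∀ p : ZMod 2, p + p = 0 := by decide
        by_cases hij : i = j
        · subst hij
          simp
        · by_cases hjk : j = k
          · subst hjk
            simp
          · by_cases hik : i = k
            · subst hik
              rw [if_neg hij, if_neg (Ne.symm hij), if_pos rfl, Finset.pair_comm j i]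
              exact hz _
            · rw [if_neg hij, if_neg hjk, if_neg hik]
              have := hc i j k hij hik hjk (mem_of_pos (hDm q) (Finset.insert_nonempty _ _) (by
                intro x hx
                simp only [Finset.mem_insert, Finset.mem_singleton] at hx
                rcases hx with rfl | rfl | rfl
                · exact hi
                · exact hj
                · exact hk))
              have hz3 : ∀ a b c : ZMod 2, a + b + c = 0 → a + c = b := by decide
              exact hz3 _ _ _ this)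
    have hs' : ∀ i, ContinuousOn (s i) (U i) := fun i =>
      (hs i).mono fun q hq => ⟨hq, hUne i q hq⟩
    refine ⟨fun v => s v (C (δ • (Pi.single v 1 : V → ℝ))), ?_⟩
    intro u v huv he
    -- the segment
    set ψ : ℝ → Up ℂ := fun t => C (δ • jn u t (Pi.single v 1)) with hψ
    have hseg : ∀ t ∈ Icc (0:ℝ) 1, δ • jn u t (Pi.single v 1) ∈ range D := fun t ht =>
      hδR _ (star'_subset (jn_mem (single_mem_geo (single_mem_link.2 ⟨huv, he⟩)) ht))
    have hψc : ContinuousOn ψ (Icc 0 1) := by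
      apply hC.comp _ hseg
      apply Continuous.continuousOn
      exact ((continuous_jn u).comp (continuous_id.prodMk continuous_const)).const_smul δ
    have hval : ∀ t ∈ Icc (0:ℝ) 1, D (ψ t) = δ • jn u t (Pi.single v 1) := fun t ht =>
      hDC _ (hseg t ht)
    have hψu : MapsTo ψ (Ico 0 1) (U u) := by
      intro t ht
      change 0 < D (ψ t) u
      rw [hval t ⟨ht.1, ht.2.le⟩]
      change 0 < δ * jn u t (Pi.single v 1) u
      rw [jn_apply_self]
      exact mul_pos hδ (by linarith [ht.2])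
    have hψv : MapsTo ψ (Ioc 0 1) (U v) := by
      intro t ht
      change 0 < D (ψ t) v
      rw [hval t ⟨ht.1.le, ht.2⟩]
      change 0 < δ * jn u t (Pi.single v 1) v
      unfold jn
      rw [if_neg (Ne.symm huv), Pi.single_eq_same, mul_one]
      exact mul_pos hδ ht.1
    have h0 : (0:ℝ) ∈ Ico (0:ℝ) 1 := ⟨le_rfl, zero_lt_one⟩
    have h1 : (1:ℝ) ∈ Ioc (0:ℝ) 1 := ⟨zero_lt_one, le_rfl⟩
    have hh : (1/2:ℝ) ∈ Ico (0:ℝ) 1 := by constructor <;> norm_num
    have hh' : (1/2:ℝ) ∈ Ioc (0:ℝ) 1 := by constructor <;> norm_num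
    have e1 : s u (ψ 0) = s u (ψ (1/2)) :=
      isPreconnected_Ico.constant ((hs' u).comp (hψc.mono Ico_subset_Icc_self) hψu) h0 hh
    have e2 : s v (ψ 1) = s v (ψ (1/2)) :=
      isPreconnected_Ioc.constant ((hs' v).comp (hψc.mono Ioc_subset_Icc_self) hψv) h1 hh'
    have e3 := hsc u v (ψ (1/2)) ⟨⟨hψu hh, hψv hh'⟩, hUne u _ (hψu hh)⟩
    have e4 : ψ 0 = C (δ • (Pi.single u 1 : V → ℝ)) := by
      rw [hψ]; dsimp only
      congr 2
      ext x
      unfold jn
      split_ifs with hx
      · rw [hx]; simp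
      · rw [Pi.single_eq_of_ne hx]; ring
    have e5 : ψ 1 = C (δ • (Pi.single v 1 : V → ℝ)) := by
      rw [hψ]; dsimp only
      congr 2
      ext x
      unfold jn
      split_ifs with hx
      · rw [hx, Pi.single_eq_of_ne huv]; ring
      · ring
    dsimp only
    rw [← e4, ← e5, e1, e2, e3]
    simp only [hcc, if_neg huv]
    have : ∀ a b : ZMod 2, b = a + (a + b) := by decide
    exact this _ _

end NE3
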