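import Pool.Agent.Hhelper58.Lift

/-! Vertex links in triangulated three-manifolds are combinatorial two-spheres. -/

set_option linter.unusedSectionVars false
set_option linter.deprecated false
set_option linter.unusedSimpArgs false

namespace NE3

open Set Topology Metric

variable {V : Type*} [DecidableEq V] [Fintype V]
variable {K S L T : PreAbstractSimplicialComplex V}

lemma ind_mem_cn {τ : Finset V} (h : τ = ∅ ∨ τ ∈ L) : ind τ ∈ cn L := by
  rw [mem_cn, supp_ind]
  refine ⟨?_, h⟩
  intro v
  unfold ind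
  split_ifs <;> norm_num

lemma ind_empty : ind (∅ : Finset V) = 0 := by
  ext v; simp [ind]

lemma finrank_E2 : Module.finrank ℝ E2 = 2 := by
  have h := finrank_up (F := E2)
  have h3 : Module.finrank ℝ (Up E2) = 3 := finrank_E3
  omega

lemma finrank_E1 : Module.finrank ℝ E1 = 1 := by
  have h := finrank_up (F := E1)
  have h3 : Module.finrank ℝ (Up E1) = 2 := finrank_E2
  omega

/-- a cone point has nonempty link -/
lemma link_nonempty {F : Type*} [NormedAddCommGroup F] [NormedSpace ℝ F] [FiniteDimensional ℝ F]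
    {τ : Finset V} (hL : LE (cn L) (ind τ)) (hF : Module.finrank ℝ (Up F) + τ.card = 3) :
    ∃ v, ({v} : Finset V) ∈ lks L τ := by
  by_contra hcon
  push Not at hcon
  have hempty : geo (lks L τ) = ∅ := by
    ext x
    simp only [Set.mem_empty_iff_false, iff_false]
    intro hx
    obtain ⟨v, hv⟩ := supp_nonempty hx.2.1
    exact hcon v (singleton_mem hx.2.2 hv)
  have h := hL.link_surj (F := Up F) hF (Ψ := fun _ => upH 0)
    (by rw [hempty]; exact continuousOn_empty _) (by rw [hempty]; exact injOn_empty _)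
    (by rw [hempty]; exact mapsTo_empty _ _)
  rw [hempty] at h
  have h0 : (upH (0 : F)) ∈ sphere (0 : Up F) 1 := upH_mem (by simp)
  obtain ⟨x, hx, _⟩ := h h0
  exact hx

/-- the two-point complex -/
def twoC (a b : V) : PreAbstractSimplicialComplex V where
  faces := {s | s = {a} ∨ s = {b}}
  isRelLowerSet_faces := by
    have key : ∀ (c : V) (t : Finset V), t ⊆ {c} → t.Nonempty → t = {c} := by
      intro c t ht hne
      rcases Finset.subset_singleton_iff.1 ht with h | h
      · rw [h] at hne; simp at hne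
      · exact h
    rintro s (rfl | rfl)
    · exact ⟨Finset.singleton_nonempty _, fun t ht hne => Or.inl (key a t ht hne)⟩
    · exact ⟨Finset.singleton_nonempty _, fun t ht hne => Or.inr (key b t ht hne)⟩

lemma mem_twoC {a b : V} {s : Finset V} : s ∈ twoC a b ↔ s = {a} ∨ s = {b} := Iff.rfl

/-- links of edges in the cone are two points -/
theorem ps_zero_lks {τ : Finset V} (hτ : τ ∈ L) (hL : LE (cn L) (ind τ)) (hc : τ.card = 2) :
    PS 0 (lks L τ) := by
  have hF : Module.finrank ℝ E1 + τ.card = 3 := by rw [finrank_E1, hc]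
  have htwo : ∃ a b, a ≠ b ∧ ({a} : Finset V) ∈ lks L τ ∧ ({b} : Finset V) ∈ lks L τ := by
    by_contra hcon
    push Not at hcon
    have hone : ∀ x ∈ geo (lks L τ), ∀ y ∈ geo (lks L τ), x = y := by
      have hs : ∀ x ∈ geo (lks L τ), ∃ a, ({a} : Finset V) ∈ lks L τ ∧ x = Pi.single a 1 := by
        intro x hx
        obtain ⟨a, ha⟩ := supp_nonempty hx.2.1
        have haL := singleton_mem hx.2.2 ha
        refine ⟨a, haL, eq_single_of_supp hx.2.1 ?_⟩
        apply Finset.eq_singleton_iff_nonempty_unique_mem.2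
        refine ⟨⟨a, ha⟩, ?_⟩
        intro b hb
        by_contra hba
        exact hcon a b (Ne.symm hba) haL (singleton_mem hx.2.2 hb)
      intro x hx y hy
      obtain ⟨a, ha, rfl⟩ := hs x hx
      obtain ⟨b, hb, rfl⟩ := hs y hy
      have : a = b := by
        by_contra hab
        exact hcon a b hab ha hb
      rw [this]
    have h0 : (upH (0 : E0)) ∈ sphere (0 : Up E0) 1 := upH_mem (by simp)
    have h1 : (loH (0 : E0)) ∈ sphere (0 : Up E0) 1 := loH_mem (by simp)
    have h := hL.link_surj (F := E1) hF (Ψ := fun _ => upH 0) continuousOn_const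
      (fun x hx y hy _ => hone x hx y hy) (fun x _ => h0)
    obtain ⟨x, hx, hxe⟩ := h h1
    have e : (upH (0 : E0)).snd = (loH (0 : E0)).snd := by
      have hxe : upH (0 : E0) = loH 0 := hxe
      rw [hxe]
    rw [upH_zero, loH_zero] at e
    have e : (1:ℝ) = -1 := e
    norm_num at e
  obtain ⟨a, b, hab, ha, hb⟩ := htwo
  have hT : PS 0 (twoC a b) := ⟨a, b, hab, fun s => mem_twoC⟩
  obtain ⟨Ψ, hΨ⟩ := good_zero (F := E0) (twoC a b) {a} hT
    (nonEvasive_res_vertex (mem_twoC.2 (Or.inl rfl)))
  refine ⟨a, b, hab, fun s => ⟨?_, ?_⟩⟩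
  · intro hs
    exact mem_twoC.1 (hL.link_eq (F := E1) hF
      (fun ρ hρ => by rcases mem_twoC.1 hρ with rfl | rfl <;> assumption) hΨ.homeo (Or.inr hτ) hs)
  · rintro (rfl | rfl) <;> assumption

lemma link_link {y z : V} (hyz : y ≠ z) : link (link L y) z = lks L {y, z} := by
  apply ext_mem
  intro s
  simp only [mem_link, mem_lks, Finset.mem_insert, not_or, Finset.disjoint_insert_right,
    Finset.disjoint_singleton_right]
  have e : s ∪ {y, z} = insert y (insert z s) := by
    ext x; simp only [Finset.mem_union, Finset.mem_insert, Finset.mem_singleton]; tauto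
  rw [e]
  constructor
  · rintro ⟨h1, h2, h3, h4, h5⟩; exact ⟨h1, ⟨h4.2, h2⟩, h5⟩
  · rintro ⟨h1, ⟨h2, h3⟩, h4⟩; exact ⟨h1, h3, Finset.insert_nonempty _ _, ⟨hyz, h2⟩, h4⟩

lemma link_eq_lks {y : V} : link L y = lks L {y} := by
  apply ext_mem
  intro s
  simp only [mem_link, mem_lks, Finset.disjoint_singleton_right]
  rw [Finset.union_comm, Finset.insert_eq]

theorem surf_of_LE (hL : ∀ z ∈ cn L, LE (cn L) z) : Surf L := by
  intro y hy
  have hreg : Reg (link L y) := by
    intro z hz
    have hz' := single_mem_link.1 hz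
    rw [link_link hz'.1]
    exact ps_zero_lks hz'.2 (hL _ (ind_mem_cn (Or.inr hz'.2))) (Finset.card_pair hz'.1)
  have hLy : LE (cn L) (ind {y}) := hL _ (ind_mem_cn (Or.inr hy))
  obtain ⟨v, hv⟩ := link_nonempty (F := E1) hLy (by
    rw [show Module.finrank ℝ (Up E1) = 2 from finrank_E2, Finset.card_singleton])
  rw [← link_eq_lks] at hv
  obtain ⟨W, hW⟩ := hreg.exists_cycle hv
  obtain ⟨a, ha⟩ := hW.exists_vertex
  obtain ⟨Ψ, hΨ⟩ := good_step (good_zero (V := V) (F := E0)) _ {a} hW (nonEvasive_res_vertex ha)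
  have hall : ∀ ρ, ρ ∈ link L y → ρ ∈ res (link L y) W := by
    intro ρ hρ
    rw [link_eq_lks] at hρ
    refine hLy.link_eq (F := E2) (by rw [finrank_E2, Finset.card_singleton]) ?_ hΨ.homeo
      (Or.inr hy) hρ
    intro σ hσ
    rw [← link_eq_lks]
    exact hσ.1
  have : link L y = res (link L y) W := by
    apply ext_mem
    intro s
    exact ⟨hall s, fun h => h.1⟩
  rw [this]
  exact hW

theorem ps_two_of_LE (hL : ∀ z ∈ cn L, LE (cn L) z) : PS 2 L := by
  have h0 : LE (cn L) (ind ∅) := hL _ (ind_mem_cn (Or.inl rfl))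
  obtain ⟨v, hv⟩ := link_nonempty (F := E2) h0 (by
    rw [show Module.finrank ℝ (Up E2) = 3 from finrank_E3, Finset.card_empty])
  have hvL : ({v} : Finset V) ∈ L := by
    have := hv.2.2
    rwa [Finset.union_empty] at this
  rw [ind_empty] at h0
  obtain ⟨hC, hH⟩ := h0.conn_H1 ⟨v, hvL⟩
  exact (surf_of_LE hL).ps_two hC hH

/-- vertex links of a triangulated three-manifold are combinatorial two-spheres -/
theorem ps_two_link (hS : ∀ x ∈ geo S, LE (geo S) x) {v : V} (hv : {v} ∈ S) : PS 2 (link S v) :=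
  ps_two_of_LE fun _ hz => LE.cone hv hS hz

end NE3
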