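import Pool.Agent.Hhelper58.MC
import Pool.Agent.Lib.InvarianceOfDomain

/-! Locally Euclidean points. -/

set_option linter.unusedSectionVars false
set_option linter.deprecated false
set_option linter.unusedSimpArgs false

namespace NE3

open Set Topology Metric

section general
variable {Y Y' : Type*} [TopologicalSpace Y] [TopologicalSpace Y']

/-- `X` is locally three-dimensional Euclidean at `x`. -/
def LE (X : Set Y) (x : Y) : Prop :=
  ∃ (c : Y → Up ℂ) (d : Up ℂ → Y) (O : Set (Up ℂ)), IsOpen O ∧ ContinuousOn d O ∧ MapsTo d O X ∧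
    ContinuousOn c (d '' O) ∧ (∀ q ∈ O, c (d q) = q) ∧ d '' O ∈ 𝓝[X] x ∧ x ∈ X

variable {E : Type*} [NormedAddCommGroup E] [NormedSpace ℝ E] [FiniteDimensional ℝ E]

theorem LE.open_image (hE : Module.finrank ℝ E = 3) {X : Set Y} {x : Y} (h : LE X x)
    {U : Set E} (hU : IsOpen U) {Φ : E → Y} (hΦ : ContinuousOn Φ U) (hinj : InjOn Φ U)
    (hm : MapsTo Φ U X) {a : E} (ha : a ∈ U) (hax : Φ a = x) : Φ '' U ∈ 𝓝[X] x := by
  obtain ⟨c, d, O, hO, hd, hdm, hc, hcd, hdn, hx⟩ := h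
  obtain ⟨W, hW, hxW, hWd⟩ := mem_nhdsWithin.1 hdn
  have hdc : ∀ y ∈ d '' O, d (c y) = y := by
    rintro _ ⟨q, hq, rfl⟩; rw [hcd q hq]
  set U' := U ∩ Φ ⁻¹' W with hU'
  have hU'o : IsOpen U' := hΦ.isOpen_inter_preimage hU hW
  have hU'm : ∀ y ∈ U', Φ y ∈ d '' O := fun y hy => hWd ⟨hy.2, hm hy.1⟩
  have hf : ContinuousOn (fun y => c (Φ y)) U' := hc.comp (hΦ.mono inter_subset_left) hU'm
  have hfi : InjOn (fun y => c (Φ y)) U' := by
    intro y hy y' hy' e
    have e : c (Φ y) = c (Φ y') := e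
    apply hinj hy.1 hy'.1
    rw [← hdc _ (hU'm y hy), e, hdc _ (hU'm y' hy')]
  have hopen := Pool.Lib.invariance_of_domain_of_finrank_eq (hE.trans finrank_Q.symm) hU'o hf hfi
  have haU' : a ∈ U' := ⟨ha, by change Φ a ∈ W; rw [hax]; exact hxW⟩
  have hcx : c x ∈ (fun y => c (Φ y)) '' U' := ⟨a, haU', by dsimp only; rw [hax]⟩
  have hxd : x ∈ d '' O := mem_of_mem_nhdsWithin hx hdn
  have h1 : ∀ᶠ z in 𝓝[X] x, c z ∈ (fun y => c (Φ y)) '' U' := by
    have h2 : ∀ᶠ z in 𝓝[d '' O] x, c z ∈ (fun y => c (Φ y)) '' U' :=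
      (hc x hxd).eventually (hopen.mem_nhds hcx)
    exact (nhdsWithin_le_of_mem hdn) h2
  filter_upwards [h1, hdn] with z hz hz2
  obtain ⟨y, hy, hye⟩ := hz
  have hye : c (Φ y) = c z := hye
  refine ⟨y, hy.1, ?_⟩
  rw [← hdc z hz2, ← hye, hdc _ (hU'm y hy)]

theorem LE.nhds_image (hE : Module.finrank ℝ E = 3) {X : Set Y} {x : Y} (h : LE X x)
    {N0 : Set Y} (hN : N0 ∈ 𝓝[X] x) {P : Y → E} (hP : ContinuousOn P N0) (hinj : InjOn P N0) :
    P '' N0 ∈ 𝓝 (P x) := by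
  obtain ⟨c, d, O, hO, hd, hdm, hc, hcd, hdn, hx⟩ := h
  obtain ⟨W, hW, hxW, hWd⟩ := mem_nhdsWithin.1 hN
  obtain ⟨q0, hq0, hq0x⟩ := mem_of_mem_nhdsWithin hx hdn
  set O' := O ∩ d ⁻¹' W with hO'
  have hO'o : IsOpen O' := hd.isOpen_inter_preimage hO hW
  have hO'm : ∀ q ∈ O', d q ∈ N0 := fun q hq => hWd ⟨hq.2, hdm hq.1⟩
  have hf : ContinuousOn (fun q => P (d q)) O' := hP.comp (hd.mono inter_subset_left) hO'm
  have hfi : InjOn (fun q => P (d q)) O' := by
    intro q hq q' hq' e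
    have e1 := hinj (hO'm q hq) (hO'm q' hq') e
    rw [← hcd q hq.1, e1, hcd q' hq'.1]
  have hopen := Pool.Lib.invariance_of_domain_of_finrank_eq (finrank_Q.trans hE.symm) hO'o hf hfi
  have h1 : P x ∈ (fun q => P (d q)) '' O' :=
    ⟨q0, ⟨hq0, by change d q0 ∈ W; rw [hq0x]; exact hxW⟩, by dsimp only; rw [hq0x]⟩
  refine Filter.mem_of_superset (hopen.mem_nhds h1) ?_
  rintro _ ⟨q, hq, rfl⟩
  exact ⟨d q, hO'm q hq, rfl⟩

theorem LE.transfer {X : Set Y} {X' : Set Y'} {W0 : Set Y} {W1 : Set Y'} (hW0 : IsOpen W0)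
    (hW1 : IsOpen W1) {A : Y' → Y} {B : Y → Y'} (hA : ContinuousOn A (X' ∩ W1))
    (hAm : MapsTo A (X' ∩ W1) (X ∩ W0)) (hB : ContinuousOn B (X ∩ W0))
    (hBm : MapsTo B (X ∩ W0) (X' ∩ W1)) (hBA : ∀ z ∈ X' ∩ W1, B (A z) = z)
    (hAB : ∀ x ∈ X ∩ W0, A (B x) = x) {z : Y'} (hz : z ∈ X' ∩ W1) (h : LE X (A z)) :
    LE X' z := by
  obtain ⟨c, d, O, hO, hd, hdm, hc, hcd, hdn, hx⟩ := h
  set O' := O ∩ d ⁻¹' W0 with hO'
  have hO'o : IsOpen O' := hd.isOpen_inter_preimage hO hW0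
  have hdO' : ∀ q ∈ O', d q ∈ X ∩ W0 := fun q hq => ⟨hdm hq.1, hq.2⟩
  refine ⟨fun y => c (A y), fun q => B (d q), O', hO'o, ?_, ?_, ?_, ?_, ?_, hz.1⟩
  · exact hB.comp (hd.mono inter_subset_left) hdO'
  · intro q hq; exact (hBm (hdO' q hq)).1
  · apply hc.comp
    · apply hA.mono
      rintro _ ⟨q, hq, rfl⟩
      exact hBm (hdO' q hq)
    · rintro _ ⟨q, hq, rfl⟩
      refine ⟨q, hq.1, ?_⟩
      rw [hAB _ (hdO' q hq)]
  · intro q hq
    dsimp only
    rw [hAB _ (hdO' q hq), hcd q hq.1]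
  · have hmem : W1 ∈ 𝓝[X'] z := mem_nhdsWithin_of_mem_nhds (hW1.mem_nhds hz.2)
    have h1 : ∀ᶠ y in 𝓝[X'] z, A y ∈ d '' O := by
      have h2 : Filter.Tendsto A (𝓝[X' ∩ W1] z) (𝓝[X] (A z)) := by
        apply tendsto_nhdsWithin_iff.2
        refine ⟨hA z hz, ?_⟩
        filter_upwards [self_mem_nhdsWithin] with y hy
        exact (hAm hy).1
      have h3 := h2 hdn
      rw [nhdsWithin_inter_of_mem' hmem] at h3
      exact h3
    filter_upwards [h1, hmem, self_mem_nhdsWithin] with y hy hyW hyX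
    obtain ⟨q, hq, hqe⟩ := hy
    refine ⟨q, ⟨hq, ?_⟩, ?_⟩
    · change d q ∈ W0
      rw [hqe]; exact (hAm ⟨hyX, hyW⟩).2
    · dsimp only
      rw [hqe, hBA y ⟨hyX, hyW⟩]

end general

variable {V : Type*} [DecidableEq V] [Fintype V]
variable {K S : PreAbstractSimplicialComplex V}

/-- a point mapped inside the ball is locally Euclidean. -/
theorem LE.of_ball {h : (V → ℝ) → Up ℂ} (hh : HomeoOn h (geo K) (closedBall 0 1)) {x : V → ℝ}
    (hx : x ∈ geo K) (hx1 : ‖h x‖ < 1) : LE (geo K) x := by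
  obtain ⟨g, hg, hgl, hgr⟩ := hh.exists_inv isCompact_geo
  have hb : ball (0 : Up ℂ) 1 ⊆ closedBall 0 1 := ball_subset_closedBall
  refine ⟨h, g, ball 0 1, isOpen_ball, hg.cont.mono hb, fun q hq => hg.mapsTo (hb hq), ?_, ?_, ?_,
    hx⟩
  · apply hh.cont.mono
    rintro _ ⟨q, hq, rfl⟩
    exact hg.mapsTo (hb hq)
  · intro q hq; exact hgr q (hb hq)
  · have h1 : ∀ᶠ y in 𝓝[geo K] x, h y ∈ ball (0 : Up ℂ) 1 :=
      (hh.cont x hx).eventually (isOpen_ball.mem_nhds (mem_ball_zero_iff.2 hx1))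
    filter_upwards [h1, self_mem_nhdsWithin] with y hy hyK
    exact ⟨h y, hy, hgl y hyK⟩

/-- all points of a sphere are locally Euclidean. -/
theorem LE.of_sphere {G : (V → ℝ) → Up (Up ℂ)} (hG : HomeoOn G (geo S) (sphere 0 1)) {x : V → ℝ}
    (hx : x ∈ geo S) : LE (geo S) x := by
  have key : ∀ G : (V → ℝ) → Up (Up ℂ), HomeoOn G (geo S) (sphere 0 1) → G x ≠ loH 0 →
      LE (geo S) x := by
    intro G hG hGx
    obtain ⟨g, hg, hgl, hgr⟩ := hG.exists_inv isCompact_geo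
    refine ⟨fun y => st (G y), fun q => g (ist q), univ, isOpen_univ, ?_, ?_, ?_, ?_, ?_, hx⟩
    · exact hg.cont.comp continuous_ist.continuousOn fun q _ => ist_mem q
    · intro q _; exact hg.mapsTo (ist_mem q)
    · apply continuousOn_st.comp (hG.cont.mono ?_)
      · rintro _ ⟨q, _, rfl⟩
        dsimp only
        rw [hgr _ (ist_mem q)]
        exact ist_snd_gt q
      · rintro _ ⟨q, _, rfl⟩
        exact hg.mapsTo (ist_mem q)
    · intro q _
      dsimp only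
      rw [hgr _ (ist_mem q), st_ist]
    · have h1 : ∀ᶠ y in 𝓝[geo S] x, G y ≠ loH 0 := (hG.cont x hx).eventually_ne hGx
      filter_upwards [h1, self_mem_nhdsWithin] with y hy hyS
      refine ⟨st (G y), mem_univ _, ?_⟩
      dsimp only
      rw [ist_st (hG.mapsTo hyS) hy, hgl y hyS]
  by_cases h : G x = loH 0
  · apply key (rfl3 ∘ G) (homeoOn_rfl3.comp hG)
    intro h2
    have h3 : (rfl3 (G x)).snd = (loH (0 : Up ℂ)).snd := by
      change ((rfl3 ∘ G) x).snd = _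
      rw [h2]
    rw [h] at h3
    have h4 : (loH (0 : Up ℂ)).snd = -1 := by rw [loH_zero]; rfl
    have h5 : (rfl3 (loH (0 : Up ℂ))).snd = -(loH (0 : Up ℂ)).snd := rfl
    rw [h5, h4] at h3
    norm_num at h3
  · exact key G hG h

/-- translation along an open simplex. -/
theorem LE.translate {x y : V → ℝ} (hx : x ∈ geo K) (hy : y ∈ geo K) (hxy : supp x = supp y)
    (h : LE (geo K) x) : LE (geo K) y := by
  set a : V → ℝ := x - y with ha
  have ha0 : ∀ v, v ∉ supp x → a v = 0 := by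
    intro v hv
    have h1 : x v = 0 := by by_contra hc; exact hv (mem_supp.2 hc)
    have h2 : y v = 0 := by by_contra hc; exact hv (hxy ▸ mem_supp.2 hc)
    change x v - y v = 0
    rw [h1, h2]; ring
  have hasum : ∑ v, a v = 0 := by
    change ∑ v, (x v - y v) = 0
    rw [Finset.sum_sub_distrib, hx.2.1, hy.2.1]; ring
  have hopen : ∀ b : V → ℝ, IsOpen {z : V → ℝ | ∀ v ∈ supp x, 0 < z v ∧ 0 < z v + b v} := by
    intro b
    have : {z : V → ℝ | ∀ v ∈ supp x, 0 < z v ∧ 0 < z v + b v} =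
        ⋂ v ∈ supp x, {z : V → ℝ | 0 < z v ∧ 0 < z v + b v} := by
      ext z; simp
    rw [this]
    apply isOpen_biInter_finset
    intro v _
    exact (isOpen_lt continuous_const (continuous_apply v)).inter
      (isOpen_lt continuous_const ((continuous_apply v).add continuous_const))
  have hmaps : ∀ b : V → ℝ, (∀ v, v ∉ supp x → b v = 0) → ∑ v, b v = 0 → ∀ z ∈ geo K,
      (∀ v ∈ supp x, 0 < z v ∧ 0 < z v + b v) → z + b ∈ geo K := by
    intro b hb hbs z hz hzb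
    refine ⟨?_, ?_, ?_⟩
    · intro v
      by_cases hv : v ∈ supp x
      · exact (hzb v hv).2.le
      · change 0 ≤ z v + b v
        rw [hb v hv, add_zero]; exact hz.1 v
    · change ∑ v, (z v + b v) = 1
      rw [Finset.sum_add_distrib, hz.2.1, hbs, add_zero]
    · have : supp (z + b) = supp z := by
        ext v
        rw [mem_supp, mem_supp]
        change z v + b v ≠ 0 ↔ z v ≠ 0
        by_cases hv : v ∈ supp x
        · have := hzb v hv
          constructor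
          · intro _; exact this.1.ne'
          · intro _; exact this.2.ne'
        · rw [hb v hv, add_zero]
      rw [this]; exact hz.2.2
  have hna0 : ∀ v, v ∉ supp x → (-a) v = 0 := fun v hv => by
    change -(a v) = 0; rw [ha0 v hv, neg_zero]
  have hnasum : ∑ v, (-a) v = 0 := by
    change ∑ v, -(a v) = 0
    rw [Finset.sum_neg_distrib, hasum, neg_zero]
  have hyW : y ∈ geo K ∩ {z : V → ℝ | ∀ v ∈ supp x, 0 < z v ∧ 0 < z v + a v} := by
    refine ⟨hy, ?_⟩
    intro v hv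
    have h1 : 0 < y v := lt_of_le_of_ne (hy.1 v) (Ne.symm (mem_supp.1 (hxy ▸ hv)))
    have h2 : 0 < x v := lt_of_le_of_ne (hx.1 v) (Ne.symm (mem_supp.1 hv))
    refine ⟨h1, ?_⟩
    change 0 < y v + (x v - y v)
    linarith
  refine LE.transfer (X := geo K) (X' := geo K)
    (W0 := {z : V → ℝ | ∀ v ∈ supp x, 0 < z v ∧ 0 < z v + (-a) v})
    (W1 := {z : V → ℝ | ∀ v ∈ supp x, 0 < z v ∧ 0 < z v + a v})
    (A := fun z => z + a) (B := fun z => z + (-a)) (hopen (-a)) (hopen a) ?_ ?_ ?_ ?_ ?_ ?_ hyW ?_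
  · exact (continuous_id.add continuous_const).continuousOn
  · rintro z ⟨hz, hzW⟩
    refine ⟨hmaps a ha0 hasum z hz hzW, ?_⟩
    intro v hv
    refine ⟨(hzW v hv).2, ?_⟩
    change 0 < (z v + a v) + -(a v)
    have := (hzW v hv).1
    linarith
  · exact (continuous_id.add continuous_const).continuousOn
  · rintro z ⟨hz, hzW⟩
    refine ⟨hmaps (-a) hna0 hnasum z hz hzW, ?_⟩
    intro v hv
    refine ⟨(hzW v hv).2, ?_⟩
    change 0 < (z v + -(a v)) + a v
    have := (hzW v hv).1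
    linarith
  · intro z _
    change z + a + -a = z
    rw [add_neg_cancel_right]
  · intro z _
    change z + -a + a = z
    rw [neg_add_cancel_right]
  · have : y + a = x := by rw [ha]; abel
    change LE (geo K) (y + a)
    rw [this]; exact h

end NE3
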