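import Pool.Agent.Hhelper58.MA0
import Pool.Agent.Hhelper58.LemX2

/-! The boundary of the missing triangle is unknotted. -/

set_option linter.unusedSectionVars false
set_option linter.deprecated false
set_option linter.unusedSimpArgs false

namespace NE3

open Set Topology Metric

variable {V : Type*} [DecidableEq V] [Fintype V]
variable {K S : PreAbstractSimplicialComplex V}

lemma mx_pair {a b : V} {W : Set V} (ha : a ∈ W) (hb : b ∉ W) {x : V → ℝ}
    (hx : x ∈ simp' {a, b}) : mx W x = x a ∧ mx Wᶜ x = x b := by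
  obtain ⟨h0, h1, h2⟩ := hx
  have hz : ∀ c, c ≠ a → c ≠ b → x c = 0 := fun c hca hcb => h2 c (by simp [hca, hcb])
  constructor
  · apply le_antisymm _ (le_mx ha)
    apply mx_le (h0 a)
    intro v hv
    by_cases hva : v = a
    · rw [hva, abs_of_nonneg (h0 a)]
    · rw [hz v hva (by rintro rfl; exact hb hv), abs_zero]; exact h0 a
  · apply le_antisymm _ (le_mx (show b ∈ Wᶜ from hb))
    apply mx_le (h0 b)
    intro v hv
    by_cases hvb : v = b
    · rw [hvb, abs_of_nonneg (h0 b)]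
    · rw [hz v (by rintro rfl; exact hv ha) hvb, abs_zero]; exact h0 b

lemma mx_out {a b : V} {W : Set V} (ha : a ∉ W) (hb : b ∉ W) {x : V → ℝ}
    (hx : x ∈ simp' {a, b}) : mx W x = 0 ∧ 0 < mx Wᶜ x := by
  obtain ⟨h0, h1, h2⟩ := hx
  have hz : ∀ c, c ≠ a → c ≠ b → x c = 0 := fun c hca hcb => h2 c (by simp [hca, hcb])
  constructor
  · apply le_antisymm _ (mx_nonneg _ _)
    apply mx_le le_rfl
    intro v hv
    rw [hz v (by rintro rfl; exact ha hv) (by rintro rfl; exact hb hv), abs_zero]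
  · obtain ⟨v, hv⟩ := supp_nonempty h1
    rw [mem_supp] at hv
    have hvW : v ∈ Wᶜ := by
      intro hvW
      apply hv
      exact hz v (by rintro rfl; exact ha hvW) (by rintro rfl; exact hb hvW)
    exact (lt_of_le_of_ne (h0 v) hv.symm).trans_le (le_mx hvW)

lemma jn_left {a b : V} {s : ℝ} : jn a s (Pi.single b 1) a = 1 - s := jn_apply_self

lemma jn_right {a b : V} (hab : a ≠ b) {s : ℝ} : jn a s (Pi.single b 1) b = s := by
  unfold jn; rw [if_neg hab.symm]; simp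

/-- the part of the triangle boundary near a vertex -/
lemma Ctri_near {a b c : V} (hab : a ≠ b) (hac : a ≠ c) {W : Set V} (ha : a ∈ W) (hb : b ∉ W)
    (hc : c ∉ W) {x : V → ℝ} (hx : x ∈ simp' {a, b} ∪ simp' {a, c} ∪ simp' {b, c})
    (hM : mx Wᶜ x ≤ mx W x) :
    ∃ s ∈ Icc (0:ℝ) (1/2), x = jn a s (Pi.single b 1) ∨ x = jn a s (Pi.single c 1) := by
  rcases hx with (hx | hx) | hx
  · obtain ⟨h1, h2⟩ := mx_pair ha hb hx
    obtain ⟨s, hs, rfl⟩ := (mem_simp'_pair hab).1 hx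
    rw [h1, h2, jn_left, jn_right hab] at hM
    exact ⟨s, ⟨hs.1, by linarith⟩, Or.inl rfl⟩
  · obtain ⟨h1, h2⟩ := mx_pair ha hc hx
    obtain ⟨s, hs, rfl⟩ := (mem_simp'_pair hac).1 hx
    rw [h1, h2, jn_left, jn_right hac] at hM
    exact ⟨s, ⟨hs.1, by linarith⟩, Or.inr rfl⟩
  · obtain ⟨h1, h2⟩ := mx_out hb hc hx
    rw [h1] at hM
    linarith

lemma jn_mem_simp' {a b : V} (hab : a ≠ b) {s : ℝ} (hs : s ∈ Icc (0:ℝ) 1) :
    jn a s (Pi.single b 1) ∈ simp' {a, b} := (mem_simp'_pair hab).2 ⟨s, hs, rfl⟩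

lemma jn_near {a b : V} (hab : a ≠ b) {W : Set V} (ha : a ∈ W) (hb : b ∉ W) {s : ℝ}
    (hs : s ∈ Icc (0:ℝ) (1/2)) : mx Wᶜ (jn a s (Pi.single b 1)) ≤ mx W (jn a s (Pi.single b 1)) := by
  obtain ⟨h1, h2⟩ := mx_pair ha hb (jn_mem_simp' hab ⟨hs.1, by linarith [hs.2]⟩)
  rw [h1, h2, jn_left, jn_right hab]
  linarith [hs.2]

lemma jn_mid {a b : V} (hab : a ≠ b) {W : Set V} (ha : a ∈ W) (hb : b ∉ W) :
    mx W (jn a (1/2) (Pi.single b 1)) = mx Wᶜ (jn a (1/2) (Pi.single b 1)) := by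
  obtain ⟨h1, h2⟩ := mx_pair ha hb (jn_mem_simp' hab (s := 1/2) ⟨by norm_num, by norm_num⟩)
  rw [h1, h2, jn_left, jn_right hab]
  norm_num

theorem MA_gen {F : Type*} [NormedAddCommGroup F] [NormedSpace ℝ F] [ProperSpace F]
    {u w o : V} (huw : u ≠ w) (huo : u ≠ o) (hwo : w ≠ o)
    (h1 : ({u, w} : Finset V) ∈ S) (h2 : ({u, o} : Finset V) ∈ S) (h3 : ({w, o} : Finset V) ∈ S)
    (hlk : ∀ v, v ≠ o → {v} ∈ S → PS 2 (link S v))
    {Ψo : (V → ℝ) → Up ℂ} (hΨo : HomeoOn Ψo (geo (link S o)) (sphere 0 1))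
    {W0 : Set V} (hwW : w ∉ W0) (huW : u ∉ W0) (hoW : o ∉ W0) (hne : NonEvasive (res S W0))
    {Ψ0 : (V → ℝ) → Up F} (hΨ0 : StdMap Ψ0 (link S w) W0) {Φ : (V → ℝ) → (V → ℝ)}
    (hΦ : HomeoOn Φ (geo S) (geo S)) (hΦC : Φ '' Ctri u w o = Ctri u w o)
    (hΦs : ∀ x ∈ geo S,
      (mx {o}ᶜᶜ x < mx {o}ᶜ x ↔ mx (insert w W0)ᶜ (Φ x) < mx (insert w W0) (Φ x)) ∧
      (mx {o}ᶜ x < mx {o}ᶜᶜ x ↔ mx (insert w W0) (Φ x) < mx (insert w W0)ᶜ (Φ x))) :
    ∃ f : (V → ℝ) → Up (Up ℂ), HomeoOn f (geo S) (sphere 0 1) ∧ f '' Ctri u w o = C0 := by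
  obtain ⟨fA0, hfA0, hfA0n⟩ := exists_fA hlk hne hoW
  have h1' : ({w, u} : Finset V) ∈ S := by rw [Finset.pair_comm]; exact h1
  have h2' : ({o, u} : Finset V) ∈ S := by rw [Finset.pair_comm]; exact h2
  have h3' : ({o, w} : Finset V) ∈ S := by rw [Finset.pair_comm]; exact h3
  have hwS : ({w} : Finset V) ∈ S := singleton_mem h3 (by simp)
  have huS : ({u} : Finset V) ∈ S := singleton_mem h1 (by simp)
  have hoS : ({o} : Finset V) ∈ S := singleton_mem h3 (by simp)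
  have hCsub : Ctri u w o ⊆ geo S := Ctri_subset h1 h3 h2
  have hog : (Pi.single o 1 : V → ℝ) ∈ geo (link S w) := single_mem_geo (singleton_mem_link hwo h3)
  have hug : (Pi.single u 1 : V → ℝ) ∈ geo (link S w) :=
    single_mem_geo (singleton_mem_link huw.symm h1')
  -- mark
  obtain ⟨y₁, hy₁, hy₁e⟩ := hΨ0.homeo.surjOn (upH_mem (b := (0:F)) (by simp))
  have hmo : mx W0 (Pi.single o (1:ℝ)) < mx W0ᶜ (Pi.single o 1) := by
    rw [mx_single_mem (show o ∈ W0ᶜ from hoW), mx_single_notMem hoW]; norm_num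
  have hmu : mx W0 (Pi.single u (1:ℝ)) < mx W0ᶜ (Pi.single u 1) := by
    rw [mx_single_mem (show u ∈ W0ᶜ from huW), mx_single_notMem huW]; norm_num
  obtain ⟨Ψ, hΨ, _, e2⟩ := hΨ0.mark hy₁ hog
    ((hΨ0.pos y₁ hy₁).1 (by
      rw [hy₁e]
      change 0 < 1 - ‖(0:F)‖
      rw [norm_zero]; norm_num)) hmo
  have so : (Ψ (Pi.single o 1)).snd < 0 := (hΨ.neg _ hog).2 hmo
  have su : (Ψ (Pi.single u 1)).snd < 0 := (hΨ.neg _ hug).2 hmu
  have no := mem_sphere_zero_iff_norm.1 (hΨ.homeo.mapsTo hog)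
  have nu := mem_sphere_zero_iff_norm.1 (hΨ.homeo.mapsTo hug)
  rw [norm_up, e2, norm_zero, zero_add, abs_of_neg so] at no
  rw [norm_up, abs_of_neg su] at nu
  set fu := (Ψ (Pi.single u 1)).fst with hfu
  set zu := (Ψ (Pi.single u 1)).snd with hzu
  have hfu0 : fu ≠ 0 := by
    intro h
    rw [h, norm_zero, zero_add] at nu
    have : (Pi.single u 1 : V → ℝ) = Pi.single o 1 := by
      apply hΨ.homeo.injOn hug hog
      apply up_ext
      · rw [e2]; exact h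
      · linarith
    have h' := congrFun this u
    rw [Pi.single_eq_same, Pi.single_eq_of_ne huo] at h'
    norm_num at h'
  set U : ℝ := ‖fu‖ with hU
  set Z : ℝ := -zu with hZ
  have hU0 : 0 < U := norm_pos_iff.2 hfu0
  have hZ0 : 0 < Z := by rw [hZ]; linarith
  have hUZ : U + Z = 1 := nu
  have hU1 : U < 1 := by linarith
  -- cone coordinates at `w`
  have hc := homeoOn_cmap hwS hΨ.homeo
  obtain ⟨ci, hci, hcl, hcr⟩ := hc.exists_inv isCompact_star'
  have hbd : ∀ p ∈ closedBall (0 : Up F) 1, p.snd = gg p.fst →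
      ci p ∈ geo S ∩ {x | mx W0ᶜ x ≤ mx W0 x} ∧ ‖fA0 (ci p)‖ = 1 := by
    intro p hp hps
    have hps' := hci.mapsTo hp
    have h4 : ci p ∈ geo S ∩ {x | mx W0ᶜ x ≤ mx W0 x} := by
      refine ⟨star'_subset hps', ?_⟩
      change mx W0ᶜ (ci p) ≤ mx W0 (ci p)
      rw [sign_A hwW hΨ hps', hcr p hp, hps]
    refine ⟨h4, ?_⟩
    rw [hfA0n _ h4, sign_eA hwW hΨ hps', hcr p hp, hps]
  have gg0 : gg (0:F) = 1/2 := by
    unfold gg; rw [norm_zero]; norm_num
  set p0 : Up F := WithLp.toLp 1 ((0:F), (1/2:ℝ)) with hp0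
  set p1 : Up F := WithLp.toLp 1 (((3/4) / U) • fu, (0:ℝ)) with hp1
  have hp0m : p0 ∈ closedBall (0 : Up F) 1 := by
    rw [mem_closedBall_zero_iff, norm_up]
    change ‖(0:F)‖ + |(1/2:ℝ)| ≤ 1
    rw [norm_zero]; norm_num
  have hn1 : ‖((3/4) / U) • fu‖ = 3/4 := by
    rw [norm_smul, ← hU, Real.norm_of_nonneg (by positivity)]
    field_simp
  have hp1m : p1 ∈ closedBall (0 : Up F) 1 := by
    rw [mem_closedBall_zero_iff, norm_up]
    change ‖((3/4) / U) • fu‖ + |(0:ℝ)| ≤ 1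
    rw [hn1]; norm_num
  have hp0b := hbd p0 hp0m gg0.symm
  have hp1b := hbd p1 hp1m (by
    change (0:ℝ) = gg (((3/4) / U) • fu)
    unfold gg
    rw [hn1]; norm_num)
  have hp01 : fA0 (ci p0) ≠ fA0 (ci p1) := by
    intro h
    have h4 := hfA0.injOn hp0b.1 hp1b.1 h
    have h5 : p0 = p1 := hci.injOn hp0m hp1m h4
    have h6 : p0.snd = p1.snd := by rw [h5]
    have h7 : (1/2:ℝ) = 0 := h6
    norm_num at h7
  obtain ⟨Θ, hΘ, hΘ0, hΘ1⟩ := two_points (mem_sphere_zero_iff_norm.2 hp0b.2)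
    (mem_sphere_zero_iff_norm.2 hp1b.2) hp01
  set fA : (V → ℝ) → Up ℂ := fun x => ext Θ (fA0 x) with hfA
  have hfAh : HomeoOn fA (geo S ∩ {x | mx W0ᶜ x ≤ mx W0 x}) (closedBall 0 1) :=
    hΘ.ext_ball.comp hfA0
  have hfAn : ∀ x, ‖fA x‖ = ‖fA0 x‖ := fun x => norm_ext hΘ.mapsTo _
  have hfAn1 : ∀ x ∈ geo S ∩ {x | mx W0ᶜ x ≤ mx W0 x}, (‖fA x‖ = 1 ↔ mx W0 x = mx W0ᶜ x) := by
    intro x hx
    rw [hfAn]; exact hfA0n x hx
  have hfA0' : fA (ci p0) = nN := by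
    rw [hfA]; dsimp only
    rw [ext_of_norm_one hp0b.2, hΘ0, nN_eq]
  have hfA1' : fA (ci p1) = -nN := by
    rw [hfA]; dsimp only
    rw [ext_of_norm_one hp1b.2, hΘ1, loH_zero_eq]
  set k : ℝ := 1 / Z with hk
  have hk0 : 0 ≤ k := by rw [hk]; positivity
  have hkZ : U < (1 + k) * Z := by
    have : (1 + k) * Z = Z + 1 := by rw [hk]; field_simp
    rw [this]; linarith
  obtain ⟨j, hj, hjn, hjf⟩ := refiber hwS hwW hΨ hci hcl hcr hfAh hfAn1 hk0
  -- the complementary ball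
  set W : Set V := insert w W0 with hWdef
  obtain ⟨hq', hq1'⟩ := homeoOn_cell hoS hΨo
  obtain ⟨Φi, hΦi, hΦl, hΦr⟩ := hΦ.exists_inv isCompact_geo
  have hΦD : HomeoOn Φi (geo S ∩ {x | mx W x ≤ mx Wᶜ x}) (geo S ∩ {x | mx {o}ᶜ x ≤ x o}) := by
    apply hΦi.restr
    intro x hx
    have h4 := (hΦs (Φi x) (hΦi.mapsTo hx)).1
    rw [hΦr x hx, compl_compl, mx_singleton ((hΦi.mapsTo hx).1 o)] at h4
    change mx W x ≤ mx Wᶜ x ↔ mx {o}ᶜ (Φi x) ≤ (Φi x) o
    rw [← not_lt, ← not_lt]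
    exact (not_congr h4).symm
  have hq := hq'.comp hΦD
  have hcM : IsCompact (geo S ∩ {x : V → ℝ | mx Wᶜ x ≤ mx W x}) :=
    isCompact_geo.inter_right (isClosed_le (continuous_mx _) (continuous_mx _))
  have hcZ : IsCompact (geo S ∩ {x : V → ℝ | mx W x ≤ mx Wᶜ x}) :=
    isCompact_geo.inter_right (isClosed_le (continuous_mx _) (continuous_mx _))
  obtain ⟨J, θ, hJ, hθ, hJM, hJZ⟩ := glue_two_balls' hcM hcZ hj hq
    (by
      intro x hx
      rw [hjn x hx]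
      constructor
      · intro h; exact le_antisymm h.2 hx.2
      · intro h; exact ⟨hx.1, h.le⟩)
    (by
      intro x hx
      have h4 := hΦD.mapsTo hx
      change _ ↔ ‖(2:ℝ) • cmap o Ψo (Φi x)‖ = 1
      rw [hq1' _ h4]
      have h5 := (hΦs (Φi x) (hΦi.mapsTo hx.1)).2
      rw [hΦr x hx.1, compl_compl, mx_singleton ((hΦi.mapsTo hx.1).1 o)] at h5
      constructor
      · intro h
        apply le_antisymm _ h4.2
        rw [← not_lt, h5, not_lt]; exact h.2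
      · intro h
        refine ⟨hx.1, ?_⟩
        change mx Wᶜ x ≤ mx W x
        rw [← not_lt, ← h5, not_lt]; exact h.le)
  have hun : geo S ∩ {x | mx Wᶜ x ≤ mx W x} ∪ geo S ∩ {x | mx W x ≤ mx Wᶜ x} = geo S := by
    rw [← Set.inter_union_distrib_left]
    apply Set.inter_eq_left.2
    intro x _
    rcases le_total (mx Wᶜ x) (mx W x) with h | h
    · exact Or.inl h
    · exact Or.inr h
  rw [hun] at hJ
  -- the strands
  have hwW' : w ∈ W := mem_insert _ _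
  have huW' : u ∉ W := by
    rintro (h | h)
    · exact huw h
    · exact huW h
  have hoW' : o ∉ W := by
    rintro (h | h)
    · exact hwo h.symm
    · exact hoW h
  set kt : ℝ → Up ℂ := fun s => fA (ci (topf (s • Ψ (Pi.single u 1)))) with hkt
  have hsm : ∀ s ∈ Icc (0:ℝ) (1/2), ‖s • Ψ (Pi.single u 1)‖ ≤ 1 := by
    intro s hs
    rw [norm_smul, mem_sphere_zero_iff_norm.1 (hΨ.homeo.mapsTo hug),
      Real.norm_of_nonneg hs.1]
    linarith [hs.2]
  have htopm : ∀ s ∈ Icc (0:ℝ) (1/2), topf (s • Ψ (Pi.single u 1)) ∈ closedBall (0 : Up F) 1 :=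
    fun s hs => mem_closedBall_zero_iff.2 (norm_topf (hsm s hs))
  have hktb : ∀ s ∈ Icc (0:ℝ) (1/2), ci (topf (s • Ψ (Pi.single u 1))) ∈
      geo S ∩ {x | mx W0ᶜ x ≤ mx W0 x} ∧ ‖fA0 (ci (topf (s • Ψ (Pi.single u 1))))‖ = 1 :=
    fun s hs => hbd _ (htopm s hs) rfl
  have hktc : ContinuousOn kt (Icc 0 (1/2)) := by
    have a1 : ContinuousOn (fun s : ℝ => topf (s • Ψ (Pi.single u 1))) (Icc 0 (1/2)) :=
      (continuous_topf.comp (continuous_id.smul continuous_const)).continuousOn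
    have a2 : ContinuousOn (fun s : ℝ => ci (topf (s • Ψ (Pi.single u 1)))) (Icc 0 (1/2)) :=
      hci.cont.comp a1 htopm
    exact hfAh.cont.comp a2 fun s hs => (hktb s hs).1
  have hktn : ∀ s ∈ Icc (0:ℝ) (1/2), ‖kt s‖ = 1 := by
    intro s hs
    rw [hkt]; dsimp only
    rw [hfAn]; exact (hktb s hs).2
  have hkt0 : kt 0 = nN := by
    rw [hkt]; dsimp only
    have : topf ((0:ℝ) • Ψ (Pi.single u 1)) = p0 := by
      rw [zero_smul]
      apply up_ext
      · rfl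
      · exact gg0
    rw [this, hfA0']
  have hggs : ∀ s ∈ Icc (0:ℝ) (1/2), gg (s • Ψ (Pi.single u 1)).fst = 1/2 - s * U := by
    intro s hs
    change gg (s • fu) = _
    unfold gg
    rw [norm_smul, Real.norm_of_nonneg hs.1, ← hU]
    apply max_eq_right
    nlinarith [hs.2, hs.1]
  have hktf : ∀ s ∈ Ioc (0:ℝ) (1/2), (kt s).fst ≠ 0 := by
    intro s hs hf
    have hs' : s ∈ Icc (0:ℝ) (1/2) := ⟨hs.1.le, hs.2⟩
    have hn := hktn s hs'
    rw [norm_up, hf, norm_zero, zero_add] at hn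
    have hinj : ∀ p ∈ closedBall (0 : Up F) 1, p.snd = gg p.fst → kt s = fA (ci p) →
        topf (s • Ψ (Pi.single u 1)) = p := by
      intro p hp hps he
      have h4 := hfAh.injOn (hktb s hs').1 (hbd p hp hps).1 he
      exact hci.injOn (htopm s hs') hp h4
    rcases abs_cases (kt s).snd with ⟨h4, _⟩ | ⟨h4, _⟩
    · have h5 : kt s = nN := by
        apply up_ext
        · exact hf
        · change (kt s).snd = 1; linarith
      rw [← hfA0'] at h5
      have h6 := hinj p0 hp0m gg0.symm h5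
      have h7 : (topf (s • Ψ (Pi.single u 1))).fst = p0.fst := by rw [h6]
      have h8 : s • fu = 0 := h7
      rcases smul_eq_zero.1 h8 with h9 | h9
      · exact absurd h9 hs.1.ne'
      · exact hfu0 h9
    · have h5 : kt s = -nN := by
        apply up_ext
        · rw [hf]
          change (0:ℂ) = -0; simp
        · change (kt s).snd = -1; linarith
      rw [← hfA1'] at h5
      have h6 := hinj p1 hp1m (by
        change (0:ℝ) = gg (((3/4) / U) • fu)
        unfold gg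
        rw [hn1]; norm_num) h5
      have h7 : (topf (s • Ψ (Pi.single u 1))).fst = p1.fst := by rw [h6]
      have h8 : s • fu = ((3/4) / U) • fu := h7
      have h9 : ‖s • fu‖ = 3/4 := by rw [h8, hn1]
      rw [norm_smul, Real.norm_of_nonneg hs.1.le, ← hU] at h9
      nlinarith [hs.2, hs.1]
  obtain ⟨f, hf, hfC⟩ := lemX2 hU0 hZ0 hUZ hk0 hkZ hktc hktn hkt0 hktf
  refine ⟨f ∘ J, hf.comp hJ, ?_⟩
  rw [image_comp, ← hfC]
  congr 1
  -- points on the strands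
  have hJo : ∀ s ∈ Icc (0:ℝ) (1/2), J (jn w s (Pi.single o 1)) =
      upH (((3/2 + (1 + k) * s) / (2 + k/2)) • nN) := by
    intro s hs
    have hs1 : s ∈ Icc (0:ℝ) 1 := ⟨hs.1, by linarith [hs.2]⟩
    have hst : jn w s (Pi.single o 1) ∈ star' S w :=
      simp'_pair_subset_star h3 (jn_mem_simp' hwo hs1)
    have hcm : cmap w Ψ (jn w s (Pi.single o 1)) = s • Ψ (Pi.single o 1) :=
      cmap_jn_single hwo h3 hs1
    have hcf : (s • Ψ (Pi.single o 1)).fst = 0 := by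
      change s • (Ψ (Pi.single o 1)).fst = 0
      rw [e2, smul_zero]
    have hcs : (s • Ψ (Pi.single o 1)).snd = -s := by
      change s * (Ψ (Pi.single o 1)).snd = -s
      have : (Ψ (Pi.single o 1)).snd = -1 := by linarith
      rw [this]; ring
    rw [hJM _ ⟨star'_subset hst, jn_near hwo hwW' hoW' hs⟩]
    rw [hjf _ hst (by rw [hcm, hcf, hcs, gg0, abs_neg, abs_of_nonneg hs.1]; exact hs.2)]
    rw [hcm]
    have ht : topf (s • Ψ (Pi.single o 1)) = p0 := by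
      apply up_ext
      · exact hcf
      · change gg (s • Ψ (Pi.single o 1)).fst = 1/2
        rw [hcf]; exact gg0
    rw [ht, hfA0']
    congr 2
    unfold chi
    rw [hcf, hcs, gg0, neg_neg, max_eq_right hs.1]
    congr 1 <;> ring
  have hJu : ∀ s ∈ Icc (0:ℝ) (1/2), J (jn w s (Pi.single u 1)) =
      upH (((1 + ((1/2 - s * U + s * Z) + k * (s * Z))) /
          (1 + (2 + k) * (1/2 - s * U))) • kt s) := by
    intro s hs
    have hs1 : s ∈ Icc (0:ℝ) 1 := ⟨hs.1, by linarith [hs.2]⟩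
    have hst : jn w s (Pi.single u 1) ∈ star' S w :=
      simp'_pair_subset_star h1' (jn_mem_simp' huw.symm hs1)
    have hcm : cmap w Ψ (jn w s (Pi.single u 1)) = s • Ψ (Pi.single u 1) :=
      cmap_jn_single huw.symm h1' hs1
    have hcs : (s • Ψ (Pi.single u 1)).snd = -(s * Z) := by
      change s * (Ψ (Pi.single u 1)).snd = -(s * Z)
      rw [hZ, ← hzu]; ring
    have hsZ : 0 ≤ s * Z := mul_nonneg hs.1 hZ0.le
    rw [hJM _ ⟨star'_subset hst, jn_near huw.symm hwW' huW' hs⟩]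
    rw [hjf _ hst (by
      rw [hcm, hggs s hs, hcs, abs_neg, abs_of_nonneg hsZ]
      have : s * U + s * Z = s := by rw [← mul_add, hUZ, mul_one]
      linarith [hs.2])]
    rw [hcm]
    congr 2
    unfold chi
    rw [hggs s hs, hcs, neg_neg, max_eq_right hsZ]
    congr 1
    ring
  have hCa : Ctri u w o = simp' {w, u} ∪ simp' {w, o} ∪ simp' {u, o} := by
    unfold Ctri; rw [Finset.pair_comm u w]
  have hCb : Ctri u w o = simp' {o, u} ∪ simp' {o, w} ∪ simp' {u, w} := by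
    unfold Ctri
    rw [Finset.pair_comm w o, Finset.pair_comm u o]
    ext x
    simp only [mem_union]
    tauto
  -- the lower part
  have hJlow : ∀ y ∈ Ctri u w o, y ∈ geo S ∩ {x | mx {o}ᶜ x ≤ x o} →
      J (Φ y) = loH (ext θ ((2:ℝ) • cmap o Ψo y)) := by
    intro y hyC hyD
    have hΦy : Φ y ∈ geo S ∩ {x | mx W x ≤ mx Wᶜ x} := by
      refine ⟨hΦ.mapsTo hyD.1, ?_⟩
      change mx W (Φ y) ≤ mx Wᶜ (Φ y)
      have h4 := (hΦs y hyD.1).1
      rw [compl_compl, mx_singleton (hyD.1.1 o)] at h4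
      rw [← not_lt, ← h4, not_lt]
      exact hyD.2
    rw [hJZ _ hΦy]
    simp only [Function.comp]
    rw [hΦl y hyD.1]
  have hou : (Pi.single u 1 : V → ℝ) ∈ geo (link S o) :=
    single_mem_geo (singleton_mem_link huo.symm h2')
  have how : (Pi.single w 1 : V → ℝ) ∈ geo (link S o) :=
    single_mem_geo (singleton_mem_link hwo.symm h3')
  set a : Up ℂ := θ (Ψo (Pi.single u 1)) with ha
  set a' : Up ℂ := θ (Ψo (Pi.single w 1)) with ha'
  have han : ‖a‖ = 1 := mem_sphere_zero_iff_norm.1 (hθ.mapsTo (hΨo.mapsTo hou))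
  have han' : ‖a'‖ = 1 := mem_sphere_zero_iff_norm.1 (hθ.mapsTo (hΨo.mapsTo how))
  have hlow1 : ∀ s ∈ Icc (0:ℝ) (1/2), J (Φ (jn o s (Pi.single u 1))) = loH ((2 * s) • a) := by
    intro s hs
    have hs1 : s ∈ Icc (0:ℝ) 1 := ⟨hs.1, by linarith [hs.2]⟩
    have hm := jn_mem_simp' huo.symm hs1
    have hC : jn o s (Pi.single u 1) ∈ Ctri u w o := by rw [hCb]; exact Or.inl (Or.inl hm)
    rw [hJlow _ hC ⟨hCsub hC, by
      obtain ⟨h4, h5⟩ := mx_pair (W := {o}) rfl (by simpa using huo) hm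
      change mx {o}ᶜ _ ≤ _
      rw [h5, jn_left, jn_right huo.symm]; linarith [hs.2]⟩]
    rw [cmap_jn_single huo.symm h2' hs1, smul_smul,
      ext_smul (mem_sphere_zero_iff_norm.1 (hΨo.mapsTo hou)) (by linarith [hs.1])]
  have hlow2 : ∀ s ∈ Icc (0:ℝ) (1/2), J (Φ (jn o s (Pi.single w 1))) = loH ((2 * s) • a') := by
    intro s hs
    have hs1 : s ∈ Icc (0:ℝ) 1 := ⟨hs.1, by linarith [hs.2]⟩
    have hm := jn_mem_simp' hwo.symm hs1
    have hC : jn o s (Pi.single w 1) ∈ Ctri u w o := by rw [hCb]; exact Or.inl (Or.inr hm)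
    rw [hJlow _ hC ⟨hCsub hC, by
      obtain ⟨h4, h5⟩ := mx_pair (W := {o}) rfl (by simpa using hwo) hm
      change mx {o}ᶜ _ ≤ _
      rw [h5, jn_left, jn_right hwo.symm]; linarith [hs.2]⟩]
    rw [cmap_jn_single hwo.symm h3' hs1, smul_smul,
      ext_smul (mem_sphere_zero_iff_norm.1 (hΨo.mapsTo how)) (by linarith [hs.1])]
  have hlowall : ∀ x ∈ Ctri u w o, mx W x ≤ mx Wᶜ x →
      ∃ r ∈ Icc (0:ℝ) 1, J x = loH (r • a) ∨ J x = loH (r • a') := by
    intro x hxC hxZ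
    have hxC' := hxC
    rw [← hΦC] at hxC'
    obtain ⟨y, hyC, rfl⟩ := hxC'
    have h4 := (hΦs y (hCsub hyC)).1
    rw [compl_compl] at h4
    have h5 : mx {o}ᶜ y ≤ mx {o} y := by
      rw [← not_lt, h4, not_lt]; exact hxZ
    rw [hCb] at hyC
    obtain ⟨s, hs, h6 | h6⟩ := Ctri_near huo.symm hwo.symm (W := {o}) rfl (by simpa using huo)
      (by simpa using hwo) hyC h5
    · exact ⟨2 * s, ⟨by linarith [hs.1], by linarith [hs.2]⟩, Or.inl (by rw [h6, hlow1 s hs])⟩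
    · exact ⟨2 * s, ⟨by linarith [hs.1], by linarith [hs.2]⟩, Or.inr (by rw [h6, hlow2 s hs])⟩
  have hsphere : ∀ (b c : Up ℂ), ‖b‖ = 1 → ‖c‖ = 1 → ∀ r ∈ Icc (0:ℝ) 1, upH b = loH (r • c) →
      b = c := by
    intro b c hb hc r hr he
    have e1 : b = r • c := congrArg (fun p : Up (Up ℂ) => p.fst) he
    have e2 : ‖b‖ = r := by rw [e1, norm_smul, hc, Real.norm_of_nonneg hr.1, mul_one]
    rw [hb] at e2
    rw [e1, ← e2, one_smul]
  have hhalf : (1/2 : ℝ) ∈ Icc (0:ℝ) (1/2) := ⟨by norm_num, le_rfl⟩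
  have hmo' : nN = a ∨ nN = a' := by
    have hC : jn w (1/2) (Pi.single o 1) ∈ Ctri u w o := by
      rw [hCa]; exact Or.inl (Or.inr (jn_mem_simp' hwo ⟨by norm_num, by norm_num⟩))
    obtain ⟨r, hr, h4⟩ := hlowall _ hC (jn_mid hwo hwW' hoW').le
    rw [hJo _ hhalf] at h4
    have hcoef : (3/2 + (1 + k) * (1/2)) / (2 + k/2) = 1 := by
      rw [div_eq_one_iff_eq (by linarith)]; ring
    rw [hcoef, one_smul] at h4
    rcases h4 with h4 | h4
    · exact Or.inl (hsphere _ _ norm_nN han r hr h4)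
    · exact Or.inr (hsphere _ _ norm_nN han' r hr h4)
  have hmu' : kt (1/2) = a ∨ kt (1/2) = a' := by
    have hC : jn w (1/2) (Pi.single u 1) ∈ Ctri u w o := by
      rw [hCa]; exact Or.inl (Or.inl (jn_mem_simp' huw.symm ⟨by norm_num, by norm_num⟩))
    obtain ⟨r, hr, h4⟩ := hlowall _ hC (jn_mid huw.symm hwW' huW').le
    rw [hJu _ hhalf] at h4
    have hcoef : (1 + ((1/2 - (1/2) * U + (1/2) * Z) + k * ((1/2) * Z))) /
        (1 + (2 + k) * (1/2 - (1/2) * U)) = 1 := by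
      have hpos : 0 < 1 + (2 + k) * (1/2 - (1/2) * U) := by
        have := mul_nonneg (show 0 ≤ 2 + k by linarith) (show 0 ≤ 1/2 - (1/2) * U by linarith)
        linarith
      rw [div_eq_one_iff_eq hpos.ne']
      have : U = 1 - Z := by linarith
      rw [this]; ring
    rw [hcoef, one_smul] at h4
    rcases h4 with h4 | h4
    · exact Or.inl (hsphere _ _ (hktn _ hhalf) han r hr h4)
    · exact Or.inr (hsphere _ _ (hktn _ hhalf) han' r hr h4)
  have hnk : nN ≠ kt (1/2) := by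
    intro h
    apply hktf (1/2) ⟨by norm_num, le_rfl⟩
    rw [← h]; rfl
  -- the lower sets
  have hlowset : ∀ y : Up (Up ℂ), ((∃ r ∈ Icc (0:ℝ) 1, loH (r • a) = y) ∨
      (∃ r ∈ Icc (0:ℝ) 1, loH (r • a') = y)) ↔
      ((∃ r ∈ Icc (0:ℝ) 1, loH (r • nN) = y) ∨ (∃ r ∈ Icc (0:ℝ) 1, loH (r • kt (1/2)) = y)) := by
    intro y
    rcases hmo' with h4 | h4
    · rcases hmu' with h5 | h5
      · exact absurd (h4.trans h5.symm) hnk
      · rw [h4, h5]
    · rcases hmu' with h5 | h5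
      · rw [h4, h5]; exact or_comm
      · exact absurd (h4.trans h5.symm) hnk
  ext y
  simp only [mem_union, mem_image]
  constructor
  · rintro ⟨x, hxC, rfl⟩
    rcases le_total (mx Wᶜ x) (mx W x) with h | h
    · rw [hCa] at hxC
      obtain ⟨s, hs, h6 | h6⟩ := Ctri_near huw.symm hwo hwW' huW' hoW' hxC h
      · right; left
        exact ⟨s, hs, by rw [h6, hJu s hs]⟩
      · left; left
        exact ⟨s, hs, by rw [h6, hJo s hs]⟩
    · obtain ⟨r, hr, h4⟩ := hlowall x hxC h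
      have h5 := (hlowset (J x)).1 (by
        rcases h4 with h4 | h4
        · exact Or.inl ⟨r, hr, h4.symm⟩
        · exact Or.inr ⟨r, hr, h4.symm⟩)
      rcases h5 with h5 | h5
      · exact Or.inl (Or.inr h5)
      · exact Or.inr (Or.inr h5)
  · have hback : ∀ y : Up (Up ℂ), ((∃ r ∈ Icc (0:ℝ) 1, loH (r • a) = y) ∨
        (∃ r ∈ Icc (0:ℝ) 1, loH (r • a') = y)) → ∃ x ∈ Ctri u w o, J x = y := by
      rintro y (⟨r, hr, rfl⟩ | ⟨r, hr, rfl⟩)
      · have hs : r / 2 ∈ Icc (0:ℝ) (1/2) := ⟨by linarith [hr.1], by linarith [hr.2]⟩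
        have hC : jn o (r/2) (Pi.single u 1) ∈ Ctri u w o := by
          rw [hCb]
          exact Or.inl (Or.inl (jn_mem_simp' huo.symm ⟨hs.1, by linarith [hs.2]⟩))
        refine ⟨Φ (jn o (r/2) (Pi.single u 1)), ?_, ?_⟩
        · rw [← hΦC]; exact ⟨_, hC, rfl⟩
        · rw [hlow1 _ hs]; congr 2; ring
      · have hs : r / 2 ∈ Icc (0:ℝ) (1/2) := ⟨by linarith [hr.1], by linarith [hr.2]⟩
        have hC : jn o (r/2) (Pi.single w 1) ∈ Ctri u w o := by
          rw [hCb]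
          exact Or.inl (Or.inr (jn_mem_simp' hwo.symm ⟨hs.1, by linarith [hs.2]⟩))
        refine ⟨Φ (jn o (r/2) (Pi.single w 1)), ?_, ?_⟩
        · rw [← hΦC]; exact ⟨_, hC, rfl⟩
        · rw [hlow2 _ hs]; congr 2; ring
    rintro ((⟨s, hs, rfl⟩ | h) | (⟨s, hs, rfl⟩ | h))
    · refine ⟨jn w s (Pi.single o 1), ?_, hJo s hs⟩
      rw [hCa]; exact Or.inl (Or.inr (jn_mem_simp' hwo ⟨hs.1, by linarith [hs.2]⟩))
    · exact hback y ((hlowset y).2 (Or.inl h))
    · refine ⟨jn w s (Pi.single u 1), ?_, hJu s hs⟩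
      rw [hCa]; exact Or.inl (Or.inl (jn_mem_simp' huw.symm ⟨hs.1, by linarith [hs.2]⟩))
    · exact hback y ((hlowset y).2 (Or.inr h))

theorem MA_core {u w o : V} (huw : u ≠ w) (huo : u ≠ o) (hwo : w ≠ o)
    (h1 : ({u, w} : Finset V) ∈ S) (h2 : ({u, o} : Finset V) ∈ S) (h3 : ({w, o} : Finset V) ∈ S)
    (hlk : ∀ v, v ≠ o → {v} ∈ S → PS 2 (link S v))
    {Ψo : (V → ℝ) → Up ℂ} (hΨo : HomeoOn Ψo (geo (link S o)) (sphere 0 1))
    (hend : EndData S (Ctri u w o) u w o {o}ᶜ) :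
    ∃ f : (V → ℝ) → Up (Up ℂ), HomeoOn f (geo S) (sphere 0 1) ∧ f '' Ctri u w o = C0 := by
  obtain ⟨W0, hwW, huW, hoW, hne, ⟨Ψ0, hΨ0⟩, Φ, hΦ, hΦC, hΦs⟩ := hend
  exact MA_gen huw huo hwo h1 h2 h3 hlk hΨo hwW huW hoW hne hΨ0 hΦ hΦC hΦs

/-- The boundary of the missing triangle is unknotted in the sphere. -/
theorem MA {u w o : V} (huw : u ≠ w) (huo : u ≠ o) (hwo : w ≠ o)
    (h1 : ({u, w} : Finset V) ∈ S) (h2 : ({u, o} : Finset V) ∈ S) (h3 : ({w, o} : Finset V) ∈ S)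
    (hlk : ∀ v, v ≠ o → {v} ∈ S → PS 2 (link S v))
    {Ψo : (V → ℝ) → Up ℂ} (hΨo : HomeoOn Ψo (geo (link S o)) (sphere 0 1))
    (hK : NonEvasive (del S o)) :
    ∃ f : (V → ℝ) → Up (Up ℂ), HomeoOn f (geo S) (sphere 0 1) ∧ f '' Ctri u w o = C0 := by
  have hwS : ({w} : Finset V) ∈ S := singleton_mem h3 (by simp)
  have huS : ({u} : Finset V) ∈ S := singleton_mem h1 (by simp)
  have h1' : ({w, u} : Finset V) ∈ S := by rw [Finset.pair_comm]; exact h1
  have hlink : ∀ v W, v ≠ o → {v} ∈ S → NonEvasive (res (link S v) W) → Std E2 (link S v) W :=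
    fun v W hvo hv hne => good_two _ _ (hlk v hvo hv) hne
  rw [del_eq_res] at hK
  rcases phase_one huw huo hwo h1 h2 h3 hlink
    (exists_third (hlk w hwo hwS) (singleton_mem_link huw.symm h1'))
    (exists_third (hlk u huo huS) (singleton_mem_link huw h1)) _ hK _ rfl
    (by simpa using hwo) (by simpa using huo) (by simp) with h | h
  · exact MA_core huw huo hwo h1 h2 h3 hlk hΨo h
  · rw [Ctri_swap] at h ⊢
    exact MA_core huw.symm hwo huo h1' h3 h2 hlk hΨo h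

end NE3
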