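import Pool.Agent.Hhelper58.Refib

/-! Preliminaries for the assembly. -/

set_option linter.unusedSectionVars false
set_option linter.deprecated false
set_option linter.unusedSimpArgs false

namespace NE3

open Set Topology Metric

variable {V : Type*} [DecidableEq V] [Fintype V]
variable {K S : PreAbstractSimplicialComplex V}
variable {F : Type*} [NormedAddCommGroup F] [NormedSpace ℝ F]
variable {N : Type*} [NormedAddCommGroup N] [NormedSpace ℝ N]

lemma finrank_up [FiniteDimensional ℝ F] : Module.finrank ℝ (Up F) = Module.finrank ℝ F + 1 := by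
  have e : Up F ≃ₗ[ℝ] F × ℝ := WithLp.linearEquiv 1 ℝ (F × ℝ)
  rw [e.finrank_eq, Module.finrank_prod, Module.finrank_self]

lemma finrank_E3 : Module.finrank ℝ E3 = 3 := by
  have h0 : Module.finrank ℝ E0 = 0 := by simp [E0]
  have h1 : Module.finrank ℝ E1 = 1 := by
    have := finrank_up (F := E0); rw [h0] at this; exact this
  have h2 : Module.finrank ℝ E2 = 2 := by
    have := finrank_up (F := E1); rw [h1] at this; exact this
  have := finrank_up (F := E2); rw [h2] at this; exact this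

lemma finrank_Q : Module.finrank ℝ (Up ℂ) = 3 := by
  rw [finrank_up, Complex.finrank_real_complex]

/-- a norm preserving homeomorphism between balls of normed spaces of equal dimension -/
lemma exists_ball_iso {A B : Type*} [NormedAddCommGroup A] [NormedSpace ℝ A]
    [NormedAddCommGroup B] [NormedSpace ℝ B] [FiniteDimensional ℝ A] [FiniteDimensional ℝ B]
    (h : Module.finrank ℝ A = Module.finrank ℝ B) :
    ∃ κ : A → B, HomeoOn κ (closedBall 0 1) (closedBall 0 1) ∧ ∀ x, ‖κ x‖ = ‖x‖ := by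
  let L := ContinuousLinearEquiv.ofFinrankEq h
  exact ⟨ext (nlin L), (homeoOn_nlin L).ext_ball, norm_ext (homeoOn_nlin L).mapsTo⟩

theorem chain_exists_o {o : V}
    (hlink : ∀ v W, v ≠ o → {v} ∈ S → NonEvasive (res (link S v) W) → Std F (link S v) W) :
    ∀ (K : PreAbstractSimplicialComplex V), NonEvasive K → ∀ W, K = res S W → o ∉ W →
      ∃ y ∈ W, {y} ∈ S ∧ SAmb S W {y} := by
  intro K h
  induction h with
  | point K v h =>
    rintro W rfl ho
    have hv : ({v} : Finset V) ∈ res S W := (h _).2 rfl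
    have hvW : v ∈ W := by simpa using hv.2
    refine ⟨v, hvW, hv.1, SAmb.of_vertices ?_⟩
    intro u hu
    constructor
    · intro huW
      have : ({u} : Finset V) ∈ res S W := ⟨hu, by simpa using huW⟩
      have := (h _).1 this
      simpa using this
    · rintro rfl; exact hvW
  | step K v hl hd _ ihd =>
    rintro W rfl ho
    have hvm : {v} ∈ res S W := NonEvasive.vertex_of_step hl
    have hvW : v ∈ W := by simpa using hvm.2
    have hvS : {v} ∈ S := hvm.1
    have hvo : v ≠ o := by rintro rfl; exact ho hvW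
    rw [link_res hvW, res_link_diff] at hl
    obtain ⟨y, hy, hyS, hamb⟩ := ihd (W \ {v}) del_res (fun h => ho h.1)
    have h1 : SAmb S (insert v (W \ {v})) (W \ {v}) :=
      samb_insert hvS (by simp) (hlink v _ hvo hvS hl)
    rw [insert_diff_self' hvW] at h1
    exact ⟨y, hy.1, hyS, h1.trans hamb⟩

lemma exists_third {w u o : V} (h : PS 2 (link S w)) (hu : ({u} : Finset V) ∈ link S w) :
    ∃ x, x ≠ u ∧ x ≠ o ∧ x ≠ w ∧ ({w, x} : Finset V) ∈ S := by
  obtain ⟨h1, _⟩ := h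
  obtain ⟨h2, y, hy, _⟩ := h1 u hu
  obtain ⟨a, b, hab, h3⟩ := h2 y hy
  have key : ∀ c, ({c} : Finset V) ∈ link (link (link S w) u) y → c ≠ u ∧ c ≠ w ∧
      ({w, c} : Finset V) ∈ S := by
    intro c hc
    have hc1 := link_le _ hc
    have hc2 := link_le _ hc1
    refine ⟨?_, ?_, hc2.2.2⟩
    · rintro rfl
      exact hc1.2.1 (by simp)
    · rintro rfl
      exact hc2.2.1 (by simp)
  have ha := key a ((h3 _).2 (Or.inl rfl))
  have hb := key b ((h3 _).2 (Or.inr rfl))
  by_cases hao : a = o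
  · exact ⟨b, hb.1, fun h => hab (hao.trans h.symm), hb.2.1, hb.2.2⟩
  · exact ⟨a, ha.1, hao, ha.2.1, ha.2.2⟩

/-- sphere structure on a combinatorial two-sphere -/
lemma exists_sphere_map (h : PS 2 S) : ∃ Ψ : (V → ℝ) → E3, HomeoOn Ψ (geo S) (sphere 0 1) := by
  obtain ⟨a, ha⟩ := h.exists_vertex
  obtain ⟨Ψ, hΨ⟩ := good_two S {a} h (nonEvasive_res_vertex ha)
  exact ⟨Ψ, hΨ.homeo⟩

/-- ball structure on the neighbourhood of a non-evasive complex -/
theorem exists_fA {o : V} (hlk : ∀ v, v ≠ o → {v} ∈ S → PS 2 (link S v)) {W : Set V}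
    (hW : NonEvasive (res S W)) (ho : o ∉ W) :
    ∃ fA : (V → ℝ) → Up ℂ, HomeoOn fA (geo S ∩ {x | mx Wᶜ x ≤ mx W x}) (closedBall 0 1) ∧
      ∀ x ∈ geo S ∩ {x | mx Wᶜ x ≤ mx W x}, (‖fA x‖ = 1 ↔ mx W x = mx Wᶜ x) := by
  obtain ⟨y, hyW, hyS, Θ, hΘ, hs⟩ := chain_exists_o (F := E2)
    (fun v W hvo hv hne => good_two _ _ (hlk v hvo hv) hne) _ hW W rfl ho
  have hyo : y ≠ o := by rintro rfl; exact ho hyW
  obtain ⟨Ψ, hΨ⟩ := exists_sphere_map (hlk y hyo hyS)
  obtain ⟨hg, hg1⟩ := homeoOn_cell hyS hΨ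
  obtain ⟨κ, hκ, hκn⟩ := exists_ball_iso (A := E3) (B := Up ℂ) (finrank_E3.trans finrank_Q.symm)
  have hΘ' : HomeoOn Θ (geo S ∩ {x | mx Wᶜ x ≤ mx W x}) (geo S ∩ {x | mx {y}ᶜ x ≤ x y}) := by
    apply hΘ.restr
    intro x hx
    have h1 := (hs x hx).2
    rw [mx_singleton ((hΘ.mapsTo hx).1 y)] at h1
    change mx Wᶜ x ≤ mx W x ↔ mx {y}ᶜ (Θ x) ≤ (Θ x) y
    rw [← not_lt, ← not_lt]
    exact not_congr h1
  refine ⟨κ ∘ ((fun x => (2:ℝ) • cmap y Ψ x) ∘ Θ), hκ.comp (hg.comp hΘ'), ?_⟩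
  intro x hx
  change ‖κ ((2:ℝ) • cmap y Ψ (Θ x))‖ = 1 ↔ _
  rw [hκn, hg1 _ (hΘ'.mapsTo hx)]
  have h1 := (hs x hx.1).1
  have h2 := (hs x hx.1).2
  rw [mx_singleton ((hΘ.mapsTo hx.1).1 y)] at h1 h2
  rw [le_antisymm_iff, le_antisymm_iff, ← not_lt, ← not_lt, ← not_lt, ← not_lt, h1, h2]

end NE3
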