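import Pool.Agent.Hhelper58.NLin

/-! Level preserving homeomorphisms of the three-sphere in polar form. -/

set_option linter.unusedSectionVars false
set_option linter.deprecated false
set_option linter.unusedSimpArgs false

namespace NE3

open Set Topology Metric

/-! ### one variable: the tent -/

/-- tent function with top `1` at `a` and zeros at `R, -R` -/
noncomputable def tent (R a t : ℝ) : ℝ := min ((t + R) / (a + R)) ((R - t) / (R - a))

/-- piecewise linear map moving `a` to `b` -/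
noncomputable def plm (R a b t : ℝ) : ℝ := t + (b - a) * tent R a t

lemma tent_nonneg {R a t : ℝ} (h1 : -R < a) (h2 : a < R) (ht : t ∈ Icc (-R) R) :
    0 ≤ tent R a t := by
  unfold tent
  apply le_min
  · exact div_nonneg (by linarith [ht.1]) (by linarith)
  · exact div_nonneg (by linarith [ht.2]) (by linarith)

lemma tent_le_one {R a t : ℝ} (h1 : -R < a) (h2 : a < R) : tent R a t ≤ 1 := by
  unfold tent
  rcases le_total t a with h | h
  · refine (min_le_left _ _).trans ?_
    rw [div_le_one (by linarith)]; linarith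
  · refine (min_le_right _ _).trans ?_
    rw [div_le_one (by linarith)]; linarith

lemma tent_of_le {R a t : ℝ} (h1 : -R < a) (h2 : a < R) (h : t ≤ a) :
    tent R a t = (t + R) / (a + R) := by
  unfold tent
  apply min_eq_left
  have e1 : (t + R) / (a + R) ≤ 1 := by rw [div_le_one (by linarith)]; linarith
  have e2 : 1 ≤ (R - t) / (R - a) := by rw [one_le_div (by linarith)]; linarith
  linarith

lemma tent_of_ge {R a t : ℝ} (h1 : -R < a) (h2 : a < R) (h : a ≤ t) :
    tent R a t = (R - t) / (R - a) := by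
  unfold tent
  apply min_eq_right
  have e1 : 1 ≤ (t + R) / (a + R) := by rw [one_le_div (by linarith)]; linarith
  have e2 : (R - t) / (R - a) ≤ 1 := by rw [div_le_one (by linarith)]; linarith
  linarith

lemma plm_of_le {R a b t : ℝ} (h1 : -R < a) (h2 : a < R) (h : t ≤ a) :
    plm R a b t = -R + (t + R) * ((b + R) / (a + R)) := by
  unfold plm
  rw [tent_of_le h1 h2 h]
  have : a + R ≠ 0 := by linarith
  field_simp
  ring

lemma plm_of_ge {R a b t : ℝ} (h1 : -R < a) (h2 : a < R) (h : a ≤ t) :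
    plm R a b t = R - (R - t) * ((R - b) / (R - a)) := by
  unfold plm
  rw [tent_of_ge h1 h2 h]
  have : R - a ≠ 0 := by linarith
  field_simp
  ring

lemma plm_self {R a b : ℝ} (h1 : -R < a) (h2 : a < R) : plm R a b a = b := by
  rw [plm_of_le h1 h2 le_rfl]
  have : a + R ≠ 0 := by linarith
  field_simp
  ring

lemma plm_left {R a b : ℝ} (h1 : -R < a) (h2 : a < R) : plm R a b (-R) = -R := by
  rw [plm_of_le h1 h2 h1.le]; ring

lemma plm_right {R a b : ℝ} (h1 : -R < a) (h2 : a < R) : plm R a b R = R := by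
  rw [plm_of_ge h1 h2 h2.le]; ring

lemma plm_plm {R a b t : ℝ} (h1 : -R < a) (h2 : a < R) (h3 : -R < b) (h4 : b < R) :
    plm R b a (plm R a b t) = t := by
  rcases le_total t a with h | h
  · have e : plm R a b t = -R + (t + R) * ((b + R) / (a + R)) := plm_of_le h1 h2 h
    have hle : plm R a b t ≤ b := by
      rw [e]
      have hpos : 0 < (b + R) / (a + R) := div_pos (by linarith) (by linarith)
      have : (t + R) * ((b + R) / (a + R)) ≤ (a + R) * ((b + R) / (a + R)) :=
        mul_le_mul_of_nonneg_right (by linarith) hpos.le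
      rw [mul_div_cancel₀ _ (by linarith : a + R ≠ 0)] at this
      linarith
    rw [plm_of_le h3 h4 hle, e]
    have n1 : a + R ≠ 0 := by linarith
    have n2 : b + R ≠ 0 := by linarith
    field_simp
    ring
  · have e : plm R a b t = R - (R - t) * ((R - b) / (R - a)) := plm_of_ge h1 h2 h
    have hle : b ≤ plm R a b t := by
      rw [e]
      have hpos : 0 < (R - b) / (R - a) := div_pos (by linarith) (by linarith)
      have : (R - t) * ((R - b) / (R - a)) ≤ (R - a) * ((R - b) / (R - a)) :=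
        mul_le_mul_of_nonneg_right (by linarith) hpos.le
      rw [mul_div_cancel₀ _ (by linarith : R - a ≠ 0)] at this
      linarith
    rw [plm_of_ge h3 h4 hle, e]
    have n1 : R - a ≠ 0 := by linarith
    have n2 : R - b ≠ 0 := by linarith
    field_simp
    ring

lemma plm_mem {R a b t : ℝ} (h1 : -R < a) (h2 : a < R) (h3 : -R < b) (h4 : b < R)
    (ht : t ∈ Icc (-R) R) : plm R a b t ∈ Icc (-R) R := by
  rcases le_total t a with h | h
  · rw [plm_of_le h1 h2 h]
    have hpos : 0 < (b + R) / (a + R) := div_pos (by linarith) (by linarith)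
    have e1 : (t + R) * ((b + R) / (a + R)) ≤ (a + R) * ((b + R) / (a + R)) :=
      mul_le_mul_of_nonneg_right (by linarith) hpos.le
    rw [mul_div_cancel₀ _ (by linarith : a + R ≠ 0)] at e1
    have e2 : 0 ≤ (t + R) * ((b + R) / (a + R)) := mul_nonneg (by linarith [ht.1]) hpos.le
    exact ⟨by linarith, by linarith⟩
  · rw [plm_of_ge h1 h2 h]
    have hpos : 0 < (R - b) / (R - a) := div_pos (by linarith) (by linarith)
    have e1 : (R - t) * ((R - b) / (R - a)) ≤ (R - a) * ((R - b) / (R - a)) :=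
      mul_le_mul_of_nonneg_right (by linarith) hpos.le
    rw [mul_div_cancel₀ _ (by linarith : R - a ≠ 0)] at e1
    have e2 : 0 ≤ (R - t) * ((R - b) / (R - a)) := mul_nonneg (by linarith [ht.2]) hpos.le
    exact ⟨by linarith, by linarith⟩

lemma abs_plm_sub {R a b t : ℝ} (h1 : -R < a) (h2 : a < R) (ht : t ∈ Icc (-R) R) :
    |plm R a b t - t| ≤ |b - a| := by
  unfold plm
  rw [add_sub_cancel_left, abs_mul, abs_of_nonneg (tent_nonneg h1 h2 ht)]
  have := tent_le_one (t := t) h1 h2
  nlinarith [abs_nonneg (b - a)]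

lemma plm_abs_eq {R a b t : ℝ} (h1 : -R < a) (h2 : a < R) (h3 : -R < b) (h4 : b < R) :
    |plm R a b t| = R ↔ |t| = R := by
  have hR : 0 < R := by linarith
  constructor
  · intro h
    rcases abs_cases (plm R a b t) with ⟨h', _⟩ | ⟨h', _⟩
    · rw [h] at h'
      have := plm_plm (t := t) h1 h2 h3 h4
      rw [← h', plm_right h3 h4] at this
      rw [← this, abs_of_pos hR]
    · rw [h] at h'
      have := plm_plm (t := t) h1 h2 h3 h4
      rw [show plm R a b t = -R by linarith, plm_left h3 h4] at this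
      rw [← this, abs_neg, abs_of_pos hR]
  · intro h
    rcases abs_cases t with ⟨h', _⟩ | ⟨h', _⟩
    · rw [show t = R by linarith, plm_right h1 h2, abs_of_pos hR]
    · rw [show t = -R by linarith, plm_left h1 h2, abs_neg, abs_of_pos hR]

/-! ### coordinates -/

/-- the point with coordinates `(ζ, t, z)` -/
noncomputable def mk3 (ζ : ℂ) (t z : ℝ) : Up (Up ℂ) := WithLp.toLp 1 (WithLp.toLp 1 (ζ, t), z)

lemma norm_mk3 (ζ : ℂ) (t z : ℝ) : ‖mk3 ζ t z‖ = ‖ζ‖ + |t| + |z| := by
  rw [norm_up]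
  change ‖(WithLp.toLp 1 (ζ, t) : Up ℂ)‖ + |z| = _
  rw [norm_up]
  rfl

lemma mk3_eta (p : Up (Up ℂ)) : mk3 p.fst.fst p.fst.snd p.snd = p := rfl

lemma norm3 (p : Up (Up ℂ)) : ‖p‖ = ‖p.fst.fst‖ + |p.fst.snd| + |p.snd| := by
  conv_lhs => rw [← mk3_eta p]
  exact norm_mk3 _ _ _

lemma mk3_inj {ζ ζ' : ℂ} {t t' z z' : ℝ} (h : mk3 ζ t z = mk3 ζ' t' z') :
    ζ = ζ' ∧ t = t' ∧ z = z' :=
  ⟨congrArg (fun p : Up (Up ℂ) => p.fst.fst) h, congrArg (fun p : Up (Up ℂ) => p.fst.snd) h,
    congrArg (fun p : Up (Up ℂ) => p.snd) h⟩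

lemma continuous_mk3 : Continuous fun p : ℂ × ℝ × ℝ => mk3 p.1 p.2.1 p.2.2 := by
  unfold mk3
  exact (WithLp.prod_continuous_toLp 1 (Up ℂ) ℝ).comp
    (((WithLp.prod_continuous_toLp 1 ℂ ℝ).comp
      (continuous_fst.prodMk continuous_snd.fst)).prodMk continuous_snd.snd)

lemma continuous_p1 : Continuous fun p : Up (Up ℂ) => p.fst.fst :=
  continuous_fst'.comp continuous_fst'
lemma continuous_p2 : Continuous fun p : Up (Up ℂ) => p.fst.snd :=
  continuous_snd'.comp continuous_fst'
lemma continuous_p3 : Continuous fun p : Up (Up ℂ) => p.snd := continuous_snd'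

lemma ContinuousOn.mk3 {X : Type*} [TopologicalSpace X] {s : Set X} {f : X → ℂ} {g h : X → ℝ}
    (hf : ContinuousOn f s) (hg : ContinuousOn g s) (hh : ContinuousOn h s) :
    ContinuousOn (fun x => mk3 (f x) (g x) (h x)) s :=
  continuous_mk3.comp_continuousOn (hf.prodMk (hg.prodMk hh))

/-- continuity of a bounded multiple -/
lemma continuousOn_mul_bdd {X : Type*} [TopologicalSpace X] {s : Set X} {g T : X → ℝ}
    (hg : ContinuousOn g s) (hT : ContinuousOn T (s ∩ {x | g x ≠ 0})) (hb : ∀ x ∈ s, |g x * T x| ≤ |g x|) :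
    ContinuousOn (fun x => g x * T x) s := by
  intro x hx
  by_cases h0 : g x = 0
  · have e : g x * T x = 0 := by rw [h0, zero_mul]
    rw [ContinuousWithinAt, e, tendsto_zero_iff_norm_tendsto_zero]
    have h1 : Filter.Tendsto (fun x => |g x|) (𝓝[s] x) (𝓝 0) := by
      have := (hg x hx).abs
      rw [ContinuousWithinAt, h0, abs_zero] at this
      exact this
    apply squeeze_zero' (Filter.Eventually.of_forall fun _ => norm_nonneg _) _ h1
    filter_upwards [self_mem_nhdsWithin] with y hy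
    exact hb y hy
  · have h1 : ContinuousWithinAt (fun x => g x * T x) (s ∩ {x | g x ≠ 0}) x :=
      ((hg x hx).mono inter_subset_left).mul (hT x ⟨hx, h0⟩)
    have h2 : {x | g x ≠ 0} ∈ 𝓝[s] x := (hg x hx).eventually_ne h0
    rw [ContinuousWithinAt] at h1 ⊢
    rwa [nhdsWithin_inter_of_mem' h2] at h1

/-- the polar map -/
noncomputable def pol (U : ℝ → ℝ → ℂ) (P : ℝ → ℝ → ℝ) (p : Up (Up ℂ)) : Up (Up ℂ) :=
  mk3 (((1 - |p.snd| - |P p.snd p.fst.snd| : ℝ) : ℂ) *
    (U p.fst.snd p.snd * (p.fst.fst / (‖p.fst.fst‖ : ℂ)))) (P p.snd p.fst.snd) p.snd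

lemma pol_mk3 (U : ℝ → ℝ → ℂ) (P : ℝ → ℝ → ℝ) (ζ : ℂ) (t z : ℝ) :
    pol U P (mk3 ζ t z) = mk3 (((1 - |z| - |P z t| : ℝ) : ℂ) * (U t z * (ζ / (‖ζ‖ : ℂ))))
      (P z t) z := rfl

/-- the closed diamond -/
def Dia : Set (ℝ × ℝ) := {q | |q.1| + |q.2| ≤ 1}

theorem homeoOn_pol {U : ℝ → ℝ → ℂ} {P : ℝ → ℝ → ℝ}
    (hU : ∀ t z, |t| + |z| < 1 → ‖U t z‖ = 1)
    (hUc : ContinuousOn (fun q : ℝ × ℝ => U q.1 q.2) {q | |q.1| + |q.2| < 1})
    (hPc : ContinuousOn (fun q : ℝ × ℝ => P q.2 q.1) Dia)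
    (hPm : ∀ z, |z| ≤ 1 → BijOn (P z) (Icc (-(1 - |z|)) (1 - |z|)) (Icc (-(1 - |z|)) (1 - |z|)))
    (hPb : ∀ z t, |z| ≤ 1 → |t| ≤ 1 - |z| → (|P z t| = 1 - |z| ↔ |t| = 1 - |z|)) :
    HomeoOn (pol U P) (sphere 0 1) (sphere 0 1) := by
  have hPabs : ∀ z t, |z| ≤ 1 → |t| ≤ 1 - |z| → |P z t| ≤ 1 - |z| := by
    intro z t hz ht
    exact abs_le.2 ((hPm z hz).mapsTo (abs_le.1 ht))
  have hn : ∀ p ∈ sphere (0 : Up (Up ℂ)) 1, |p.snd| ≤ 1 ∧ |p.fst.snd| ≤ 1 - |p.snd| ∧
      ‖p.fst.fst‖ = 1 - |p.snd| - |p.fst.snd| := by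
    intro p hp
    rw [mem_sphere_zero_iff_norm, norm3] at hp
    have h1 := norm_nonneg p.fst.fst
    have h2 := abs_nonneg p.fst.snd
    have h3 := abs_nonneg p.snd
    exact ⟨by linarith, by linarith, by linarith⟩
  have hnorm1 : ∀ p ∈ sphere (0 : Up (Up ℂ)) 1, ‖(pol U P p).fst.fst‖ =
      1 - |p.snd| - |P p.snd p.fst.snd| := by
    intro p hp
    obtain ⟨h1, h2, h3⟩ := hn p hp
    change ‖(((1 - |p.snd| - |P p.snd p.fst.snd| : ℝ) : ℂ) *
      (U p.fst.snd p.snd * (p.fst.fst / (‖p.fst.fst‖ : ℂ))))‖ = _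
    have h4 := hPabs _ _ h1 h2
    rw [norm_mul, Complex.norm_real, Real.norm_of_nonneg (by linarith)]
    by_cases h0 : p.fst.fst = 0
    · rw [h0, norm_zero] at h3
      have h5 : |p.fst.snd| = 1 - |p.snd| := by linarith
      have h6 := (hPb _ _ h1 h2).2 h5
      rw [h6]; simp
    · have h5 : 0 < ‖p.fst.fst‖ := norm_pos_iff.2 h0
      rw [norm_mul, hU _ _ (by linarith), norm_div, Complex.norm_real, norm_norm, div_self h5.ne']
      ring
  refine ⟨?_, ?_, ?_, ?_⟩
  · -- continuity
    have hmaps : MapsTo (fun p : Up (Up ℂ) => (p.fst.snd, p.snd)) (sphere 0 1) Dia := by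
      intro p hp
      obtain ⟨h1, h2, h3⟩ := hn p hp
      change |p.fst.snd| + |p.snd| ≤ 1
      linarith
    have hc2 : ContinuousOn (fun p : Up (Up ℂ) => P p.snd p.fst.snd) (sphere 0 1) :=
      hPc.comp (continuous_p2.prodMk continuous_p3).continuousOn hmaps
    have hc1 : ContinuousOn (fun p : Up (Up ℂ) => (pol U P p).fst.fst) (sphere 0 1) := by
      intro p hp
      by_cases h0 : p.fst.fst = 0
      · have e : (pol U P p).fst.fst = 0 := by
          rw [← norm_eq_zero, hnorm1 p hp]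
          obtain ⟨h1, h2, h3⟩ := hn p hp
          rw [h0, norm_zero] at h3
          have h6 := (hPb _ _ h1 h2).2 (by linarith)
          linarith
        rw [ContinuousWithinAt, e, tendsto_zero_iff_norm_tendsto_zero]
        have h7 : ContinuousWithinAt (fun p : Up (Up ℂ) => 1 - |p.snd| - |P p.snd p.fst.snd|)
            (sphere 0 1) p :=
          ((continuousOn_const.sub continuous_p3.abs.continuousOn).sub hc2.abs) p hp
        have h8 : 1 - |p.snd| - |P p.snd p.fst.snd| = 0 := by
          rw [← hnorm1 p hp, e, norm_zero]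
        rw [ContinuousWithinAt, h8] at h7
        refine h7.congr' ?_
        filter_upwards [self_mem_nhdsWithin] with x hx
        exact (hnorm1 x hx).symm
      · have hmaps2 : MapsTo (fun p : Up (Up ℂ) => (p.fst.snd, p.snd))
            (sphere 0 1 ∩ {p | p.fst.fst ≠ 0}) {q | |q.1| + |q.2| < 1} := by
          rintro p ⟨hp, h0⟩
          obtain ⟨h1, h2, h3⟩ := hn p hp
          have h5 : 0 < ‖p.fst.fst‖ := norm_pos_iff.2 h0
          change |p.fst.snd| + |p.snd| < 1
          linarith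
        have hc3 : ContinuousOn (fun p : Up (Up ℂ) => (pol U P p).fst.fst)
            (sphere 0 1 ∩ {p | p.fst.fst ≠ 0}) := by
          change ContinuousOn (fun p : Up (Up ℂ) => (((1 - |p.snd| - |P p.snd p.fst.snd| : ℝ) : ℂ) *
            (U p.fst.snd p.snd * (p.fst.fst / (‖p.fst.fst‖ : ℂ))))) _
          apply ContinuousOn.mul
          · apply Complex.continuous_ofReal.comp_continuousOn
            exact (continuousOn_const.sub continuous_p3.abs.continuousOn).sub
              (hc2.mono inter_subset_left).abs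
          · apply ContinuousOn.mul
            · exact hUc.comp (continuous_p2.prodMk continuous_p3).continuousOn hmaps2
            · apply ContinuousOn.div continuous_p1.continuousOn
              · exact (Complex.continuous_ofReal.comp continuous_p1.norm).continuousOn
              · rintro p ⟨_, h0⟩
                simpa using h0
        have h9 : {p : Up (Up ℂ) | p.fst.fst ≠ 0} ∈ 𝓝 p :=
          (isOpen_ne.preimage continuous_p1).mem_nhds h0
        have h10 := hc3 p ⟨hp, h0⟩
        rw [ContinuousWithinAt] at h10 ⊢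
        rwa [nhdsWithin_inter_of_mem' (mem_nhdsWithin_of_mem_nhds h9)] at h10
    exact ContinuousOn.mk3 hc1 hc2 continuous_p3.continuousOn
  · intro p hp
    rw [mem_sphere_zero_iff_norm, norm3, hnorm1 p hp]
    change 1 - |p.snd| - |P p.snd p.fst.snd| + |P p.snd p.fst.snd| + |p.snd| = 1
    ring
  · intro p hp q hq hpq
    obtain ⟨h1, h2, h3⟩ := hn p hp
    obtain ⟨k1, k2, k3⟩ := hn q hq
    have e3 : (pol U P p).snd = (pol U P q).snd := by rw [hpq]
    replace e3 : p.snd = q.snd := e3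
    have e2 : (pol U P p).fst.snd = (pol U P q).fst.snd := by rw [hpq]
    replace e2 : P p.snd p.fst.snd = P q.snd q.fst.snd := e2
    have e1 : (pol U P p).fst.fst = (pol U P q).fst.fst := by rw [hpq]
    rw [← e3] at e2 k2
    have e4 : p.fst.snd = q.fst.snd := (hPm _ h1).injOn (abs_le.1 h2) (abs_le.1 k2) e2
    have e5 : ‖p.fst.fst‖ = ‖q.fst.fst‖ := by rw [h3, k3, e3, e4]
    have e6 : p.fst.fst = q.fst.fst := by
      by_cases h0 : p.fst.fst = 0
      · rw [h0, norm_zero] at e5
        rw [h0, norm_eq_zero.1 e5.symm]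
      · have h5 : 0 < ‖p.fst.fst‖ := norm_pos_iff.2 h0
        have h6 : |P p.snd p.fst.snd| ≠ 1 - |p.snd| := by
          intro h
          have := (hPb _ _ h1 h2).1 h
          linarith
        have e7 : (((1 - |p.snd| - |P p.snd p.fst.snd| : ℝ) : ℂ) *
            (U p.fst.snd p.snd * (p.fst.fst / (‖p.fst.fst‖ : ℂ)))) =
            (((1 - |q.snd| - |P q.snd q.fst.snd| : ℝ) : ℂ) *
            (U q.fst.snd q.snd * (q.fst.fst / (‖q.fst.fst‖ : ℂ)))) := e1
        rw [← e3, ← e2, ← e4, ← e5] at e7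
        have h7 : ((1 - |p.snd| - |P p.snd p.fst.snd| : ℝ) : ℂ) ≠ 0 := by
          rw [Complex.ofReal_ne_zero]
          intro h; apply h6; linarith
        have h8 := mul_left_cancel₀ h7 e7
        have h9 : U p.fst.snd p.snd ≠ 0 := by
          rw [← norm_ne_zero_iff, hU _ _ (by linarith)]; norm_num
        have h10 := mul_left_cancel₀ h9 h8
        have h11 : (‖p.fst.fst‖ : ℂ) ≠ 0 := by simpa using h0
        field_simp at h10
        exact h10
    rw [← mk3_eta p, ← mk3_eta q, e6, e4, e3]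
  · intro q hq
    obtain ⟨k1, k2, k3⟩ := hn q hq
    obtain ⟨t, ht, htq⟩ := (hPm _ k1).surjOn (abs_le.1 k2)
    have ht' : |t| ≤ 1 - |q.snd| := abs_le.2 ht
    by_cases h0 : q.fst.fst = 0
    · rw [h0, norm_zero] at k3
      have h1 : |t| = 1 - |q.snd| := by
        rw [← hPb _ _ k1 ht', htq]; linarith
      refine ⟨mk3 0 t q.snd, ?_, ?_⟩
      · rw [mem_sphere_zero_iff_norm, norm_mk3, norm_zero]; linarith
      · rw [pol_mk3, htq]
        conv_rhs => rw [← mk3_eta q, h0]
        congr 1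
        simp
    · have h5 : 0 < ‖q.fst.fst‖ := norm_pos_iff.2 h0
      have h6 : |t| ≠ 1 - |q.snd| := by
        intro h
        have := (hPb _ _ k1 ht').2 h
        rw [htq] at this
        linarith
      have h7 : |t| < 1 - |q.snd| := lt_of_le_of_ne ht' h6
      have hU1 : ‖U t q.snd‖ = 1 := hU _ _ (by linarith)
      have hU0 : U t q.snd ≠ 0 := by rw [← norm_ne_zero_iff, hU1]; norm_num
      set r : ℝ := 1 - |q.snd| - |t| with hr
      have hr0 : 0 < r := by rw [hr]; linarith
      set ζ : ℂ := (r : ℂ) * ((U t q.snd)⁻¹ * (q.fst.fst / (‖q.fst.fst‖ : ℂ))) with hζ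
      have hζn : ‖ζ‖ = r := by
        rw [hζ, norm_mul, norm_mul, norm_inv, hU1, norm_div, Complex.norm_real, Complex.norm_real,
          norm_norm, div_self h5.ne', Real.norm_of_nonneg hr0.le]
        ring
      refine ⟨mk3 ζ t q.snd, ?_, ?_⟩
      · rw [mem_sphere_zero_iff_norm, norm_mk3, hζn, hr]; ring
      · rw [pol_mk3, htq, hζn]
        conv_rhs => rw [← mk3_eta q]
        congr 1
        rw [hζ, show 1 - |q.snd| - |q.fst.snd| = ‖q.fst.fst‖ from k3.symm]
        have hrc : (r : ℂ) ≠ 0 := by rw [Complex.ofReal_ne_zero]; exact hr0.ne'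
        have hqc : (‖q.fst.fst‖ : ℂ) ≠ 0 := by simpa using h0
        field_simp

end NE3
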