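import Pool.Agent.Hhelper58.Stereo
import Pool.Agent.Hhelper58.Polar

/-! Pushing an arc of the boundary sphere off the ball. -/

set_option linter.unusedSectionVars false
set_option linter.deprecated false
set_option linter.unusedSimpArgs false

namespace NE3

open Set Topology Metric

variable {F : Type*} [NormedAddCommGroup F] [NormedSpace ℝ F]

/-- clamp to the unit interval -/
noncomputable def cl (y : ℝ) : ℝ := max 0 (min 1 y)

lemma cl_nonneg (y : ℝ) : 0 ≤ cl y := le_max_left _ _
lemma cl_le_one (y : ℝ) : cl y ≤ 1 := max_le zero_le_one (min_le_left _ _)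
lemma cl_of_nonpos {y : ℝ} (h : y ≤ 0) : cl y = 0 := by
  unfold cl; exact max_eq_left ((min_le_right _ _).trans h)
lemma cl_one : cl 1 = 1 := by unfold cl; norm_num
lemma continuous_cl : Continuous cl := by unfold cl; fun_prop
lemma cl_mono {y z : ℝ} (h : y ≤ z) : cl y ≤ cl z :=
  max_le_max le_rfl (min_le_min le_rfl h)

/-- horizontal translation depending on the height -/
noncomputable def hmap (A : ℝ → F) (b : Up F) : Up F := WithLp.toLp 1 (b.fst - A b.snd, b.snd)

lemma PH_hmap {A : ℝ → F} (hA : Continuous A) : PH (hmap A) := by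
  refine ⟨?_, ?_, ?_, ?_⟩
  · exact (WithLp.prod_continuous_toLp 1 F ℝ).comp
      ((continuous_fst'.sub (hA.comp continuous_snd')).prodMk continuous_snd')
  · intro b c h
    have h2 : (hmap A b).snd = (hmap A c).snd := by rw [h]
    have h2 : b.snd = c.snd := h2
    have h1 : (hmap A b).fst = (hmap A c).fst := by rw [h]
    have h1 : b.fst - A b.snd = c.fst - A c.snd := h1
    rw [h2] at h1
    exact up_ext (sub_left_injective h1) h2
  · intro c
    refine ⟨WithLp.toLp 1 (c.fst + A c.snd, c.snd), ?_⟩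
    apply up_ext
    · change c.fst + A c.snd - A c.snd = c.fst
      abel
    · rfl
  · intro R
    set R0 := max R 0 with hR0
    have h0 : 0 ≤ R0 := le_max_right _ _
    obtain ⟨M, hM⟩ := (isCompact_Icc (a := -R0) (b := R0)).exists_bound_of_continuousOn
      hA.continuousOn
    refine ⟨2 * R0 + M, fun b hb => ?_⟩
    refine (le_max_left R 0).trans ?_
    rw [← hR0, norm_up]
    rw [norm_up] at hb
    change R0 ≤ ‖b.fst - A b.snd‖ + |b.snd|
    by_cases h : |b.snd| ≤ R0
    · have h1 := hM b.snd (abs_le.1 h)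
      have h2 := norm_sub_norm_le b.fst (A b.snd)
      have h3 := abs_nonneg b.snd
      linarith
    · have := norm_nonneg (b.fst - A b.snd)
      linarith

/-- vertical shift -/
noncomputable def vsh (G bb : F → ℝ) (b : Up F) : Up F :=
  WithLp.toLp 1 (b.fst, b.snd + G b.fst * cl ((b.snd + bb b.fst) / bb b.fst))

lemma PH_vsh [ProperSpace F] {G bb : F → ℝ} (hG : Continuous G) (hb : Continuous bb)
    (hG0 : ∀ x, 0 ≤ G x) (hb0 : ∀ x, 0 ≤ bb x) (hGb : ∀ x, G x ≠ 0 → 0 < bb x) :
    PH (vsh G bb) := by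
  have hcont : Continuous fun b : Up F => G b.fst * cl ((b.snd + bb b.fst) / bb b.fst) := by
    rw [← continuousOn_univ]
    apply continuousOn_mul_bdd
    · exact (hG.comp continuous_fst').continuousOn
    · apply continuous_cl.comp_continuousOn
      apply ContinuousOn.div
      · exact (continuous_snd'.add (hb.comp continuous_fst')).continuousOn
      · exact (hb.comp continuous_fst').continuousOn
      · rintro b ⟨_, h⟩
        exact (hGb _ h).ne'
    · intro b _
      rw [abs_mul, abs_of_nonneg (cl_nonneg _)]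
      have := cl_le_one ((b.snd + bb b.fst) / bb b.fst)
      nlinarith [abs_nonneg (G b.fst)]
  have hmono : ∀ x : F, ∀ t t' : ℝ, t ≤ t' → G x * cl ((t + bb x) / bb x) ≤
      G x * cl ((t' + bb x) / bb x) := by
    intro x t t' h
    apply mul_le_mul_of_nonneg_left _ (hG0 x)
    apply cl_mono
    exact div_le_div_of_nonneg_right (by linarith) (hb0 x)
  refine ⟨?_, ?_, ?_, ?_⟩
  · exact (WithLp.prod_continuous_toLp 1 F ℝ).comp
      (continuous_fst'.prodMk (continuous_snd'.add hcont))
  · intro b c h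
    have h1 : (vsh G bb b).fst = (vsh G bb c).fst := by rw [h]
    have h1 : b.fst = c.fst := h1
    have h2 : (vsh G bb b).snd = (vsh G bb c).snd := by rw [h]
    have h2 : b.snd + G b.fst * cl ((b.snd + bb b.fst) / bb b.fst) =
      c.snd + G c.fst * cl ((c.snd + bb c.fst) / bb c.fst) := h2
    rw [h1] at h2
    apply up_ext h1
    rcases lt_trichotomy b.snd c.snd with h3 | h3 | h3
    · have := hmono c.fst _ _ h3.le
      linarith
    · exact h3
    · have := hmono c.fst _ _ h3.le
      linarith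
  · intro c
    have hc2 : Continuous fun t : ℝ => t + G c.fst * cl ((t + bb c.fst) / bb c.fst) := by
      have h3 : Continuous fun t : ℝ => (WithLp.toLp 1 (c.fst, t) : Up F) :=
        (WithLp.prod_continuous_toLp 1 F ℝ).comp (continuous_const.prodMk continuous_id)
      exact continuous_id.add (hcont.comp h3)
    have hle : c.snd - G c.fst ≤ c.snd := by linarith [hG0 c.fst]
    have hivt := intermediate_value_Icc hle hc2.continuousOn
    have hmem : c.snd ∈ Icc ((fun t : ℝ => t + G c.fst * cl ((t + bb c.fst) / bb c.fst))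
        (c.snd - G c.fst)) ((fun t : ℝ => t + G c.fst * cl ((t + bb c.fst) / bb c.fst)) c.snd) := by
      constructor
      · dsimp only
        have h4 := cl_le_one ((c.snd - G c.fst + bb c.fst) / bb c.fst)
        have := mul_le_mul_of_nonneg_left h4 (hG0 c.fst)
        linarith
      · dsimp only
        have h4 := cl_nonneg ((c.snd + bb c.fst) / bb c.fst)
        have := mul_nonneg (hG0 c.fst) h4
        linarith
    obtain ⟨t, _, ht⟩ := hivt hmem
    refine ⟨WithLp.toLp 1 (c.fst, t), ?_⟩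
    apply up_ext
    · rfl
    · exact ht
  · intro R
    set R0 := max R 0 with hR0
    have h0 : 0 ≤ R0 := le_max_right _ _
    obtain ⟨M, hM⟩ := (isCompact_closedBall (0:F) R0).exists_bound_of_continuousOn
      hG.continuousOn
    refine ⟨2 * R0 + M, fun b hb' => ?_⟩
    refine (le_max_left R 0).trans ?_
    rw [← hR0, norm_up]
    rw [norm_up] at hb'
    change R0 ≤ ‖b.fst‖ + |b.snd + G b.fst * cl ((b.snd + bb b.fst) / bb b.fst)|
    by_cases h : ‖b.fst‖ ≤ R0
    · have h1 := hM b.fst (mem_closedBall_zero_iff.2 h)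
      rw [Real.norm_of_nonneg (hG0 _)] at h1
      have h2 : |G b.fst * cl ((b.snd + bb b.fst) / bb b.fst)| ≤ M := by
        rw [abs_mul, abs_of_nonneg (cl_nonneg _), abs_of_nonneg (hG0 _)]
        have := cl_le_one ((b.snd + bb b.fst) / bb b.fst)
        nlinarith [hG0 b.fst]
      have h3 := abs_sub_abs_le_abs_sub b.snd (-(G b.fst * cl ((b.snd + bb b.fst) / bb b.fst)))
      rw [abs_neg, sub_neg_eq_add] at h3
      have h4 := norm_nonneg b.fst
      linarith
    · have := abs_nonneg (b.snd + G b.fst * cl ((b.snd + bb b.fst) / bb b.fst))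
      linarith

lemma ist_pos_coef {M : Type*} [NormedAddCommGroup M] [NormedSpace ℝ M] (b : M) :
    ∃ c : ℝ, 0 < c ∧ (ist b).fst = c • b :=
  ⟨_, mul_pos (inv_pos.2 (mx1_pos b)) (inv_pos.2 (mx1_pos b)), rfl⟩

lemma st_coef {M : Type*} [NormedAddCommGroup M] [NormedSpace ℝ M] (p : Up M) :
    ∃ c : ℝ, st p = c • p.fst := ⟨_, rfl⟩

/-- the half circle -/
def halfC (F : Type*) [NormedAddCommGroup F] [NormedSpace ℝ F] : Set (Up (Up F)) :=
  (fun z : ℝ => (WithLp.toLp 1 ((WithLp.toLp 1 ((0:F), 1 - |z|) : Up F), z) : Up (Up F))) ''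
    Icc (-1) 1

lemma ist_axis {τ : ℝ} (hτ : 0 ≤ τ) :
    ist (WithLp.toLp 1 ((0:F), τ) : Up F) ∈ halfC F := by
  have hn : ‖(WithLp.toLp 1 ((0:F), τ) : Up F)‖ = τ := by
    rw [norm_up]
    change ‖(0:F)‖ + |τ| = τ
    rw [norm_zero, zero_add, abs_of_nonneg hτ]
  rcases le_total τ 1 with h | h
  · refine ⟨1 - τ, ⟨by linarith, by linarith⟩, ?_⟩
    rw [ist_of_le (by rw [hn]; exact h)]
    apply up_ext
    · apply up_ext
      · rfl
      · change 1 - |1 - τ| = τ
        rw [abs_of_nonneg (by linarith)]; ring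
    · change 1 - τ = 1 - ‖(WithLp.toLp 1 ((0:F), τ) : Up F)‖
      rw [hn]
  · have h' : 1 ≤ ‖(WithLp.toLp 1 ((0:F), τ) : Up F)‖ := by rw [hn]; exact h
    have hi : 0 < τ⁻¹ := inv_pos.2 (by linarith)
    have hi1 : τ⁻¹ ≤ 1 := inv_le_one_of_one_le₀ h
    refine ⟨τ⁻¹ - 1, ⟨by linarith, by linarith⟩, ?_⟩
    apply up_ext
    · rw [ist_fst_of_ge h', hn]
      apply up_ext
      · change (0:F) = (τ⁻¹ * τ⁻¹) • (0:F)
        rw [smul_zero]
      · change 1 - |τ⁻¹ - 1| = (τ⁻¹ * τ⁻¹) * τ
        rw [abs_of_nonpos (by linarith)]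
        have : τ ≠ 0 := by linarith
        field_simp
        ring
    · rw [ist_snd_of_ge h', hn]
      rfl

theorem push [FiniteDimensional ℝ F] {X : Set (Up (Up F))} (hX : IsClosed X)
    (hX1 : ∀ p ∈ X, p.fst.snd ≤ 0) (hX2 : ∀ p ∈ X, p.fst.snd = 0 → p = upH 0 ∨ p = loH 0)
    (hX3 : upH 0 ∈ X) (hXs : X ⊆ sphere 0 1) {γ : ℝ → Up (Up F)}
    (hγ : ContinuousOn γ (Icc 0 1)) (hγi : InjOn γ (Icc 0 1))
    (hγs : ∀ s ∈ Icc (0:ℝ) 1, γ s ∈ sphere (0 : Up (Up F)) 1 ∧ (γ s).fst.snd = 0)
    (hγ0 : γ 0 = upH 0) (hγ1 : γ 1 = loH 0) :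
    ∃ f : Up (Up F) → Up (Up F), HomeoOn f (sphere 0 1) (sphere 0 1) ∧ (∀ p ∈ X, f p = p) ∧
      f '' (γ '' Icc 0 1) = halfC F := by
  haveI : ProperSpace F := FiniteDimensional.proper_real F
  -- the arc in the chart
  have hne : ∀ s ∈ Ico (0:ℝ) 1, γ s ≠ loH 0 := by
    intro s hs h
    rw [← hγ1] at h
    have := hγi ⟨hs.1, hs.2.le⟩ ⟨zero_le_one, le_rfl⟩ h
    exact hs.2.ne this
  have hγH : HomeoOn γ (Icc 0 1) (γ '' Icc 0 1) := ⟨hγ, hγi.bijOn_image⟩
  obtain ⟨g, hg, hgl, hgr⟩ := hγH.exists_inv isCompact_Icc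
  have hγc : IsClosed (γ '' Icc 0 1) := (isCompact_Icc.image_of_continuousOn hγ).isClosed
  set γ' : ℝ → F := fun s => (st (γ s)).fst with hγ'
  have hst : ∀ s ∈ Ico (0:ℝ) 1, st (γ s) = WithLp.toLp 1 (γ' s, 0) := by
    intro s hs
    obtain ⟨c, hc⟩ := st_coef (γ s)
    apply up_ext
    · rfl
    · change (st (γ s)).snd = 0
      rw [hc]
      change c * (γ s).fst.snd = 0
      rw [(hγs s ⟨hs.1, hs.2.le⟩).2, mul_zero]
  have hist : ∀ s ∈ Ico (0:ℝ) 1, ist (WithLp.toLp 1 (γ' s, 0) : Up F) = γ s := by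
    intro s hs
    rw [← hst s hs]
    exact ist_st (hγs s ⟨hs.1, hs.2.le⟩).1 (hne s hs)
  have hinc : Continuous fun x : F => (WithLp.toLp 1 (x, (0:ℝ)) : Up F) :=
    (WithLp.prod_continuous_toLp 1 F ℝ).comp (continuous_id.prodMk continuous_const)
  have hinc2 : Continuous fun x : F => ist (WithLp.toLp 1 (x, (0:ℝ)) : Up F) :=
    continuous_ist.comp hinc
  set Γ : Set F := {x | ist (WithLp.toLp 1 (x, (0:ℝ)) : Up F) ∈ γ '' Icc 0 1} with hΓ
  have hΓc : IsClosed Γ := hγc.preimage hinc2
  have hgI : ∀ x ∈ Γ, g (ist (WithLp.toLp 1 (x, (0:ℝ)) : Up F)) ∈ Ico (0:ℝ) 1 := by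
    intro x hx
    have h1 := hg.mapsTo hx
    refine ⟨h1.1, lt_of_le_of_ne h1.2 ?_⟩
    intro h
    have h2 := hgr _ hx
    rw [h, hγ1] at h2
    exact ist_ne _ h2.symm
  let f0 : C(Γ, ℝ) := ⟨fun x => g (ist (WithLp.toLp 1 (x.1, (0:ℝ)) : Up F)) /
      (1 - g (ist (WithLp.toLp 1 (x.1, (0:ℝ)) : Up F))), by
    have h1 : Continuous fun x : Γ => g (ist (WithLp.toLp 1 (x.1, (0:ℝ)) : Up F)) := by
      have : ContinuousOn (fun x : F => g (ist (WithLp.toLp 1 (x, (0:ℝ)) : Up F))) Γ :=
        hg.cont.comp hinc2.continuousOn fun x hx => hx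
      exact this.domRestrict
    refine h1.div (continuous_const.sub h1) ?_
    intro x
    have := (hgI x.1 x.2).2
    linarith⟩
  obtain ⟨G0, hG0⟩ := ContinuousMap.exists_restrict_eq hΓc f0
  set G : F → ℝ := fun x => max 0 (G0 x) with hG
  have hGc : Continuous G := continuous_const.max G0.continuous
  have hGΓ : ∀ x ∈ Γ, G x = g (ist (WithLp.toLp 1 (x, (0:ℝ)) : Up F)) /
      (1 - g (ist (WithLp.toLp 1 (x, (0:ℝ)) : Up F))) := by
    intro x hx
    have h1 : G0 x = g (ist (WithLp.toLp 1 (x, (0:ℝ)) : Up F)) /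
        (1 - g (ist (WithLp.toLp 1 (x, (0:ℝ)) : Up F))) :=
      congrArg (fun k : C(Γ, ℝ) => k ⟨x, hx⟩) hG0
    rw [hG]; dsimp only
    rw [h1]
    apply max_eq_right
    have h2 := hgI x hx
    exact div_nonneg h2.1 (by linarith [h2.2])
  have hγΓ : ∀ s ∈ Ico (0:ℝ) 1, γ' s ∈ Γ := by
    intro s hs
    change ist (WithLp.toLp 1 (γ' s, 0) : Up F) ∈ γ '' Icc 0 1
    rw [hist s hs]
    exact ⟨s, ⟨hs.1, hs.2.le⟩, rfl⟩
  have hGγ : ∀ s ∈ Ico (0:ℝ) 1, G (γ' s) = s / (1 - s) := by
    intro s hs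
    rw [hGΓ _ (hγΓ s hs), hist s hs, hgl s ⟨hs.1, hs.2.le⟩]
  have h00 : (0:ℝ) ∈ Ico (0:ℝ) 1 := ⟨le_rfl, one_pos⟩
  have hst0 : st (upH (0 : Up F)) = 0 := by
    rw [← ist_of_le (by simp), st_ist]
  have hγ'0 : γ' 0 = 0 := by
    rw [hγ']; dsimp only
    rw [hγ0, hst0]; rfl
  have hG00 : G 0 = 0 := by
    have := hGγ 0 h00
    rw [hγ'0] at this
    rw [this]; norm_num
  -- the ball side
  set Y : Set (Up F) := {b | ist b ∈ X} with hY
  have hYc : IsClosed Y := hX.preimage continuous_ist
  have h0Y : (0 : Up F) ∈ Y := by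
    change ist 0 ∈ X
    rw [ist_of_le (by simp)]; exact hX3
  have hY1 : ∀ b ∈ Y, b.snd ≤ 0 := by
    intro b hb
    obtain ⟨c, hc, hcb⟩ := ist_pos_coef b
    have h1 := hX1 _ hb
    rw [hcb] at h1
    have h1 : c * b.snd ≤ 0 := h1
    by_contra h2
    have := mul_pos hc (not_le.1 h2)
    linarith
  have hY2 : ∀ b ∈ Y, b.snd = 0 → b = 0 := by
    intro b hb h
    obtain ⟨c, hc, hcb⟩ := ist_pos_coef b
    have h1 : (ist b).fst.snd = 0 := by
      rw [hcb]
      change c * b.snd = 0
      rw [h, mul_zero]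
    rcases hX2 _ hb h1 with h2 | h2
    · rw [← st_ist b, h2, hst0]
    · exact absurd h2 (ist_ne b)
  set bb : F → ℝ := fun x => min 1 (infDist (WithLp.toLp 1 (x, (0:ℝ)) : Up F) Y) with hbb
  have hbbc : Continuous bb :=
    continuous_const.min ((continuous_infDist_pt Y).comp hinc)
  have hbb0 : ∀ x, 0 ≤ bb x := fun x => le_min zero_le_one infDist_nonneg
  have hbbz : ∀ x, bb x = 0 → x = 0 := by
    intro x hx
    have h1 : infDist (WithLp.toLp 1 (x, (0:ℝ)) : Up F) Y = 0 := by
      rcases min_choice 1 (infDist (WithLp.toLp 1 (x, (0:ℝ)) : Up F) Y) with h | h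
      · rw [hbb] at hx; dsimp only at hx; rw [h] at hx; norm_num at hx
      · rw [hbb] at hx; dsimp only at hx; rw [h] at hx; exact hx
    have h2 : (WithLp.toLp 1 (x, (0:ℝ)) : Up F) ∈ Y :=
      (hYc.mem_iff_infDist_zero ⟨0, h0Y⟩).2 h1
    have h3 := hY2 _ h2 rfl
    exact congrArg (fun b : Up F => b.fst) h3
  have hGb : ∀ x, G x ≠ 0 → 0 < bb x := by
    intro x hx
    refine lt_of_le_of_ne (hbb0 x) ?_
    intro h
    rw [hbbz x h.symm] at hx
    exact hx hG00
  have hPH1 : PH (vsh G bb) := PH_vsh hGc hbbc (fun x => le_max_left _ _) hbb0 hGb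
  -- horizontal motion
  set A : ℝ → F := fun t => γ' (max t 0 / (1 + max t 0)) with hA
  have hfrac : ∀ t : ℝ, max t 0 / (1 + max t 0) ∈ Ico (0:ℝ) 1 := by
    intro t
    have h1 : 0 ≤ max t 0 := le_max_right _ _
    refine ⟨div_nonneg h1 (by linarith), ?_⟩
    rw [div_lt_one (by linarith)]; linarith
  have hAc : Continuous A := by
    have h1 : ContinuousOn γ' (Ico 0 1) := by
      apply continuous_fst'.comp_continuousOn
      apply continuousOn_st.comp (hγ.mono Ico_subset_Icc_self)
      intro s hs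
      exact snd_gt (hγs s ⟨hs.1, hs.2.le⟩).1 (hne s hs)
    have h2 : Continuous fun t : ℝ => max t 0 / (1 + max t 0) := by
      refine (continuous_id.max continuous_const).div
        (continuous_const.add (continuous_id.max continuous_const)) ?_
      intro t
      have : 0 ≤ max t 0 := le_max_right _ _
      change 1 + max t 0 ≠ 0
      linarith
    exact continuousOn_univ.1 (h1.comp h2.continuousOn fun t _ => hfrac t)
  have hA0 : ∀ t ≤ 0, A t = 0 := by
    intro t ht
    rw [hA]; dsimp only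
    rw [max_eq_right ht, zero_div, hγ'0]
  have hPH2 : PH (hmap A) := PH_hmap hAc
  obtain ⟨f, hf, hf0, hfi⟩ := (hPH2.comp hPH1).extend
  refine ⟨f, hf, ?_, ?_⟩
  · intro p hp
    by_cases h0 : p = loH 0
    · rw [h0, hf0]
    · have hpi := ist_st (hXs hp) h0
      set b := st p with hb
      have hbY : b ∈ Y := by
        change ist b ∈ X
        rw [hpi]; exact hp
      have h1 : vsh G bb b = b := by
        apply up_ext
        · rfl
        · change b.snd + G b.fst * cl ((b.snd + bb b.fst) / bb b.fst) = b.snd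
          have : cl ((b.snd + bb b.fst) / bb b.fst) = 0 := by
            apply cl_of_nonpos
            apply div_nonpos_of_nonpos_of_nonneg _ (hbb0 _)
            have h2 : bb b.fst ≤ -b.snd := by
              refine (min_le_right _ _).trans ?_
              refine (infDist_le_dist_of_mem hbY).trans ?_
              rw [dist_eq_norm, norm_up]
              change ‖b.fst - b.fst‖ + |0 - b.snd| ≤ -b.snd
              rw [sub_self, norm_zero, zero_add, zero_sub, abs_of_nonneg (by linarith [hY1 b hbY])]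
            linarith
          rw [this, mul_zero, add_zero]
      have h2 : hmap A b = b := by
        apply up_ext
        · change b.fst - A b.snd = b.fst
          rw [hA0 _ (hY1 b hbY), sub_zero]
        · rfl
      rw [← hpi, hfi]
      simp only [Function.comp]
      rw [h1, h2]
  · have hfγ : ∀ s ∈ Ico (0:ℝ) 1, f (γ s) = ist (WithLp.toLp 1 ((0:F), s / (1 - s)) : Up F) := by
      intro s hs
      rw [← hist s hs, hfi]
      simp only [Function.comp]
      congr 1
      have hv : vsh G bb (WithLp.toLp 1 (γ' s, 0)) = WithLp.toLp 1 (γ' s, s / (1 - s)) := by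
        apply up_ext
        · rfl
        · change 0 + G (γ' s) * cl ((0 + bb (γ' s)) / bb (γ' s)) = s / (1 - s)
          by_cases hz : bb (γ' s) = 0
          · have h3 := hbbz _ hz
            have h4 : G (γ' s) = 0 := by rw [h3]; exact hG00
            rw [h4, ← hGγ s hs, h4]; ring
          · rw [zero_add, zero_add, div_self hz, cl_one, mul_one, hGγ s hs]
      rw [hv]
      have hτ : 0 ≤ s / (1 - s) := div_nonneg hs.1 (by linarith [hs.2])
      have hs1 : 1 - s ≠ 0 := by linarith [hs.2]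
      apply up_ext
      · change γ' s - A (s / (1 - s)) = 0
        rw [hA]; dsimp only
        rw [max_eq_left hτ]
        have : s / (1 - s) / (1 + s / (1 - s)) = s := by
          have h5 : 1 + s / (1 - s) = 1 / (1 - s) := by field_simp; ring
          rw [h5]
          field_simp
        rw [this, sub_self]
      · rfl
    apply Set.Subset.antisymm
    · rintro _ ⟨_, ⟨s, hs, rfl⟩, rfl⟩
      rcases eq_or_lt_of_le hs.2 with h | h
      · subst h
        rw [hγ1, hf0]
        refine ⟨-1, ⟨le_rfl, by norm_num⟩, ?_⟩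
        rw [loH_zero]
        apply up_ext
        · apply up_ext
          · rfl
          · change 1 - |(-1:ℝ)| = 0
            norm_num
        · rfl
      · rw [hfγ s ⟨hs.1, h⟩]
        exact ist_axis (div_nonneg hs.1 (by linarith))
    · rintro _ ⟨z, hz, rfl⟩
      dsimp only
      set p : Up (Up F) := WithLp.toLp 1 ((WithLp.toLp 1 ((0:F), 1 - |z|) : Up F), z) with hp
      have hz1 : |z| ≤ 1 := abs_le.2 hz
      have hps : p ∈ sphere (0 : Up (Up F)) 1 := by
        rw [mem_sphere_zero_iff_norm, norm_up]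
        change ‖(WithLp.toLp 1 ((0:F), 1 - |z|) : Up F)‖ + |z| = 1
        rw [norm_up]
        change ‖(0:F)‖ + |(1 - |z|)| + |z| = 1
        rw [norm_zero, abs_of_nonneg (by linarith)]; ring
      by_cases h0 : p = loH 0
      · rw [h0]
        exact ⟨γ 1, ⟨1, ⟨zero_le_one, le_rfl⟩, rfl⟩, by rw [hγ1, hf0]⟩
      · have h1 := ist_st hps h0
        have h2 := snd_gt hps h0
        have h2 : -1 < z := h2
        -- the height
        set c : ℝ := (1 + min z 0)⁻¹ * (1 + min z 0)⁻¹ with hc
        have hcpos : 0 < c := by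
          have : 0 < 1 + min z 0 := by
            have : -1 < min z 0 := lt_min h2 (by norm_num)
            linarith
          rw [hc]; positivity
        set τ : ℝ := c * (1 - |z|) with hτ
        have hτ0 : 0 ≤ τ := mul_nonneg hcpos.le (by linarith)
        have hstp : st p = WithLp.toLp 1 ((0:F), τ) := by
          apply up_ext
          · change c • (0:F) = 0
            rw [smul_zero]
          · rfl
        rw [hstp] at h1
        have hsI : τ / (1 + τ) ∈ Ico (0:ℝ) 1 := by
          refine ⟨div_nonneg hτ0 (by linarith), ?_⟩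
          rw [div_lt_one (by linarith)]; linarith
        refine ⟨γ (τ / (1 + τ)), ⟨_, ⟨hsI.1, hsI.2.le⟩, rfl⟩, ?_⟩
        rw [hfγ _ hsI, ← h1]
        congr 3
        have h6 : 1 + τ ≠ 0 := by linarith
        have h7 : 1 - τ / (1 + τ) = 1 / (1 + τ) := by field_simp; ring
        rw [h7]
        field_simp

end NE3
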