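import Pool.Agent.Hhelper58.MA
import Pool.Agent.Hhelper58.Push

/-! The spanning edge closed up by an arc in the boundary sphere. -/

set_option linter.unusedSectionVars false
set_option linter.deprecated false
set_option linter.unusedSimpArgs false

namespace NE3

open Set Topology Metric

variable {V : Type*} [DecidableEq V] [Fintype V]
variable {K S : PreAbstractSimplicialComplex V}

/-- rotation -/
noncomputable def rot (p : Up (Up ℂ)) : Up (Up ℂ) := mk3 p.fst.fst (-p.snd) p.fst.snd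
/-- inverse rotation -/
noncomputable def rot' (p : Up (Up ℂ)) : Up (Up ℂ) := mk3 p.fst.fst p.snd (-p.fst.snd)

lemma rot_mk3 (ζ : ℂ) (t z : ℝ) : rot (mk3 ζ t z) = mk3 ζ (-z) t := rfl
lemma rot'_mk3 (ζ : ℂ) (t z : ℝ) : rot' (mk3 ζ t z) = mk3 ζ z (-t) := rfl

lemma rot'_rot (p : Up (Up ℂ)) : rot' (rot p) = p := by
  conv_rhs => rw [← mk3_eta p]
  conv_lhs => rw [← mk3_eta p]
  rw [rot_mk3, rot'_mk3, neg_neg]

lemma rot_rot' (p : Up (Up ℂ)) : rot (rot' p) = p := by
  conv_rhs => rw [← mk3_eta p]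
  conv_lhs => rw [← mk3_eta p]
  rw [rot'_mk3, rot_mk3, neg_neg]

lemma continuous_rot : Continuous rot :=
  continuous_mk3.comp (continuous_p1.prodMk (continuous_p3.neg.prodMk continuous_p2))

lemma continuous_rot' : Continuous rot' :=
  continuous_mk3.comp (continuous_p1.prodMk (continuous_p3.prodMk continuous_p2.neg))

lemma norm_rot (p : Up (Up ℂ)) : ‖rot p‖ = ‖p‖ := by
  rw [norm3, norm3]
  change ‖p.fst.fst‖ + |-p.snd| + |p.fst.snd| = _
  rw [abs_neg]; ring

lemma norm_rot' (p : Up (Up ℂ)) : ‖rot' p‖ = ‖p‖ := by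
  rw [norm3, norm3]
  change ‖p.fst.fst‖ + |p.snd| + |-p.fst.snd| = _
  rw [abs_neg]; ring

lemma homeoOn_rot : HomeoOn rot (sphere 0 1) (sphere 0 1) :=
  HomeoOn.of_inv continuous_rot.continuousOn
    (fun p hp => by rw [mem_sphere_zero_iff_norm] at hp ⊢; rw [norm_rot, hp])
    (g := rot') (fun p hp => by rw [mem_sphere_zero_iff_norm] at hp ⊢; rw [norm_rot', hp])
    (fun p _ => rot'_rot p) (fun p _ => rot_rot' p)

lemma homeoOn_rot' : HomeoOn rot' (sphere 0 1) (sphere 0 1) :=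
  HomeoOn.of_inv continuous_rot'.continuousOn
    (fun p hp => by rw [mem_sphere_zero_iff_norm] at hp ⊢; rw [norm_rot', hp])
    (g := rot) (fun p hp => by rw [mem_sphere_zero_iff_norm] at hp ⊢; rw [norm_rot, hp])
    (fun p _ => rot_rot' p) (fun p _ => rot'_rot p)

/-- the two lower radii -/
def lowR : Set (Up (Up ℂ)) :=
  (fun s : ℝ => loH (s • nN)) '' Icc 0 1 ∪ (fun s : ℝ => loH (s • (-nN))) '' Icc 0 1

lemma halfC_eq : halfC ℂ = (fun z : ℝ => mk3 0 (1 - |z|) z) '' Icc (-1) 1 := rfl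

lemma rot'_halfC : rot' '' halfC ℂ = lowR := by
  rw [halfC_eq, image_image]
  unfold lowR
  apply Set.Subset.antisymm
  · rintro _ ⟨z, hz, rfl⟩
    dsimp only
    rw [rot'_mk3]
    rcases le_total 0 z with h | h
    · left
      refine ⟨z, ⟨h, hz.2⟩, ?_⟩
      dsimp only
      rw [smul_nN, loH_mk, norm_zero, abs_of_nonneg h]
      congr 1; ring
    · right
      refine ⟨-z, ⟨by linarith, by linarith [hz.1]⟩, ?_⟩
      dsimp only
      rw [smul_neg_nN, loH_mk, norm_zero, neg_neg, abs_of_nonpos h]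
      congr 1; ring
  · rintro _ (⟨s, hs, rfl⟩ | ⟨s, hs, rfl⟩)
    · refine ⟨s, ⟨by linarith [hs.1], hs.2⟩, ?_⟩
      dsimp only
      rw [rot'_mk3, smul_nN, loH_mk, norm_zero, abs_of_nonneg hs.1]
      congr 1; ring
    · refine ⟨-s, ⟨by linarith [hs.2], by linarith [hs.1]⟩, ?_⟩
      dsimp only
      rw [rot'_mk3, smul_neg_nN, loH_mk, norm_zero, abs_neg, abs_of_nonneg hs.1]
      congr 1; ring

lemma cmap_of_link {N : Type*} [NormedAddCommGroup N] [NormedSpace ℝ N] {v : V}
    {Ψ : (V → ℝ) → N} {x : V → ℝ} (hx : x ∈ geo (link S v)) : cmap v Ψ x = Ψ x := by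
  have hx0 := link_apply_self hx
  have e : x = jn v 1 x := by
    ext c
    unfold jn
    split_ifs with h
    · rw [h, hx0]; ring
    · ring
  conv_lhs => rw [e]
  rw [cmap_jn hx ⟨zero_le_one, le_rfl⟩]
  have : (1:ℝ) * mx {v}ᶜ x / (1 - 1 + 1 * mx {v}ᶜ x) = 1 := by
    have := (mx_link_pos hx).ne'
    rw [sub_self, zero_add, one_mul, div_self this]
  rw [this, one_smul]

lemma mem_geo_del {v : V} {x : V → ℝ} : x ∈ geo (del S v) ↔ x ∈ geo S ∧ x v = 0 := by
  constructor
  · rintro ⟨h0, h1, h2⟩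
    refine ⟨⟨h0, h1, h2.1⟩, ?_⟩
    by_contra h
    exact h2.2 (mem_supp.2 h)
  · rintro ⟨⟨h0, h1, h2⟩, h3⟩
    exact ⟨h0, h1, h2, fun h => mem_supp.1 h h3⟩

theorem MB {u w o : V} (huw : u ≠ w) (huo : u ≠ o) (hwo : w ≠ o)
    (h1 : ({u, w} : Finset V) ∈ S) (h2 : ({u, o} : Finset V) ∈ S) (h3 : ({w, o} : Finset V) ∈ S)
    (h4 : ({u, w} : Finset V) ∉ link S o)
    (hlk : ∀ v, v ≠ o → {v} ∈ S → PS 2 (link S v)) (hK : NonEvasive (del S o))
    {h : (V → ℝ) → Up ℂ} (hh : HomeoOn h (geo (del S o)) (closedBall 0 1))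
    (hb : ∀ x ∈ geo (del S o), (‖h x‖ = 1 ↔ x ∈ geo (link S o)))
    {γ : ℝ → Up ℂ} (hγ : ContinuousOn γ (Icc 0 1)) (hγi : InjOn γ (Icc 0 1))
    (hγs : ∀ s ∈ Icc (0:ℝ) 1, ‖γ s‖ = 1) (hγ0 : γ 0 = h (Pi.single u 1))
    (hγ1 : γ 1 = h (Pi.single w 1)) :
    ∃ Θ : Up (Up ℂ) → Up (Up ℂ), HomeoOn Θ (sphere 0 1) (sphere 0 1) ∧
      Θ '' (upH '' (h '' simp' {u, w} ∪ γ '' Icc 0 1)) = C0 := by
  have h2' : ({o, u} : Finset V) ∈ S := by rw [Finset.pair_comm]; exact h2
  have h3' : ({o, w} : Finset V) ∈ S := by rw [Finset.pair_comm]; exact h3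
  have hoS : ({o} : Finset V) ∈ S := singleton_mem h3 (by simp)
  have hCsub : Ctri u w o ⊆ geo S := Ctri_subset h1 h3 h2
  have hou : (Pi.single u 1 : V → ℝ) ∈ geo (link S o) :=
    single_mem_geo (singleton_mem_link huo.symm h2')
  have how : (Pi.single w 1 : V → ℝ) ∈ geo (link S o) :=
    single_mem_geo (singleton_mem_link hwo.symm h3')
  have hlinkdel : ∀ x, x ∈ geo (link S o) → x ∈ geo (del S o) := by
    intro x hx
    rw [mem_geo_del]
    exact ⟨star'_subset (mem_link_geo.1 hx).1, (mem_link_geo.1 hx).2⟩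
  have hsphere : HomeoOn h (geo (link S o)) (sphere 0 1) := by
    have := hh.restr (p := geo (link S o)) (q := sphere (0 : Up ℂ) 1) (fun x hx => by
      rw [mem_sphere_zero_iff_norm]; exact (hb x hx).symm)
    rw [inter_eq_right.2 sphere_subset_closedBall] at this
    rwa [inter_eq_right.2 (fun x hx => hlinkdel x hx)] at this
  have hpu : h (Pi.single u 1) ∈ sphere (0 : Up ℂ) 1 := hsphere.mapsTo hou
  have hpw : h (Pi.single w 1) ∈ sphere (0 : Up ℂ) 1 := hsphere.mapsTo how
  have hpuw : h (Pi.single u 1) ≠ h (Pi.single w 1) := by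
    intro e
    have e1 := hsphere.injOn hou how e
    have e2 := congrFun e1 u
    rw [Pi.single_eq_same, Pi.single_eq_of_ne huw] at e2
    norm_num at e2
  obtain ⟨Θ1, hΘ1, hΘu, hΘw⟩ := two_points hpu hpw hpuw
  rw [← nN_eq] at hΘu
  rw [loH_zero_eq] at hΘw
  set h' : (V → ℝ) → Up ℂ := fun x => ext Θ1 (h x) with hh'
  have hh'h : HomeoOn h' (geo (del S o)) (closedBall 0 1) := hΘ1.ext_ball.comp hh
  have hh'n : ∀ x, ‖h' x‖ = ‖h x‖ := fun x => norm_ext hΘ1.mapsTo _
  have hh's : HomeoOn h' (geo (link S o)) (sphere 0 1) := by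
    have := hh'h.restr (p := geo (link S o)) (q := sphere (0 : Up ℂ) 1) (fun x hx => by
      rw [mem_sphere_zero_iff_norm, hh'n]; exact (hb x hx).symm)
    rw [inter_eq_right.2 sphere_subset_closedBall] at this
    rwa [inter_eq_right.2 (fun x hx => hlinkdel x hx)] at this
  have hh'u : h' (Pi.single u 1) = nN := by
    rw [hh']; dsimp only
    rw [ext_of_norm_one (mem_sphere_zero_iff_norm.1 hpu), hΘu]
  have hh'w : h' (Pi.single w 1) = -nN := by
    rw [hh']; dsimp only
    rw [ext_of_norm_one (mem_sphere_zero_iff_norm.1 hpw), hΘw]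
  have hq := homeoOn_cmap hoS hh's
  obtain ⟨G, θ, hG, hθ, hGP, hGQ⟩ := glue_two_balls' (isCompact_geo (K := del S o))
    (isCompact_star' (K := S) (v := o)) hh'h hq
    (by
      intro x hx
      rw [hh'n, hb x hx, mem_link_geo]
      constructor
      · intro hx2; exact ⟨hx2, (mem_geo_del.1 hx).2⟩
      · intro hx2; exact hx2.1)
    (by
      intro x hx
      rw [norm_cmap_eq_one hh's hx, mem_geo_del]
      constructor
      · intro hx2; exact hx2.2
      · intro hx2; exact ⟨star'_subset hx, hx2⟩)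
  have hun : geo (del S o) ∪ star' S o = geo S := by
    apply Set.Subset.antisymm
    · apply union_subset
      · intro x hx; exact (mem_geo_del.1 hx).1
      · exact star'_subset
    · intro x hx
      by_cases h0 : x o = 0
      · exact Or.inl (mem_geo_del.2 ⟨hx, h0⟩)
      · exact Or.inr (mem_star'_of_pos hx h0)
  rw [hun] at hG
  have hθid : ∀ b ∈ sphere (0 : Up ℂ) 1, θ b = b := by
    intro b hb'
    obtain ⟨x, hx, rfl⟩ := hh's.surjOn hb'
    have e1 := hGP x (hlinkdel x hx)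
    have e2 := hGQ x (mem_link_geo.1 hx).1
    rw [e1, cmap_of_link hx] at e2
    have e3 : h' x = ext θ (h' x) := congrArg (fun p : Up (Up ℂ) => p.fst) e2
    rw [ext_of_norm_one (mem_sphere_zero_iff_norm.1 hb')] at e3
    exact e3.symm
  have hnNs : nN ∈ sphere (0 : Up ℂ) 1 := mem_sphere_zero_iff_norm.2 norm_nN
  have hnNs' : -nN ∈ sphere (0 : Up ℂ) 1 := by
    rw [mem_sphere_zero_iff_norm, norm_neg, norm_nN]
  have hGu : ∀ s ∈ Icc (0:ℝ) 1, G (jn o s (Pi.single u 1)) = loH (s • nN) := by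
    intro s hs
    rw [hGQ _ (simp'_pair_subset_star h2' (jn_mem_simp' huo.symm hs)),
      cmap_jn_single huo.symm h2' hs, hh'u, ext_smul norm_nN hs.1, hθid _ hnNs]
  have hGw : ∀ s ∈ Icc (0:ℝ) 1, G (jn o s (Pi.single w 1)) = loH (s • (-nN)) := by
    intro s hs
    rw [hGQ _ (simp'_pair_subset_star h3' (jn_mem_simp' hwo.symm hs)),
      cmap_jn_single hwo.symm h3' hs, hh'w,
      ext_smul (mem_sphere_zero_iff_norm.1 hnNs') hs.1, hθid _ hnNs']
  have hedge : simp' {u, w} ⊆ geo (del S o) := by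
    intro x hx
    rw [mem_geo_del]
    exact ⟨simp'_subset_geo h1 hx, hx.2.2 o (by simp [huo.symm, hwo.symm])⟩
  have hGC : G '' Ctri u w o = upH '' (h' '' simp' {u, w}) ∪ lowR := by
    have hC : Ctri u w o = simp' {u, w} ∪ (simp' {o, u} ∪ simp' {o, w}) := by
      unfold Ctri
      rw [Finset.pair_comm w o, Finset.pair_comm u o]
      ext x
      simp only [mem_union]
      tauto
    rw [hC, image_union, image_union]
    congr 1
    · rw [image_image]
      apply image_congr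
      intro x hx
      exact hGP x (hedge hx)
    · unfold lowR
      congr 1
      · apply Set.Subset.antisymm
        · rintro _ ⟨x, hx, rfl⟩
          obtain ⟨s, hs, rfl⟩ := (mem_simp'_pair huo.symm).1 hx
          exact ⟨s, hs, (hGu s hs).symm⟩
        · rintro _ ⟨s, hs, rfl⟩
          exact ⟨_, jn_mem_simp' huo.symm hs, hGu s hs⟩
      · apply Set.Subset.antisymm
        · rintro _ ⟨x, hx, rfl⟩
          obtain ⟨s, hs, rfl⟩ := (mem_simp'_pair hwo.symm).1 hx
          exact ⟨s, hs, (hGw s hs).symm⟩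
        · rintro _ ⟨s, hs, rfl⟩
          exact ⟨_, jn_mem_simp' hwo.symm hs, hGw s hs⟩
  obtain ⟨fM, hfM, hfMC⟩ := MA huw huo hwo h1 h2 h3 hlk hsphere hK
  obtain ⟨Gi, hGi, hGl, hGr⟩ := hG.exists_inv isCompact_geo
  have hGiC : Gi '' (G '' Ctri u w o) = Ctri u w o := by
    rw [image_image]
    conv_rhs => rw [← image_id (Ctri u w o)]
    apply image_congr
    intro x hx
    exact hGl x (hCsub hx)
  -- the push
  set X : Set (Up (Up ℂ)) := rot '' (upH '' (h' '' simp' {u, w})) with hX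
  have hXc : IsClosed X := by
    apply IsCompact.isClosed
    apply IsCompact.image _ continuous_rot
    apply IsCompact.image _ continuous_upH
    exact (isCompact_simp' _).image_of_continuousOn (hh'h.cont.mono hedge)
  have hle : ∀ x ∈ simp' {u, w}, ‖h' x‖ ≤ 1 := fun x hx =>
    mem_closedBall_zero_iff.1 (hh'h.mapsTo (hedge hx))
  have hend : ∀ x ∈ simp' {u, w}, ‖h' x‖ = 1 → x = Pi.single u 1 ∨ x = Pi.single w 1 := by
    intro x hx hn
    rw [hh'n, hb x (hedge hx)] at hn
    by_contra hc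
    rw [not_or] at hc
    apply h4
    have hsupp : supp x = {u, w} := by
      ext v
      rw [mem_supp, Finset.mem_insert, Finset.mem_singleton]
      constructor
      · intro hv
        by_contra hcv
        rw [not_or] at hcv
        exact hv (hx.2.2 v (by simp [hcv.1, hcv.2]))
      · obtain ⟨s, hs, rfl⟩ := (mem_simp'_pair huw).1 hx
        rintro (rfl | rfl)
        · rw [jn_left]
          intro h0
          apply hc.2
          have : s = 1 := by linarith
          rw [this]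
          ext c
          unfold jn
          split_ifs with hcv
          · rw [hcv, Pi.single_eq_of_ne huw]; ring
          · ring
        · rw [jn_right huw]
          intro h0
          apply hc.1
          rw [h0]
          ext c
          unfold jn
          split_ifs with hcv
          · rw [hcv]; simp
          · rw [Pi.single_eq_of_ne hcv]; ring
    rw [← hsupp]
    exact hn.2.2
  have hrotN : rot (upH nN) = upH 0 := by
    have : (nN : Up ℂ) = WithLp.toLp 1 (0, 1) := rfl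
    rw [this, upH_mk, rot_mk3, upH_zero]
    apply up_ext
    · apply up_ext
      · rfl
      · change -(1 - ‖(0:ℂ)‖ - |(1:ℝ)|) = 0
        norm_num
    · rfl
  have hrotN' : rot (upH (-nN)) = loH 0 := by
    have : (-nN : Up ℂ) = WithLp.toLp 1 (0, -1) := by
      apply up_ext
      · change -(0:ℂ) = 0; simp
      · rfl
    rw [this, upH_mk, rot_mk3, loH_zero]
    apply up_ext
    · apply up_ext
      · rfl
      · change -(1 - ‖(0:ℂ)‖ - |(-1:ℝ)|) = 0
        norm_num
    · rfl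
  set γ' : ℝ → Up (Up ℂ) := fun s => rot (upH (Θ1 (γ s))) with hγ'
  have hγm : ∀ s ∈ Icc (0:ℝ) 1, γ s ∈ sphere (0 : Up ℂ) 1 := fun s hs =>
    mem_sphere_zero_iff_norm.2 (hγs s hs)
  have hΘγ : ∀ s ∈ Icc (0:ℝ) 1, ‖Θ1 (γ s)‖ = 1 := fun s hs =>
    mem_sphere_zero_iff_norm.1 (hΘ1.mapsTo (hγm s hs))
  obtain ⟨f, hf, hfX, hfγ⟩ := push (F := ℂ) (X := X) hXc
    (by
      rintro _ ⟨_, ⟨_, ⟨x, hx, rfl⟩, rfl⟩, rfl⟩
      change -(1 - ‖h' x‖) ≤ 0
      linarith [hle x hx])
    (by
      rintro _ ⟨_, ⟨_, ⟨x, hx, rfl⟩, rfl⟩, rfl⟩ h0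
      have h0 : -(1 - ‖h' x‖) = 0 := h0
      rcases hend x hx (by linarith) with e | e
      · left; rw [e, hh'u, hrotN]
      · right; rw [e, hh'w, hrotN'])
    (by
      refine ⟨upH nN, ⟨nN, ⟨Pi.single u 1, ?_, hh'u⟩, rfl⟩, hrotN⟩
      refine (mem_simp'_pair huw).2 ⟨0, ⟨le_rfl, zero_le_one⟩, ?_⟩
      ext c
      unfold jn
      split_ifs with hcv
      · rw [hcv]; simp
      · rw [Pi.single_eq_of_ne hcv]; ring)
    (by
      rintro _ ⟨_, ⟨_, ⟨x, hx, rfl⟩, rfl⟩, rfl⟩
      exact homeoOn_rot.mapsTo (upH_mem (hle x hx)))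
    (γ := γ')
    (by
      apply (continuous_rot.comp continuous_upH).comp_continuousOn
      exact hΘ1.cont.comp hγ hγm)
    (by
      intro s hs t ht e
      have e1 : rot (upH (Θ1 (γ s))) = rot (upH (Θ1 (γ t))) := e
      have e2 : upH (Θ1 (γ s)) = upH (Θ1 (γ t)) := by
        rw [← rot'_rot (upH (Θ1 (γ s))), e1, rot'_rot]
      have e3 : Θ1 (γ s) = Θ1 (γ t) := congrArg (fun p : Up (Up ℂ) => p.fst) e2
      exact hγi hs ht (hΘ1.injOn (hγm s hs) (hγm t ht) e3))
    (by
      intro s hs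
      refine ⟨homeoOn_rot.mapsTo (upH_mem (hΘγ s hs).le), ?_⟩
      change -(1 - ‖Θ1 (γ s)‖) = 0
      rw [hΘγ s hs]; norm_num)
    (by rw [hγ']; dsimp only; rw [hγ0, hΘu, hrotN])
    (by rw [hγ']; dsimp only; rw [hγ1, hΘw, hrotN'])
  -- assembly
  refine ⟨fM ∘ (Gi ∘ (rot' ∘ (f ∘ (rot ∘ susp Θ1)))),
    hfM.comp (hGi.comp (homeoOn_rot'.comp (hf.comp (homeoOn_rot.comp (homeoOn_susp hΘ1))))), ?_⟩
  have step1 : (rot ∘ susp Θ1) '' (upH '' (h '' simp' {u, w} ∪ γ '' Icc 0 1)) =
      X ∪ γ' '' Icc 0 1 := by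
    rw [image_union, image_union]
    congr 1
    · rw [hX]
      simp only [image_image, Function.comp]
      apply image_congr
      intro x _
      rw [susp_upH hΘ1]
    · simp only [image_image, Function.comp]
      apply image_congr
      intro s hs
      rw [susp_upH hΘ1, ext_of_norm_one (hγs s hs)]
  have step2 : f '' (X ∪ γ' '' Icc 0 1) = X ∪ halfC ℂ := by
    rw [image_union, hfγ]
    congr 1
    conv_rhs => rw [← image_id X]
    apply image_congr
    intro p hp
    exact hfX p hp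
  have step3 : rot' '' (X ∪ halfC ℂ) = G '' Ctri u w o := by
    rw [image_union, rot'_halfC, hGC]
    congr 1
    rw [hX, image_image]
    conv_rhs => rw [← image_id (upH '' (h' '' simp' {u, w}))]
    apply image_congr
    intro p _
    exact rot'_rot p
  rw [image_comp, image_comp, image_comp, image_comp, step1, step2, step3, hGiC, hfMC]

end NE3
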