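import Pool.Agent.Hhelper58.MB

/-! From the sphere back to Euclidean space. -/

set_option linter.unusedSectionVars false
set_option linter.deprecated false
set_option linter.unusedSimpArgs false

namespace NE3

open Set Topology Metric

/-- exchange of the two planes -/
noncomputable def swL : Up (Up ℂ) ≃ₗ[ℝ] Up (Up ℂ) where
  toFun p := mk3 ⟨p.fst.snd, p.snd⟩ p.fst.fst.re p.fst.fst.im
  invFun p := mk3 ⟨p.fst.snd, p.snd⟩ p.fst.fst.re p.fst.fst.im
  map_add' p q := rfl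
  map_smul' r p := by
    apply up_ext
    · apply up_ext
      · change (⟨r * p.fst.snd, r * p.snd⟩ : ℂ) = r • (⟨p.fst.snd, p.snd⟩ : ℂ)
        apply Complex.ext
        · simp
        · simp
      · change (r • p.fst.fst).re = r * p.fst.fst.re
        simp
    · change (r • p.fst.fst).im = r * p.fst.fst.im
      simp
  left_inv p := by
    conv_rhs => rw [← mk3_eta p]
    rfl
  right_inv p := by
    conv_rhs => rw [← mk3_eta p]
    rfl

noncomputable def sw : Up (Up ℂ) ≃L[ℝ] Up (Up ℂ) := swL.toContinuousLinearEquiv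

lemma sw_apply (p : Up (Up ℂ)) : sw p = mk3 ⟨p.fst.snd, p.snd⟩ p.fst.fst.re p.fst.fst.im := rfl

lemma sw_symm (p : Up (Up ℂ)) : sw.symm p = sw p := rfl

/-- the equatorial circle -/
def C1 : Set (Up (Up ℂ)) := sphere 0 1 ∩ {p | p.fst.snd = 0 ∧ p.snd = 0}

lemma nlin_sw_C0 : nlin sw '' C0 = C1 := by
  apply (homeoOn_nlin sw).image_of_iff inter_subset_left inter_subset_left
  intro p hp
  have hq := (homeoOn_nlin sw).mapsTo hp
  have hpos : 0 < ‖sw p‖⁻¹ := by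
    rw [inv_pos, norm_pos_iff]
    simpa using ne_zero_of_mem_sphere hp
  constructor
  · rintro ⟨_, h0⟩
    have h0 : p.fst.fst = 0 := h0
    refine ⟨hq, ?_, ?_⟩
    · change ‖sw p‖⁻¹ * (sw p).fst.snd = 0
      rw [sw_apply]
      change ‖_‖⁻¹ * p.fst.fst.re = 0
      rw [h0]; simp
    · change ‖sw p‖⁻¹ * (sw p).snd = 0
      rw [sw_apply]
      change ‖_‖⁻¹ * p.fst.fst.im = 0
      rw [h0]; simp
  · rintro ⟨_, h1, h2⟩
    have h1 : ‖sw p‖⁻¹ * p.fst.fst.re = 0 := h1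
    have h2 : ‖sw p‖⁻¹ * p.fst.fst.im = 0 := h2
    refine ⟨hp, ?_⟩
    apply Complex.ext
    · exact (mul_eq_zero.1 h1).resolve_left hpos.ne'
    · exact (mul_eq_zero.1 h2).resolve_left hpos.ne'

lemma fix_neg {v : Up (Up ℂ)} (hv : v ∈ sphere (0 : Up (Up ℂ)) 1) (h : v.snd < 0) :
    ∃ f : Up (Up ℂ) → Up (Up ℂ), HomeoOn f (sphere 0 1) (sphere 0 1) ∧ f v = loH 0 ∧
      f '' C1 = C1 := by
  have e := eq_loH hv h.le
  have hn : ‖v.fst‖ < 1 := by
    have : v.snd = ‖v.fst‖ - 1 := congrArg (fun p : Up (Up ℂ) => p.snd) e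
    linarith
  obtain ⟨b, hb, hb1, hb2⟩ := (homeoOn_tmap hn).exists_inv (isCompact_closedBall 0 1)
  have hbb : ∀ x, ‖x‖ = 1 → b x = x := fun x hx => by
    have := hb1 x (mem_closedBall_zero_iff.2 hx.le)
    rwa [tmap_of_norm_one hx] at this
  obtain ⟨f, hf, hu, hl, _⟩ := hemi_homeo (HomeoOn.id _) hb (fun x _ => Iff.rfl)
    (fun x hx => by
      have h5 := hb2 x (mem_closedBall_zero_iff.2 hx)
      have h6 := mem_closedBall_zero_iff.1 (hb.mapsTo (mem_closedBall_zero_iff.2 hx))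
      rw [← norm_tmap_eq_one_iff hn h6, h5]) (fun x hx => (hbb x hx).symm)
  refine ⟨f, hf, ?_, ?_⟩
  · rw [e, hl _ hn.le]
    congr 1
    have := hb1 0 (by simp)
    rwa [tmap_zero] at this
  · conv_rhs => rw [← image_id C1]
    apply image_congr
    rintro p ⟨hp, _, hp2⟩
    have hp2 : p.snd = 0 := hp2
    rw [eq_upH hp hp2.ge, hu _ (norm_fst_le hp)]
    rfl

/-- reflection -/
noncomputable def rfl3 (p : Up (Up ℂ)) : Up (Up ℂ) := mk3 p.fst.fst p.fst.snd (-p.snd)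
/-- exchange of the last coordinates -/
noncomputable def exch (p : Up (Up ℂ)) : Up (Up ℂ) := mk3 p.fst.fst p.snd p.fst.snd

lemma homeoOn_rfl3 : HomeoOn rfl3 (sphere 0 1) (sphere 0 1) := by
  have hn : ∀ p, ‖rfl3 p‖ = ‖p‖ := by
    intro p
    rw [norm3, norm3]
    change ‖p.fst.fst‖ + |p.fst.snd| + |-p.snd| = _
    rw [abs_neg]
  have hi : ∀ p, rfl3 (rfl3 p) = p := by
    intro p
    conv_rhs => rw [← mk3_eta p]
    change mk3 p.fst.fst p.fst.snd (- -p.snd) = _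
    rw [neg_neg]
  apply HomeoOn.of_inv (g := rfl3)
  · exact (continuous_mk3.comp
      (continuous_p1.prodMk (continuous_p2.prodMk continuous_p3.neg))).continuousOn
  · intro p hp; rw [mem_sphere_zero_iff_norm] at hp ⊢; rw [hn, hp]
  · intro p hp; rw [mem_sphere_zero_iff_norm] at hp ⊢; rw [hn, hp]
  · intro p _; exact hi p
  · intro p _; exact hi p

lemma homeoOn_exch : HomeoOn exch (sphere 0 1) (sphere 0 1) := by
  have hn : ∀ p, ‖exch p‖ = ‖p‖ := by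
    intro p
    rw [norm3, norm3]
    change ‖p.fst.fst‖ + |p.snd| + |p.fst.snd| = _
    ring
  have hi : ∀ p, exch (exch p) = p := by
    intro p
    conv_rhs => rw [← mk3_eta p]
    rfl
  apply HomeoOn.of_inv (g := exch)
  · exact (continuous_mk3.comp
      (continuous_p1.prodMk (continuous_p3.prodMk continuous_p2))).continuousOn
  · intro p hp; rw [mem_sphere_zero_iff_norm] at hp ⊢; rw [hn, hp]
  · intro p hp; rw [mem_sphere_zero_iff_norm] at hp ⊢; rw [hn, hp]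
  · intro p _; exact hi p
  · intro p _; exact hi p

lemma fix_ne {v : Up (Up ℂ)} (hv : v ∈ sphere (0 : Up (Up ℂ)) 1) (h : v.snd ≠ 0) :
    ∃ f : Up (Up ℂ) → Up (Up ℂ), HomeoOn f (sphere 0 1) (sphere 0 1) ∧ f v = loH 0 ∧
      f '' C1 = C1 := by
  rcases lt_or_gt_of_ne h with h | h
  · exact fix_neg hv h
  · obtain ⟨f, hf, hfv, hfC⟩ := fix_neg (v := rfl3 v) (homeoOn_rfl3.mapsTo hv) (by
      change -v.snd < 0
      linarith)
    refine ⟨f ∘ rfl3, hf.comp homeoOn_rfl3, hfv, ?_⟩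
    rw [image_comp]
    have : rfl3 '' C1 = C1 := by
      apply homeoOn_rfl3.image_of_iff inter_subset_left inter_subset_left
      intro p hp
      constructor
      · rintro ⟨_, h1, h2⟩
        refine ⟨homeoOn_rfl3.mapsTo hp, h1, ?_⟩
        have h2 : p.snd = 0 := h2
        change -p.snd = 0
        rw [h2, neg_zero]
      · rintro ⟨_, h1, h2⟩
        have h2 : -p.snd = 0 := h2
        exact ⟨hp, h1, neg_eq_zero.1 h2⟩
    rw [this, hfC]

lemma fix_out {v : Up (Up ℂ)} (hv : v ∈ sphere (0 : Up (Up ℂ)) 1) (h : v ∉ C1) :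
    ∃ f : Up (Up ℂ) → Up (Up ℂ), HomeoOn f (sphere 0 1) (sphere 0 1) ∧ f v = loH 0 ∧
      f '' C1 = C1 := by
  by_cases h1 : v.snd = 0
  · have h2 : v.fst.snd ≠ 0 := fun h2 => h ⟨hv, h2, h1⟩
    obtain ⟨f, hf, hfv, hfC⟩ := fix_ne (v := exch v) (homeoOn_exch.mapsTo hv) h2
    refine ⟨f ∘ exch, hf.comp homeoOn_exch, hfv, ?_⟩
    rw [image_comp]
    have : exch '' C1 = C1 := by
      apply homeoOn_exch.image_of_iff inter_subset_left inter_subset_left
      intro p hp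
      constructor
      · rintro ⟨_, h1, h2⟩
        exact ⟨homeoOn_exch.mapsTo hp, h2, h1⟩
      · rintro ⟨_, h1, h2⟩
        exact ⟨hp, h2, h1⟩
    rw [this, hfC]
  · exact fix_ne hv h1

theorem MC {T : Set (Up ℂ)} (hT : T ⊆ closedBall 0 1) {Θ : Up (Up ℂ) → Up (Up ℂ)}
    (hΘ : HomeoOn Θ (sphere 0 1) (sphere 0 1)) (hΘT : Θ '' (upH '' T) = C0) :
    ∃ Ξ : Up ℂ ≃ₜ Up ℂ, Ξ '' T = {b | ‖b.fst‖ = 1 ∧ b.snd = 0} := by
  have hlo : (loH (0 : Up ℂ)) ∈ sphere (0 : Up (Up ℂ)) 1 := loH_mem (by simp)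
  have hTu : upH '' T ⊆ sphere (0 : Up (Up ℂ)) 1 := by
    rintro _ ⟨b, hb, rfl⟩
    exact upH_mem (mem_closedBall_zero_iff.1 (hT hb))
  have h1 := (homeoOn_nlin sw).comp hΘ
  have h1T : (nlin sw ∘ Θ) '' (upH '' T) = C1 := by
    rw [image_comp, hΘT, nlin_sw_C0]
  have hv : (nlin sw ∘ Θ) (loH 0) ∉ C1 := by
    intro h
    rw [← h1T] at h
    obtain ⟨p, hp, hpe⟩ := h
    have h2 := h1.injOn (hTu hp) hlo hpe
    obtain ⟨b, hb, rfl⟩ := hp
    rw [← ist_of_le (mem_closedBall_zero_iff.1 (hT hb))] at h2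
    exact ist_ne b h2
  obtain ⟨f3, hf3, hf3v, hf3C⟩ := fix_out (h1.mapsTo hlo) hv
  have h4 := hf3.comp h1
  have h4T : (f3 ∘ (nlin sw ∘ Θ)) '' (upH '' T) = C1 := by
    rw [image_comp, h1T, hf3C]
  obtain ⟨Ξ, hΞ⟩ := exists_homeo_of_fix h4 hf3v (isCompact_sphere 0 1)
  refine ⟨Ξ, ?_⟩
  apply Set.Subset.antisymm
  · rintro _ ⟨b, hb, rfl⟩
    have h5 := hΞ b
    rw [ist_of_le (mem_closedBall_zero_iff.1 (hT hb))] at h5
    have h6 : ist (Ξ b) ∈ C1 := by
      rw [h5, ← h4T]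
      exact ⟨_, ⟨b, hb, rfl⟩, rfl⟩
    obtain ⟨h7, h8, h9⟩ := h6
    have h9 : (ist (Ξ b)).snd = 0 := h9
    have h8 : (ist (Ξ b)).fst.snd = 0 := h8
    have h10 : Ξ b = (ist (Ξ b)).fst := by
      conv_lhs => rw [← st_ist (Ξ b)]
      unfold st
      rw [h9]
      norm_num
    rw [mem_sphere_zero_iff_norm, norm3, h8, h9, abs_zero, add_zero, add_zero] at h7
    refine ⟨?_, ?_⟩
    · rw [h10]; exact h7
    · rw [h10]; exact h8
  · intro c hc
    obtain ⟨hc1, hc2⟩ := hc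
    have hcn : ‖c‖ = 1 := by
      rw [norm_up, hc1, hc2]; simp
    have h5 : ist c ∈ C1 := by
      rw [ist_of_le hcn.le]
      refine ⟨upH_mem hcn.le, hc2, ?_⟩
      change 1 - ‖c‖ = 0
      rw [hcn]; ring
    rw [← h4T] at h5
    obtain ⟨_, ⟨b, hb, rfl⟩, hbe⟩ := h5
    refine ⟨b, hb, ?_⟩
    have h6 := hΞ b
    rw [ist_of_le (mem_closedBall_zero_iff.1 (hT hb)), hbe] at h6
    rw [← st_ist (Ξ b), h6, st_ist]

end NE3
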