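import Pool.Agent.Hhelper58.Base0

/-! Moving marked points to the poles. -/

set_option linter.unusedSectionVars false
set_option linter.deprecated false
set_option linter.unusedSimpArgs false

namespace NE3

open Set Topology Metric

variable {F : Type*} [NormedAddCommGroup F] [NormedSpace ℝ F]

/-- homeomorphism of the ball fixing the boundary and moving `0` to `p` -/
noncomputable def tmap (p : F) (x : F) : F := x + (1 - ‖x‖) • p

lemma tmap_zero (p : F) : tmap p 0 = p := by simp [tmap]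

lemma tmap_of_norm_one {p x : F} (hx : ‖x‖ = 1) : tmap p x = x := by simp [tmap, hx]

lemma continuous_tmap (p : F) : Continuous (tmap p) := by
  unfold tmap
  exact continuous_id.add ((continuous_const.sub continuous_norm).smul continuous_const)

lemma norm_tmap_le {p x : F} (hp : ‖p‖ < 1) (hx : ‖x‖ ≤ 1) : ‖tmap p x‖ ≤ 1 := by
  have h1 : ‖tmap p x‖ ≤ ‖x‖ + (1 - ‖x‖) * ‖p‖ := by
    refine (norm_add_le _ _).trans ?_
    rw [norm_smul, Real.norm_of_nonneg (by linarith)]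
  nlinarith [norm_nonneg x, norm_nonneg p]

lemma norm_tmap_lt {p x : F} (hp : ‖p‖ < 1) (hx : ‖x‖ < 1) : ‖tmap p x‖ < 1 := by
  have h1 : ‖tmap p x‖ ≤ ‖x‖ + (1 - ‖x‖) * ‖p‖ := by
    refine (norm_add_le _ _).trans ?_
    rw [norm_smul, Real.norm_of_nonneg (by linarith)]
  nlinarith [norm_nonneg x, norm_nonneg p]

lemma norm_tmap_eq_one_iff {p x : F} (hp : ‖p‖ < 1) (hx : ‖x‖ ≤ 1) : ‖tmap p x‖ = 1 ↔ ‖x‖ = 1 := by
  constructor
  · intro h
    by_contra hne
    have := norm_tmap_lt hp (lt_of_le_of_ne hx hne)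
    linarith
  · intro h; rw [tmap_of_norm_one h]; exact h

lemma homeoOn_tmap {p : F} (hp : ‖p‖ < 1) : HomeoOn (tmap p) (closedBall 0 1) (closedBall 0 1) := by
  refine ⟨(continuous_tmap p).continuousOn, ?_, ?_, ?_⟩
  · intro x hx
    rw [mem_closedBall_zero_iff] at hx ⊢
    exact norm_tmap_le hp hx
  · intro x _ y _ hxy
    have h1 : x - y = (‖x‖ - ‖y‖) • p := by
      have h2 : x + (1 - ‖x‖) • p = y + (1 - ‖y‖) • p := hxy
      have h3 : x - y = (1 - ‖y‖) • p - (1 - ‖x‖) • p := by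
        rw [sub_eq_sub_iff_add_eq_add, h2, add_comm]
      rw [h3, ← sub_smul]; congr 1; ring
    have h2 : ‖x - y‖ ≤ ‖x - y‖ * ‖p‖ := by
      calc ‖x - y‖ = |‖x‖ - ‖y‖| * ‖p‖ := by
            conv_lhs => rw [h1]
            rw [norm_smul, Real.norm_eq_abs]
        _ ≤ ‖x - y‖ * ‖p‖ := mul_le_mul_of_nonneg_right (abs_norm_sub_norm_le x y) (norm_nonneg p)
    have h3 : ‖x - y‖ = 0 := by nlinarith [norm_nonneg (x - y)]
    exact sub_eq_zero.1 (norm_eq_zero.1 h3)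
  · intro y hy
    rw [mem_closedBall_zero_iff] at hy
    have hcont : ContinuousOn (fun s : ℝ => ‖y - (1 - s) • p‖ - s) (Set.Icc 0 1) := by
      apply Continuous.continuousOn
      fun_prop
    have hivt := intermediate_value_Icc' (zero_le_one' ℝ) hcont
    have h0 : (0:ℝ) ∈ Set.Icc ((fun s : ℝ => ‖y - (1 - s) • p‖ - s) 1)
        ((fun s : ℝ => ‖y - (1 - s) • p‖ - s) 0) := by
      constructor
      · simp; exact hy
      · simp
    obtain ⟨s, hs, hs0⟩ := hivt h0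
    have hs0 : ‖y - (1 - s) • p‖ - s = 0 := hs0
    have hs1 : ‖y - (1 - s) • p‖ = s := by linarith
    refine ⟨y - (1 - s) • p, ?_, ?_⟩
    · rw [mem_closedBall_zero_iff, hs1]; exact hs.2
    · unfold tmap; rw [hs1]; abel

lemma upH_mem {b : F} (hb : ‖b‖ ≤ 1) : upH b ∈ sphere (0 : Up F) 1 :=
  (homeoOn_upH.mapsTo (by rwa [mem_closedBall_zero_iff])).1

lemma loH_mem {b : F} (hb : ‖b‖ ≤ 1) : loH b ∈ sphere (0 : Up F) 1 :=
  (homeoOn_loH.mapsTo (by rwa [mem_closedBall_zero_iff])).1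

lemma norm_fst_le {x : Up F} (hx : x ∈ sphere (0 : Up F) 1) : ‖x.fst‖ ≤ 1 := by
  rw [mem_sphere_zero_iff_norm, norm_up] at hx
  have := abs_nonneg x.snd
  linarith

lemma eq_upH {x : Up F} (hx : x ∈ sphere (0 : Up F) 1) (h : 0 ≤ x.snd) : x = upH x.fst := by
  rw [mem_sphere_zero_iff_norm, norm_up, abs_of_nonneg h] at hx
  apply up_ext
  · rfl
  · change x.snd = 1 - ‖x.fst‖; linarith

lemma eq_loH {x : Up F} (hx : x ∈ sphere (0 : Up F) 1) (h : x.snd ≤ 0) : x = loH x.fst := by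
  rw [mem_sphere_zero_iff_norm, norm_up, abs_of_nonpos h] at hx
  apply up_ext
  · rfl
  · change x.snd = ‖x.fst‖ - 1; linarith

lemma isClosed_snd_nonneg : IsClosed {p : Up F | 0 ≤ p.snd} :=
  isClosed_le continuous_const continuous_snd'

lemma isClosed_snd_nonpos : IsClosed {p : Up F | p.snd ≤ 0} :=
  isClosed_le continuous_snd' continuous_const

lemma sphere_eq_union : sphere (0 : Up F) 1 =
    (sphere 0 1 ∩ {p | 0 ≤ p.snd}) ∪ (sphere 0 1 ∩ {p | p.snd ≤ 0}) := by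
  rw [← Set.inter_union_distrib_left]
  symm
  apply Set.inter_eq_left.2
  intro x _
  rcases le_total (0:ℝ) x.snd with h | h
  · exact Or.inl h
  · exact Or.inr h

/-- Act on the two hemispheres of the sphere by homeomorphisms of the ball fixing the boundary. -/
theorem hemi_homeo {a b : F → F} (ha : HomeoOn a (closedBall 0 1) (closedBall 0 1))
    (hb : HomeoOn b (closedBall 0 1) (closedBall 0 1))
    (ha1 : ∀ x, ‖x‖ ≤ 1 → (‖a x‖ = 1 ↔ ‖x‖ = 1)) (hb1 : ∀ x, ‖x‖ ≤ 1 → (‖b x‖ = 1 ↔ ‖x‖ = 1))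
    (hab : ∀ x, ‖x‖ = 1 → a x = b x) :
    ∃ Ξ : Up F → Up F, HomeoOn Ξ (sphere 0 1) (sphere 0 1) ∧
      (∀ x, ‖x‖ ≤ 1 → Ξ (upH x) = upH (a x)) ∧ (∀ x, ‖x‖ ≤ 1 → Ξ (loH x) = loH (b x)) ∧
      (∀ x ∈ sphere (0 : Up F) 1, (0 < (Ξ x).snd ↔ 0 < x.snd) ∧ ((Ξ x).snd < 0 ↔ x.snd < 0)) := by
  classical
  set Ξ : Up F → Up F := fun x => if 0 ≤ x.snd then upH (a x.fst) else loH (b x.fst) with hΞ
  have hup : ∀ x, ‖x‖ ≤ 1 → Ξ (upH x) = upH (a x) := by
    intro x hx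
    simp only [hΞ]
    rw [if_pos]
    · rfl
    · change 0 ≤ 1 - ‖x‖; linarith
  have hbnd : ∀ x, ‖x‖ = 1 → upH (a x) = loH (b x) := by
    intro x hx
    apply up_ext
    · exact hab x hx
    · change 1 - ‖a x‖ = ‖b x‖ - 1
      rw [(ha1 x hx.le).2 hx, (hb1 x hx.le).2 hx]
  have hlo : ∀ x, ‖x‖ ≤ 1 → Ξ (loH x) = loH (b x) := by
    intro x hx
    simp only [hΞ]
    split_ifs with h
    · have h1 : 0 ≤ ‖x‖ - 1 := h
      exact hbnd x (le_antisymm hx (by linarith))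
    · rfl
  have hA : HomeoOn Ξ (sphere 0 1 ∩ {p | 0 ≤ p.snd}) (sphere 0 1 ∩ {p | 0 ≤ p.snd}) := by
    have h1 : HomeoOn (fun x : Up F => x.fst) (sphere 0 1 ∩ {p | 0 ≤ p.snd}) (closedBall 0 1) := by
      refine ⟨continuous_fst'.continuousOn, ?_, ?_, ?_⟩
      · intro x hx; rw [mem_closedBall_zero_iff]; exact norm_fst_le hx.1
      · intro x hx y hy hxy
        have hxy : x.fst = y.fst := hxy
        rw [eq_upH hx.1 hx.2, eq_upH hy.1 hy.2, hxy]
      · intro b hb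
        exact ⟨upH b, homeoOn_upH.mapsTo hb, rfl⟩
    apply (homeoOn_upH.comp (ha.comp h1)).congr
    intro x hx
    have h2 : 0 ≤ x.snd := hx.2
    simp only [hΞ, Function.comp]
    rw [if_pos h2]
  have hB : HomeoOn Ξ (sphere 0 1 ∩ {p | p.snd ≤ 0}) (sphere 0 1 ∩ {p | p.snd ≤ 0}) := by
    have h1 : HomeoOn (fun x : Up F => x.fst) (sphere 0 1 ∩ {p | p.snd ≤ 0}) (closedBall 0 1) := by
      refine ⟨continuous_fst'.continuousOn, ?_, ?_, ?_⟩
      · intro x hx; rw [mem_closedBall_zero_iff]; exact norm_fst_le hx.1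
      · intro x hx y hy hxy
        have hxy : x.fst = y.fst := hxy
        rw [eq_loH hx.1 hx.2, eq_loH hy.1 hy.2, hxy]
      · intro b hb
        exact ⟨loH b, homeoOn_loH.mapsTo hb, rfl⟩
    apply (homeoOn_loH.comp (hb.comp h1)).congr
    intro x hx
    have h3 := hlo x.fst (norm_fst_le hx.1)
    rw [← eq_loH hx.1 hx.2] at h3
    exact h3.symm
  have hsA : ∀ x ∈ sphere (0 : Up F) 1, 0 ≤ x.snd → (0 < (Ξ x).snd ↔ 0 < x.snd) := by
    intro x hx h
    have e1 : Ξ x = upH (a x.fst) := by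
      have := hup x.fst (norm_fst_le hx)
      rwa [← eq_upH hx h] at this
    have e2 : x.snd = 1 - ‖x.fst‖ := congrArg (fun p : Up F => p.snd) (eq_upH hx h)
    have h4 : ‖a x.fst‖ ≤ 1 := mem_closedBall_zero_iff.1
      (ha.mapsTo (mem_closedBall_zero_iff.2 (norm_fst_le hx)))
    rw [e1, e2]
    change 0 < 1 - ‖a x.fst‖ ↔ _
    constructor
    · intro h5
      have h6 : ‖x.fst‖ ≠ 1 := fun h7 => by
        have := (ha1 _ (norm_fst_le hx)).2 h7; linarith
      have := lt_of_le_of_ne (norm_fst_le hx) h6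
      linarith
    · intro h5
      have h6 : ‖a x.fst‖ ≠ 1 := fun h7 => by
        have := (ha1 _ (norm_fst_le hx)).1 h7; linarith
      have := lt_of_le_of_ne h4 h6
      linarith
  have hsB : ∀ x ∈ sphere (0 : Up F) 1, x.snd ≤ 0 → ((Ξ x).snd < 0 ↔ x.snd < 0) := by
    intro x hx h
    have e1 : Ξ x = loH (b x.fst) := by
      have := hlo x.fst (norm_fst_le hx)
      rwa [← eq_loH hx h] at this
    have e2 : x.snd = ‖x.fst‖ - 1 := congrArg (fun p : Up F => p.snd) (eq_loH hx h)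
    have h4 : ‖b x.fst‖ ≤ 1 := mem_closedBall_zero_iff.1
      (hb.mapsTo (mem_closedBall_zero_iff.2 (norm_fst_le hx)))
    rw [e1, e2]
    change ‖b x.fst‖ - 1 < 0 ↔ _
    constructor
    · intro h5
      have h6 : ‖x.fst‖ ≠ 1 := fun h7 => by
        have := (hb1 _ (norm_fst_le hx)).2 h7; linarith
      have := lt_of_le_of_ne (norm_fst_le hx) h6
      linarith
    · intro h5
      have h6 : ‖b x.fst‖ ≠ 1 := fun h7 => by
        have := (hb1 _ (norm_fst_le hx)).1 h7; linarith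
      have := lt_of_le_of_ne h4 h6
      linarith
  refine ⟨Ξ, ?_, hup, hlo, ?_⟩
  · have h3 := hA.union hB (isClosed_sphere.inter isClosed_snd_nonneg)
      (isClosed_sphere.inter isClosed_snd_nonpos) (by
        intro x hx y hy hxy
        left
        refine ⟨hx.1, ?_⟩
        change x.snd ≤ 0
        by_contra hc
        have h4 := (hsA x hx.1 hx.2).2 (not_le.1 hc)
        have h5 : (Ξ y).snd ≤ 0 := (hB.mapsTo hy).2
        rw [hxy] at h4; linarith)
    rwa [← sphere_eq_union] at h3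
  · intro x hx
    rcases le_total 0 x.snd with h | h
    · refine ⟨hsA x hx h, ?_⟩
      have h1 : 0 ≤ (Ξ x).snd := (hA.mapsTo ⟨hx, h⟩).2
      constructor <;> intro h2 <;> linarith
    · refine ⟨?_, hsB x hx h⟩
      have h1 : (Ξ x).snd ≤ 0 := (hB.mapsTo ⟨hx, h⟩).2
      constructor <;> intro h2 <;> linarith

theorem exists_mark [ProperSpace F] {p q : F} (hp : ‖p‖ < 1) (hq : ‖q‖ < 1) :
    ∃ Ξ : Up F → Up F, HomeoOn Ξ (sphere 0 1) (sphere 0 1) ∧
      (∀ x ∈ sphere (0 : Up F) 1, (0 < (Ξ x).snd ↔ 0 < x.snd) ∧ ((Ξ x).snd < 0 ↔ x.snd < 0)) ∧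
      Ξ (upH p) = upH 0 ∧ Ξ (loH q) = loH 0 := by
  obtain ⟨a, ha, ha2, ha3⟩ := (homeoOn_tmap hp).exists_inv (isCompact_closedBall 0 1)
  obtain ⟨b, hb, hb2, hb3⟩ := (homeoOn_tmap hq).exists_inv (isCompact_closedBall 0 1)
  have ha1 : ∀ x, ‖x‖ = 1 → a x = x := fun x hx => by
    have := ha2 x (mem_closedBall_zero_iff.2 hx.le)
    rwa [tmap_of_norm_one hx] at this
  have hb1 : ∀ x, ‖x‖ = 1 → b x = x := fun x hx => by
    have := hb2 x (mem_closedBall_zero_iff.2 hx.le)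
    rwa [tmap_of_norm_one hx] at this
  obtain ⟨Ξ, h1, h2, h3, h4⟩ := hemi_homeo ha hb
    (fun x hx => by
      have h5 := ha3 x (mem_closedBall_zero_iff.2 hx)
      have h6 := mem_closedBall_zero_iff.1 (ha.mapsTo (mem_closedBall_zero_iff.2 hx))
      rw [← norm_tmap_eq_one_iff hp h6, h5])
    (fun x hx => by
      have h5 := hb3 x (mem_closedBall_zero_iff.2 hx)
      have h6 := mem_closedBall_zero_iff.1 (hb.mapsTo (mem_closedBall_zero_iff.2 hx))
      rw [← norm_tmap_eq_one_iff hq h6, h5])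
    (fun x hx => by rw [ha1 x hx, hb1 x hx])
  refine ⟨Ξ, h1, h4, ?_, ?_⟩
  · rw [h2 p hp.le]
    congr 1
    have := ha2 0 (by simp)
    rwa [tmap_zero] at this
  · rw [h3 q hq.le]
    congr 1
    have := hb2 0 (by simp)
    rwa [tmap_zero] at this

variable {V : Type*} [DecidableEq V] [Fintype V]
variable {K S : PreAbstractSimplicialComplex V}

/-- marked version of the standard structure -/
theorem StdMap.mark [ProperSpace F] {Ψ : (V → ℝ) → Up F} {W : Set V} (h : StdMap Ψ S W)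
    {y₁ y₂ : V → ℝ} (hy₁ : y₁ ∈ geo S) (hy₂ : y₂ ∈ geo S) (h₁ : mx Wᶜ y₁ < mx W y₁)
    (h₂ : mx W y₂ < mx Wᶜ y₂) :
    ∃ Ψ' : (V → ℝ) → Up F, StdMap Ψ' S W ∧ (Ψ' y₁).fst = 0 ∧ (Ψ' y₂).fst = 0 := by
  have hs₁ : 0 < (Ψ y₁).snd := (h.pos _ hy₁).2 h₁
  have hs₂ : (Ψ y₂).snd < 0 := (h.neg _ hy₂).2 h₂
  have e₁ := eq_upH (h.homeo.mapsTo hy₁) hs₁.le
  have e₂ := eq_loH (h.homeo.mapsTo hy₂) hs₂.le
  have n₁ : ‖(Ψ y₁).fst‖ < 1 := by
    have : (Ψ y₁).snd = 1 - ‖(Ψ y₁).fst‖ := congrArg (fun p : Up F => p.snd) e₁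
    linarith
  have n₂ : ‖(Ψ y₂).fst‖ < 1 := by
    have : (Ψ y₂).snd = ‖(Ψ y₂).fst‖ - 1 := congrArg (fun p : Up F => p.snd) e₂
    linarith
  obtain ⟨Ξ, hΞ, hs, m₁, m₂⟩ := exists_mark n₁ n₂
  refine ⟨Ξ ∘ Ψ, ⟨hΞ.comp h.homeo, ?_, ?_⟩, ?_, ?_⟩
  · intro x hx
    rw [← h.pos x hx]; exact (hs _ (h.homeo.mapsTo hx)).1
  · intro x hx
    rw [← h.neg x hx]; exact (hs _ (h.homeo.mapsTo hx)).2
  · change (Ξ (Ψ y₁)).fst = 0
    rw [e₁, m₁]; rfl
  · change (Ξ (Ψ y₂)).fst = 0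
    rw [e₂, m₂]; rfl

instance : FiniteDimensional ℝ E1 := by unfold E1 Up; infer_instance
instance : FiniteDimensional ℝ E2 := by unfold E2 Up; infer_instance
instance : FiniteDimensional ℝ E3 := by unfold E3 Up; infer_instance
instance : ProperSpace E1 := FiniteDimensional.proper_real E1
instance : ProperSpace E2 := FiniteDimensional.proper_real E2
instance : ProperSpace E3 := FiniteDimensional.proper_real E3

end NE3
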