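import Pool.Agent.Hhelper58.Marks

/-! Normalised linear maps, suspension, two point homogeneity. -/

set_option linter.unusedSectionVars false
set_option linter.deprecated false
set_option linter.unusedSimpArgs false

namespace NE3

open Set Topology Metric

section
variable {X Y : Type*} [TopologicalSpace X] [TopologicalSpace Y]

lemma HomeoOn.of_inv {f : X → Y} {g : Y → X} {A : Set X} {B : Set Y} (hf : ContinuousOn f A)
    (h1 : MapsTo f A B) (h2 : MapsTo g B A) (h3 : ∀ x ∈ A, g (f x) = x)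
    (h4 : ∀ y ∈ B, f (g y) = y) : HomeoOn f A B := by
  refine ⟨hf, h1, ?_, ?_⟩
  · intro x hx y hy hxy
    rw [← h3 x hx, ← h3 y hy, hxy]
  · intro y hy
    exact ⟨g y, h2 hy, h4 y hy⟩

lemma HomeoOn.image_of_iff {f : X → Y} {A : Set X} {B : Set Y} (hf : HomeoOn f A B)
    {C : Set X} {D : Set Y} (hC : C ⊆ A) (hD : D ⊆ B) (h : ∀ x ∈ A, (x ∈ C ↔ f x ∈ D)) :
    f '' C = D := by
  apply Set.Subset.antisymm
  · rintro _ ⟨x, hx, rfl⟩
    exact (h x (hC hx)).1 hx
  · intro y hy
    obtain ⟨x, hx, rfl⟩ := hf.surjOn (hD hy)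
    exact ⟨x, (h x hx).2 hy, rfl⟩
end

variable {N M : Type*} [NormedAddCommGroup N] [NormedSpace ℝ N]
  [NormedAddCommGroup M] [NormedSpace ℝ M]

/-- normalised linear map -/
noncomputable def nlin (L : N ≃L[ℝ] M) (x : N) : M := ‖L x‖⁻¹ • L x

lemma nlin_mem (L : N ≃L[ℝ] M) {x : N} (hx : x ≠ 0) : nlin L x ∈ sphere (0:M) 1 :=
  unit_mem (by simpa using hx)

lemma ne_zero_of_mem_sphere {x : N} (hx : x ∈ sphere (0:N) 1) : x ≠ 0 := by
  rintro rfl
  rw [mem_sphere_zero_iff_norm, norm_zero] at hx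
  norm_num at hx

lemma nlin_nlin (L : N ≃L[ℝ] M) {x : N} (hx : x ∈ sphere (0:N) 1) :
    nlin L.symm (nlin L x) = x := by
  have h0 : 0 < ‖L x‖ := by
    rw [norm_pos_iff]; simpa using ne_zero_of_mem_sphere hx
  unfold nlin
  rw [map_smul, L.symm_apply_apply, norm_smul, mem_sphere_zero_iff_norm.1 hx, mul_one,
    norm_inv, norm_norm, inv_inv, smul_smul, mul_inv_cancel₀ h0.ne', one_smul]

lemma homeoOn_nlin (L : N ≃L[ℝ] M) : HomeoOn (nlin L) (sphere 0 1) (sphere 0 1) := by
  apply HomeoOn.of_inv (g := nlin L.symm)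
  · unfold nlin
    apply ContinuousOn.smul
    · apply ContinuousOn.inv₀
      · exact (L.continuous.norm).continuousOn
      · intro x hx
        rw [norm_ne_zero_iff]; simpa using ne_zero_of_mem_sphere hx
    · exact L.continuous.continuousOn
  · intro x hx; exact nlin_mem L (ne_zero_of_mem_sphere hx)
  · intro x hx; exact nlin_mem L.symm (ne_zero_of_mem_sphere hx)
  · intro x hx; exact nlin_nlin L hx
  · intro x hx; exact nlin_nlin L.symm hx

/-- suspension of a map of spheres -/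
noncomputable def susp (θ : N → M) (p : Up N) : Up M := WithLp.toLp 1 (ext θ p.fst, p.snd)

lemma susp_fst (θ : N → M) (p : Up N) : (susp θ p).fst = ext θ p.fst := rfl
lemma susp_snd (θ : N → M) (p : Up N) : (susp θ p).snd = p.snd := rfl

lemma norm_susp {θ : N → M} (hθ : HomeoOn θ (sphere 0 1) (sphere 0 1)) (p : Up N) :
    ‖susp θ p‖ = ‖p‖ := by
  rw [norm_up, norm_up, susp_fst, susp_snd, norm_ext hθ.mapsTo]

lemma homeoOn_susp {θ : N → M} (hθ : HomeoOn θ (sphere 0 1) (sphere 0 1)) :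
    HomeoOn (susp θ) (sphere 0 1) (sphere 0 1) := by
  obtain ⟨h1, h2, h3⟩ := homeoOn_ext hθ
  refine ⟨?_, ?_, ?_, ?_⟩
  · apply Continuous.continuousOn
    exact (WithLp.prod_continuous_toLp 1 M ℝ).comp
      ((h1.comp continuous_fst').prodMk continuous_snd')
  · intro p hp
    rw [mem_sphere_zero_iff_norm] at hp ⊢
    rw [norm_susp hθ, hp]
  · intro p _ q _ hpq
    apply up_ext
    · exact h2 (congrArg (fun p : Up M => p.fst) hpq)
    · exact congrArg (fun p : Up M => p.snd) hpq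
  · intro q hq
    obtain ⟨b, hb, hbn⟩ := h3 q.fst
    refine ⟨WithLp.toLp 1 (b, q.snd), ?_, ?_⟩
    · rw [mem_sphere_zero_iff_norm, norm_up] at hq ⊢
      change ‖b‖ + |q.snd| = 1
      rw [hbn, hq]
    · apply up_ext
      · exact hb
      · rfl

lemma susp_upH {θ : N → M} (hθ : HomeoOn θ (sphere 0 1) (sphere 0 1)) (b : N) :
    susp θ (upH b) = upH (ext θ b) := by
  apply up_ext
  · rfl
  · change 1 - ‖b‖ = 1 - ‖ext θ b‖
    rw [norm_ext hθ.mapsTo]

lemma susp_loH {θ : N → M} (hθ : HomeoOn θ (sphere 0 1) (sphere 0 1)) (b : N) :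
    susp θ (loH b) = loH (ext θ b) := by
  apply up_ext
  · rfl
  · change ‖b‖ - 1 = ‖ext θ b‖ - 1
    rw [norm_ext hθ.mapsTo]

variable {F : Type*} [NormedAddCommGroup F] [NormedSpace ℝ F]

lemma upH_zero : (upH (0:F)) = WithLp.toLp 1 ((0:F), (1:ℝ)) := by
  apply up_ext
  · rfl
  · change 1 - ‖(0:F)‖ = 1; simp

lemma loH_zero : (loH (0:F)) = WithLp.toLp 1 ((0:F), (-1:ℝ)) := by
  apply up_ext
  · rfl
  · change ‖(0:F)‖ - 1 = -1; simp

/-- a shear fixing the last axis -/
noncomputable def shear (φ : F →L[ℝ] ℝ) : Up F ≃ₗ[ℝ] Up F where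
  toFun p := WithLp.toLp 1 (p.fst, p.snd - φ p.fst)
  invFun p := WithLp.toLp 1 (p.fst, p.snd + φ p.fst)
  map_add' p q := by
    apply up_ext
    · rfl
    · change (p.snd + q.snd) - φ (p.fst + q.fst) = (p.snd - φ p.fst) + (q.snd - φ q.fst)
      rw [map_add]; ring
  map_smul' r p := by
    apply up_ext
    · rfl
    · change r * p.snd - φ (r • p.fst) = r * (p.snd - φ p.fst)
      rw [map_smul, smul_eq_mul]; ring
  left_inv p := by
    apply up_ext
    · rfl
    · change p.snd - φ p.fst + φ p.fst = p.snd; ring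
  right_inv p := by
    apply up_ext
    · rfl
    · change p.snd + φ p.fst - φ p.fst = p.snd; ring

theorem two_points [FiniteDimensional ℝ F] {p q : Up F} (hp : p ∈ sphere (0 : Up F) 1)
    (hq : q ∈ sphere (0 : Up F) 1) (hpq : p ≠ q) :
    ∃ Θ : Up F → Up F, HomeoOn Θ (sphere 0 1) (sphere 0 1) ∧ Θ p = upH 0 ∧ Θ q = loH 0 := by
  haveI : ProperSpace F := FiniteDimensional.proper_real F
  have hN : (upH (0:F)) ∈ sphere (0 : Up F) 1 := upH_mem (by simp)
  obtain ⟨L, hL⟩ := SeparatingDual.exists_continuousLinearEquiv_apply_eq (R := ℝ)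
    (ne_zero_of_mem_sphere hp) (ne_zero_of_mem_sphere hN)
  have hLp : nlin L p = upH 0 := by
    unfold nlin
    rw [hL, mem_sphere_zero_iff_norm.1 hN]; simp
  have h1 := homeoOn_nlin L
  set q1 := nlin L q with hq1
  have hq1m : q1 ∈ sphere (0 : Up F) 1 := h1.mapsTo hq
  have hq1N : q1 ≠ upH 0 := by
    intro h
    rw [← hLp] at h
    exact hpq (h1.injOn hp hq h.symm)
  -- second step: move `q1` below
  have h2 : ∃ Θ : Up F → Up F, HomeoOn Θ (sphere 0 1) (sphere 0 1) ∧ Θ (upH 0) = upH 0 ∧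
      (Θ q1).snd < 0 := by
    by_cases hs : q1.snd < 0
    · exact ⟨fun x => x, HomeoOn.id _, rfl, hs⟩
    · have hf : q1.fst ≠ 0 := by
        intro h
        apply hq1N
        rw [eq_upH hq1m (not_lt.1 hs), h]
      have hfn := norm_pos_iff.2 hf
      obtain ⟨φ, _, hφ⟩ := exists_dual_vector ℝ q1.fst hfn.ne'
      set s : ℝ := (q1.snd + 1) / ‖q1.fst‖ with hs'
      let L2 := (shear (s • φ)).toContinuousLinearEquiv
      have e1 : L2 (upH 0) = upH 0 := by
        change WithLp.toLp 1 ((upH (0:F)).fst, (upH (0:F)).snd - (s • φ) (upH (0:F)).fst) = _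
        apply up_ext
        · rfl
        · change (upH (0:F)).snd - (s • φ) (0:F) = (upH (0:F)).snd
          rw [map_zero]; ring
      have e2 : (L2 q1).snd = -1 := by
        change q1.snd - (s • φ) q1.fst = -1
        have : (s • φ) q1.fst = s * ‖q1.fst‖ := by
          simp [hφ]
        rw [this, hs']
        field_simp
        ring
      refine ⟨nlin L2, homeoOn_nlin L2, ?_, ?_⟩
      · unfold nlin
        rw [e1, mem_sphere_zero_iff_norm.1 hN]; simp
      · unfold nlin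
        change ‖L2 q1‖⁻¹ * (L2 q1).snd < 0
        rw [e2]
        have h0 : 0 < ‖L2 q1‖ := by
          rw [norm_pos_iff]
          intro h
          rw [h] at e2
          have : (0 : Up F).snd = 0 := rfl
          rw [this] at e2
          norm_num at e2
        have := inv_pos.2 h0
        linarith
  obtain ⟨Θ, hΘ, hΘN, hΘq⟩ := h2
  set q2 := Θ q1 with hq2
  have hq2m : q2 ∈ sphere (0 : Up F) 1 := hΘ.mapsTo hq1m
  have e := eq_loH hq2m hΘq.le
  have n : ‖q2.fst‖ < 1 := by
    have : q2.snd = ‖q2.fst‖ - 1 := congrArg (fun p : Up F => p.snd) e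
    linarith
  obtain ⟨Ξ, hΞ, _, m1, m2⟩ := exists_mark (F := F) (p := 0) (q := q2.fst) (by simp) n
  refine ⟨Ξ ∘ (Θ ∘ nlin L), hΞ.comp (hΘ.comp h1), ?_, ?_⟩
  · simp only [Function.comp]
    rw [hLp, hΘN, m1]
  · simp only [Function.comp]
    rw [← hq1, ← hq2, e, m2]

end NE3
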