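import Pool.Agent.Hhelper58.Collar
import Pool.Agent.Hhelper58.CChain

/-! Refibering the lens at the last vertex. -/

set_option linter.unusedSectionVars false
set_option linter.deprecated false
set_option linter.unusedSimpArgs false

namespace NE3

open Set Topology Metric

variable {V : Type*} [DecidableEq V] [Fintype V]
variable {K S : PreAbstractSimplicialComplex V}
variable {F : Type*} [NormedAddCommGroup F] [NormedSpace ℝ F]
variable {N : Type*} [NormedAddCommGroup N] [NormedSpace ℝ N]

/-- depth below the upper face of the lens -/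
noncomputable def chi (k : ℝ) (p : Up F) : ℝ := (gg p.fst - p.snd) + k * max 0 (-p.snd)

/-- upper face point -/
noncomputable def topf (p : Up F) : Up F := WithLp.toLp 1 (p.fst, gg p.fst)

lemma continuous_topf : Continuous (topf : Up F → Up F) :=
  (WithLp.prod_continuous_toLp 1 F ℝ).comp
    (continuous_fst'.prodMk (continuous_gg.comp continuous_fst'))

lemma continuous_chi (k : ℝ) : Continuous (chi k : Up F → ℝ) := by
  unfold chi
  have h1 : Continuous fun p : Up F => gg p.fst := continuous_gg.comp continuous_fst'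
  have h2 := continuous_snd' (F := F)
  exact (h1.sub h2).add (continuous_const.mul (continuous_const.max h2.neg))

lemma norm_topf {p : Up F} (hp : ‖p‖ ≤ 1) : ‖topf p‖ ≤ 1 := by
  rw [norm_up] at hp ⊢
  change ‖p.fst‖ + |gg p.fst| ≤ 1
  rw [abs_of_nonneg (gg_nonneg _)]
  have := abs_nonneg p.snd
  rcases gg_cases p.fst with h | h
  · rw [h.1]; linarith
  · rw [h.1]; linarith

lemma gg_eq_zero_of_norm {f : F} (h : ‖f‖ + gg f = 1) : gg f = 0 := by
  rcases gg_cases f with h' | h'
  · exact h'.1
  · rw [h'.1] at h; linarith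

section signs
variable {w : V} {W : Set V} {Ψ : (V → ℝ) → Up F}

lemma sign_A (hw : w ∉ W) (h : StdMap Ψ (link S w) W) {x : V → ℝ} (hx : x ∈ star' S w) :
    mx Wᶜ x ≤ mx W x ↔ gg (cmap w Ψ x).fst ≤ (cmap w Ψ x).snd := by
  have := (sign_star hw h hx).2.2.2
  rw [← not_lt, ← this, not_lt, sub_nonneg]

lemma sign_A' (hw : w ∉ W) (h : StdMap Ψ (link S w) W) {x : V → ℝ} (hx : x ∈ star' S w) :
    mx W x ≤ mx Wᶜ x ↔ (cmap w Ψ x).snd ≤ gg (cmap w Ψ x).fst := by
  have := (sign_star hw h hx).2.2.1
  rw [← not_lt, ← this, not_lt, sub_nonpos]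

lemma sign_M (hw : w ∉ W) (h : StdMap Ψ (link S w) W) {x : V → ℝ} (hx : x ∈ star' S w) :
    mx (insert w W)ᶜ x ≤ mx (insert w W) x ↔ -gg (cmap w Ψ x).fst ≤ (cmap w Ψ x).snd := by
  have := (sign_star hw h hx).2.1
  rw [← not_lt, ← this, not_lt, ← neg_le_iff_add_nonneg]

lemma sign_M' (hw : w ∉ W) (h : StdMap Ψ (link S w) W) {x : V → ℝ} (hx : x ∈ star' S w) :
    mx (insert w W) x ≤ mx (insert w W)ᶜ x ↔ (cmap w Ψ x).snd ≤ -gg (cmap w Ψ x).fst := by
  have := (sign_star hw h hx).1
  rw [← not_lt, ← this, not_lt]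
  constructor <;> intro h <;> linarith

lemma sign_eA (hw : w ∉ W) (h : StdMap Ψ (link S w) W) {x : V → ℝ} (hx : x ∈ star' S w) :
    mx W x = mx Wᶜ x ↔ (cmap w Ψ x).snd = gg (cmap w Ψ x).fst := by
  rw [le_antisymm_iff, le_antisymm_iff, sign_A hw h hx, sign_A' hw h hx]

lemma sign_eM (hw : w ∉ W) (h : StdMap Ψ (link S w) W) {x : V → ℝ} (hx : x ∈ star' S w) :
    mx (insert w W) x = mx (insert w W)ᶜ x ↔ (cmap w Ψ x).snd = -gg (cmap w Ψ x).fst := by
  rw [le_antisymm_iff, le_antisymm_iff, sign_M hw h hx, sign_M' hw h hx]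
end signs

theorem refiber {w : V} {W : Set V} {Ψ : (V → ℝ) → Up F} (hwS : {w} ∈ S) (hw : w ∉ W)
    (h : StdMap Ψ (link S w) W) {ci : Up F → (V → ℝ)}
    (hci : HomeoOn ci (closedBall 0 1) (star' S w))
    (hl : ∀ x ∈ star' S w, ci (cmap w Ψ x) = x)
    (hr : ∀ p ∈ closedBall (0 : Up F) 1, cmap w Ψ (ci p) = p)
    {fA : (V → ℝ) → N} (hf : HomeoOn fA (geo S ∩ {x | mx Wᶜ x ≤ mx W x}) (closedBall 0 1))
    (hf1 : ∀ x ∈ geo S ∩ {x | mx Wᶜ x ≤ mx W x}, (‖fA x‖ = 1 ↔ mx W x = mx Wᶜ x))
    {k : ℝ} (hk : 0 ≤ k) :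
    ∃ j : (V → ℝ) → N,
      HomeoOn j (geo S ∩ {x | mx (insert w W)ᶜ x ≤ mx (insert w W) x}) (closedBall 0 1) ∧
      (∀ x ∈ geo S ∩ {x | mx (insert w W)ᶜ x ≤ mx (insert w W) x},
        (‖j x‖ = 1 ↔ mx (insert w W) x = mx (insert w W)ᶜ x)) ∧
      (∀ x ∈ star' S w, |(cmap w Ψ x).snd| ≤ gg (cmap w Ψ x).fst →
        j x = ((1 + chi k (cmap w Ψ x)) / (1 + (2 + k) * gg (cmap w Ψ x).fst)) •
          fA (ci (topf (cmap w Ψ x)))) := by
  classical
  have hc := homeoOn_cmap hwS h.homeo
  set A : Set (V → ℝ) := geo S ∩ {x | mx Wᶜ x ≤ mx W x} with hAdef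
  set B : Set (V → ℝ) := star' S w ∩ {x | |(cmap w Ψ x).snd| ≤ gg (cmap w Ψ x).fst} with hBdef
  have hstarc : IsClosed (star' S w) := isCompact_star'.isClosed
  have hAc : IsCompact A :=
    isCompact_geo.inter_right (isClosed_le (continuous_mx _) (continuous_mx _))
  have hBclosed : IsClosed B := by
    have h1 : IsClosed {p : Up F | |p.snd| ≤ gg p.fst} :=
      isClosed_le continuous_snd'.abs (continuous_gg.comp continuous_fst')
    exact hc.cont.preimage_isClosed_of_isClosed hstarc h1
  have hBc : IsCompact B := isCompact_star'.of_isClosed_subset hBclosed inter_subset_left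
  have hcn : ∀ x ∈ star' S w, ‖cmap w Ψ x‖ ≤ 1 := fun x hx =>
    mem_closedBall_zero_iff.1 (hc.mapsTo hx)
  have htop : ∀ x ∈ star' S w, topf (cmap w Ψ x) ∈ closedBall (0 : Up F) 1 := fun x hx =>
    mem_closedBall_zero_iff.2 (norm_topf (hcn x hx))
  set e : (V → ℝ) → (V → ℝ) := fun x => ci (topf (cmap w Ψ x)) with he
  have hes : ∀ x ∈ star' S w, e x ∈ star' S w := fun x hx => hci.mapsTo (htop x hx)
  have hce : ∀ x ∈ star' S w, cmap w Ψ (e x) = topf (cmap w Ψ x) := fun x hx => hr _ (htop x hx)
  set β : (V → ℝ) → ℝ := fun x => if x ∈ star' S w then (2 + k) * gg (cmap w Ψ x).fst else 0 with hβ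
  have hβs : ∀ x ∈ star' S w, β x = (2 + k) * gg (cmap w Ψ x).fst := fun x hx => if_pos hx
  have hβn : ∀ x, x ∉ star' S w → β x = 0 := fun x hx => if_neg hx
  have hβe : ∀ x ∈ star' S w, β (e x) = (2 + k) * gg (cmap w Ψ x).fst := by
    intro x hx
    rw [hβs _ (hes x hx), hce x hx]
    rfl
  have hβz : ∀ x ∈ A, ‖fA x‖ = 1 → x w = 0 → β x = 0 := by
    intro x hx hx1 hxw
    by_cases hxs : x ∈ star' S w
    · rw [hβs x hxs]
      have h1 := (hf1 x hx).1 hx1
      rw [sign_eA hw h hxs] at h1
      have h2 := (norm_cmap_eq_one h.homeo hxs).2 hxw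
      rw [norm_up, h1, abs_of_nonneg (gg_nonneg _)] at h2
      rw [gg_eq_zero_of_norm h2, mul_zero]
    · exact hβn x hxs
  have heA : ∀ x ∈ star' S w, e x ∈ A ∧ ‖fA (e x)‖ = 1 := by
    intro x hx
    have h1 : e x ∈ A := by
      refine ⟨star'_subset (hes x hx), ?_⟩
      change mx Wᶜ (e x) ≤ mx W (e x)
      rw [sign_A hw h (hes x hx), hce x hx]
      rfl
    refine ⟨h1, ?_⟩
    rw [hf1 _ h1, sign_eA hw h (hes x hx), hce x hx]
    rfl
  have hMeq : geo S ∩ {x | mx (insert w W)ᶜ x ≤ mx (insert w W) x} = A ∪ B := by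
    ext x
    constructor
    · rintro ⟨hxS, hxM⟩
      have hxM : mx (insert w W)ᶜ x ≤ mx (insert w W) x := hxM
      by_cases hxs : x ∈ star' S w
      · rw [sign_M hw h hxs] at hxM
        by_cases h1 : gg (cmap w Ψ x).fst ≤ (cmap w Ψ x).snd
        · left
          exact ⟨hxS, (sign_A hw h hxs).2 h1⟩
        · right
          refine ⟨hxs, ?_⟩
          change |(cmap w Ψ x).snd| ≤ _
          rw [abs_le]
          exact ⟨hxM, (not_le.1 h1).le⟩
      · left
        have hx0 : x w = 0 := by
          by_contra h0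
          exact hxs (mem_star'_of_pos hxS h0)
        refine ⟨hxS, ?_⟩
        change mx Wᶜ x ≤ mx W x
        rw [mx_compl_eq hw hx0, ← mx_insert_of_zero (W := W) hx0]
        exact hxM
    · rintro (⟨hxS, hxA⟩ | ⟨hxs, hxB⟩)
      · have hxA : mx Wᶜ x ≤ mx W x := hxA
        refine ⟨hxS, ?_⟩
        change mx (insert w W)ᶜ x ≤ mx (insert w W) x
        by_cases hxs : x ∈ star' S w
        · rw [sign_A hw h hxs] at hxA
          rw [sign_M hw h hxs]
          linarith [gg_nonneg (cmap w Ψ x).fst]
        · have hx0 : x w = 0 := by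
            by_contra h0
            exact hxs (mem_star'_of_pos hxS h0)
          rw [← mx_compl_eq hw hx0, mx_insert_of_zero (W := W) hx0]
          exact hxA
      · refine ⟨star'_subset hxs, ?_⟩
        change mx (insert w W)ᶜ x ≤ mx (insert w W) x
        rw [sign_M hw h hxs]
        exact (abs_le.1 hxB).1
  obtain ⟨j, hj1, hj2, hj3⟩ := ext_collar (e := e) (χ := fun x => chi k (cmap w Ψ x)) (β := β)
    hAc hBc hf
    (by
      apply hci.cont.comp
      · exact continuous_topf.comp_continuousOn (hc.cont.mono inter_subset_left)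
      · intro x hx; exact htop x hx.1)
    ((continuous_chi k).comp_continuousOn (hc.cont.mono inter_subset_left))
    (by
      have hAcl : IsClosed {x | x ∈ A ∧ ‖fA x‖ = 1} := by
        have : {x | x ∈ A ∧ ‖fA x‖ = 1} = A ∩ {x | mx W x = mx Wᶜ x} := by
          ext x
          constructor
          · rintro ⟨h1, h2⟩; exact ⟨h1, (hf1 x h1).1 h2⟩
          · rintro ⟨h1, h2⟩; exact ⟨h1, (hf1 x h1).2 h2⟩
        rw [this]
        exact hAc.isClosed.inter (isClosed_eq (continuous_mx _) (continuous_mx _))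
      have hun : {x | x ∈ A ∧ ‖fA x‖ = 1} = ({x | x ∈ A ∧ ‖fA x‖ = 1} ∩ star' S w) ∪
          ({x | x ∈ A ∧ ‖fA x‖ = 1} ∩ {x | x w = 0}) := by
        ext x
        constructor
        · intro hx
          by_cases h0 : x w = 0
          · exact Or.inr ⟨hx, h0⟩
          · exact Or.inl ⟨hx, mem_star'_of_pos hx.1.1 h0⟩
        · rintro (hx | hx) <;> exact hx.1
      rw [hun]
      apply ContinuousOn.union_of_isClosed
      · have h1 : ContinuousOn (fun x => (2 + k) * gg (cmap w Ψ x).fst)
            ({x | x ∈ A ∧ ‖fA x‖ = 1} ∩ star' S w) := by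
          apply continuousOn_const.mul
          apply (continuous_gg.comp continuous_fst').comp_continuousOn
          exact hc.cont.mono inter_subset_right
        apply h1.congr
        intro x hx
        exact hβs x hx.2
      · apply (continuousOn_const (c := (0:ℝ))).congr
        intro x hx
        exact hβz x hx.1.1 hx.1.2 hx.2
      · exact hAcl.inter hstarc
      · exact hAcl.inter (isClosed_eq (continuous_apply w) continuous_const))
    (fun x hx => heA x hx.1)
    (by
      intro x hx _
      by_cases hxs : x ∈ star' S w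
      · rw [hβs x hxs]
        exact mul_nonneg (by linarith) (gg_nonneg _)
      · rw [hβn x hxs])
    (by
      rintro x ⟨hxs, hxB⟩
      have hxB : |(cmap w Ψ x).snd| ≤ gg (cmap w Ψ x).fst := hxB
      rw [hβe x hxs]
      unfold chi
      rw [abs_le] at hxB
      have hg := gg_nonneg (cmap w Ψ x).fst
      have h1 : 0 ≤ max 0 (-(cmap w Ψ x).snd) := le_max_left _ _
      have h2 : max 0 (-(cmap w Ψ x).snd) ≤ gg (cmap w Ψ x).fst := max_le hg (by linarith [hxB.1])
      have h3 := mul_nonneg hk h1
      have h4 := mul_le_mul_of_nonneg_left h2 hk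
      exact ⟨by linarith [hxB.2], by linarith [hxB.1]⟩)
    (by
      rintro x ⟨hxs, hxB⟩ y ⟨hys, hyB⟩ hxy hχ
      have e1 : (cmap w Ψ x).fst = (cmap w Ψ y).fst := by
        have : cmap w Ψ (e x) = cmap w Ψ (e y) := by rw [hxy]
        rw [hce x hxs, hce y hys] at this
        have h2 : (topf (cmap w Ψ x)).fst = (topf (cmap w Ψ y)).fst := by rw [this]
        exact h2
      have e2 : (cmap w Ψ x).snd = (cmap w Ψ y).snd := by
        have hχ : chi k (cmap w Ψ x) = chi k (cmap w Ψ y) := hχ
        unfold chi at hχ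
        rw [e1] at hχ
        by_contra hne
        rcases lt_or_gt_of_ne hne with hlt | hlt
        · have h1 : max 0 (-(cmap w Ψ y).snd) ≤ max 0 (-(cmap w Ψ x).snd) :=
            max_le_max le_rfl (by linarith)
          have := mul_le_mul_of_nonneg_left h1 hk
          linarith
        · have h1 : max 0 (-(cmap w Ψ x).snd) ≤ max 0 (-(cmap w Ψ y).snd) :=
            max_le_max le_rfl (by linarith)
          have := mul_le_mul_of_nonneg_left h1 hk
          linarith
      exact hc.injOn hxs hys (up_ext e1 e2))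
    (by
      intro y hy hy1 s hs0 hsβ
      have hys : y ∈ star' S w := by
        by_contra hc'
        rw [hβn y hc'] at hsβ
        linarith
      rw [hβs y hys] at hsβ
      have h1 := (hf1 y hy).1 hy1
      rw [sign_eA hw h hys] at h1
      set f := (cmap w Ψ y).fst with hfdef
      set g := gg f with hgdef
      have hg := gg_nonneg f
      have hyn := hcn y hys
      rw [norm_up, h1, abs_of_nonneg (gg_nonneg _)] at hyn
      set z : ℝ := max (g - s) ((g - s) / (1 + k)) with hz
      have hk1 : 0 < 1 + k := by linarith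
      have hz1 : -g ≤ z := by
        refine le_trans ?_ (le_max_right _ _)
        rw [le_div_iff₀ hk1]; linarith
      have hz2 : z ≤ g := by
        apply max_le
        · linarith
        · rw [div_le_iff₀ hk1]; nlinarith
      have hzabs : |z| ≤ g := abs_le.2 ⟨hz1, hz2⟩
      have hpm : (WithLp.toLp 1 (f, z) : Up F) ∈ closedBall (0 : Up F) 1 := by
        rw [mem_closedBall_zero_iff, norm_up]
        change ‖f‖ + |z| ≤ 1
        linarith
      have hcp := hr _ hpm
      refine ⟨ci (WithLp.toLp 1 (f, z)), ⟨hci.mapsTo hpm, ?_⟩, ?_, ?_⟩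
      · change |(cmap w Ψ (ci (WithLp.toLp 1 (f, z)))).snd| ≤
          gg (cmap w Ψ (ci (WithLp.toLp 1 (f, z)))).fst
        rw [hcp]
        exact hzabs
      · rw [he]
        dsimp only
        rw [hcp]
        conv_rhs => rw [← hl y hys]
        congr 1
        apply up_ext
        · rfl
        · exact h1.symm
      · rw [hcp]
        change (g - z) + k * max 0 (-z) = s
        rcases le_total 0 (g - s) with h5 | h5
        · have h6 : (g - s) / (1 + k) ≤ g - s := by
            rw [div_le_iff₀ hk1]; nlinarith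
          have h7 : z = g - s := max_eq_left h6
          rw [h7, max_eq_left (by linarith)]
          ring
        · have h6 : g - s ≤ (g - s) / (1 + k) := by
            rw [le_div_iff₀ hk1]; nlinarith
          have h7 : z = (g - s) / (1 + k) := max_eq_right h6
          have h8 : z ≤ 0 := by rw [h7]; exact div_nonpos_of_nonpos_of_nonneg h5 hk1.le
          rw [max_eq_right (by linarith)]
          have h9 : z * (1 + k) = g - s := by rw [h7]; field_simp
          linarith)
    (by
      rintro x ⟨hxs, hxB⟩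
      have hxB : |(cmap w Ψ x).snd| ≤ gg (cmap w Ψ x).fst := hxB
      have h1 : x ∈ A ↔ gg (cmap w Ψ x).fst ≤ (cmap w Ψ x).snd := by
        rw [← sign_A hw h hxs]
        constructor
        · intro h; exact h.2
        · intro h; exact ⟨star'_subset hxs, h⟩
      rw [h1]
      unfold chi
      have hg := gg_nonneg (cmap w Ψ x).fst
      rw [abs_le] at hxB
      have h2 : 0 ≤ max 0 (-(cmap w Ψ x).snd) := le_max_left _ _
      have h3 := mul_nonneg hk h2
      constructor
      · intro h4
        rw [max_eq_left (by linarith)]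
        linarith [hxB.2]
      · intro h4
        linarith)
    (by
      rintro x ⟨hxs, hxB⟩ hxA
      have hxB : |(cmap w Ψ x).snd| ≤ gg (cmap w Ψ x).fst := hxB
      have h1 := (sign_A hw h hxs).1 hxA.2
      have h2 : (cmap w Ψ x).snd = gg (cmap w Ψ x).fst := le_antisymm (abs_le.1 hxB).2 h1
      rw [he]
      dsimp only
      conv_rhs => rw [← hl x hxs]
      congr 1
      apply up_ext
      · rfl
      · exact h2.symm)
  refine ⟨j, ?_, ?_, ?_⟩
  · rw [hMeq]; exact hj1
  · intro x hx
    have hx' := hx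
    rw [hMeq] at hx'
    by_cases hxs : x ∈ star' S w
    · rw [sign_eM hw h hxs]
      by_cases hxB : |(cmap w Ψ x).snd| ≤ gg (cmap w Ψ x).fst
      · have hxBm : x ∈ B := ⟨hxs, hxB⟩
        rw [hj2 x hxBm, norm_smul, (heA x hxs).2, mul_one, hβe x hxs]
        have hg := gg_nonneg (cmap w Ψ x).fst
        rw [abs_le] at hxB
        have h2 : 0 ≤ max 0 (-(cmap w Ψ x).snd) := le_max_left _ _
        have h3 := mul_nonneg hk h2
        have hpos : 0 < 1 + (2 + k) * gg (cmap w Ψ x).fst := by
          have := mul_nonneg (show 0 ≤ 2 + k by linarith) hg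
          linarith
        have hnum : 0 ≤ 1 + chi k (cmap w Ψ x) := by
          unfold chi
          linarith [hxB.2]
        rw [Real.norm_of_nonneg (div_nonneg hnum hpos.le), div_eq_one_iff_eq hpos.ne']
        unfold chi
        have h4 : max 0 (-(cmap w Ψ x).snd) ≤ gg (cmap w Ψ x).fst :=
          max_le hg (by linarith [hxB.1])
        have h5 := mul_le_mul_of_nonneg_left h4 hk
        constructor
        · intro h6
          linarith
        · intro h6
          rw [h6, neg_neg, max_eq_right hg]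
          ring
      · have hxA : x ∈ A := by
          rcases hx' with h1 | h1
          · exact h1
          · exact absurd h1.2 hxB
        have h1 := (sign_A hw h hxs).1 hxA.2
        have hg := gg_nonneg (cmap w Ψ x).fst
        rw [abs_of_nonneg (by linarith), not_le] at hxB
        rw [hj3 x hxA, hf1 x hxA, sign_eA hw h hxs]
        constructor
        · rintro ⟨h2, _⟩; linarith
        · intro h2; linarith
    · have hx0 : x w = 0 := by
        by_contra h0
        exact hxs (mem_star'_of_pos hx.1 h0)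
      have hxA : x ∈ A := by
        rcases hx' with h1 | h1
        · exact h1
        · exact absurd h1.1 hxs
      rw [hj3 x hxA, hf1 x hxA, mx_insert_of_zero (W := W) hx0, ← mx_compl_eq hw hx0]
      constructor
      · intro h1; exact h1.1
      · intro h1; exact ⟨h1, hβn x hxs⟩
  · intro x hxs hxB
    rw [hj2 x ⟨hxs, hxB⟩, hβe x hxs]

end NE3
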