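import Pool.Agent.Hhelper58.Ambient
import Pool.Agent.Hhelper58.Glue

/-! Standard pairs (sphere, regular neighbourhood of a non-evasive induced subcomplex). -/

set_option linter.unusedSectionVars false
set_option linter.deprecated false
set_option linter.unusedSimpArgs false

namespace NE3

open Set Topology Metric

variable {V : Type*} [DecidableEq V] [Fintype V]
variable {K S : PreAbstractSimplicialComplex V}
variable {F : Type*} [NormedAddCommGroup F] [NormedSpace ℝ F]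

/-- There is a homeomorphism of the realisation matching the signs of
`max_W - max_{Wᶜ}` and `max_{W'} - max_{W'ᶜ}`. -/
def SAmb (S : PreAbstractSimplicialComplex V) (W W' : Set V) : Prop :=
  ∃ φ : (V → ℝ) → (V → ℝ), HomeoOn φ (geo S) (geo S) ∧
    ∀ x ∈ geo S, (mx Wᶜ x < mx W x ↔ mx W'ᶜ (φ x) < mx W' (φ x)) ∧
      (mx W x < mx Wᶜ x ↔ mx W' (φ x) < mx W'ᶜ (φ x))

lemma SAmb.refl (W : Set V) : SAmb S W W :=
  ⟨fun x => x, HomeoOn.id _, fun _ _ => ⟨Iff.rfl, Iff.rfl⟩⟩

lemma SAmb.symm {W W' : Set V} (h : SAmb S W W') : SAmb S W' W := by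
  obtain ⟨φ, h1, h2⟩ := h
  obtain ⟨ψ, h3, _, h5⟩ := h1.exists_inv isCompact_geo
  refine ⟨ψ, h3, fun x hx => ?_⟩
  have h6 := h2 (ψ x) (h3.mapsTo hx)
  rw [h5 x hx] at h6
  exact ⟨h6.1.symm, h6.2.symm⟩

lemma SAmb.trans {W W' W'' : Set V} (h : SAmb S W W') (h' : SAmb S W' W'') : SAmb S W W'' := by
  obtain ⟨φ, h1, h2⟩ := h
  obtain ⟨ψ, h3, h4⟩ := h'
  refine ⟨ψ ∘ φ, h3.comp h1, fun x hx => ?_⟩
  exact ⟨(h2 x hx).1.trans (h4 _ (h1.mapsTo hx)).1, (h2 x hx).2.trans (h4 _ (h1.mapsTo hx)).2⟩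

lemma mx_eq_of_vertices {W W' : Set V} (h : ∀ u, {u} ∈ S → (u ∈ W ↔ u ∈ W')) {x : V → ℝ}
    (hx : x ∈ geo S) : mx W x = mx W' x := by
  apply mx_congr
  ext u
  by_cases h0 : x u = 0
  · by_cases h1 : u ∈ W <;> by_cases h2 : u ∈ W' <;>
      simp [Set.indicator_of_mem, Set.indicator_of_notMem, h1, h2, h0]
  · have h3 := h u (singleton_mem hx.2.2 (mem_supp.2 h0))
    by_cases h1 : u ∈ W
    · rw [Set.indicator_of_mem h1, Set.indicator_of_mem (h3.1 h1)]
    · rw [Set.indicator_of_notMem h1, Set.indicator_of_notMem (fun h' => h1 (h3.2 h'))]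

lemma SAmb.of_vertices {W W' : Set V} (h : ∀ u, {u} ∈ S → (u ∈ W ↔ u ∈ W')) : SAmb S W W' := by
  refine ⟨fun x => x, HomeoOn.id _, fun x hx => ?_⟩
  have h' : ∀ u, {u} ∈ S → (u ∈ Wᶜ ↔ u ∈ W'ᶜ) := fun u hu => not_congr (h u hu)
  rw [mx_eq_of_vertices h hx, mx_eq_of_vertices h' hx]
  exact ⟨Iff.rfl, Iff.rfl⟩

/-- the pair (realisation, neighbourhood of `W`) is (sphere, hemisphere) -/
def Std (F : Type*) [NormedAddCommGroup F] [NormedSpace ℝ F] (S : PreAbstractSimplicialComplex V)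
    (W : Set V) : Prop := ∃ Ψ : (V → ℝ) → Up F, StdMap Ψ S W

lemma StdMap.comp_amb {W W' : Set V} {Ψ : (V → ℝ) → Up F} (h : StdMap Ψ S W')
    {φ : (V → ℝ) → (V → ℝ)} (h1 : HomeoOn φ (geo S) (geo S))
    (h2 : ∀ x ∈ geo S, (mx Wᶜ x < mx W x ↔ mx W'ᶜ (φ x) < mx W' (φ x)) ∧
      (mx W x < mx Wᶜ x ↔ mx W' (φ x) < mx W'ᶜ (φ x))) : StdMap (Ψ ∘ φ) S W := by
  refine ⟨h.homeo.comp h1, fun x hx => ?_, fun x hx => ?_⟩
  · rw [(h2 x hx).1]; exact h.pos _ (h1.mapsTo hx)
  · rw [(h2 x hx).2]; exact h.neg _ (h1.mapsTo hx)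

lemma Std.of_amb {W W' : Set V} (h : Std F S W') (h' : SAmb S W W') : Std F S W := by
  obtain ⟨Ψ, hΨ⟩ := h
  obtain ⟨φ, h1, h2⟩ := h'
  exact ⟨Ψ ∘ φ, hΨ.comp_amb h1 h2⟩

lemma samb_insert {v : V} (hvS : {v} ∈ S) {W : Set V} (hv : v ∉ W) (h : Std F (link S v) W) :
    SAmb S (insert v W) W := by
  obtain ⟨Ψ, hΨ⟩ := h
  obtain ⟨φ, h1, _, _, h4⟩ := exists_ambient hvS hv hΨ
  exact ⟨φ, h1, h4⟩

/-- induced subcomplex of the link -/
lemma res_link_diff {v : V} {W : Set V} : res (link K v) W = res (link K v) (W \ {v}) := by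
  apply ext_mem
  intro s
  simp only [mem_res, mem_link]
  constructor
  · rintro ⟨h1, h2⟩
    exact ⟨h1, fun u hu => ⟨h2 hu, fun h => h1.2.1 (by
      rw [Set.mem_singleton_iff] at h; rw [← h]; exact Finset.mem_coe.1 hu)⟩⟩
  · rintro ⟨h1, h2⟩
    exact ⟨h1, fun u hu => (h2 hu).1⟩

lemma nonEvasive_res_singleton {a b : V} (hab : a ≠ b) (h : ({a, b} : Finset V) ∈ S) :
    NonEvasive (res (link S b) {a}) := by
  apply NonEvasive.point _ a
  intro s
  simp only [mem_res, mem_link]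
  constructor
  · rintro ⟨⟨h1, _, _⟩, h4⟩
    apply Finset.eq_singleton_iff_nonempty_unique_mem.2
    exact ⟨h1, fun x hx => by simpa using h4 (Finset.mem_coe.2 hx)⟩
  · rintro rfl
    refine ⟨⟨Finset.singleton_nonempty a, by simpa using hab.symm, ?_⟩, by simp⟩
    rw [Finset.pair_comm] at h
    exact h

lemma samb_edge (hlink : ∀ v W, {v} ∈ S → NonEvasive (res (link S v) W) → Std F (link S v) W)
    {a b : V} (hab : a ≠ b) (h : ({a, b} : Finset V) ∈ S) : SAmb S {a} {b} := by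
  have ha : {a} ∈ S := singleton_mem h (by simp)
  have hb : {b} ∈ S := singleton_mem h (by simp)
  have h1 : SAmb S (insert b {a}) {a} :=
    samb_insert (F := F) hb (by simpa using hab.symm) (hlink b _ hb (nonEvasive_res_singleton hab h))
  have h2 : SAmb S (insert a {b}) {b} :=
    samb_insert (F := F) ha (by simpa using hab) (hlink a _ ha
      (nonEvasive_res_singleton hab.symm (by rw [Finset.pair_comm]; exact h)))
  rw [Set.pair_comm] at h1
  exact h1.symm.trans h2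

theorem chain_exists
    (hlink : ∀ v W, {v} ∈ S → NonEvasive (res (link S v) W) → Std F (link S v) W) :
    ∀ (K : PreAbstractSimplicialComplex V), NonEvasive K → ∀ W, K = res S W →
      ∃ y ∈ W, {y} ∈ S ∧ SAmb S W {y} := by
  intro K h
  induction h with
  | point K v h =>
    rintro W rfl
    have hv : ({v} : Finset V) ∈ res S W := (h _).2 rfl
    have hvW : v ∈ W := by simpa using hv.2
    refine ⟨v, hvW, hv.1, SAmb.of_vertices ?_⟩
    intro u hu
    constructor
    · intro huW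
      have : ({u} : Finset V) ∈ res S W := ⟨hu, by simpa using huW⟩
      have := (h _).1 this
      simpa using this
    · rintro rfl; exact hvW
  | step K v hl hd _ ihd =>
    rintro W rfl
    have hvm : {v} ∈ res S W := NonEvasive.vertex_of_step hl
    have hvW : v ∈ W := by simpa using hvm.2
    have hvS : {v} ∈ S := hvm.1
    rw [link_res hvW, res_link_diff] at hl
    obtain ⟨y, hy, hyS, hamb⟩ := ihd (W \ {v}) del_res
    have h1 : SAmb S (insert v (W \ {v})) (W \ {v}) :=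
      samb_insert hvS (by simp) (hlink v _ hvS hl)
    have h2 : insert v (W \ {v}) = W := by
      ext u; simp only [Set.mem_insert_iff, Set.mem_diff, Set.mem_singleton_iff]
      constructor
      · rintro (rfl | h)
        · exact hvW
        · exact h.1
      · intro h
        by_cases hu : u = v
        · exact Or.inl hu
        · exact Or.inr ⟨h, hu⟩
    rw [h2] at h1
    exact ⟨y, hy.1, hyS, h1.trans hamb⟩

theorem all_equiv
    (hlink : ∀ v W, {v} ∈ S → NonEvasive (res (link S v) W) → Std F (link S v) W) :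
    ∀ (K : PreAbstractSimplicialComplex V), NonEvasive K → ∀ W, K = res S W →
      ∀ y ∈ W, {y} ∈ S → ∀ y' ∈ W, {y'} ∈ S → SAmb S {y} {y'} := by
  intro K h
  induction h with
  | point K v h =>
    rintro W rfl y hy hyS y' hy' hyS'
    have h1 : ({y} : Finset V) ∈ res S W := ⟨hyS, by simpa using hy⟩
    have h2 : ({y'} : Finset V) ∈ res S W := ⟨hyS', by simpa using hy'⟩
    have e1 := (h _).1 h1
    have e2 := (h _).1 h2
    have e3 : y = v := by simpa using e1
    have e4 : y' = v := by simpa using e2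
    rw [e3, e4]; exact SAmb.refl _
  | step K v hl hd _ ihd =>
    rintro W rfl
    have hvm : {v} ∈ res S W := NonEvasive.vertex_of_step hl
    have hvW : v ∈ W := by simpa using hvm.2
    have hvS : {v} ∈ S := hvm.1
    obtain ⟨c, hc⟩ := hl.exists_vertex
    -- `c` is adjacent to `v`
    have hcv : c ≠ v := by
      have := hc.2.1
      intro h; apply this; simp [h]
    have hcW : c ∈ W := by
      have h1 := hc.2.2.2
      exact h1 (by simp)
    have hcvS : ({c, v} : Finset V) ∈ S := by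
      have h1 := hc.2.2.1
      rw [Finset.pair_comm]; exact h1
    have hcS : {c} ∈ S := singleton_mem hcvS (by simp)
    have key : ∀ y ∈ W, {y} ∈ S → SAmb S {y} {v} := by
      intro y hy hyS
      by_cases h : y = v
      · rw [h]; exact SAmb.refl _
      · have h1 := ihd (W \ {v}) del_res y ⟨hy, h⟩ hyS c ⟨hcW, hcv⟩ hcS
        exact h1.trans (samb_edge hlink hcv hcvS)
    intro y hy hyS y' hy' hyS'
    exact (key y hy hyS).trans (key y' hy' hyS').symm

lemma mx_singleton {v : V} {x : V → ℝ} (hx : 0 ≤ x v) : mx {v} x = x v := by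
  have h1 : mx (insert v (∅ : Set V)) x = max (x v) (mx ∅ x) := mx_insert hx
  have h2 : mx (∅ : Set V) x = 0 := by
    apply le_antisymm _ (mx_nonneg _ _)
    apply mx_le le_rfl
    intro u hu; exact absurd hu (Set.notMem_empty u)
  rw [h2, max_eq_left hx] at h1
  simpa using h1

/-- the cell `{x | x v ≥ other coordinates}` is a ball -/
lemma homeoOn_cell {N : Type*} [NormedAddCommGroup N] [NormedSpace ℝ N] {v : V} (hv : {v} ∈ S)
    {Ψ : (V → ℝ) → N} (hΨ : HomeoOn Ψ (geo (link S v)) (sphere 0 1)) :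
    HomeoOn (fun x => (2:ℝ) • cmap v Ψ x) (geo S ∩ {x | mx {v}ᶜ x ≤ x v}) (closedBall 0 1) ∧
    ∀ x ∈ geo S ∩ {x | mx {v}ᶜ x ≤ x v}, (‖(2:ℝ) • cmap v Ψ x‖ = 1 ↔ x v = mx {v}ᶜ x) := by
  have hsub : ∀ x ∈ geo S ∩ {x : V → ℝ | mx {v}ᶜ x ≤ x v}, x ∈ star' S v := by
    rintro x ⟨hx, hx2⟩
    apply mem_star'_of_pos hx
    intro h0
    have hx2 : mx {v}ᶜ x ≤ x v := hx2
    have := den_pos (v := v) hx
    linarith
  have hn : ∀ x ∈ geo S ∩ {x : V → ℝ | mx {v}ᶜ x ≤ x v},
      (‖(2:ℝ) • cmap v Ψ x‖ = 1 ↔ x v = mx {v}ᶜ x) := by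
    intro x hx
    rw [norm_smul, norm_cmap hΨ (hsub x hx), Real.norm_of_nonneg (by norm_num : (0:ℝ) ≤ 2), rho]
    have hd := den_pos (v := v) hx.1
    rw [← mul_div_assoc, div_eq_one_iff_eq hd.ne']
    constructor <;> intro h <;> linarith
  refine ⟨?_, hn⟩
  have h1 := (homeoOn_cmap hv hΨ).restr (p := {x | mx {v}ᶜ x ≤ x v}) (q := {b | ‖b‖ ≤ 1 / 2}) (by
    intro x hx
    change mx {v}ᶜ x ≤ x v ↔ ‖cmap v Ψ x‖ ≤ 1 / 2
    rw [norm_cmap hΨ hx, rho, div_le_iff₀ (den_pos (star'_subset hx))]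
    constructor <;> intro h <;> linarith)
  have e1 : star' S v ∩ {x | mx {v}ᶜ x ≤ x v} = geo S ∩ {x | mx {v}ᶜ x ≤ x v} := by
    apply Set.Subset.antisymm
    · rintro x ⟨h, h'⟩; exact ⟨star'_subset h, h'⟩
    · intro x hx; exact ⟨hsub x hx, hx.2⟩
  rw [e1] at h1
  have h2 : HomeoOn (fun b : N => (2:ℝ) • b) (closedBall 0 1 ∩ {b | ‖b‖ ≤ 1 / 2})
      (closedBall 0 1) := by
    refine ⟨(continuous_const_smul (2:ℝ)).continuousOn, ?_, ?_, ?_⟩
    · rintro b ⟨_, hb⟩
      have hb : ‖b‖ ≤ 1 / 2 := hb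
      rw [mem_closedBall_zero_iff, norm_smul, Real.norm_of_nonneg (by norm_num : (0:ℝ) ≤ 2)]
      linarith
    · intro a _ b _ h
      exact smul_right_injective N (by norm_num : (2:ℝ) ≠ 0) h
    · intro c hc
      rw [mem_closedBall_zero_iff] at hc
      refine ⟨(1/2 : ℝ) • c, ?_, ?_⟩
      · have : ‖(1/2 : ℝ) • c‖ ≤ 1 / 2 := by
          rw [norm_smul, Real.norm_of_nonneg (by norm_num : (0:ℝ) ≤ 1/2)]
          linarith
        exact ⟨by rw [mem_closedBall_zero_iff]; linarith, this⟩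
      · simp [smul_smul]
  exact h2.comp h1

/-- combinatorial spheres in dimension `d` -/
def PS : ℕ → PreAbstractSimplicialComplex V → Prop
  | 0, S => ∃ a b, a ≠ b ∧ ∀ s, s ∈ S ↔ s = {a} ∨ s = {b}
  | d + 1, S => (∀ v, {v} ∈ S → PS d (link S v)) ∧ ∃ x, {x} ∈ S ∧ NonEvasive (del S x)

/-- all neighbourhoods of non-evasive induced subcomplexes in `d`-spheres are standard -/
def Good (V : Type*) [DecidableEq V] [Fintype V] (F : Type*) [NormedAddCommGroup F]
    [NormedSpace ℝ F] (d : ℕ) : Prop :=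
  ∀ (S : PreAbstractSimplicialComplex V) (W : Set V), PS d S → NonEvasive (res S W) → Std F S W

lemma PS.exists_vertex {d : ℕ} (h : PS d S) : ∃ v, {v} ∈ S := by
  cases d with
  | zero => obtain ⟨a, b, _, h⟩ := h; exact ⟨a, (h _).2 (Or.inl rfl)⟩
  | succ d => obtain ⟨_, x, hx, _⟩ := h; exact ⟨x, hx⟩

lemma nonEvasive_res_vertex {a : V} (h : ({a} : Finset V) ∈ S) : NonEvasive (res S {a}) := by
  apply NonEvasive.point _ a
  intro s
  simp only [mem_res]
  constructor
  · rintro ⟨h1, h4⟩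
    apply Finset.eq_singleton_iff_nonempty_unique_mem.2
    exact ⟨nonempty_of_mem h1, fun x hx => by simpa using h4 (Finset.mem_coe.2 hx)⟩
  · rintro rfl
    exact ⟨h, by simp⟩

theorem good_step {d : ℕ} (hg : Good V F d) : Good V (Up F) (d + 1) := by
  intro S W hS hW
  obtain ⟨hlk, x0, hx0, hne⟩ := hS
  have hlink : ∀ v W, {v} ∈ S → NonEvasive (res (link S v) W) → Std F (link S v) W :=
    fun v W hv h => hg _ _ (hlk v hv) h
  -- sphere structures on all links
  have hsph : ∀ v, {v} ∈ S → ∃ Ψ : (V → ℝ) → Up F, HomeoOn Ψ (geo (link S v)) (sphere 0 1) := by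
    intro v hv
    obtain ⟨a, ha⟩ := (hlk v hv).exists_vertex
    obtain ⟨Ψ, hΨ⟩ := hlink v {a} hv (nonEvasive_res_vertex ha)
    exact ⟨Ψ, hΨ.homeo⟩
  rw [del_eq_res] at hne
  obtain ⟨y, hy, hyS, ⟨Θ, hΘ, hΘs⟩⟩ := chain_exists hlink _ hne _ rfl
  obtain ⟨Ψ0, hΨ0⟩ := hsph x0 hx0
  obtain ⟨Ψy, hΨy⟩ := hsph y hyS
  obtain ⟨hp, hp1⟩ := homeoOn_cell hx0 hΨ0
  obtain ⟨hq', hq1⟩ := homeoOn_cell hyS hΨy
  -- the complementary ball
  have hΘQ : HomeoOn Θ (geo S ∩ {x | x x0 ≤ mx {x0}ᶜ x}) (geo S ∩ {x | mx {y}ᶜ x ≤ x y}) := by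
    apply hΘ.restr
    intro x hx
    have h1 := (hΘs x hx).2
    rw [compl_compl, mx_singleton (hx.1 x0)] at h1
    change x x0 ≤ mx {x0}ᶜ x ↔ mx {y}ᶜ (Θ x) ≤ (Θ x) y
    rw [← mx_singleton ((hΘ.mapsTo hx).1 y), ← not_lt, ← not_lt]
    exact not_congr h1
  have hq := hq'.comp hΘQ
  have hcP : IsCompact (geo S ∩ {x : V → ℝ | mx {x0}ᶜ x ≤ x x0}) :=
    isCompact_geo.inter_right (isClosed_le (continuous_mx _) (continuous_apply _))
  have hcQ : IsCompact (geo S ∩ {x : V → ℝ | x x0 ≤ mx {x0}ᶜ x}) :=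
    isCompact_geo.inter_right (isClosed_le (continuous_apply _) (continuous_mx _))
  obtain ⟨Ψ, hΨ, hΨP, hΨQ⟩ := glue_two_balls hcP hcQ hp hq
    (by
      intro x hx
      rw [hp1 x hx]
      constructor
      · intro h; exact le_antisymm h.2 hx.2
      · intro h; exact ⟨hx.1, h.le⟩)
    (by
      intro x hx
      have h2 := hΘQ.mapsTo hx
      have h3 := hq1 _ h2
      change _ ↔ ‖(2:ℝ) • cmap y Ψy (Θ x)‖ = 1
      rw [h3]
      have h4 := (hΘs x hx.1).1
      rw [compl_compl, mx_singleton (hx.1.1 x0), mx_singleton ((hΘ.mapsTo hx.1).1 y)] at h4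
      constructor
      · intro h
        apply le_antisymm _ h2.2
        rw [← not_lt, ← h4, not_lt]; exact h.2
      · intro h
        refine ⟨hx.1, ?_⟩
        change mx {x0}ᶜ x ≤ x x0
        rw [← not_lt, h4, not_lt]; exact h.le)
  have hun : geo S ∩ {x | mx {x0}ᶜ x ≤ x x0} ∪ geo S ∩ {x | x x0 ≤ mx {x0}ᶜ x} = geo S := by
    rw [← Set.inter_union_distrib_left]
    apply Set.inter_eq_left.2
    intro x _
    rcases le_total (mx {x0}ᶜ x) (x x0) with h | h
    · exact Or.inl h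
    · exact Or.inr h
  rw [hun] at hΨ
  have hstd0 : Std (Up F) S {x0} := by
    refine ⟨Ψ, hΨ, ?_, ?_⟩
    · intro x hx
      rw [mx_singleton (hx.1 x0)]
      rcases le_total (mx {x0}ᶜ x) (x x0) with h | h
      · rw [hΨP x ⟨hx, h⟩]
        have h5 := hp1 x ⟨hx, h⟩
        have h6 : ‖(2:ℝ) • cmap x0 Ψ0 x‖ ≤ 1 := by
          have := hp.mapsTo (show x ∈ _ from ⟨hx, h⟩)
          rwa [mem_closedBall_zero_iff] at this
        constructor
        · intro h7
          apply lt_of_le_of_ne h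
          intro h8
          have := h5.2 h8.symm
          linarith
        · intro h7
          have h8 : ‖(2:ℝ) • cmap x0 Ψ0 x‖ ≠ 1 := fun h9 => by
            have := h5.1 h9; linarith
          have := lt_of_le_of_ne h6 h8
          linarith
      · rw [hΨQ x ⟨hx, h⟩]
        have h6 : ‖((fun x => (2:ℝ) • cmap y Ψy x) ∘ Θ) x‖ ≤ 1 := by
          have := hq.mapsTo (show x ∈ _ from ⟨hx, h⟩)
          rwa [mem_closedBall_zero_iff] at this
        constructor
        · intro h7; linarith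
        · intro h7; linarith
    · intro x hx
      rw [mx_singleton (hx.1 x0)]
      rcases le_total (mx {x0}ᶜ x) (x x0) with h | h
      · rw [hΨP x ⟨hx, h⟩]
        have h6 : ‖(2:ℝ) • cmap x0 Ψ0 x‖ ≤ 1 := by
          have := hp.mapsTo (show x ∈ _ from ⟨hx, h⟩)
          rwa [mem_closedBall_zero_iff] at this
        constructor
        · intro h7; linarith
        · intro h7; linarith
      · rw [hΨQ x ⟨hx, h⟩]
        have h6 : ‖((fun x => (2:ℝ) • cmap y Ψy x) ∘ Θ) x‖ ≤ 1 := by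
          have := hq.mapsTo (show x ∈ _ from ⟨hx, h⟩)
          rwa [mem_closedBall_zero_iff] at this
        have h3 := hq1 _ (hΘQ.mapsTo (show x ∈ _ from ⟨hx, h⟩))
        have h4 := (hΘs x hx).1
        rw [compl_compl, mx_singleton (hx.1 x0), mx_singleton ((hΘ.mapsTo hx).1 y)] at h4
        have h9 := (hΘQ.mapsTo (show x ∈ _ from ⟨hx, h⟩)).2
        have h9 : mx {y}ᶜ (Θ x) ≤ (Θ x) y := h9
        constructor
        · intro h7
          rw [h4]
          apply lt_of_le_of_ne h9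
          intro h8
          have h10 := h3.2 h8.symm
          change ‖(2:ℝ) • cmap y Ψy (Θ x)‖ - 1 < 0 at h7
          linarith
        · intro h7
          rw [h4] at h7
          have h8 : ‖(2:ℝ) • cmap y Ψy (Θ x)‖ ≠ 1 := fun h10 => by
            have := h3.1 h10; linarith
          have := lt_of_le_of_ne h6 h8
          change ‖(2:ℝ) • cmap y Ψy (Θ x)‖ - 1 < 0
          change ‖(2:ℝ) • cmap y Ψy (Θ x)‖ < 1 at this
          linarith
  -- all vertices are equivalent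
  obtain ⟨a, ha⟩ := (hlk x0 hx0).exists_vertex
  have hax : a ≠ x0 := by
    have := ha.2.1
    intro h; apply this; simp [h]
  have haxS : ({a, x0} : Finset V) ∈ S := by
    have := ha.2.2
    rw [Finset.pair_comm]; exact this
  have haS : {a} ∈ S := singleton_mem haxS (by simp)
  have hall : ∀ z, {z} ∈ S → SAmb S {z} {x0} := by
    intro z hz
    by_cases h : z = x0
    · rw [h]; exact SAmb.refl _
    · exact (all_equiv hlink _ hne _ rfl z h hz a hax haS).trans (samb_edge hlink hax haxS)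
  obtain ⟨z, _, hzS, hz⟩ := chain_exists hlink _ hW _ rfl
  exact (hstd0.of_amb (hall z hzS)).of_amb hz

end NE3
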