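import Pool.Agent.Hhelper58.NLin

/-! A stereographic chart of the sphere and extension of proper homeomorphisms. -/

set_option linter.unusedSectionVars false
set_option linter.deprecated false
set_option linter.unusedSimpArgs false

namespace NE3

open Set Topology Metric

variable {N : Type*} [NormedAddCommGroup N] [NormedSpace ℝ N]

/-- chart of the sphere minus the lower pole -/
noncomputable def ist (b : N) : Up N :=
  WithLp.toLp 1 (((max 1 ‖b‖)⁻¹ * (max 1 ‖b‖)⁻¹) • b, (1 - ‖b‖) * (max 1 ‖b‖)⁻¹)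

/-- inverse chart -/
noncomputable def st (p : Up N) : N := ((1 + min p.snd 0)⁻¹ * (1 + min p.snd 0)⁻¹) • p.fst

lemma mx1_pos (b : N) : 0 < max 1 ‖b‖ := lt_of_lt_of_le one_pos (le_max_left _ _)

lemma ist_of_le {b : N} (hb : ‖b‖ ≤ 1) : ist b = upH b := by
  unfold ist
  rw [max_eq_left hb]
  apply up_ext
  · change ((1:ℝ)⁻¹ * (1:ℝ)⁻¹) • b = b
    norm_num
  · change (1 - ‖b‖) * (1:ℝ)⁻¹ = 1 - ‖b‖
    norm_num

lemma ist_fst_of_ge {b : N} (hb : 1 ≤ ‖b‖) : (ist b).fst = (‖b‖⁻¹ * ‖b‖⁻¹) • b := by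
  unfold ist
  rw [max_eq_right hb]
  rfl

lemma ist_snd_of_ge {b : N} (hb : 1 ≤ ‖b‖) : (ist b).snd = ‖b‖⁻¹ - 1 := by
  unfold ist
  rw [max_eq_right hb]
  change (1 - ‖b‖) * ‖b‖⁻¹ = _
  have : ‖b‖ ≠ 0 := by linarith
  field_simp

lemma norm_ist (b : N) : ‖ist b‖ = 1 := by
  rcases le_total ‖b‖ 1 with h | h
  · rw [ist_of_le h]
    exact mem_sphere_zero_iff_norm.1 (upH_mem h)
  · rw [norm_up, ist_fst_of_ge h, ist_snd_of_ge h, norm_smul]
    have h0 : 0 < ‖b‖ := by linarith
    have h1 : ‖b‖⁻¹ ≤ 1 := inv_le_one_of_one_le₀ h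
    rw [Real.norm_of_nonneg (by positivity), abs_of_nonpos (by linarith)]
    field_simp
    ring

lemma ist_mem (b : N) : ist b ∈ sphere (0 : Up N) 1 := mem_sphere_zero_iff_norm.2 (norm_ist b)

lemma ist_snd_gt (b : N) : -1 < (ist b).snd := by
  rcases le_total ‖b‖ 1 with h | h
  · rw [ist_of_le h]
    change -1 < 1 - ‖b‖
    linarith
  · rw [ist_snd_of_ge h]
    have h0 : 0 < ‖b‖⁻¹ := inv_pos.2 (by linarith)
    linarith

lemma ist_ne (b : N) : ist b ≠ loH 0 := by
  intro h
  have h1 := ist_snd_gt b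
  rw [h, loH_zero] at h1
  exact lt_irrefl _ h1

lemma st_ist (b : N) : st (ist b) = b := by
  rcases le_total ‖b‖ 1 with h | h
  · rw [ist_of_le h]
    unfold st
    change ((1 + min (1 - ‖b‖) 0)⁻¹ * (1 + min (1 - ‖b‖) 0)⁻¹) • b = b
    rw [min_eq_right (by linarith)]
    norm_num
  · unfold st
    rw [ist_fst_of_ge h, ist_snd_of_ge h]
    have h0 : 0 < ‖b‖ := by linarith
    have h1 : ‖b‖⁻¹ ≤ 1 := inv_le_one_of_one_le₀ h
    rw [min_eq_left (by linarith), smul_smul]
    have : (1 + (‖b‖⁻¹ - 1))⁻¹ * (1 + (‖b‖⁻¹ - 1))⁻¹ * (‖b‖⁻¹ * ‖b‖⁻¹) = 1 := by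
      have h2 : 1 + (‖b‖⁻¹ - 1) = ‖b‖⁻¹ := by ring
      rw [h2]
      field_simp
    rw [this, one_smul]

lemma snd_ge {p : Up N} (hp : p ∈ sphere (0 : Up N) 1) : -1 ≤ p.snd := by
  rw [mem_sphere_zero_iff_norm, norm_up] at hp
  have := abs_le.1 (show |p.snd| ≤ 1 by linarith [norm_nonneg p.fst])
  exact this.1

lemma snd_gt {p : Up N} (hp : p ∈ sphere (0 : Up N) 1) (h : p ≠ loH 0) : -1 < p.snd := by
  refine lt_of_le_of_ne (snd_ge hp) ?_
  intro h1
  apply h
  rw [mem_sphere_zero_iff_norm, norm_up, ← h1] at hp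
  norm_num at hp
  apply up_ext
  · rw [hp]; rfl
  · rw [← h1, loH_zero]; rfl

lemma norm_st {p : Up N} (hp : p ∈ sphere (0 : Up N) 1) (h : p ≠ loH 0) (hneg : p.snd ≤ 0) :
    ‖st p‖ = (1 + p.snd)⁻¹ := by
  have h1 := snd_gt hp h
  unfold st
  rw [mem_sphere_zero_iff_norm, norm_up, abs_of_nonpos hneg] at hp
  rw [min_eq_left hneg, norm_smul]
  have h2 : 0 < 1 + p.snd := by linarith
  rw [Real.norm_of_nonneg (by positivity), show ‖p.fst‖ = 1 + p.snd by linarith]
  field_simp

lemma ist_st {p : Up N} (hp : p ∈ sphere (0 : Up N) 1) (h : p ≠ loH 0) : ist (st p) = p := by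
  rcases le_total 0 p.snd with h0 | h0
  · have h1 : st p = p.fst := by
      unfold st
      rw [min_eq_right h0]
      norm_num
    rw [h1, ist_of_le (norm_fst_le hp), ← eq_upH hp h0]
  · have h1 := snd_gt hp h
    have h2 : 0 < 1 + p.snd := by linarith
    have h3 := norm_st hp h h0
    have h4 : 1 ≤ ‖st p‖ := by
      rw [h3]
      exact (one_le_inv₀ h2).2 (by linarith)
    apply up_ext
    · rw [ist_fst_of_ge h4, h3, inv_inv]
      unfold st
      rw [min_eq_left h0, smul_smul]
      have : (1 + p.snd) * (1 + p.snd) * ((1 + p.snd)⁻¹ * (1 + p.snd)⁻¹) = 1 := by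
        field_simp
      rw [this, one_smul]
    · rw [ist_snd_of_ge h4, h3, inv_inv]
      ring

lemma continuous_ist : Continuous (ist : N → Up N) := by
  unfold ist
  refine (WithLp.prod_continuous_toLp 1 N ℝ).comp (Continuous.prodMk ?_ ?_)
  · have h1 : Continuous fun b : N => (max 1 ‖b‖)⁻¹ :=
      (continuous_const.max continuous_norm).inv₀ fun b => (mx1_pos b).ne'
    exact (h1.mul h1).smul continuous_id
  · have h1 : Continuous fun b : N => (max 1 ‖b‖)⁻¹ :=
      (continuous_const.max continuous_norm).inv₀ fun b => (mx1_pos b).ne'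
    exact (continuous_const.sub continuous_norm).mul h1

lemma continuousOn_st : ContinuousOn (st : Up N → N) {p | -1 < p.snd} := by
  unfold st
  have h1 : ContinuousOn (fun p : Up N => (1 + min p.snd 0)⁻¹) {p | -1 < p.snd} := by
    apply ContinuousOn.inv₀
    · exact (continuous_const.add (continuous_snd'.min continuous_const)).continuousOn
    · intro p hp
      have hp : -1 < p.snd := hp
      have : -1 < min p.snd 0 := lt_min hp (by norm_num)
      linarith
  exact (h1.mul h1).smul continuous_fst'.continuousOn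

/-- a continuous bijection which is proper -/
structure PH (Ξ : N → N) : Prop where
  cont : Continuous Ξ
  inj : Function.Injective Ξ
  surj : Function.Surjective Ξ
  proper : ∀ R : ℝ, ∃ R' : ℝ, ∀ b : N, R' ≤ ‖b‖ → R ≤ ‖Ξ b‖

lemma PH.comp {Ξ Ξ' : N → N} (h : PH Ξ) (h' : PH Ξ') : PH (Ξ ∘ Ξ') := by
  refine ⟨h.cont.comp h'.cont, h.inj.comp h'.inj, h.surj.comp h'.surj, ?_⟩
  intro R
  obtain ⟨R', hR'⟩ := h.proper R
  obtain ⟨R'', hR''⟩ := h'.proper R'
  exact ⟨R'', fun b hb => hR' _ (hR'' b hb)⟩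

open Classical in
theorem PH.extend {Ξ : N → N} (h : PH Ξ) :
    ∃ f : Up N → Up N, HomeoOn f (sphere 0 1) (sphere 0 1) ∧ f (loH 0) = loH 0 ∧
      ∀ b, f (ist b) = ist (Ξ b) := by
  set f : Up N → Up N := fun p => if p = loH 0 then loH 0 else ist (Ξ (st p)) with hf
  have hfp : f (loH 0) = loH 0 := if_pos rfl
  have hfn : ∀ p, p ≠ loH 0 → f p = ist (Ξ (st p)) := fun p hp => if_neg hp
  have hfi : ∀ b, f (ist b) = ist (Ξ b) := fun b => by rw [hfn _ (ist_ne b), st_ist]
  have hlo : (loH 0 : Up N) ∈ sphere (0 : Up N) 1 := loH_mem (by simp)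
  refine ⟨f, ⟨?_, ?_, ?_, ?_⟩, hfp, hfi⟩
  · intro p hp
    by_cases h0 : p = loH 0
    · subst h0
      rw [ContinuousWithinAt, hfp, tendsto_iff_dist_tendsto_zero]
      rw [Metric.tendsto_nhdsWithin_nhds]
      intro ε hε
      obtain ⟨R', hR'⟩ := h.proper (max 1 (3 / ε))
      refine ⟨(max 1 R')⁻¹, inv_pos.2 (lt_of_lt_of_le one_pos (le_max_left _ _)), ?_⟩
      intro p hp hpd
      by_cases h1 : p = loH 0
      · rw [h1, hfp, dist_self, dist_self]; exact hε
      · have h2 := snd_gt hp h1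
        have h3 : 1 + p.snd < (max 1 R')⁻¹ := by
          refine lt_of_le_of_lt ?_ hpd
          rw [dist_eq_norm, norm_up]
          have e : (p - loH 0).snd = p.snd + 1 := by
            rw [loH_zero]
            change p.snd - (-1) = _
            ring
          rw [e, abs_of_pos (by linarith)]
          linarith [norm_nonneg (p - loH 0).fst]
        have h4 : (max 1 R')⁻¹ ≤ 1 := inv_le_one_of_one_le₀ (le_max_left _ _)
        have h5 : p.snd ≤ 0 := by linarith
        have h6 := norm_st hp h1 h5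
        have h7 : R' ≤ ‖st p‖ := by
          rw [h6]
          have h8 : 0 < 1 + p.snd := by linarith
          have h9 : max 1 R' ≤ (1 + p.snd)⁻¹ := by
            rw [le_inv_comm₀ (lt_of_lt_of_le one_pos (le_max_left _ _)) h8]
            exact h3.le
          exact (le_max_right _ _).trans h9
        have h8 := hR' _ h7
        have h9 : 1 ≤ ‖Ξ (st p)‖ := (le_max_left _ _).trans h8
        have h10 : 3 / ε ≤ ‖Ξ (st p)‖ := (le_max_right _ _).trans h8
        rw [hfn p h1, Real.dist_eq, sub_zero, abs_of_nonneg dist_nonneg, dist_eq_norm, norm_up]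
        have e1 : (ist (Ξ (st p)) - loH 0).snd = ‖Ξ (st p)‖⁻¹ := by
          rw [loH_zero]
          change (ist (Ξ (st p))).snd - (-1) = _
          rw [ist_snd_of_ge h9]
          ring
        have e2 : (ist (Ξ (st p)) - loH 0).fst = (‖Ξ (st p)‖⁻¹ * ‖Ξ (st p)‖⁻¹) • Ξ (st p) := by
          rw [loH_zero]
          change (ist (Ξ (st p))).fst - 0 = _
          rw [ist_fst_of_ge h9, sub_zero]
        have hpos : 0 < ‖Ξ (st p)‖ := by linarith
        rw [e1, e2, norm_smul, Real.norm_of_nonneg (by positivity), abs_of_pos (by positivity)]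
        have e3 : ‖Ξ (st p)‖⁻¹ * ‖Ξ (st p)‖⁻¹ * ‖Ξ (st p)‖ + ‖Ξ (st p)‖⁻¹ = 2 / ‖Ξ (st p)‖ := by
          field_simp
          norm_num
        rw [e3, div_lt_iff₀ hpos]
        rw [div_le_iff₀ hε] at h10
        linarith
    · have h1 : ContinuousWithinAt (fun p => ist (Ξ (st p))) (sphere (0 : Up N) 1) p := by
        have h2 : ContinuousAt st p :=
          continuousOn_st.continuousAt
            ((isOpen_lt continuous_const continuous_snd').mem_nhds (snd_gt hp h0))
        exact (continuous_ist.continuousAt.comp (h.cont.continuousAt.comp h2)).continuousWithinAt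
      apply h1.congr_of_eventuallyEq _ (hfn p h0)
      have : {q : Up N | q ≠ loH 0} ∈ 𝓝[sphere 0 1] p :=
        mem_nhdsWithin_of_mem_nhds (isOpen_ne.mem_nhds h0)
      filter_upwards [this] with q hq
      exact hfn q hq
  · intro p hp
    by_cases h0 : p = loH 0
    · rw [h0, hfp]; exact hlo
    · rw [hfn p h0]; exact ist_mem _
  · intro p hp q hq hpq
    by_cases h0 : p = loH 0
    · by_cases h1 : q = loH 0
      · rw [h0, h1]
      · rw [h0, hfp, hfn q h1] at hpq
        exact absurd hpq.symm (ist_ne _)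
    · by_cases h1 : q = loH 0
      · rw [h1, hfp, hfn p h0] at hpq
        exact absurd hpq (ist_ne _)
      · rw [hfn p h0, hfn q h1] at hpq
        have h2 : Ξ (st p) = Ξ (st q) := by
          rw [← st_ist (Ξ (st p)), hpq, st_ist]
        have h3 := h.inj h2
        rw [← ist_st hp h0, h3, ist_st hq h1]
  · intro q hq
    by_cases h0 : q = loH 0
    · exact ⟨loH 0, hlo, by rw [hfp, h0]⟩
    · obtain ⟨b, hb⟩ := h.surj (st q)
      exact ⟨ist b, ist_mem b, by rw [hfi, hb, ist_st hq h0]⟩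

/-- conversely a homeomorphism of the sphere fixing the pole gives a homeomorphism. -/
theorem exists_homeo_of_fix [ProperSpace N] {f : Up N → Up N}
    (hf : HomeoOn f (sphere 0 1) (sphere 0 1)) (h0 : f (loH 0) = loH 0)
    (hc : IsCompact (sphere (0 : Up N) 1)) :
    ∃ Ξ : N ≃ₜ N, ∀ b, ist (Ξ b) = f (ist b) := by
  obtain ⟨g, hg, hgl, hgr⟩ := hf.exists_inv hc
  have hlo : (loH 0 : Up N) ∈ sphere (0 : Up N) 1 := loH_mem (by simp)
  have hfne : ∀ b, f (ist b) ≠ loH 0 := by
    intro b h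
    rw [← h0] at h
    exact ist_ne b (hf.injOn (ist_mem b) hlo h)
  have hg0 : g (loH 0) = loH 0 := by
    have := hgl _ hlo
    rwa [h0] at this
  have hgne : ∀ b, g (ist b) ≠ loH 0 := by
    intro b h
    rw [← hg0] at h
    exact ist_ne b (hg.injOn (ist_mem b) hlo h)
  have hcont : ∀ (k : Up N → Up N), HomeoOn k (sphere 0 1) (sphere 0 1) →
      (∀ b, k (ist b) ≠ loH 0) → Continuous fun b : N => st (k (ist b)) := by
    intro k hk hkne
    rw [continuous_iff_continuousAt]
    intro b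
    have h1 : ContinuousAt st (k (ist b)) :=
      continuousOn_st.continuousAt
        ((isOpen_lt continuous_const continuous_snd').mem_nhds
          (snd_gt (hk.mapsTo (ist_mem b)) (hkne b)))
    have h2 : Continuous fun b : N => k (ist b) := by
      have := hk.cont.comp continuous_ist.continuousOn (s := (univ : Set N))
        (fun b _ => ist_mem b)
      exact continuousOn_univ.1 this
    exact ContinuousAt.comp (f := fun b : N => k (ist b)) h1 h2.continuousAt
  refine ⟨⟨⟨fun b => st (f (ist b)), fun b => st (g (ist b)), ?_, ?_⟩, hcont f hf hfne,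
    hcont g hg hgne⟩, ?_⟩
  · intro b
    dsimp only
    rw [ist_st (hf.mapsTo (ist_mem b)) (hfne b), hgl _ (ist_mem b), st_ist]
  · intro b
    dsimp only
    rw [ist_st (hg.mapsTo (ist_mem b)) (hgne b), hgr _ (ist_mem b), st_ist]
  · intro b
    exact ist_st (hf.mapsTo (ist_mem b)) (hfne b)

end NE3
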